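import Mathlib

/-!
Definitions for proposal 164 (MP_0c9a68_nt): one factor with vanishing self-correlations, all others
arbitrary.

`cj b z` = `z` or its conjugate. `Unc F h0 H N δ`: correlations of `F` along affine forms of
coefficients `≤ H` with pairwise different `(β + h0)/α` are at most `δ N`.
`QQ I` = product of the primes of `I`; `box I E` = divisors of `(QQ I)^E`; `fr I n` = part of `n` free of
the primes of `I`.
`Dat k`: a block `I` of primes, shifts `h0`, `h i`, a class `cls` of integers, periodic mod `W0`.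
`el D E B v`: the elements `(a, U)` of the cluster over the residue `v`; `sl`, `os`: slope and offset of the
integer `n = sl * t + os` of the element `(a,U)`: `a * n + U = W * t + v`.
`elt`: the elements with `n < N`. `lab i v l = a * (os + h i)`: the label of direction `i`.
-/

set_option autoImplicit false

open Finset

namespace Pool.H2.EL

/-- conjugate or not -/
noncomputable def cj (b : Bool) (z : ℂ) : ℂ := if b then z else (starRingEnd ℂ) z

lemma cj_norm (b : Bool) (z : ℂ) : ‖cj b z‖ = ‖z‖ := by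
  unfold cj
  cases b <;> simp

/-- correlations of `F` along non-proportional affine forms are small at scale `N` -/
def Unc (F : ℕ → ℂ) (h0 H N : ℕ) (δ : ℝ) : Prop :=
  ∀ r : ℕ, 1 ≤ r → r ≤ H → ∀ (α β : Fin r → ℕ) (c : Fin r → Bool),
    (∀ l, 1 ≤ α l ∧ α l ≤ H) → (∀ l, β l ≤ H) →
    (∀ l l', l ≠ l' → α l * (β l' + h0) ≠ α l' * (β l + h0)) →
    ∀ x : ℕ, x ≤ N → ‖∑ t ∈ range x, ∏ l, cj (c l) (F (α l * t + β l))‖ ≤ δ * N

lemma Unc.mono {F : ℕ → ℂ} {h0 H H' N : ℕ} {δ δ' : ℝ} (h : Unc F h0 H' N δ') (hH : H ≤ H')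
    (hδ : δ' ≤ δ) : Unc F h0 H N δ := by
  intro r hr hrH α β c hα hβ hne x hx
  refine (h r hr (hrH.trans hH) α β c (fun l => ⟨(hα l).1, (hα l).2.trans hH⟩)
    (fun l => (hβ l).trans hH) hne x hx).trans ?_
  gcongr

/-- product of the primes of the block -/
def QQ (I : Finset ℕ) : ℕ := ∏ p ∈ I, p

/-- the multiplicative box: the divisors of `(QQ I)^E` -/
def box (I : Finset ℕ) (E : ℕ) : Finset ℕ := (QQ I ^ E).divisors

/-- the part of `n` free of the primes of `I` -/
def fr (I : Finset ℕ) (n : ℕ) : ℕ :=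
  ∏ p ∈ n.primeFactors.filter (fun p => p ∉ I), p ^ n.factorization p

/-- the data of one class of integers -/
structure Dat (k : ℕ) where
  I : Finset ℕ
  W0 : ℕ
  h0 : ℕ
  h : Fin k → ℕ
  cls : ℕ → Prop

/-- properties of a class -/
structure Dat.Ok {k : ℕ} (D : Dat k) (P : ℕ) : Prop where
  prime : ∀ p ∈ D.I, p.Prime
  big : ∀ p ∈ D.I, P < p
  W0pos : 1 ≤ D.W0
  per : ∀ n, D.cls (n + D.W0) ↔ D.cls n
  c0 : ∀ n, D.cls n → ∀ p ∈ D.I, ¬ p ∣ n + D.h0
  c1 : ∀ n, D.cls n → ∀ i, ∃ p ∈ D.I, p ∣ n + D.h i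
  c2 : ∀ n, D.cls n → ∀ i, ∀ p ∈ D.I, ¬ p ^ 2 ∣ n + D.h i

section
variable {k : ℕ} (D : Dat k)

/-- the modulus -/
def Dat.W (E : ℕ) : ℕ := QQ D.I ^ (E + 2) * D.W0

/-- slope of an element -/
def sl (E : ℕ) (l : ℕ × ℕ) : ℕ := D.W E / l.1

/-- offset of an element -/
def os (v : ℕ) (l : ℕ × ℕ) : ℕ := (v - l.2) / l.1

/-- label of direction `i` of an element -/
def lab (i : Fin k) (v : ℕ) (l : ℕ × ℕ) : ℕ := l.1 * (os v l + D.h i)

open Classical in
/-- the elements over the residue `v` -/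
noncomputable def el (E B v : ℕ) : Finset (ℕ × ℕ) :=
  (box D.I E ×ˢ range B).filter (fun l => l.1 ∣ v - l.2 ∧ D.cls (os v l))

/-- the elements over `W * t + v` with `n < N` -/
noncomputable def elt (E B N v t : ℕ) : Finset (ℕ × ℕ) :=
  (el D E B v).filter (fun l => sl D E l * t + os v l < N)

/-- the summand -/
noncomputable def GG (F : ℕ → ℂ) (g : Fin k → ArithmeticFunction ℂ) (n : ℕ) : ℂ :=
  F n * ∏ i, g i (n + D.h i)

lemma mem_el {E B v : ℕ} {l : ℕ × ℕ} : l ∈ el D E B v ↔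
    (l.1 ∈ box D.I E ∧ l.2 < B) ∧ l.1 ∣ v - l.2 ∧ D.cls (os v l) := by
  simp only [el, mem_filter, mem_product, mem_range]

lemma mem_elt {E B N v t : ℕ} {l : ℕ × ℕ} : l ∈ elt D E B N v t ↔
    l ∈ el D E B v ∧ sl D E l * t + os v l < N := by
  simp only [elt, mem_filter]

end

end Pool.H2.EL
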