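import Mathlib
import Pool.Agent.H2.EL.Def

/-!
Module MD: modifications of a multiplicative function at the primes of `c`.

`md c u` is the multiplicative function with `md c u (c * m) = u m` for all `m`: at a prime power `p^e` with
`v = v_p(c)` it is `u (p^(e-v))` for `e ≥ v`, `0` for `0 < e < v` (and `1` for `e = 0`).
`md_mult`: for coprime non-zero `m, n` the prime factors are disjoint (`Nat.Coprime.primeFactors_mul`,
`Nat.factorization_mul`, `Finset.prod_union`, the exponent of `p ∣ m` in `m n` is that of `m`); if one of them is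
`0` the other is `1`. `md_mul`: `m = 0`: both sides `0`; `m ≥ 1`: `primeFactors (c m) = primeFactors c ∪ primeFactors m`,
exponent `v_p(c) + v_p(m)`, local factor `u (p^{v_p(m)})` (`= u 1 = 1` if `p ∤ m`), so the product is
`∏_{p ∣ m} u (p^{v_p(m)}) = u m` (`ArithmeticFunction.IsMultiplicative.multiplicative_factorization`).
`cjA b u`: `u` or its conjugate.
-/

set_option autoImplicit false

open Finset

namespace Pool.H2.EL

/-- `u` or its conjugate -/
noncomputable def cjA (b : Bool) (u : ArithmeticFunction ℂ) : ArithmeticFunction ℂ :=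
  ⟨fun n => cj b (u n), by unfold cj; cases b <;> simp⟩

lemma cjA_apply (b : Bool) (u : ArithmeticFunction ℂ) (n : ℕ) : cjA b u n = cj b (u n) := rfl

lemma cjA_mult (b : Bool) (u : ArithmeticFunction ℂ) (hu : u.IsMultiplicative) :
    (cjA b u).IsMultiplicative := by
  refine ⟨?_, ?_⟩
  · rw [cjA_apply, hu.map_one]
    unfold cj
    cases b <;> simp
  · intro m n hmn
    rw [cjA_apply, cjA_apply, cjA_apply, hu.map_mul_of_coprime hmn]
    unfold cj
    cases b <;> simp

lemma cjA_norm (b : Bool) (u : ArithmeticFunction ℂ) (hb : ∀ n, ‖u n‖ ≤ 1) (n : ℕ) :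
    ‖cjA b u n‖ ≤ 1 := by
  rw [cjA_apply, cj_norm]; exact hb n

/-- local factor of the modification -/
noncomputable def loc (c : ℕ) (u : ArithmeticFunction ℂ) (p e : ℕ) : ℂ :=
  if e < c.factorization p then (if e = 0 then 1 else 0) else u (p ^ (e - c.factorization p))

/-- the modification of `u` at the primes of `c` -/
noncomputable def md (c : ℕ) (u : ArithmeticFunction ℂ) : ArithmeticFunction ℂ :=
  ⟨fun n => if n = 0 then 0 else ∏ p ∈ n.primeFactors, loc c u p (n.factorization p), by simp⟩

lemma md_apply (c : ℕ) (u : ArithmeticFunction ℂ) (n : ℕ) (hn : n ≠ 0) :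
    md c u n = ∏ p ∈ n.primeFactors, loc c u p (n.factorization p) := by
  change (if n = 0 then (0 : ℂ) else _) = _
  rw [if_neg hn]

lemma md_mult (c : ℕ) (u : ArithmeticFunction ℂ) : (md c u).IsMultiplicative := by
  have h1 : md c u 1 = 1 := by
    rw [md_apply c u 1 one_ne_zero]
    simp
  refine ⟨h1, ?_⟩
  intro m n hmn
  by_cases hm : m = 0
  · subst hm
    have hn : n = 1 := by simpa using hmn
    rw [hn, h1, mul_one, mul_one]
  by_cases hn : n = 0
  · subst hn
    have hm' : m = 1 := by simpa using hmn
    rw [hm', h1, one_mul, one_mul]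
  rw [md_apply c u _ (mul_ne_zero hm hn), md_apply c u _ hm, md_apply c u _ hn,
    hmn.primeFactors_mul, Finset.prod_union hmn.disjoint_primeFactors]
  congr 1
  · refine prod_congr rfl fun p hp => ?_
    have hp' : n.factorization p = 0 := by
      have hdis := Finset.disjoint_left.mp hmn.disjoint_primeFactors hp
      rw [← Nat.support_factorization, Finsupp.notMem_support_iff] at hdis
      exact hdis
    rw [Nat.factorization_mul hm hn, Finsupp.add_apply, hp', add_zero]
  · refine prod_congr rfl fun p hp => ?_
    have hp' : m.factorization p = 0 := by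
      have hdis := Finset.disjoint_right.mp hmn.disjoint_primeFactors hp
      rw [← Nat.support_factorization, Finsupp.notMem_support_iff] at hdis
      exact hdis
    rw [Nat.factorization_mul hm hn, Finsupp.add_apply, hp', zero_add]

lemma md_norm (c : ℕ) (u : ArithmeticFunction ℂ) (hb : ∀ n, ‖u n‖ ≤ 1) (n : ℕ) :
    ‖md c u n‖ ≤ 1 := by
  by_cases hn : n = 0
  · rw [hn, ArithmeticFunction.map_zero, norm_zero]
    exact zero_le_one
  · rw [md_apply c u n hn, norm_prod]
    refine prod_le_one (fun _ _ => norm_nonneg _) fun p _ => ?_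
    unfold loc
    split_ifs
    · rw [norm_one]
    · rw [norm_zero]
      exact zero_le_one
    · exact hb _

lemma md_mul (c : ℕ) (hc : 1 ≤ c) (u : ArithmeticFunction ℂ) (hu : u.IsMultiplicative) (m : ℕ) :
    md c u (c * m) = u m := by
  by_cases hm : m = 0
  · rw [hm, mul_zero, ArithmeticFunction.map_zero, ArithmeticFunction.map_zero]
  have hc0 : c ≠ 0 := by omega
  rw [md_apply c u _ (mul_ne_zero hc0 hm), hu.multiplicative_factorization u hm,
    Nat.primeFactors_mul hc0 hm, Finsupp.prod, Nat.support_factorization]
  symm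
  refine prod_subset_one_on_sdiff subset_union_right ?_ ?_
  · intro p hp
    rw [mem_sdiff, mem_union] at hp
    have hp' : m.factorization p = 0 := by
      have h := hp.2
      rw [← Nat.support_factorization, Finsupp.notMem_support_iff] at h
      exact h
    rw [Nat.factorization_mul hc0 hm, Finsupp.add_apply, hp', add_zero, loc,
      if_neg (lt_irrefl _), Nat.sub_self, pow_zero]
    exact hu.map_one
  · intro p _
    rw [Nat.factorization_mul hc0 hm, Finsupp.add_apply, loc, if_neg (by omega)]
    congr 2
    omega

lemma md_prime (c : ℕ) (u : ArithmeticFunction ℂ) (p : ℕ) (hp : p.Prime)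
    (hc : c.factorization p = 0) : md c u p = u p := by
  rw [md_apply c u p hp.ne_zero, hp.primeFactors, prod_singleton, loc, hc, hp.factorization_self,
    if_neg (by omega), Nat.sub_zero, pow_one]

end Pool.H2.EL
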