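import Mathlib
import Pool.Agent.H1.LP.Fin
import Pool.Agent.H2.EL.Md

/-!
Module DSQ: distances of modifications.

`chb b χ` = `χ` or `χ⁻¹ = conj χ`, `tb b t` = `t` or `-t`. For a prime `p ∤ c`, `md c (cjA b g) p = cj b (g p)` (`md_prime`) and
`chb b χ p * p^(I * tb b t) = cj b (χ p * p^(I t))` (for `b = false`: `χ⁻¹ p = conj (χ p)`, `MulChar.star_apply'`/`MulChar.star_eq_inv`
(`q ≥ 1` makes `ZMod q` finite); `conj (p^(I t)) = p^(I (-t))`), so the summand `(1 - Re(..))/p` is unchanged by `b`.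
Every summand is `≥ 0` and `≤ 2/p` (all norms `≤ 1`).
`dsq_upper`: in `(⌊y⌋, X']` all primes are `> y ≥ c`, so `p ∤ c` (`c ≥ 1`), and the range is `⊆ (⌊y⌋, X] ∪ (X, X']`.
`dsq_lower`: the primes `p ≤ X` dividing `c` are at most `c` many and each contributes `≤ 2/p ≤ 2`; the others have the same
summand on both sides.
`dist_anti`: larger `y` gives a smaller set of primes, all summands are `≥ 0`.
`pms`: `∑_{X < p ≤ X'} 2/p ≤ (2/(X log X)) ∑_{p ≤ A X} log p ≤ (2/(X log X)) * log 4 * A X` (`Chebyshev.theta_le_log4_mul_x`), and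
`log X → ∞`.
-/

set_option autoImplicit false

open Finset

namespace Pool.H2.EL

open Pool.Agent.H1.LP

/-- `χ` or its conjugate -/
noncomputable def chb (b : Bool) {q : ℕ} (χ : DirichletCharacter ℂ q) : DirichletCharacter ℂ q :=
  if b then χ else χ⁻¹

/-- `t` or `-t` -/
def tb (b : Bool) (t : ℝ) : ℝ := if b then t else -t

lemma tb_abs (b : Bool) (t : ℝ) : |tb b t| = |t| := by
  unfold tb
  cases b <;> simp

/-- the summand is between `0` and `2/p` -/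
lemma term_bd (g : ℕ → ℂ) (hb : ∀ n, ‖g n‖ ≤ 1) {q : ℕ} (χ : DirichletCharacter ℂ q) (t : ℝ) (p : ℕ)
    (hp : p.Prime) :
    0 ≤ (1 - (g p * starRingEnd ℂ (χ (p : ZMod q) * (p : ℂ) ^ (Complex.I * (t : ℂ)))).re) / (p : ℝ) ∧
    (1 - (g p * starRingEnd ℂ (χ (p : ZMod q) * (p : ℂ) ^ (Complex.I * (t : ℂ)))).re) / (p : ℝ)
      ≤ 2 / p := by
  have h1 : ‖g p * starRingEnd ℂ (χ (p : ZMod q) * (p : ℂ) ^ (Complex.I * (t : ℂ)))‖ ≤ 1 :=
    Pool.H2.Ell.norm_uu_le hb χ t hp.pos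
  have h2 := (abs_le.1 ((Complex.abs_re_le_norm _).trans h1))
  have hp0 : (0 : ℝ) < p := by exact_mod_cast hp.pos
  constructor
  · apply div_nonneg _ hp0.le
    linarith [h2.2]
  · apply div_le_div_of_nonneg_right _ hp0.le
    linarith [h2.1]

private lemma conj_cpow (p : ℕ) (hp : 0 < p) (t : ℝ) :
    starRingEnd ℂ ((p : ℂ) ^ (Complex.I * (t : ℂ))) = (p : ℂ) ^ (Complex.I * ((-t : ℝ) : ℂ)) := by
  have hp0 : (p : ℂ) ≠ 0 := by exact_mod_cast hp.ne'
  rw [Complex.cpow_def_of_ne_zero hp0, Complex.cpow_def_of_ne_zero hp0, ← Complex.exp_conj]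
  congr 1
  rw [map_mul, map_mul, Complex.conj_I, Complex.conj_ofReal, ← Complex.ofReal_natCast,
    ← Complex.ofReal_log (Nat.cast_nonneg p), Complex.conj_ofReal]
  push_cast
  ring

/-- the summand of a modification -/
lemma term_eq (g : ArithmeticFunction ℂ) (c : ℕ) (b : Bool) {q : ℕ} (hq : 0 < q)
    (χ : DirichletCharacter ℂ q) (t : ℝ) (p : ℕ) (hp : p.Prime) (hpc : c.factorization p = 0) :
    (1 - (md c (cjA b g) p * starRingEnd ℂ (chb b χ (p : ZMod q) *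
      (p : ℂ) ^ (Complex.I * ((tb b t : ℝ) : ℂ)))).re) / (p : ℝ) =
    (1 - (g p * starRingEnd ℂ (χ (p : ZMod q) * (p : ℂ) ^ (Complex.I * (t : ℂ)))).re) / (p : ℝ) := by
  rw [md_prime c _ p hp hpc, cjA_apply]
  cases b with
  | true => simp [cj, chb, tb]
  | false =>
    have : NeZero q := ⟨hq.ne'⟩
    have : Finite (ZMod q)ˣ := inferInstance
    have h1 : (χ⁻¹ : DirichletCharacter ℂ q) (p : ZMod q) = starRingEnd ℂ (χ (p : ZMod q)) := by
      rw [← MulChar.star_apply']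
      rfl
    have h2 : chb false χ (p : ZMod q) * (p : ℂ) ^ (Complex.I * ((tb false t : ℝ) : ℂ)) =
        starRingEnd ℂ (χ (p : ZMod q) * (p : ℂ) ^ (Complex.I * (t : ℂ))) := by
      rw [map_mul, conj_cpow p hp.pos t, ← h1]
      rfl
    have h3 : cj false (g p) * starRingEnd ℂ (starRingEnd ℂ (χ (p : ZMod q) *
        (p : ℂ) ^ (Complex.I * (t : ℂ)))) =
        starRingEnd ℂ (g p * starRingEnd ℂ (χ (p : ZMod q) * (p : ℂ) ^ (Complex.I * (t : ℂ)))) := by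
      rw [map_mul (starRingEnd ℂ) (g p)]
      rfl
    rw [h2, h3, Complex.conj_re]

theorem dsq_upper (g : ArithmeticFunction ℂ) (hb : ∀ n, ‖g n‖ ≤ 1) (c : ℕ) (hc : 1 ≤ c) (b : Bool)
    {q : ℕ} (hq : 0 < q) (χ : DirichletCharacter ℂ q) (t y : ℝ) (X X' : ℕ) (hy : (c : ℝ) ≤ y) :
    distSq (fun n => md c (cjA b g) n) (chb b χ) (tb b t) y X' ≤
      distSq (fun n => g n) χ t y X + ∑ p ∈ (Ioc X X').filter Nat.Prime, (2 : ℝ) / p := by
  unfold distSq
  rw [Nat.floor_natCast, Nat.floor_natCast]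
  have h1 : ∀ p ∈ (Ioc ⌊y⌋₊ X').filter Nat.Prime,
      (1 - (md c (cjA b g) p * starRingEnd ℂ (chb b χ (p : ZMod q) *
      (p : ℂ) ^ (Complex.I * ((tb b t : ℝ) : ℂ)))).re) / (p : ℝ) =
      (1 - (g p * starRingEnd ℂ (χ (p : ZMod q) * (p : ℂ) ^ (Complex.I * (t : ℂ)))).re) / (p : ℝ) := by
    intro p hp
    rw [mem_filter, mem_Ioc] at hp
    apply term_eq g c b hq χ t p hp.2
    apply Nat.factorization_eq_zero_of_not_dvd
    intro hdvd
    have h2 : p ≤ c := Nat.le_of_dvd (by omega) hdvd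
    have h3 : c ≤ ⌊y⌋₊ := Nat.le_floor hy
    omega
  rw [sum_congr rfl h1]
  refine (sum_le_sum_of_subset_of_nonneg (t := (Ioc ⌊y⌋₊ X).filter Nat.Prime ∪
    (Ioc X X').filter Nat.Prime) ?_ ?_).trans ?_
  · intro p hp
    rw [mem_filter, mem_Ioc] at hp
    rw [mem_union, mem_filter, mem_filter, mem_Ioc, mem_Ioc]
    rcases le_or_gt p X with h | h
    · exact Or.inl ⟨⟨hp.1.1, h⟩, hp.2⟩
    · exact Or.inr ⟨⟨h, hp.1.2⟩, hp.2⟩
  · intro p hp _
    have hp' : p.Prime := by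
      rw [mem_union, mem_filter, mem_filter] at hp
      rcases hp with h | h
      · exact h.2
      · exact h.2
    exact (term_bd _ hb χ t p hp').1
  · have h5 := sum_union_inter (s₁ := (Ioc ⌊y⌋₊ X).filter Nat.Prime) (s₂ := (Ioc X X').filter Nat.Prime)
      (f := fun p : ℕ => (1 - (g p * starRingEnd ℂ (χ (p : ZMod q) *
        (p : ℂ) ^ (Complex.I * (t : ℂ)))).re) / (p : ℝ))
    have h6 : 0 ≤ ∑ p ∈ (Ioc ⌊y⌋₊ X).filter Nat.Prime ∩ (Ioc X X').filter Nat.Prime,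
        (1 - (g p * starRingEnd ℂ (χ (p : ZMod q) *
        (p : ℂ) ^ (Complex.I * (t : ℂ)))).re) / (p : ℝ) := by
      refine sum_nonneg fun p hp => ?_
      exact (term_bd _ hb χ t p (mem_filter.1 (mem_inter.1 hp).1).2).1
    have h7 : ∑ p ∈ (Ioc X X').filter Nat.Prime,
        (1 - (g p * starRingEnd ℂ (χ (p : ZMod q) *
        (p : ℂ) ^ (Complex.I * (t : ℂ)))).re) / (p : ℝ) ≤
        ∑ p ∈ (Ioc X X').filter Nat.Prime, (2 : ℝ) / p :=
      sum_le_sum fun p hp => (term_bd _ hb χ t p (mem_filter.1 hp).2).2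
    linarith

theorem dsq_lower (g : ArithmeticFunction ℂ) (hb : ∀ n, ‖g n‖ ≤ 1) (c : ℕ) (hc : 1 ≤ c) (b : Bool)
    {q : ℕ} (hq : 0 < q) (χ : DirichletCharacter ℂ q) (t : ℝ) (X X' : ℕ) (hX : X ≤ X') :
    distSq (fun n => g n) χ t 0 X ≤
      distSq (fun n => md c (cjA b g) n) (chb b χ) (tb b t) 0 X' + 2 * c := by
  unfold distSq
  rw [Nat.floor_natCast, Nat.floor_natCast, Nat.floor_zero]
  have hbd : ∀ n, ‖(fun n => md c (cjA b g) n) n‖ ≤ 1 := md_norm c _ (cjA_norm b g hb)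
  obtain ⟨F, hF⟩ : ∃ F : ℕ → ℝ, ∀ p, F p = (1 - (g p * starRingEnd ℂ (χ (p : ZMod q) *
        (p : ℂ) ^ (Complex.I * (t : ℂ)))).re) / (p : ℝ) := ⟨_, fun _ => rfl⟩
  obtain ⟨G, hG⟩ : ∃ G : ℕ → ℝ, ∀ p, G p = (1 - (md c (cjA b g) p * starRingEnd ℂ
      (chb b χ (p : ZMod q) * (p : ℂ) ^ (Complex.I * ((tb b t : ℝ) : ℂ)))).re) / (p : ℝ) :=
    ⟨_, fun _ => rfl⟩
  have hF' : ∀ p ∈ (Ioc 0 X).filter Nat.Prime, (1 - (g p * starRingEnd ℂ (χ (p : ZMod q) *
        (p : ℂ) ^ (Complex.I * (t : ℂ)))).re) / (p : ℝ) = F p := fun p _ => (hF p).symm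
  have hG' : ∀ p ∈ (Ioc 0 X').filter Nat.Prime, (1 - (md c (cjA b g) p * starRingEnd ℂ
      (chb b χ (p : ZMod q) * (p : ℂ) ^ (Complex.I * ((tb b t : ℝ) : ℂ)))).re) / (p : ℝ) = G p :=
    fun p _ => (hG p).symm
  rw [sum_congr rfl hF', sum_congr rfl hG']
  have hGn : ∀ p : ℕ, p.Prime → 0 ≤ G p := fun p hp => by
    rw [hG]; exact (term_bd _ hbd (chb b χ) (tb b t) p hp).1
  rw [← sum_filter_add_sum_filter_not ((Ioc 0 X).filter Nat.Prime) (fun p => p ∣ c)]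
  have h1 : ∑ p ∈ ((Ioc 0 X).filter Nat.Prime).filter (fun p => p ∣ c), F p ≤ 2 * c := by
    have h2 : ∀ p ∈ ((Ioc 0 X).filter Nat.Prime).filter (fun p => p ∣ c), F p ≤ 2 := by
      intro p hp
      have hp' := (mem_filter.1 (mem_filter.1 hp).1).2
      rw [hF]
      refine ((term_bd _ hb χ t p hp').2).trans ?_
      have : (1 : ℝ) ≤ p := by exact_mod_cast hp'.pos
      rw [div_le_iff₀ (by linarith)]
      linarith
    have h3 : (((Ioc 0 X).filter Nat.Prime).filter (fun p => p ∣ c)).card ≤ c := by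
      have : ((Ioc 0 X).filter Nat.Prime).filter (fun p => p ∣ c) ⊆ Ioc 0 c := by
        intro p hp
        rw [mem_filter, mem_filter, mem_Ioc] at hp
        rw [mem_Ioc]
        exact ⟨hp.1.1.1, Nat.le_of_dvd (by omega) hp.2⟩
      have h4 := card_le_card this
      simpa using h4
    have h5 := sum_le_card_nsmul _ _ _ h2
    rw [nsmul_eq_mul] at h5
    have h6 : ((((Ioc 0 X).filter Nat.Prime).filter (fun p => p ∣ c)).card : ℝ) ≤ c := by
      exact_mod_cast h3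
    linarith
  have h2 : ∑ p ∈ ((Ioc 0 X).filter Nat.Prime).filter (fun p => ¬ p ∣ c), F p ≤
      ∑ p ∈ (Ioc 0 X').filter Nat.Prime, G p := by
    have h3 : ∀ p ∈ ((Ioc 0 X).filter Nat.Prime).filter (fun p => ¬ p ∣ c), F p = G p := by
      intro p hp
      rw [mem_filter, mem_filter] at hp
      rw [hF, hG]
      exact (term_eq g c b hq χ t p hp.1.2 (Nat.factorization_eq_zero_of_not_dvd hp.2)).symm
    rw [sum_congr rfl h3]
    refine sum_le_sum_of_subset_of_nonneg ?_ fun p hp _ => hGn p (mem_filter.1 hp).2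
    intro p hp
    rw [mem_filter, mem_filter, mem_Ioc] at hp
    rw [mem_filter, mem_Ioc]
    exact ⟨⟨hp.1.1.1, hp.1.1.2.trans hX⟩, hp.1.2⟩
  linarith

lemma dist_anti (g : ℕ → ℂ) (hb : ∀ n, ‖g n‖ ≤ 1) {q : ℕ} (χ : DirichletCharacter ℂ q) (t : ℝ)
    {y y' : ℝ} (h : y ≤ y') (X : ℕ) : distSq g χ t y' X ≤ distSq g χ t y X := by
  unfold distSq
  refine sum_le_sum_of_subset_of_nonneg ?_ fun p hp _ => (term_bd g hb χ t p (mem_filter.1 hp).2).1
  exact filter_subset_filter _ (Ioc_subset_Ioc_left (Nat.floor_le_floor h))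

lemma pms (A : ℕ) (η : ℝ) (hη : 0 < η) : ∃ X₀ : ℕ, ∀ X X' : ℕ, X₀ ≤ X → X' ≤ A * X →
    ∑ p ∈ (Ioc X X').filter Nat.Prime, (2 : ℝ) / p ≤ η := by
  have h0 : ∀ᶠ X : ℕ in Filter.atTop, 2 * Real.log 4 * A / η ≤ Real.log X :=
    (Real.tendsto_log_atTop.comp tendsto_natCast_atTop_atTop).eventually_ge_atTop _
  obtain ⟨X₀, hX₀⟩ := Filter.eventually_atTop.1 h0
  refine ⟨max X₀ 2, fun X X' hX hX' => ?_⟩
  have hX2 : 2 ≤ X := (le_max_right _ _).trans hX
  have hXr : (2 : ℝ) ≤ X := by exact_mod_cast hX2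
  have hlog : 0 < Real.log X := Real.log_pos (by linarith)
  have h1 := hX₀ X ((le_max_left _ _).trans hX)
  have h2 : ∀ p ∈ (Ioc X X').filter Nat.Prime, (2 : ℝ) / p ≤ 2 / (X * Real.log X) * Real.log p := by
    intro p hp
    rw [mem_filter, mem_Ioc] at hp
    have hpX : (X : ℝ) ≤ p := by exact_mod_cast hp.1.1.le
    have hlp : Real.log X ≤ Real.log p := Real.log_le_log (by linarith) hpX
    rw [div_mul_eq_mul_div, div_le_div_iff₀ (by linarith) (by positivity)]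
    have := mul_le_mul hpX hlp hlog.le (by linarith)
    nlinarith
  refine (sum_le_sum h2).trans ?_
  rw [← mul_sum]
  have h3 : ∑ p ∈ (Ioc X X').filter Nat.Prime, Real.log p ≤ Chebyshev.theta (A * X : ℕ) := by
    rw [Chebyshev.theta_eq_sum_Icc, Nat.floor_natCast]
    refine sum_le_sum_of_subset_of_nonneg ?_ fun p hp _ => ?_
    · intro p hp
      rw [mem_filter, mem_Ioc] at hp
      rw [mem_filter, mem_Icc]
      exact ⟨⟨Nat.zero_le _, hp.1.2.trans hX'⟩, hp.2⟩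
    · exact Real.log_nonneg (by exact_mod_cast (mem_filter.1 hp).2.one_le)
  have h4 := h3.trans (Chebyshev.theta_le_log4_mul_x (Nat.cast_nonneg _))
  push_cast at h4
  calc 2 / (X * Real.log X) * ∑ p ∈ (Ioc X X').filter Nat.Prime, Real.log p
      ≤ 2 / (X * Real.log X) * (Real.log 4 * (A * X)) := by
        apply mul_le_mul_of_nonneg_left h4
        positivity
    _ = 2 * Real.log 4 * A / Real.log X := by
        field_simp
    _ ≤ η := by
        rw [div_le_iff₀ hlog]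
        rw [div_le_iff₀ hη] at h1
        linarith

end Pool.H2.EL
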