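import Mathlib
import Pool.Agent.H2.EL.Def

/-!
Module ALG (short, elementary): arithmetic of the elements of a cluster.

`box_dvd`, `box_pos`, `box_le`: an element of `box I E` divides `QQ I ^ E ≠ 0`. `sl_mul`: `W E = QQ^(E+2) W0` is
divisible by `a ∣ QQ^E`. `W = a * sl`, `a * c = QQ^E`, so `sl = c * QQ^2 * W0` (cancel `a > 0`): this gives
`W0_dvd_sl`, `sq_dvd_sl` (`p ∣ QQ`) and `sl_pos`. `cls_shift`: induction on `m / W0` from `per`.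
`el_cls`, `el_M`: from `W0 ∣ sl` and `l.1 * os = v - l.2`, `l.2 < B ≤ v`. `el_uniq`: `W t + v` determines
`t` and `v` when `B ≤ v < B + W`.
-/

set_option autoImplicit false

open Finset

namespace Pool.H2.EL

lemma QQ_pos (I : Finset ℕ) (hI : ∀ p ∈ I, p.Prime) : 1 ≤ QQ I :=
  Finset.prod_pos fun p hp => (hI p hp).pos

lemma dvd_QQ (I : Finset ℕ) (p : ℕ) (hp : p ∈ I) : p ∣ QQ I :=
  Finset.dvd_prod_of_mem _ hp

lemma box_dvd (I : Finset ℕ) (E a : ℕ) (ha : a ∈ box I E) : a ∣ QQ I ^ E :=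
  Nat.dvd_of_mem_divisors ha

lemma box_pos (I : Finset ℕ) (E a : ℕ) (ha : a ∈ box I E) : 1 ≤ a :=
  Nat.pos_of_mem_divisors ha

lemma box_le (I : Finset ℕ) (E a : ℕ) (ha : a ∈ box I E) : a ≤ QQ I ^ E :=
  Nat.divisor_le ha

lemma one_mem_box (I : Finset ℕ) (hI : ∀ p ∈ I, p.Prime) (E : ℕ) : 1 ∈ box I E :=
  Nat.one_mem_divisors.mpr (pow_ne_zero _ (Nat.one_le_iff_ne_zero.mp (QQ_pos I hI)))

variable {k P : ℕ} {D : Dat k}

lemma W_pos (hD : D.Ok P) (E : ℕ) : 1 ≤ D.W E :=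
  Nat.mul_pos (pow_pos (QQ_pos _ hD.prime) _) hD.W0pos

lemma sl_mul (hD : D.Ok P) (E : ℕ) (l : ℕ × ℕ) (hl : l.1 ∈ box D.I E) :
    l.1 * sl D E l = D.W E :=
  Nat.mul_div_cancel' (dvd_mul_of_dvd_left
    ((box_dvd _ _ _ hl).trans (pow_dvd_pow _ (by omega))) _)

lemma sl_pos (hD : D.Ok P) (E : ℕ) (l : ℕ × ℕ) (hl : l.1 ∈ box D.I E) : 1 ≤ sl D E l := by
  by_contra h
  have h0 : sl D E l = 0 := by omega
  have h1 := sl_mul hD E l hl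
  have h2 := W_pos hD E
  rw [h0, mul_zero] at h1
  omega

lemma sl_le (hD : D.Ok P) (E : ℕ) (l : ℕ × ℕ) : sl D E l ≤ D.W E :=
  Nat.div_le_self _ _

lemma sl_eq (hD : D.Ok P) (E : ℕ) (l : ℕ × ℕ) (hl : l.1 ∈ box D.I E) :
    ∃ c, sl D E l = c * QQ D.I ^ 2 * D.W0 := by
  obtain ⟨c, hc⟩ := box_dvd _ _ _ hl
  refine ⟨c, Nat.eq_of_mul_eq_mul_left (box_pos _ _ _ hl) ?_⟩
  rw [sl_mul hD E l hl, Dat.W, pow_add, hc]
  ring

lemma W0_dvd_sl (hD : D.Ok P) (E : ℕ) (l : ℕ × ℕ) (hl : l.1 ∈ box D.I E) :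
    D.W0 ∣ sl D E l := by
  obtain ⟨c, hc⟩ := sl_eq hD E l hl
  rw [hc]
  exact dvd_mul_left _ _

lemma sq_dvd_sl (hD : D.Ok P) (E : ℕ) (l : ℕ × ℕ) (hl : l.1 ∈ box D.I E) :
    QQ D.I ^ 2 ∣ sl D E l := by
  obtain ⟨c, hc⟩ := sl_eq hD E l hl
  rw [hc]
  exact dvd_mul_of_dvd_left (dvd_mul_left _ _) _

lemma cls_shift (hD : D.Ok P) (m n : ℕ) (hm : D.W0 ∣ m) : D.cls (m + n) ↔ D.cls n := by
  obtain ⟨c, rfl⟩ := hm
  induction c with
  | zero => simp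
  | succ c ih =>
    rw [← ih, ← hD.per (D.W0 * c + n)]
    have : D.W0 * (c + 1) + n = D.W0 * c + n + D.W0 := by ring
    rw [this]

lemma el_cls (hD : D.Ok P) (E B v t : ℕ) (l : ℕ × ℕ) (hl : l ∈ el D E B v) :
    D.cls (sl D E l * t + os v l) := by
  rw [mem_el] at hl
  rw [cls_shift hD _ _ ((W0_dvd_sl hD E l hl.1.1).mul_right t)]
  exact hl.2.2

lemma el_M (hD : D.Ok P) (E B v t : ℕ) (hv : B ≤ v) (l : ℕ × ℕ) (hl : l ∈ el D E B v) :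
    l.1 * (sl D E l * t + os v l) + l.2 = D.W E * t + v := by
  rw [mem_el] at hl
  have h1 := sl_mul hD E l hl.1.1
  have h2 : l.1 * os v l = v - l.2 := Nat.mul_div_cancel' hl.2.1
  have h3 := hl.1.2
  rw [mul_add, ← mul_assoc, h1, h2]
  omega

lemma os_le (v : ℕ) (l : ℕ × ℕ) : os v l ≤ v :=
  (Nat.div_le_self _ _).trans (Nat.sub_le _ _)

lemma el_uniq (W B v t v' t' : ℕ) (hv : v ∈ Ico B (B + W)) (hv' : v' ∈ Ico B (B + W))
    (h : W * t + v = W * t' + v') : v = v' ∧ t = t' := by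
  rw [mem_Ico] at hv hv'
  rcases lt_trichotomy t t' with h1 | h1 | h1
  · have h2 : W * (t + 1) ≤ W * t' := Nat.mul_le_mul_left _ h1
    rw [mul_add, mul_one] at h2
    omega
  · subst h1
    omega
  · have h2 : W * (t' + 1) ≤ W * t := Nat.mul_le_mul_left _ h1
    rw [mul_add, mul_one] at h2
    omega

end Pool.H2.EL
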