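import Mathlib
import Pool.Agent.H2.EL.Alg

/-!
Module BOXC (short): `QQ I` is squarefree with prime factors `I`, so `QQ I ^ E` has `(E+1)^|I|` divisors
(`Nat.card_divisors`, `Nat.Coprime.card_divisors_mul` or `Nat.divisors_prime_pow` and induction over `I`).
`box_double`: `(E+2)^m ≤ 2 (E+1)^m` if `2 m ≤ E + 1`: `(1 + 1/(E+1))^m ≤ exp(m/(E+1)) ≤ exp(1/2) < 2`
(or by Bernoulli: `(1 - 1/(E+2))^m ≥ 1 - m/(E+2) ≥ 1/2`, `one_add_mul_le_pow`).
-/

set_option autoImplicit false

open Finset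

namespace Pool.H2.EL

lemma card_div (I : Finset ℕ) (hI : ∀ p ∈ I, p.Prime) (E : ℕ) :
    (QQ I ^ E).divisors.card = (E + 1) ^ I.card := by
  induction I using Finset.induction_on with
  | empty => simp [QQ]
  | insert p s hp ih =>
    have hpp : p.Prime := hI p (mem_insert_self p s)
    have hs : ∀ q ∈ s, q.Prime := fun q hq => hI q (mem_insert_of_mem hq)
    have e : QQ (insert p s) = p * QQ s := by
      unfold QQ
      exact prod_insert hp
    have hcop : Nat.Coprime p (QQ s) := by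
      unfold QQ
      refine Nat.Coprime.prod_right fun q hq => ?_
      rw [Nat.coprime_primes hpp (hs q hq)]
      rintro rfl
      exact hp hq
    rw [e, mul_pow, Nat.Coprime.card_divisors_mul (Nat.Coprime.pow E E hcop), ih hs,
      Nat.divisors_prime_pow hpp, card_map, card_range, card_insert_of_notMem hp, pow_succ, mul_comm]

lemma box_double (I : Finset ℕ) (hI : ∀ p ∈ I, p.Prime) (E : ℕ) (hE : 2 * I.card ≤ E + 1) :
    (QQ I ^ (E + 1)).divisors.card ≤ 2 * (box I E).card := by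
  have h1 : (box I E).card = (E + 1) ^ I.card := card_div I hI E
  rw [card_div I hI, h1]
  have hE' : (2 : ℝ) * I.card ≤ E + 1 := by exact_mod_cast hE
  have h0 : (0 : ℝ) < (E : ℝ) + 2 := by positivity
  have h2 := one_add_mul_le_pow (a := -(1 / ((E : ℝ) + 2))) (by
    have : 1 / ((E : ℝ) + 2) ≤ 1 := by
      rw [div_le_one h0]
      linarith [Nat.cast_nonneg (α := ℝ) E]
    linarith) I.card
  have h3 : (1 : ℝ) + -(1 / ((E : ℝ) + 2)) = ((E : ℝ) + 1) / ((E : ℝ) + 2) := by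
    field_simp
    ring
  have h4 : (1 : ℝ) / 2 ≤ 1 + (I.card : ℝ) * -(1 / ((E : ℝ) + 2)) := by
    have : (I.card : ℝ) * (1 / ((E : ℝ) + 2)) ≤ 1 / 2 := by
      rw [mul_one_div, div_le_div_iff₀ h0 (by norm_num)]
      linarith
    linarith
  rw [h3, div_pow] at h2
  have h5 : (1 : ℝ) / 2 ≤ ((E : ℝ) + 1) ^ I.card / ((E : ℝ) + 2) ^ I.card := h4.trans h2
  rw [div_le_div_iff₀ (by norm_num) (by positivity)] at h5
  have h6 : ((E : ℝ) + 2) ^ I.card ≤ 2 * ((E : ℝ) + 1) ^ I.card := by linarith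
  have h7 : E + 1 + 1 = E + 2 := rfl
  rw [h7]
  exact_mod_cast h6

lemma box_card_pos (I : Finset ℕ) (hI : ∀ p ∈ I, p.Prime) (E : ℕ) : 1 ≤ (box I E).card := by
  exact card_pos.2 ⟨1, one_mem_box I hI E⟩

end Pool.H2.EL
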