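import Mathlib
import Pool.Agent.H2.EL.Alg

/-!
Module CTS (short): counting the elements and the non-empty clusters.

`sum_elt`: the map `(v, t, l) ↦ (l, n)`, `n = sl * t + os v l < N`, from the triples with `l ∈ elt v t` to
`(box × range B) × range N` is injective: `l` and `n` determine `W t + v` (`el_M`), hence `v, t` (`el_uniq`).
`card_ne`: the map `(v, t) ↦ W t + v` from the pairs with `elt v t ≠ ∅` is injective (`el_uniq`) with values
`a n + U ≤ QQ^E (N - 1) + B` for some `l = (a,U) ∈ elt v t`, so it maps into `range (QQ^E * N + B)`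
(`U < B`, `n ≤ N - 1`, `a ≤ QQ^E`).
-/

set_option autoImplicit false

open Finset

namespace Pool.H2.EL

theorem sum_elt {k P : ℕ} {D : Dat k} (hD : D.Ok P) (E B N : ℕ) :
    ∑ v ∈ Ico B (B + D.W E), ∑ t ∈ range N, (elt D E B N v t).card ≤ (box D.I E).card * B * N := by
  have h1 : ∑ v ∈ Ico B (B + D.W E), ∑ t ∈ range N, (elt D E B N v t).card =
      ((Ico B (B + D.W E) ×ˢ range N).sigma fun vt => elt D E B N vt.1 vt.2).card := by
    rw [card_sigma, sum_product]
  have h2 : (box D.I E).card * B * N = (((box D.I E) ×ˢ range B) ×ˢ range N).card := by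
    rw [card_product, card_product, card_range, card_range]
  rw [h1, h2]
  refine card_le_card_of_injOn
    (fun x : (_ : ℕ × ℕ) × (ℕ × ℕ) => (x.2, sl D E x.2 * x.1.2 + os x.1.1 x.2)) ?_ ?_
  · rintro ⟨⟨v, t⟩, l⟩ hx
    have hx' := mem_sigma.1 (mem_coe.1 hx)
    have h3 := (mem_elt D).1 hx'.2
    have h4 := (mem_el D).1 h3.1
    refine mem_coe.2 (mem_product.2 ⟨mem_product.2 ⟨h4.1.1, mem_range.2 h4.1.2⟩, ?_⟩)
    exact mem_range.2 h3.2
  · rintro ⟨⟨v, t⟩, l⟩ hx ⟨⟨v', t'⟩, l'⟩ hx' he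
    have hy := mem_sigma.1 (mem_coe.1 hx)
    have hy' := mem_sigma.1 (mem_coe.1 hx')
    simp only at hy hy'
    simp only [Prod.mk.injEq] at he
    obtain ⟨rfl, he⟩ := he
    have hv := mem_product.1 hy.1
    have hv' := mem_product.1 hy'.1
    have h3 := el_M hD E B v t (mem_Ico.1 hv.1).1 l ((mem_elt D).1 hy.2).1
    have h4 := el_M hD E B v' t' (mem_Ico.1 hv'.1).1 l ((mem_elt D).1 hy'.2).1
    rw [he, h4] at h3
    obtain ⟨rfl, rfl⟩ := el_uniq (D.W E) B v' t' v t hv'.1 hv.1 h3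
    rfl

open Classical in
theorem card_ne {k P : ℕ} {D : Dat k} (hD : D.Ok P) (E B N : ℕ) :
    ∑ v ∈ Ico B (B + D.W E), ∑ t ∈ range N, (if (elt D E B N v t).Nonempty then 1 else 0) ≤
      QQ D.I ^ E * N + B := by
  have h1 : ∑ v ∈ Ico B (B + D.W E), ∑ t ∈ range N,
      (if (elt D E B N v t).Nonempty then 1 else 0) =
      ((Ico B (B + D.W E) ×ˢ range N).filter
        fun vt => (elt D E B N vt.1 vt.2).Nonempty).card := by
    rw [card_filter, sum_product]
  rw [h1, ← card_range (QQ D.I ^ E * N + B)]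
  refine card_le_card_of_injOn (fun x : ℕ × ℕ => D.W E * x.2 + x.1) ?_ ?_
  · rintro ⟨v, t⟩ hx
    have hx' := mem_filter.1 (mem_coe.1 hx)
    have hv := mem_product.1 hx'.1
    obtain ⟨l, hl⟩ := hx'.2
    have h2 := (mem_elt D).1 hl
    have h3 := (mem_el D).1 h2.1
    have h4 := el_M hD E B v t (mem_Ico.1 hv.1).1 l h2.1
    refine mem_coe.2 (mem_range.2 ?_)
    simp only at h2
    show D.W E * t + v < _
    rw [← h4]
    have h5 := box_le D.I E l.1 h3.1.1
    have h6 : l.1 * (sl D E l * t + os v l) ≤ QQ D.I ^ E * N :=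
      Nat.mul_le_mul h5 h2.2.le
    have h7 := h3.1.2
    omega
  · rintro ⟨v, t⟩ hx ⟨v', t'⟩ hx' he
    have hv := mem_product.1 (mem_filter.1 (mem_coe.1 hx)).1
    have hv' := mem_product.1 (mem_filter.1 (mem_coe.1 hx')).1
    obtain ⟨rfl, rfl⟩ := el_uniq (D.W E) B v t v' t' hv.1 hv'.1 he
    rfl

end Pool.H2.EL
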