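import Mathlib
import Pool.Agent.H2.EL.Alg

/-!
Module IDN: the sum over a class as a sum over clusters.

For every `l = (a,U)`, `a ∈ box`, `U < B`: split `∑_{n < N, cls n} G n` according to `a n + U < B` (then `n < B`:
at most `B` terms, error `≤ B`) or `B ≤ a n + U`. In the second case there are unique `v ∈ Ico B (B+W)`, `t`
with `a n + U = W t + v` (`t = (a n + U - B)/W`); then `a ∣ v - U`, `n = sl * t + os v l` (cancel `a`),
`cls (os v l)` (`cls_shift`, `W0 ∣ sl`), `t ≤ sl * t ≤ n < N`. Conversely `l ∈ elt v t` gives such an `n` (`el_cls`,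
`el_M`). So the second part is `∑_v ∑_{t < N} if l ∈ elt D E B N v t then G (sl t + os v l) else 0`. Sum over
`l` and exchange the sums. (`Finset.sum_bij'`/`sum_nbij'` between the `n` and the pairs `(v,t)`.)
-/

set_option autoImplicit false

open Finset

namespace Pool.H2.EL

open Classical in
theorem idn_one {k P : ℕ} {D : Dat k} (hD : D.Ok P) (E B N : ℕ) (G : ℕ → ℂ) (l : ℕ × ℕ)
    (hl1 : l.1 ∈ box D.I E) (hl2 : l.2 < B) :
    ∑ n ∈ ((range N).filter D.cls).filter (fun n => B ≤ l.1 * n + l.2), G n =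
      ∑ v ∈ Ico B (B + D.W E), ∑ t ∈ range N,
        if l ∈ elt D E B N v t then G (sl D E l * t + os v l) else 0 := by
  rw [← Finset.sum_product', ← Finset.sum_filter]
  symm
  refine Finset.sum_bij (fun x _ => sl D E l * x.2 + os x.1 l) ?_ ?_ ?_ ?_
  · intro x hx
    rw [mem_filter, mem_product, mem_Ico, mem_elt] at hx
    obtain ⟨⟨⟨hv, _⟩, _⟩, hel, hN⟩ := hx
    rw [mem_filter, mem_filter, mem_range]
    refine ⟨⟨hN, el_cls hD E B _ _ l hel⟩, ?_⟩
    rw [el_M hD E B _ _ hv l hel]
    omega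
  · intro x hx y hy hxy
    rw [mem_filter, mem_product, mem_elt] at hx hy
    have h1 := el_M hD E B _ x.2 (mem_Ico.mp hx.1.1).1 l hx.2.1
    have h2 := el_M hD E B _ y.2 (mem_Ico.mp hy.1.1).1 l hy.2.1
    have h3 : D.W E * x.2 + x.1 = D.W E * y.2 + y.1 := by
      rw [← h1, ← h2]
      rw [hxy]
    have h4 := el_uniq _ _ _ _ _ _ hx.1.1 hy.1.1 h3
    exact Prod.ext h4.1 h4.2
  · intro n hn
    rw [mem_filter, mem_filter, mem_range] at hn
    obtain ⟨⟨hnN, hcls⟩, hB⟩ := hn
    have hW := W_pos hD E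
    have hsl := sl_mul hD E l hl1
    have hslp := sl_pos hD E l hl1
    have ha := box_pos _ _ _ hl1
    set M := l.1 * n + l.2 with hM
    set t := (M - B) / D.W E with ht
    set v := B + (M - B) % D.W E with hv
    have hMt : D.W E * t + v = M := by
      have := Nat.div_add_mod (M - B) (D.W E)
      rw [ht, hv]
      omega
    have hvI : v ∈ Ico B (B + D.W E) := by
      rw [mem_Ico]
      have := Nat.mod_lt (M - B) (Nat.lt_of_lt_of_le Nat.zero_lt_one hW)
      omega
    have hvB : B ≤ v := (mem_Ico.mp hvI).1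
    have hst : sl D E l * t ≤ n := by
      have h1 : l.1 * (sl D E l * t) ≤ l.1 * n := by
        rw [← mul_assoc, hsl]
        omega
      exact Nat.le_of_mul_le_mul_left h1 ha
    have hvU : v - l.2 = l.1 * (n - sl D E l * t) := by
      rw [Nat.mul_sub, ← mul_assoc, hsl]
      omega
    have hos : os v l = n - sl D E l * t := by
      rw [os, hvU, Nat.mul_div_cancel_left _ ha]
    have hn2 : sl D E l * t + os v l = n := by
      rw [hos]
      omega
    have hel : l ∈ el D E B v := by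
      rw [mem_el]
      refine ⟨⟨hl1, hl2⟩, ⟨_, hvU⟩, ?_⟩
      rw [← cls_shift hD (sl D E l * t) _ ((W0_dvd_sl hD E l hl1).mul_right t), hn2]
      exact hcls
    have htN : t < N := by
      have h1 : t ≤ sl D E l * t := Nat.le_mul_of_pos_left _ hslp
      omega
    refine ⟨(v, t), ?_, hn2⟩
    rw [mem_filter, mem_product, mem_elt]
    exact ⟨⟨hvI, mem_range.mpr htN⟩, hel, by rw [hn2]; exact hnN⟩
  · intro x _
    rfl

open Classical in
theorem idn {k P : ℕ} {D : Dat k} (hD : D.Ok P) (E B N : ℕ) (G : ℕ → ℂ) (hG : ∀ n, ‖G n‖ ≤ 1) :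
    ((box D.I E).card : ℝ) * B * ‖∑ n ∈ (range N).filter D.cls, G n‖ ≤
      ∑ v ∈ Ico B (B + D.W E), ∑ t ∈ range N,
        ‖∑ l ∈ elt D E B N v t, G (sl D E l * t + os v l)‖ + ((box D.I E).card : ℝ) * B * B := by
  set S : ℂ := ∑ n ∈ (range N).filter D.cls, G n with hS
  have hcard : (((box D.I E ×ˢ range B).card : ℕ) : ℝ) = ((box D.I E).card : ℝ) * B := by
    rw [card_product, card_range]
    push_cast
    rfl
  have h1 : ((box D.I E).card : ℝ) * B * ‖S‖ = ‖∑ l ∈ box D.I E ×ˢ range B, S‖ := by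
    rw [sum_const, nsmul_eq_mul, norm_mul, Complex.norm_natCast, hcard]
  have hsplit : ∀ l ∈ box D.I E ×ˢ range B, S =
      ∑ n ∈ ((range N).filter D.cls).filter (fun n => ¬ B ≤ l.1 * n + l.2), G n +
      ∑ v ∈ Ico B (B + D.W E), ∑ t ∈ range N,
        if l ∈ elt D E B N v t then G (sl D E l * t + os v l) else 0 := by
    intro l hl
    rw [mem_product, mem_range] at hl
    rw [← idn_one hD E B N G l hl.1 hl.2, hS, add_comm]
    exact (Finset.sum_filter_add_sum_filter_not _ _ _).symm
  rw [h1, sum_congr rfl hsplit, sum_add_distrib]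
  have h2 : ‖∑ l ∈ box D.I E ×ˢ range B,
      ∑ n ∈ ((range N).filter D.cls).filter (fun n => ¬ B ≤ l.1 * n + l.2), G n‖ ≤
      ((box D.I E).card : ℝ) * B * B := by
    refine (norm_sum_le _ _).trans ?_
    rw [← hcard, ← nsmul_eq_mul]
    refine Finset.sum_le_card_nsmul _ _ _ ?_
    intro l hl
    rw [mem_product, mem_range] at hl
    have ha := box_pos _ _ _ hl.1
    refine (norm_sum_le _ _).trans ?_
    calc _ ≤ ∑ n ∈ ((range N).filter D.cls).filter (fun n => ¬ B ≤ l.1 * n + l.2), (1 : ℝ) :=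
          sum_le_sum fun n _ => hG n
      _ = ((((range N).filter D.cls).filter (fun n => ¬ B ≤ l.1 * n + l.2)).card : ℝ) := by
          rw [sum_const, nsmul_eq_mul, mul_one]
      _ ≤ ((range B).card : ℝ) := by
          norm_cast
          refine card_le_card fun n hn => ?_
          rw [mem_filter] at hn
          rw [mem_range]
          have h3 : n ≤ l.1 * n := Nat.le_mul_of_pos_left _ ha
          have := hn.2
          omega
      _ = (B : ℝ) := by rw [card_range]
  have h3 : ∑ l ∈ box D.I E ×ˢ range B, ∑ v ∈ Ico B (B + D.W E), ∑ t ∈ range N,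
        (if l ∈ elt D E B N v t then G (sl D E l * t + os v l) else 0) =
      ∑ v ∈ Ico B (B + D.W E), ∑ t ∈ range N,
        ∑ l ∈ elt D E B N v t, G (sl D E l * t + os v l) := by
    rw [sum_comm]
    refine sum_congr rfl fun v _ => ?_
    rw [sum_comm]
    refine sum_congr rfl fun t _ => ?_
    rw [← sum_filter]
    refine sum_congr ?_ fun _ _ => rfl
    ext l
    rw [mem_filter]
    constructor
    · exact fun h => h.2
    · intro h
      refine ⟨?_, h⟩
      rw [mem_elt, mem_el] at h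
      exact mem_product.mpr ⟨h.1.1.1, mem_range.mpr h.1.1.2⟩
  rw [h3]
  have h4 : ‖∑ v ∈ Ico B (B + D.W E), ∑ t ∈ range N,
        ∑ l ∈ elt D E B N v t, G (sl D E l * t + os v l)‖ ≤
      ∑ v ∈ Ico B (B + D.W E), ∑ t ∈ range N,
        ‖∑ l ∈ elt D E B N v t, G (sl D E l * t + os v l)‖ :=
    (norm_sum_le _ _).trans (sum_le_sum fun v _ => norm_sum_le _ _)
  refine (norm_add_le _ _).trans ?_
  linarith

end Pool.H2.EL
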