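import Mathlib
import Pool.Agent.H2.EL.Alg

/-!
Module FAC: the values of a multiplicative function in a cluster.

`fr_mul`: the primes of `a ∣ QQ^E` are in `I`, so the filtered prime factors and the exponents outside `I` of
`a * n` and `n` agree. `split`: if no `p^2`, `p ∈ I`, divides `n ≥ 1`, then `n = gcd n QQ * fr I n`
(compare the exponents, or: `n = (∏ p ∈ primeFactors ∩ I, p) * fr I n`, `Nat.factorization_prod_pow_eq_self`, and
`gcd n QQ` is the product of the primes of `I` dividing `n`), and the two factors are coprime.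
`factor`: `n = sl * t + os`, `m = n + h i`. `m ≠ 0` and no `p^2 ∣ m` by `c1`, `c2` (`el_cls`);
`gcd m QQ = gcd (os + h i) QQ` because `QQ ∣ sl`; `W * t + lab = a * m` (`sl_mul`), so `fr (W t + lab) = fr m`;
then `map_mul_of_coprime`.
-/

set_option autoImplicit false

open Finset

namespace Pool.H2.EL

lemma fr_mul (I : Finset ℕ) (E a n : ℕ) (ha : a ∈ box I E) (hn : 1 ≤ n)
    (hI : ∀ p ∈ I, p.Prime) : fr I (a * n) = fr I n := by
  have ha0 : a ≠ 0 := by
    have := box_pos I E a ha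
    omega
  have hn0 : n ≠ 0 := by omega
  have hpa : ∀ p, p.Prime → p ∣ a → p ∈ I := by
    intro p hp hpa
    have h1 : p ∣ QQ I := hp.dvd_of_dvd_pow (hpa.trans (box_dvd I E a ha))
    obtain ⟨q, hq, hpq⟩ := (hp.prime.dvd_finset_prod_iff _).1 h1
    rwa [(Nat.prime_dvd_prime_iff_eq hp (hI q hq)).1 hpq]
  have hset : (a * n).primeFactors.filter (fun p => p ∉ I) =
      n.primeFactors.filter (fun p => p ∉ I) := by
    ext p
    rw [mem_filter, mem_filter, Nat.primeFactors_mul ha0 hn0, mem_union]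
    constructor
    · rintro ⟨h1 | h1, h2⟩
      · exact absurd (hpa p (Nat.prime_of_mem_primeFactors h1) (Nat.dvd_of_mem_primeFactors h1)) h2
      · exact ⟨h1, h2⟩
    · rintro ⟨h1, h2⟩
      exact ⟨Or.inr h1, h2⟩
  unfold fr
  rw [hset]
  refine prod_congr rfl fun p hp => ?_
  rw [mem_filter] at hp
  have h3 : a.factorization p = 0 := by
    apply Nat.factorization_eq_zero_of_not_dvd
    intro h
    exact hp.2 (hpa p (Nat.prime_of_mem_primeFactors hp.1) h)
  rw [Nat.factorization_mul ha0 hn0, Finsupp.add_apply, h3, zero_add]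

lemma fr_split (I : Finset ℕ) (hI : ∀ p ∈ I, p.Prime) (n : ℕ) (hn : 1 ≤ n)
    (h2 : ∀ p ∈ I, ¬ p ^ 2 ∣ n) :
    Nat.gcd n (QQ I) * fr I n = n ∧ Nat.Coprime (Nat.gcd n (QQ I)) (fr I n) := by
  have hn0 : n ≠ 0 := by omega
  have h1 : n = (∏ p ∈ n.primeFactors.filter (fun p => p ∈ I), p) * fr I n := by
    conv_lhs => rw [← Nat.prod_factorization_pow_eq_self hn0]
    rw [Nat.prod_factorization_eq_prod_primeFactors,
      ← prod_filter_mul_prod_filter_not n.primeFactors (fun p => p ∈ I)]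
    congr 1
    refine prod_congr rfl fun p hp => ?_
    rw [mem_filter] at hp
    have hpp := Nat.prime_of_mem_primeFactors hp.1
    have h4 : n.factorization p = 1 := by
      have h5 : 1 ≤ n.factorization p :=
        (hpp.dvd_iff_one_le_factorization hn0).1 (Nat.dvd_of_mem_primeFactors hp.1)
      have h6 : ¬ 2 ≤ n.factorization p := by
        intro h
        exact h2 p hp.2 ((hpp.pow_dvd_iff_le_factorization hn0).2 h)
      omega
    rw [h4, pow_one]
  have h3 : n.primeFactors.filter (fun p => p ∈ I) = I.filter (fun p => p ∣ n) := by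
    ext p
    rw [mem_filter, mem_filter, Nat.mem_primeFactors]
    constructor
    · rintro ⟨⟨-, h4, -⟩, h5⟩
      exact ⟨h5, h4⟩
    · rintro ⟨h4, h5⟩
      exact ⟨⟨hI p h4, h5, hn0⟩, h4⟩
  have h4 : Nat.gcd n (QQ I) = ∏ p ∈ I.filter (fun p => p ∣ n), p := by
    unfold QQ
    rw [← prod_filter_mul_prod_filter_not I (fun p => p ∣ n)]
    have h5 : Nat.Coprime n (∏ p ∈ I.filter (fun p => ¬ p ∣ n), p) := by
      apply Nat.Coprime.prod_right
      intro p hp
      rw [mem_filter] at hp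
      exact ((hI p hp.1).coprime_iff_not_dvd.2 hp.2).symm
    rw [Nat.Coprime.gcd_mul_right_cancel_right _ h5.symm]
    apply Nat.gcd_eq_right
    rw [← h3]
    exact Dvd.intro _ h1.symm
  rw [h4, ← h3]
  refine ⟨h1.symm, ?_⟩
  apply Nat.Coprime.prod_left
  intro p hp
  apply Nat.Coprime.prod_right
  intro q hq
  rw [mem_filter] at hp hq
  apply Nat.Coprime.pow_right
  rw [Nat.coprime_primes (Nat.prime_of_mem_primeFactors hp.1) (Nat.prime_of_mem_primeFactors hq.1)]
  rintro rfl
  exact hq.2 hp.2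

theorem factor {k P : ℕ} {D : Dat k} (hD : D.Ok P) (E B v t : ℕ) (hv : B ≤ v) (l : ℕ × ℕ)
    (hl : l ∈ el D E B v) (i : Fin k) (g : ArithmeticFunction ℂ) (hg : g.IsMultiplicative) :
    g (sl D E l * t + os v l + D.h i) =
      g (Nat.gcd (os v l + D.h i) (QQ D.I)) * g (fr D.I (D.W E * t + lab D i v l)) := by
  have hl1 : l.1 ∈ box D.I E := ((mem_el D).1 hl).1.1
  have hcls := el_cls hD E B v t l hl
  obtain ⟨p, hp, hpm⟩ := hD.c1 _ hcls i
  have h2 := hD.c2 _ hcls i
  have hm : 1 ≤ sl D E l * t + os v l + D.h i := by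
    by_contra hc
    have h0 : sl D E l * t + os v l + D.h i = 0 := by omega
    exact h2 p hp (h0 ▸ dvd_zero _)
  obtain ⟨h3, h4⟩ := fr_split D.I hD.prime _ hm h2
  have h5 : D.W E * t + lab D i v l = l.1 * (sl D E l * t + os v l + D.h i) := by
    rw [← sl_mul hD E l hl1]
    unfold lab
    ring
  rw [h5, fr_mul D.I E l.1 _ hl1 hm hD.prime]
  have h6 : Nat.gcd (sl D E l * t + os v l + D.h i) (QQ D.I) =
      Nat.gcd (os v l + D.h i) (QQ D.I) := by
    obtain ⟨c, hc⟩ := (dvd_pow_self (QQ D.I) two_ne_zero).trans (sq_dvd_sl hD E l hl1)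
    rw [hc, add_assoc, mul_assoc, Nat.gcd_comm, Nat.gcd_comm (os v l + D.h i)]
    simp
  conv_lhs => rw [← h3]
  rw [hg.map_mul_of_coprime h4, h6]

end Pool.H2.EL
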