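import Mathlib
import Pool.Agent.H2.EL.Fac

/-!
Module LABC: counting the labels.

Fix `i`. A label `ρ = lab i v l` of an element `l = (a,U) ∈ elt v t`, with `n = sl t + os v l < N`, gives the
integer `R = W t + ρ = a (n + h i)` (`sl_mul`). Let `m = n + h i ≥ 1`; some `p ∈ I` divides `m` (`c1`), no `p^2`
does (`c2`), so `m = s * r`, `s = gcd m QQ ≥ p > P`, `r = fr I m` (`fr_split`), `r ≤ m/s ≤ (N + h i)/P` (or
`r * P ≤ N + h i`), and `R = (a s) r` with `a s ∣ QQ^(E+1)`. So `R` lies in the image of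
`divisors (QQ^(E+1)) × range ((N + h i)/P + 1)` under multiplication.
Map the triple `(v, t, ρ)` to `(R, c)`, `c = (W t + v) + QQ^E * h i - R = U' `: since
`W t + v = a n + U` and `R = a n + a h i`, `c = U + QQ^E h i - a h i`, `0 ≤ c < B + QQ^E h i`. The map is
injective: `R` and `c` determine `W t + v`, hence `v, t` (`el_uniq`), and then `ρ = R - W t`.
-/

set_option autoImplicit false

open Finset

namespace Pool.H2.EL

/-- one label -/
lemma lab_one {k P : ℕ} {D : Dat k} (hD : D.Ok P) (hP : 1 ≤ P) (E B N v t : ℕ) (hv : B ≤ v)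
    (i : Fin k) (l : ℕ × ℕ) (hl : l ∈ elt D E B N v t) :
    D.W E * t + lab D i v l ∈ ((QQ D.I ^ (E + 1)).divisors ×ˢ
        range ((N + D.h i) / P + 1)).image (fun x => x.1 * x.2) ∧
      D.W E * t + lab D i v l ≤ D.W E * t + v + QQ D.I ^ E * D.h i ∧
      D.W E * t + v + QQ D.I ^ E * D.h i - (D.W E * t + lab D i v l) <
        B + QQ D.I ^ E * D.h i := by
  rw [mem_elt] at hl
  obtain ⟨hel, hN⟩ := hl
  have hM := el_M hD E B v t hv l hel
  have hcls := el_cls hD E B v t l hel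
  have hel' := hel
  rw [mem_el] at hel'
  obtain ⟨⟨ha, hU⟩, _, _⟩ := hel'
  have hsl := sl_mul hD E l ha
  have hale := box_le _ _ _ ha
  set n := sl D E l * t + os v l with hn
  set m := n + D.h i with hm
  have hR : D.W E * t + lab D i v l = l.1 * m := by
    rw [lab, ← hsl, hm, hn]
    ring
  have hah : l.1 * D.h i ≤ QQ D.I ^ E * D.h i := Nat.mul_le_mul_right _ hale
  have hlm : l.1 * m = l.1 * n + l.1 * D.h i := by rw [hm, mul_add]
  refine ⟨?_, ?_, ?_⟩
  · obtain ⟨p, hp, hpm⟩ := hD.c1 n hcls i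
    have hsq := hD.c2 n hcls i
    have hm1 : 1 ≤ m := by
      rw [Nat.one_le_iff_ne_zero]
      intro h0
      apply hsq p hp
      rw [← hm, h0]
      exact dvd_zero _
    obtain ⟨hs1, hs2⟩ := fr_split D.I hD.prime m hm1 hsq
    have hps : p ∣ Nat.gcd m (QQ D.I) := Nat.dvd_gcd hpm (dvd_QQ _ _ hp)
    have hspos : 0 < Nat.gcd m (QQ D.I) := Nat.gcd_pos_of_pos_left _ hm1
    have hPs : P ≤ Nat.gcd m (QQ D.I) := (hD.big p hp).le.trans (Nat.le_of_dvd hspos hps)
    rw [mem_image]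
    refine ⟨(l.1 * Nat.gcd m (QQ D.I), fr D.I m), ?_, ?_⟩
    · rw [mem_product, mem_range, Nat.mem_divisors]
      refine ⟨⟨?_, ?_⟩, ?_⟩
      · rw [pow_succ]
        exact mul_dvd_mul (box_dvd _ _ _ ha) (Nat.gcd_dvd_right _ _)
      · exact pow_ne_zero _ (Nat.one_le_iff_ne_zero.mp (QQ_pos _ hD.prime))
      · rw [Nat.lt_succ_iff, Nat.le_div_iff_mul_le (by omega)]
        calc fr D.I m * P ≤ fr D.I m * Nat.gcd m (QQ D.I) := Nat.mul_le_mul_left _ hPs
          _ = m := by rw [mul_comm]; exact hs1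
          _ ≤ N + D.h i := by omega
    · change l.1 * Nat.gcd m (QQ D.I) * fr D.I m = _
      rw [hR, mul_assoc, hs1]
  · rw [hR, ← hM, hlm]
    omega
  · rw [hR, ← hM, hlm]
    omega

theorem lab_count {k P : ℕ} {D : Dat k} (hD : D.Ok P) (hP : 1 ≤ P) (E B N : ℕ) (i : Fin k) :
    ∑ v ∈ Ico B (B + D.W E), ∑ t ∈ range N, ((elt D E B N v t).image (lab D i v)).card ≤
      (B + QQ D.I ^ E * D.h i) * ((QQ D.I ^ (E + 1)).divisors.card * ((N + D.h i) / P + 1)) := by
  rw [← Finset.sum_product', ← Finset.card_sigma]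
  have hcard : (range (B + QQ D.I ^ E * D.h i) ×ˢ ((QQ D.I ^ (E + 1)).divisors ×ˢ
        range ((N + D.h i) / P + 1)).image (fun x => x.1 * x.2)).card ≤
      (B + QQ D.I ^ E * D.h i) * ((QQ D.I ^ (E + 1)).divisors.card * ((N + D.h i) / P + 1)) := by
    rw [card_product, card_range]
    refine Nat.mul_le_mul_left _ (card_image_le.trans ?_)
    rw [card_product, card_range]
  refine le_trans ?_ hcard
  refine Finset.card_le_card_of_injOn (fun x => (D.W E * x.1.2 + x.1.1 + QQ D.I ^ E * D.h i -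
    (D.W E * x.1.2 + x.2), D.W E * x.1.2 + x.2)) ?_ ?_
  · rintro ⟨⟨v, t⟩, ρ⟩ hx
    rw [Finset.mem_coe, mem_sigma, mem_product, mem_Ico, mem_image] at hx
    obtain ⟨⟨⟨hv, _⟩, _⟩, l, hl, hρ⟩ := hx
    change lab D i v l = ρ at hρ
    subst hρ
    obtain ⟨h1, h2, h3⟩ := lab_one hD hP E B N v t hv i l hl
    rw [Finset.mem_coe, mem_product, mem_range]
    exact ⟨h3, h1⟩
  · rintro ⟨⟨v, t⟩, ρ⟩ hx ⟨⟨v', t'⟩, ρ'⟩ hy hxy
    rw [Finset.mem_coe, mem_sigma, mem_product, mem_image] at hx hy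
    obtain ⟨⟨hv, _⟩, l, hl, hρ⟩ := hx
    obtain ⟨⟨hv', _⟩, l', hl', hρ'⟩ := hy
    change lab D i v l = ρ at hρ
    change lab D i v' l' = ρ' at hρ'
    subst hρ
    subst hρ'
    obtain ⟨_, h2, _⟩ := lab_one hD hP E B N v t (mem_Ico.mp hv).1 i l hl
    obtain ⟨_, h2', _⟩ := lab_one hD hP E B N v' t' (mem_Ico.mp hv').1 i l' hl'
    rw [Prod.mk.injEq] at hxy
    obtain ⟨h3, h4⟩ := hxy
    simp only at h3 h4
    have h5 : D.W E * t + v = D.W E * t' + v' := by omega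
    obtain ⟨rfl, rfl⟩ := el_uniq _ _ _ _ _ _ hv hv' h5
    have h6 : lab D i v l = lab D i v l' := Nat.add_left_cancel h4
    rw [h6]

end Pool.H2.EL
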