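import Mathlib
import Pool.Agent.H2.EL.Def

/-!
Module EXPA (short): the exponential moment of functions with vanishing products.

`∏_{l ∈ T} (1 + a Re(X_l z_l)) = ∑_{S ⊆ T} ∏_{l ∈ S} a Re(X_l z_l)` (`Finset.prod_one_add`). For `S ≠ ∅`:
`Re(X z) = (X z + conj X conj z)/2`, so (`Finset.prod_add`, or `Finset.prod_univ_sum`-like expansion)
`∏_{l ∈ S} Re(X_l z_l) = 2^(-|S|) ∑_{U ⊆ S} ∏_{l ∈ U} X_l z_l ∏_{l ∈ S \ U} conj X_l conj z_l`; the sum over `t ∈ K`
of each of the `2^|S|` terms has norm at most `η` by `hcor` (`c l = true` on `U`), because the constant factors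
have norm `≤ 1`. So `|∑_t ∏_{l ∈ S} a Re(X_l z_l)| ≤ a^|S| η ≤ η`, and there are at most `2^|T|` sets `S`.
The term `S = ∅` gives `K.card`.
-/

set_option autoImplicit false

open Finset

namespace Pool.H2.EL

/-- one nonempty product -/
lemma expa_one {ι : Type} [DecidableEq ι] (S : Finset ι) (z : ι → ℕ → ℂ) (X : ι → ℂ)
    (hX : ∀ l, ‖X l‖ ≤ 1) (K : Finset ℕ) (η : ℝ) (hη : 0 ≤ η)
    (hcor : ∀ c : ι → Bool, ‖∑ t ∈ K, ∏ l ∈ S, cj (c l) (z l t)‖ ≤ η)
    (a : ℝ) (ha0 : 0 ≤ a) (ha : a ≤ 1) :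
    ∑ t ∈ K, ∏ l ∈ S, (a * (X l * z l t).re) ≤ η := by
  have hcx : ((∑ t ∈ K, ∏ l ∈ S, (a * (X l * z l t).re) : ℝ) : ℂ) =
      ∑ U ∈ S.powerset, ((∏ l ∈ U, ((a : ℂ) / 2 * X l)) *
        ∏ l ∈ S \ U, ((a : ℂ) / 2 * (starRingEnd ℂ) (X l))) *
        ∑ t ∈ K, ∏ l ∈ S, cj (decide (l ∈ U)) (z l t) := by
    push_cast
    have h1 : ∀ t ∈ K, (∏ l ∈ S, ((a : ℂ) * ((X l * z l t).re : ℂ))) =
        ∑ U ∈ S.powerset, ((∏ l ∈ U, ((a : ℂ) / 2 * X l)) *
        ∏ l ∈ S \ U, ((a : ℂ) / 2 * (starRingEnd ℂ) (X l))) *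
        ∏ l ∈ S, cj (decide (l ∈ U)) (z l t) := by
      intro t _
      have h2 : ∀ l ∈ S, ((a : ℂ) * ((X l * z l t).re : ℂ)) =
          ((a : ℂ) / 2 * X l) * z l t +
            ((a : ℂ) / 2 * (starRingEnd ℂ) (X l)) * (starRingEnd ℂ) (z l t) := by
        intro l _
        have h3 : (((X l * z l t).re : ℝ) : ℂ) =
            (X l * z l t + (starRingEnd ℂ) (X l * z l t)) / 2 := by
          rw [Complex.re_eq_add_conj]
        rw [h3, map_mul]
        ring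
      rw [Finset.prod_congr rfl h2, Finset.prod_add]
      refine Finset.sum_congr rfl fun U hU => ?_
      have hUS : U ⊆ S := Finset.mem_powerset.mp hU
      have e1 : ∏ l ∈ U, ((a : ℂ) / 2 * X l * z l t) =
          (∏ l ∈ U, ((a : ℂ) / 2 * X l)) * ∏ l ∈ U, z l t := Finset.prod_mul_distrib
      have e2 : ∏ l ∈ S \ U, ((a : ℂ) / 2 * (starRingEnd ℂ) (X l) * (starRingEnd ℂ) (z l t)) =
          (∏ l ∈ S \ U, ((a : ℂ) / 2 * (starRingEnd ℂ) (X l))) *
            ∏ l ∈ S \ U, (starRingEnd ℂ) (z l t) := Finset.prod_mul_distrib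
      rw [e1, e2]
      have h4 : ∏ l ∈ S, cj (decide (l ∈ U)) (z l t) =
          (∏ l ∈ S \ U, (starRingEnd ℂ) (z l t)) * ∏ l ∈ U, z l t := by
        rw [← Finset.prod_sdiff hUS]
        congr 1
        · refine Finset.prod_congr rfl fun l hl => ?_
          have : l ∉ U := (Finset.mem_sdiff.mp hl).2
          simp [cj, this]
        · refine Finset.prod_congr rfl fun l hl => ?_
          simp [cj, hl]
      rw [h4]
      ring
    rw [Finset.sum_congr rfl h1, Finset.sum_comm]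
    refine Finset.sum_congr rfl fun U _ => ?_
    rw [Finset.mul_sum]
  have hnorm : ‖((∑ t ∈ K, ∏ l ∈ S, (a * (X l * z l t).re) : ℝ) : ℂ)‖ ≤ η := by
    rw [hcx]
    refine (norm_sum_le _ _).trans ?_
    have hb : ∀ U ∈ S.powerset, ‖((∏ l ∈ U, ((a : ℂ) / 2 * X l)) *
        ∏ l ∈ S \ U, ((a : ℂ) / 2 * (starRingEnd ℂ) (X l))) *
        ∑ t ∈ K, ∏ l ∈ S, cj (decide (l ∈ U)) (z l t)‖ ≤ (1 / 2 : ℝ) ^ S.card * η := by
      intro U hU
      have hUS : U ⊆ S := Finset.mem_powerset.mp hU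
      have hha : ‖(a : ℂ) / 2‖ ≤ 1 / 2 := by
        rw [norm_div, Complex.norm_real, Real.norm_of_nonneg ha0]
        simp only [Complex.norm_ofNat]
        linarith
      have hp1 : ‖∏ l ∈ U, ((a : ℂ) / 2 * X l)‖ ≤ (1 / 2 : ℝ) ^ U.card := by
        rw [norm_prod, ← Finset.prod_const]
        refine Finset.prod_le_prod (fun _ _ => norm_nonneg _) fun l _ => ?_
        rw [norm_mul]
        calc ‖(a : ℂ) / 2‖ * ‖X l‖ ≤ 1 / 2 * 1 :=
              mul_le_mul hha (hX l) (norm_nonneg _) (by norm_num)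
          _ = 1 / 2 := by norm_num
      have hp2 : ‖∏ l ∈ S \ U, ((a : ℂ) / 2 * (starRingEnd ℂ) (X l))‖ ≤
          (1 / 2 : ℝ) ^ (S \ U).card := by
        rw [norm_prod, ← Finset.prod_const]
        refine Finset.prod_le_prod (fun _ _ => norm_nonneg _) fun l _ => ?_
        rw [norm_mul]
        calc ‖(a : ℂ) / 2‖ * ‖(starRingEnd ℂ) (X l)‖ ≤ 1 / 2 * 1 := by
              refine mul_le_mul hha ?_ (norm_nonneg _) (by norm_num)
              rw [RCLike.norm_conj]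
              exact hX l
          _ = 1 / 2 := by norm_num
      rw [norm_mul, norm_mul]
      have hcard : U.card + (S \ U).card = S.card := by
        rw [add_comm]
        exact Finset.card_sdiff_add_card_eq_card hUS
      rw [← hcard, pow_add]
      exact mul_le_mul (mul_le_mul hp1 hp2 (norm_nonneg _) (by positivity))
        (hcor _) (norm_nonneg _) (by positivity)
    refine (Finset.sum_le_sum hb).trans ?_
    rw [Finset.sum_const, Finset.card_powerset, nsmul_eq_mul]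
    push_cast
    have : (2 : ℝ) ^ S.card * ((1 / 2 : ℝ) ^ S.card * η) = η := by
      rw [← mul_assoc, ← mul_pow]
      norm_num
    rw [this]
  rw [Complex.norm_real] at hnorm
  exact (le_abs_self _).trans hnorm

theorem expa {ι : Type} [DecidableEq ι] (T : Finset ι) (z : ι → ℕ → ℂ) (X : ι → ℂ)
    (hX : ∀ l, ‖X l‖ ≤ 1) (K : Finset ℕ) (η : ℝ) (hη : 0 ≤ η)
    (hcor : ∀ S ⊆ T, S.Nonempty → ∀ c : ι → Bool, ‖∑ t ∈ K, ∏ l ∈ S, cj (c l) (z l t)‖ ≤ η)
    (a : ℝ) (ha0 : 0 ≤ a) (ha : a ≤ 1) :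
    ∑ t ∈ K, ∏ l ∈ T, (1 + a * (X l * z l t).re) ≤ K.card + 2 ^ T.card * η := by
  have h1 : ∑ t ∈ K, ∏ l ∈ T, (1 + a * (X l * z l t).re) =
      ∑ S ∈ T.powerset, ∑ t ∈ K, ∏ l ∈ S, (a * (X l * z l t).re) := by
    rw [Finset.sum_comm]
    refine Finset.sum_congr rfl fun t _ => ?_
    rw [Finset.prod_one_add]
  rw [h1]
  have h2 : ∀ S ∈ T.powerset, ∑ t ∈ K, ∏ l ∈ S, (a * (X l * z l t).re) ≤
      (if S = ∅ then (K.card : ℝ) else 0) + η := by
    intro S hS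
    have hST : S ⊆ T := Finset.mem_powerset.mp hS
    by_cases h0 : S = ∅
    · subst h0
      simp [hη]
    · rw [if_neg h0, zero_add]
      exact expa_one S z X hX K η hη (hcor S hST (Finset.nonempty_iff_ne_empty.mpr h0)) a ha0 ha
  refine (Finset.sum_le_sum h2).trans ?_
  rw [Finset.sum_add_distrib, Finset.sum_const, Finset.card_powerset, nsmul_eq_mul,
    Finset.sum_ite_eq' T.powerset ∅]
  simp

end Pool.H2.EL
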