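import Mathlib
import Pool.Agent.H2.EL.Expa

/-!
Module CONC1 (short): large deviations for a fixed choice of the coefficients.

`exp_le`: for `|u| ≤ 1/2`: `exp (u - u^2) ≤ 1 + u` (e.g. `log (1+u) ≥ u - u^2`; or
`exp x ≤ 1 + x + x^2` for `|x| ≤ 1`, here `x = u - u^2`, `x + x^2 = u - u^2 + u^2 - 2u^3 + u^4 = u - u^3 (2 - u) ...`
check signs; any proof). `conc1`: let `a = ε/2`. For `t` in the filtered set, with `u_l = a Re(X_l z_l)`, `|u_l| ≤ 1/2`:
`∏ (1 + u_l) ≥ exp (∑ u_l - ∑ u_l^2) ≥ exp (a ε |T| - a^2 |T|) = exp (ε^2 |T|/4)`; for all other `t` the product is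
`≥ 0`. So `#filtered * exp (ε^2|T|/4) ≤ ∑_t ∏ (1+u_l) ≤ K.card + 2^|T| η` by `expa`.
`conc2`: `‖w‖ > ε|T|` implies that one of `Re w, -Re w, Im w = Re(-I w), -Im w` is `> (ε/2) |T|`
(`Complex.norm_le_abs_re_add_abs_im`); apply `conc1` four times with `X, -X, -I X, I X` and `ε/2`.
-/

set_option autoImplicit false

open Finset

namespace Pool.H2.EL

lemma exp_le (u : ℝ) (hu : |u| ≤ 1 / 2) : Real.exp (u - u ^ 2) ≤ 1 + u := by
  have h1 : -(1 / 2) ≤ u := (abs_le.1 hu).1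
  have h2 : u ≤ 1 / 2 := (abs_le.1 hu).2
  rcases le_total 0 u with h0 | h0
  · have hx : |u - u ^ 2| ≤ 1 := by
      rw [abs_le]
      constructor <;> nlinarith
    have h3 := Real.abs_exp_sub_one_sub_id_le hx
    have h4 := (abs_le.1 h3).2
    nlinarith [mul_nonneg (pow_nonneg h0 3) (by linarith : (0 : ℝ) ≤ 2 - u)]
  · obtain ⟨v, rfl⟩ : ∃ v, u = -v := ⟨-u, by ring⟩
    have hv0 : 0 ≤ v := by linarith
    have hv1 : v ≤ 1 / 2 := by linarith
    have h3 := Real.quadratic_le_exp_of_nonneg (by positivity : 0 ≤ v + v ^ 2)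
    have h4 : -v - (-v) ^ 2 = -(v + v ^ 2) := by ring
    rw [h4, Real.exp_neg, inv_le_comm₀ (Real.exp_pos _) (by linarith)]
    refine le_trans ?_ h3
    rw [inv_le_iff_one_le_mul₀ (by linarith)]
    have h5 : 0 ≤ 1 - v - v ^ 2 - v ^ 3 := by nlinarith [pow_nonneg hv0 3, pow_nonneg hv0 2]
    nlinarith [mul_nonneg (pow_nonneg hv0 2) h5]

theorem conc1 {ι : Type} [DecidableEq ι] (T : Finset ι) (z : ι → ℕ → ℂ) (hz : ∀ l t, ‖z l t‖ ≤ 1)
    (X : ι → ℂ) (hX : ∀ l, ‖X l‖ ≤ 1) (K : Finset ℕ) (η : ℝ) (hη : 0 ≤ η)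
    (hcor : ∀ S ⊆ T, S.Nonempty → ∀ c : ι → Bool, ‖∑ t ∈ K, ∏ l ∈ S, cj (c l) (z l t)‖ ≤ η)
    (ε : ℝ) (hε : 0 < ε) (hε1 : ε ≤ 1) :
    ((K.filter (fun t => ε * T.card < (∑ l ∈ T, X l * z l t).re)).card : ℝ) ≤
      Real.exp (-(ε ^ 2 * T.card / 4)) * (K.card + 2 ^ T.card * η) := by
  classical
  have ha0 : 0 ≤ ε / 2 := by positivity
  have ha1 : ε / 2 ≤ 1 := by linarith
  have h1 := expa T z X hX K η hη hcor (ε / 2) ha0 ha1
  have hu : ∀ l t, |ε / 2 * (X l * z l t).re| ≤ 1 / 2 := by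
    intro l t
    have h2 : |(X l * z l t).re| ≤ 1 := by
      refine (Complex.abs_re_le_norm _).trans ?_
      rw [norm_mul]
      exact mul_le_one₀ (hX l) (norm_nonneg _) (hz l t)
    rw [abs_mul, abs_of_nonneg ha0]
    nlinarith [abs_nonneg (X l * z l t).re]
  have hnn : ∀ t, 0 ≤ ∏ l ∈ T, (1 + ε / 2 * (X l * z l t).re) := by
    intro t
    apply prod_nonneg
    intro l _
    have := (abs_le.1 (hu l t)).1
    linarith
  have hbig : ∀ t ∈ K.filter (fun t => ε * T.card < (∑ l ∈ T, X l * z l t).re),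
      Real.exp (ε ^ 2 * T.card / 4) ≤ ∏ l ∈ T, (1 + ε / 2 * (X l * z l t).re) := by
    intro t ht
    rw [mem_filter] at ht
    have h2 : Real.exp (∑ l ∈ T, (ε / 2 * (X l * z l t).re - (ε / 2 * (X l * z l t).re) ^ 2)) ≤
        ∏ l ∈ T, (1 + ε / 2 * (X l * z l t).re) := by
      rw [Real.exp_sum]
      exact prod_le_prod (fun l _ => (Real.exp_pos _).le) fun l _ => exp_le _ (hu l t)
    refine le_trans (Real.exp_le_exp.2 ?_) h2
    rw [sum_sub_distrib, ← mul_sum, ← Complex.re_sum]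
    have h3 : ∑ l ∈ T, (ε / 2 * (X l * z l t).re) ^ 2 ≤ ∑ l ∈ T, (ε / 2) ^ 2 := by
      apply sum_le_sum
      intro l _
      have h4 : |(X l * z l t).re| ≤ 1 := by
        refine (Complex.abs_re_le_norm _).trans ?_
        rw [norm_mul]
        exact mul_le_one₀ (hX l) (norm_nonneg _) (hz l t)
      rw [mul_pow]
      have h5 : (X l * z l t).re ^ 2 ≤ 1 := by
        rw [← sq_abs]
        nlinarith [abs_nonneg (X l * z l t).re]
      nlinarith [sq_nonneg (ε / 2)]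
    rw [sum_const, nsmul_eq_mul] at h3
    have h6 : ε / 2 * (ε * T.card) ≤ ε / 2 * (∑ l ∈ T, X l * z l t).re :=
      mul_le_mul_of_nonneg_left ht.2.le ha0
    nlinarith
  have h7 : ((K.filter (fun t => ε * T.card < (∑ l ∈ T, X l * z l t).re)).card : ℝ) *
      Real.exp (ε ^ 2 * T.card / 4) ≤ ∑ t ∈ K, ∏ l ∈ T, (1 + ε / 2 * (X l * z l t).re) := by
    calc _ = ∑ t ∈ K.filter (fun t => ε * T.card < (∑ l ∈ T, X l * z l t).re),
          Real.exp (ε ^ 2 * T.card / 4) := by rw [sum_const, nsmul_eq_mul]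
      _ ≤ ∑ t ∈ K.filter (fun t => ε * T.card < (∑ l ∈ T, X l * z l t).re),
          ∏ l ∈ T, (1 + ε / 2 * (X l * z l t).re) := sum_le_sum hbig
      _ ≤ _ := sum_le_sum_of_subset_of_nonneg (filter_subset _ _) fun t _ _ => hnn t
  have h8 := h7.trans h1
  rw [Real.exp_neg, inv_mul_eq_div, le_div_iff₀ (Real.exp_pos _)]
  exact h8

theorem conc2 {ι : Type} [DecidableEq ι] (T : Finset ι) (z : ι → ℕ → ℂ) (hz : ∀ l t, ‖z l t‖ ≤ 1)
    (X : ι → ℂ) (hX : ∀ l, ‖X l‖ ≤ 1) (K : Finset ℕ) (η : ℝ) (hη : 0 ≤ η)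
    (hcor : ∀ S ⊆ T, S.Nonempty → ∀ c : ι → Bool, ‖∑ t ∈ K, ∏ l ∈ S, cj (c l) (z l t)‖ ≤ η)
    (ε : ℝ) (hε : 0 < ε) (hε1 : ε ≤ 1) :
    ((K.filter (fun t => ε * T.card < ‖∑ l ∈ T, X l * z l t‖)).card : ℝ) ≤
      4 * Real.exp (-(ε ^ 2 * T.card / 16)) * (K.card + 2 ^ T.card * η) := by
  classical
  have hX' : ∀ w : ℂ, ‖w‖ = 1 → ∀ l, ‖w * X l‖ ≤ 1 := by
    intro w hw l
    rw [norm_mul, hw, one_mul]
    exact hX l
  have hε2 : 0 < ε / 2 := by positivity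
  have hε3 : ε / 2 ≤ 1 := by linarith
  have key : ∀ w : ℂ, ‖w‖ = 1 →
      ((K.filter (fun t => ε / 2 * T.card < (∑ l ∈ T, w * X l * z l t).re)).card : ℝ) ≤
      Real.exp (-(ε ^ 2 * T.card / 16)) * (K.card + 2 ^ T.card * η) := by
    intro w hw
    have h1 := conc1 T z hz (fun l => w * X l) (hX' w hw) K η hη hcor (ε / 2) hε2 hε3
    have h2 : (ε / 2) ^ 2 * T.card / 4 = ε ^ 2 * T.card / 16 := by ring
    rw [h2] at h1
    exact h1
  have hsub : K.filter (fun t => ε * T.card < ‖∑ l ∈ T, X l * z l t‖) ⊆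
      (K.filter (fun t => ε / 2 * T.card < (∑ l ∈ T, 1 * X l * z l t).re) ∪
       K.filter (fun t => ε / 2 * T.card < (∑ l ∈ T, (-1) * X l * z l t).re)) ∪
      (K.filter (fun t => ε / 2 * T.card < (∑ l ∈ T, (-Complex.I) * X l * z l t).re) ∪
       K.filter (fun t => ε / 2 * T.card < (∑ l ∈ T, Complex.I * X l * z l t).re)) := by
    intro t ht
    rw [mem_filter] at ht
    obtain ⟨htK, ht⟩ := ht
    have h1 := Complex.norm_le_abs_re_add_abs_im (∑ l ∈ T, X l * z l t)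
    have hw : ∀ w : ℂ, ∑ l ∈ T, w * X l * z l t = w * ∑ l ∈ T, X l * z l t := by
      intro w
      rw [mul_sum]
      exact sum_congr rfl fun l _ => mul_assoc _ _ _
    simp only [mem_union, mem_filter, htK, true_and, hw]
    have e1 : (1 * ∑ l ∈ T, X l * z l t).re = (∑ l ∈ T, X l * z l t).re := by rw [one_mul]
    have e2 : ((-1) * ∑ l ∈ T, X l * z l t).re = -(∑ l ∈ T, X l * z l t).re := by
      rw [neg_one_mul, Complex.neg_re]
    have e3 : ((-Complex.I) * ∑ l ∈ T, X l * z l t).re = (∑ l ∈ T, X l * z l t).im := by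
      rw [Complex.mul_re, Complex.neg_re, Complex.neg_im, Complex.I_re, Complex.I_im]
      ring
    have e4 : (Complex.I * ∑ l ∈ T, X l * z l t).re = -(∑ l ∈ T, X l * z l t).im := by
      rw [Complex.mul_re, Complex.I_re, Complex.I_im]
      ring
    rw [e1, e2, e3, e4]
    by_contra hc
    push Not at hc
    obtain ⟨⟨h2, h3⟩, h4, h5⟩ := hc
    have h6 : |(∑ l ∈ T, X l * z l t).re| ≤ ε / 2 * T.card := abs_le'.2 ⟨h2, h3⟩
    have h7 : |(∑ l ∈ T, X l * z l t).im| ≤ ε / 2 * T.card := abs_le'.2 ⟨h4, h5⟩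
    linarith
  have hcard := (card_le_card hsub).trans ((card_union_le _ _).trans
    (add_le_add (card_union_le _ _) (card_union_le _ _)))
  have hcard' : ((K.filter (fun t => ε * T.card < ‖∑ l ∈ T, X l * z l t‖)).card : ℝ) ≤
      (((K.filter (fun t => ε / 2 * T.card < (∑ l ∈ T, 1 * X l * z l t).re)).card : ℝ) +
       ((K.filter (fun t => ε / 2 * T.card < (∑ l ∈ T, (-1) * X l * z l t).re)).card : ℝ)) +
      (((K.filter (fun t => ε / 2 * T.card < (∑ l ∈ T, (-Complex.I) * X l * z l t).re)).card : ℝ) +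
       ((K.filter (fun t => ε / 2 * T.card < (∑ l ∈ T, Complex.I * X l * z l t).re)).card : ℝ)) := by
    exact_mod_cast hcard
  have k1 := key 1 (by simp)
  have k2 := key (-1) (by simp)
  have k3 := key (-Complex.I) (by simp)
  have k4 := key Complex.I (by simp)
  linarith

end Pool.H2.EL
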