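import Mathlib
import Pool.Agent.H2.EL.Conc1
import Pool.Agent.H2.TA.Net
import Pool.Agent.H2.TA.Appr

/-!
Module CONC: all choices of the unknown values at once (union bound over a finite net).

`net M` is the finite `1/M`-net of the unit disc (`Pool.H2.TA.net_near`, `net_norm`, `net_zero`). Let `t` be in the set on the
left, with `y`. For `a ∈ S` choose `y' a ∈ net M`, `‖y a - y' a‖ ≤ 1/M`, and `y' a = 0` outside `S`. For `l ∈ T`:
`‖∏_j y (lab j l) - ∏_j y' (lab j l)‖ ≤ card J / M ≤ ε/2` (`Pool.H2.TA.prod_diff`), so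
`‖∑_l z_l ∏_j y' (lab j l)‖ > ε|T| - (ε/2)|T| = (ε/2)|T|` (`‖z_l‖ ≤ 1`). So the set on the left is contained in the union,
over the functions `y' ∈ Fintype.piFinset`/`Finset.pi S (fun _ => net M)` (there are `(net M).card ^ S.card` of them),
of the sets of `conc2` with `X_l = ∏_j y' (lab j l)` and `ε/2`: `(ε/2)^2/16 = ε^2/64`.
If `T` is empty the set on the left is empty.
-/

set_option autoImplicit false

open Finset

namespace Pool.H2.EL

open Classical in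
theorem conc {ι Λ J : Type} [DecidableEq ι] [DecidableEq Λ] [Fintype J] (T : Finset ι)
    (z : ι → ℕ → ℂ) (hz : ∀ l t, ‖z l t‖ ≤ 1) (lb : J → ι → Λ) (S : Finset Λ)
    (hS : ∀ j, ∀ l ∈ T, lb j l ∈ S) (K : Finset ℕ) (η : ℝ) (hη : 0 ≤ η)
    (hcor : ∀ S ⊆ T, S.Nonempty → ∀ c : ι → Bool, ‖∑ t ∈ K, ∏ l ∈ S, cj (c l) (z l t)‖ ≤ η)
    (ε : ℝ) (hε : 0 < ε) (hε1 : ε ≤ 1) (M : ℕ) (hM : 1 ≤ M)
    (hMJ : 2 * (Fintype.card J : ℝ) ≤ ε * M) :
    ((K.filter (fun t => ∃ y : Λ → ℂ, (∀ a, ‖y a‖ ≤ 1) ∧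
      ε * T.card < ‖∑ l ∈ T, z l t * ∏ j, y (lb j l)‖)).card : ℝ) ≤
      ((Pool.H2.TA.net M).card : ℝ) ^ S.card *
        (4 * Real.exp (-(ε ^ 2 * T.card / 64)) * (K.card + 2 ^ T.card * η)) := by
  have hM0 : (0 : ℝ) < M := by exact_mod_cast hM
  let YS : Finset ((a : Λ) → a ∈ S → ℂ) := S.pi fun _ => Pool.H2.TA.net M
  let ex : ((a : Λ) → a ∈ S → ℂ) → Λ → ℂ := fun y a => if h : a ∈ S then y a h else 0
  have hex : ∀ y ∈ YS, ∀ a, ‖ex y a‖ ≤ 1 := by
    intro y hy a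
    by_cases h : a ∈ S
    · simp only [ex, dif_pos h]
      exact Pool.H2.TA.net_norm M _ (mem_pi.1 hy a h)
    · simp only [ex, dif_neg h, norm_zero]
      exact zero_le_one
  have hε2 : 0 < ε / 2 := by positivity
  have hε3 : ε / 2 ≤ 1 := by linarith
  have key : ∀ y ∈ YS, ((K.filter (fun t => ε / 2 * T.card <
      ‖∑ l ∈ T, (∏ j, ex y (lb j l)) * z l t‖)).card : ℝ) ≤
      4 * Real.exp (-(ε ^ 2 * T.card / 64)) * (K.card + 2 ^ T.card * η) := by
    intro y hy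
    have hX : ∀ l, ‖∏ j, ex y (lb j l)‖ ≤ 1 := by
      intro l
      rw [norm_prod]
      exact prod_le_one (fun _ _ => norm_nonneg _) fun j _ => hex y hy _
    have h1 := conc2 T z hz (fun l => ∏ j, ex y (lb j l)) hX K η hη hcor (ε / 2) hε2 hε3
    have h2 : (ε / 2) ^ 2 * T.card / 16 = ε ^ 2 * T.card / 64 := by ring
    rw [h2] at h1
    exact h1
  have hsub : K.filter (fun t => ∃ y : Λ → ℂ, (∀ a, ‖y a‖ ≤ 1) ∧
      ε * T.card < ‖∑ l ∈ T, z l t * ∏ j, y (lb j l)‖) ⊆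
      YS.biUnion fun y => K.filter (fun t => ε / 2 * T.card <
      ‖∑ l ∈ T, (∏ j, ex y (lb j l)) * z l t‖) := by
    intro t ht
    rw [mem_filter] at ht
    obtain ⟨htK, y, hy, hyt⟩ := ht
    choose w hw1 hw2 using fun a => Pool.H2.TA.net_near M hM (y a) (hy a)
    rw [mem_biUnion]
    refine ⟨fun a _ => w a, mem_pi.2 fun a _ => hw1 a, ?_⟩
    rw [mem_filter]
    refine ⟨htK, ?_⟩
    have hexw : ∀ j, ∀ l ∈ T, ex (fun a _ => w a) (lb j l) = w (lb j l) := by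
      intro j l hl
      simp only [ex, dif_pos (hS j l hl)]
    have h1 : ∀ l ∈ T, ‖z l t * ∏ j, y (lb j l) - (∏ j, ex (fun a _ => w a) (lb j l)) * z l t‖ ≤
        ε / 2 := by
      intro l hl
      have h2 : ∏ j, ex (fun a _ => w a) (lb j l) = ∏ j, w (lb j l) :=
        prod_congr rfl fun j _ => hexw j l hl
      rw [h2]
      have h3 : z l t * ∏ j, y (lb j l) - (∏ j, w (lb j l)) * z l t =
          z l t * (∏ j, y (lb j l) - ∏ j, w (lb j l)) := by ring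
      rw [h3, norm_mul]
      have h4 := Pool.H2.TA.prod_diff (univ : Finset J) (fun j => y (lb j l)) (fun j => w (lb j l))
        (fun j _ => hy _) (fun j _ => Pool.H2.TA.net_norm M _ (hw1 _))
      have h5 : ∑ j : J, ‖y (lb j l) - w (lb j l)‖ ≤ ∑ _j : J, (1 : ℝ) / M :=
        sum_le_sum fun j _ => hw2 _
      rw [sum_const, nsmul_eq_mul, card_univ] at h5
      have h6 : (Fintype.card J : ℝ) * (1 / M) ≤ ε / 2 := by
        rw [mul_one_div, div_le_iff₀ hM0]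
        linarith
      calc ‖z l t‖ * ‖∏ j, y (lb j l) - ∏ j, w (lb j l)‖
          ≤ 1 * ‖∏ j, y (lb j l) - ∏ j, w (lb j l)‖ :=
            mul_le_mul_of_nonneg_right (hz l t) (norm_nonneg _)
        _ ≤ ε / 2 := by
            rw [one_mul]
            exact h4.trans (h5.trans h6)
    have h7 : ‖∑ l ∈ T, z l t * ∏ j, y (lb j l) -
        ∑ l ∈ T, (∏ j, ex (fun a _ => w a) (lb j l)) * z l t‖ ≤ T.card * (ε / 2) := by
      rw [← sum_sub_distrib]
      refine (norm_sum_le_of_le _ h1).trans ?_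
      rw [sum_const, nsmul_eq_mul]
    have h8 := norm_sub_norm_le (∑ l ∈ T, z l t * ∏ j, y (lb j l))
      (∑ l ∈ T, (∏ j, ex (fun a _ => w a) (lb j l)) * z l t)
    linarith
  have hc1 := (card_le_card hsub).trans card_biUnion_le
  have hc2 : ((K.filter (fun t => ∃ y : Λ → ℂ, (∀ a, ‖y a‖ ≤ 1) ∧
      ε * T.card < ‖∑ l ∈ T, z l t * ∏ j, y (lb j l)‖)).card : ℝ) ≤
      ∑ y ∈ YS, ((K.filter (fun t => ε / 2 * T.card <
      ‖∑ l ∈ T, (∏ j, ex y (lb j l)) * z l t‖)).card : ℝ) := by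
    exact_mod_cast hc1
  refine hc2.trans ((sum_le_sum key).trans (le_of_eq ?_))
  rw [sum_const, nsmul_eq_mul, card_pi, prod_const]
  push_cast
  rfl

end Pool.H2.EL
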