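import Mathlib
import Pool.Agent.H2.EL.Alg

/-!
Module NONP (short): the affine forms of a cluster are pairwise non-proportional.

Suppose equality; write `a = l.1`, `a' = l'.1`, `m = os v l + h0`, `m' = os v l' + h0`. Multiply by `a * a'`
and use `sl_mul`: `W * a' * m' = W * a * m`, so `a' * m' = a * m` (`W ≥ 1`). No prime of `I` divides `m` or
`m'` (`c0`, as `cls (os v l)`); the primes dividing `a` are in `I` (`a ∣ QQ^E`), so `a` is coprime to `m'`
and divides `a'`; in the same way `a' ∣ a`. Hence `a = a'`, `m = m'`, `os v l = os v l'`, and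
`v - l.2 = a * os = v - l'.2`, `l.2, l'.2 < B ≤ v` give `l.2 = l'.2`.
(`m ≥ 1`: if `m = 0` a prime of `I` would divide it; if `I` is empty then `box = {1}`.)
-/

set_option autoImplicit false

open Finset

namespace Pool.H2.EL

private lemma nonp_cop {k P : ℕ} {D : Dat k} (hD : D.Ok P) (E a n : ℕ) (ha : a ∈ box D.I E)
    (hn : D.cls n) : Nat.Coprime a (n + D.h0) := by
  rw [Nat.coprime_iff_gcd_eq_one]
  by_contra h
  obtain ⟨q, hq, hqd⟩ := Nat.exists_prime_and_dvd h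
  have h1 : q ∣ a := hqd.trans (Nat.gcd_dvd_left _ _)
  have h2 : q ∣ n + D.h0 := hqd.trans (Nat.gcd_dvd_right _ _)
  have h3 : q ∣ QQ D.I := hq.dvd_of_dvd_pow (h1.trans (box_dvd _ _ _ ha))
  obtain ⟨r, hr, hqr⟩ := (hq.prime.dvd_finset_prod_iff _).1 h3
  have h4 : q = r := (Nat.prime_dvd_prime_iff_eq hq (hD.prime r hr)).1 hqr
  rw [h4] at h2
  exact hD.c0 n hn r hr h2

theorem nonprop {k P : ℕ} {D : Dat k} (hD : D.Ok P) (E B v : ℕ) (hv : B ≤ v) (l l' : ℕ × ℕ)
    (hl : l ∈ el D E B v) (hl' : l' ∈ el D E B v) (hne : l ≠ l') :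
    sl D E l * (os v l' + D.h0) ≠ sl D E l' * (os v l + D.h0) := by
  intro h
  rw [mem_el] at hl hl'
  obtain ⟨⟨ha, hU⟩, hd, hc⟩ := hl
  obtain ⟨⟨ha', hU'⟩, hd', hc'⟩ := hl'
  have hW := W_pos hD E
  have h1 := sl_mul hD E l ha
  have h2 := sl_mul hD E l' ha'
  have h3 : l'.1 * (os v l' + D.h0) = l.1 * (os v l + D.h0) := by
    have h4 : D.W E * (l'.1 * (os v l' + D.h0)) = D.W E * (l.1 * (os v l + D.h0)) := by
      calc D.W E * (l'.1 * (os v l' + D.h0)) =
          l.1 * l'.1 * (sl D E l * (os v l' + D.h0)) := by rw [← h1]; ring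
        _ = l.1 * l'.1 * (sl D E l' * (os v l + D.h0)) := by rw [h]
        _ = D.W E * (l.1 * (os v l + D.h0)) := by rw [← h2]; ring
    exact Nat.eq_of_mul_eq_mul_left hW h4
  have h5 : l.1 ∣ l'.1 :=
    (nonp_cop hD E l.1 _ ha hc').dvd_of_dvd_mul_right (h3 ▸ dvd_mul_right _ _)
  have h6 : l'.1 ∣ l.1 :=
    (nonp_cop hD E l'.1 _ ha' hc).dvd_of_dvd_mul_right (h3 ▸ dvd_mul_right _ _)
  have h7 : l.1 = l'.1 := Nat.dvd_antisymm h5 h6
  have hpos : 0 < l.1 := box_pos _ _ _ ha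
  rw [← h7] at h3
  have h8 : os v l' = os v l := by
    have := Nat.eq_of_mul_eq_mul_left hpos h3
    omega
  have h9 : l.1 * os v l = v - l.2 := Nat.mul_div_cancel' hd
  have h10 : l'.1 * os v l' = v - l'.2 := Nat.mul_div_cancel' hd'
  rw [h8, ← h7, h9] at h10
  exact hne (Prod.ext h7 (by omega))

end Pool.H2.EL
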