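import Mathlib
import Pool.Agent.H2.EL.NonP

/-!
Module COR (short): the hypothesis `Unc` for the forms of a cluster.

`S` has `r = S.card` elements, `1 ≤ r ≤ (box).card * B ≤ H` (`S ⊆ el ⊆ box × range B`). Take an equivalence
`e : Fin r ≃ S` (`S.equivFin`), `α l = sl D E (e l)`, `β l = os v (e l)`: `1 ≤ α ≤ W ≤ H` (`sl_pos`, `sl_le`),
`β ≤ v ≤ B + W ≤ H` (`os_le`), non-proportional by `nonprop`. Apply `hU` with `x = x1` and `x = x0 ≤ N` and
subtract (`Finset.sum_Ico_eq_sub`); the product over `S` is the product over `Fin r` (`Finset.prod_coe_sort`,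
`Equiv.prod_comp`).
-/

set_option autoImplicit false

open Finset

namespace Pool.H2.EL

theorem cor_small {k P : ℕ} {D : Dat k} (hD : D.Ok P) (E B N v H : ℕ)
    (hv : v ∈ Ico B (B + D.W E)) (hH : B + D.W E + (box D.I E).card * B ≤ H) (F : ℕ → ℂ) (δ : ℝ)
    (hU : Unc F D.h0 H N δ) (S : Finset (ℕ × ℕ)) (hS : S ⊆ el D E B v) (hne : S.Nonempty)
    (c : ℕ × ℕ → Bool) (x0 x1 : ℕ) (h01 : x0 ≤ x1) (h1 : x1 ≤ N) :
    ‖∑ t ∈ Ico x0 x1, ∏ l ∈ S, cj (c l) (F (sl D E l * t + os v l))‖ ≤ 2 * (δ * N) := by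
  rw [mem_Ico] at hv
  have hcard : S.card ≤ (box D.I E).card * B := by
    calc S.card ≤ (box D.I E ×ˢ range B).card := by
          apply card_le_card
          intro l hl
          have := (mem_el D).1 (hS hl)
          rw [mem_product, mem_range]
          exact this.1
      _ = (box D.I E).card * B := by rw [card_product, card_range]
  have hpos : 1 ≤ S.card := hne.card_pos
  let e : Fin S.card ≃ S := S.equivFin.symm
  have hel : ∀ l : Fin S.card, ((e l : S) : ℕ × ℕ) ∈ el D E B v := fun l => hS (e l).2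
  have hbox : ∀ l : Fin S.card, ((e l : S) : ℕ × ℕ).1 ∈ box D.I E := fun l =>
    ((mem_el D).1 (hel l)).1.1
  have key : ∀ x : ℕ, x ≤ N →
      ‖∑ t ∈ range x, ∏ l ∈ S, cj (c l) (F (sl D E l * t + os v l))‖ ≤ δ * N := by
    intro x hx
    have h2 := hU S.card hpos (by omega) (fun l => sl D E (e l)) (fun l => os v (e l))
      (fun l => c (e l))
      (fun l => ⟨sl_pos hD E _ (hbox l), by have := sl_le hD E (e l : ℕ × ℕ); omega⟩)
      (fun l => by have := os_le v (e l : ℕ × ℕ); omega)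
      (fun l l' hll => nonprop hD E B v hv.1 _ _ (hel l) (hel l') (by
        intro hh
        apply hll
        exact e.injective (Subtype.ext hh)))
      x hx
    have h3 : ∀ t : ℕ, ∏ l ∈ S, cj (c l) (F (sl D E l * t + os v l)) =
        ∏ l : Fin S.card, cj (c (e l)) (F (sl D E (e l) * t + os v (e l))) := by
      intro t
      rw [← Finset.prod_coe_sort S (fun l => cj (c l) (F (sl D E l * t + os v l)))]
      exact (Equiv.prod_comp e
        (fun l : S => cj (c l) (F (sl D E l * t + os v l)))).symm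
    rw [Finset.sum_congr rfl (fun t _ => h3 t)]
    exact h2
  rw [Finset.sum_Ico_eq_sub _ h01]
  calc _ ≤ ‖∑ t ∈ range x1, ∏ l ∈ S, cj (c l) (F (sl D E l * t + os v l))‖ +
        ‖∑ t ∈ range x0, ∏ l ∈ S, cj (c l) (F (sl D E l * t + os v l))‖ := norm_sub_le _ _
    _ ≤ δ * N + δ * N := add_le_add (key x1 h1) (key x0 (h01.trans h1))
    _ = 2 * (δ * N) := by ring

end Pool.H2.EL
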