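import Mathlib

/-!
Module NUMA (short): the constant of the union bound.

`C1 = (64/ε^2) * (log R + log (4/ε) + 1)` (`R ≥ 1`): if `C1 (s+1) < m` then
`ε^2 m/64 > (s+1)(log R + log(4/ε) + 1) ≥ s log R + log (4/ε)`, so
`R^s * 4 * exp (-(ε^2 m/64)) ≤ R^s * 4 * R^(-s) * (ε/4) = ε`.
-/

set_option autoImplicit false

namespace Pool.H2.EL

lemma numC (ε : ℝ) (hε : 0 < ε) (hε1 : ε ≤ 1) (R : ℝ) (hR : 1 ≤ R) :
    ∃ C1 : ℝ, 1 ≤ C1 ∧ ∀ s m : ℕ, C1 * (s + 1) < m →
      R ^ s * (4 * Real.exp (-(ε ^ 2 * m / 64))) ≤ ε := by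
  have hlR : 0 ≤ Real.log R := Real.log_nonneg hR
  have hle : 0 ≤ Real.log (4 / ε) := by
    apply Real.log_nonneg
    rw [le_div_iff₀ hε]
    linarith
  have hR0 : 0 < R := by linarith
  have hε2 : 0 < ε ^ 2 := by positivity
  have hε3 : ε ^ 2 ≤ 1 := by nlinarith
  refine ⟨64 / ε ^ 2 * (Real.log R + Real.log (4 / ε) + 1), ?_, ?_⟩
  · have h1 : 1 ≤ 64 / ε ^ 2 := by
      rw [le_div_iff₀ hε2]
      linarith
    nlinarith
  · intro s m h
    have h1 : (Real.log R + Real.log (4 / ε) + 1) * (s + 1) < ε ^ 2 * m / 64 := by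
      have h2 := mul_lt_mul_of_pos_left h (show 0 < ε ^ 2 / 64 by positivity)
      have h3 : ε ^ 2 / 64 * (64 / ε ^ 2 * (Real.log R + Real.log (4 / ε) + 1) * (s + 1)) =
          (Real.log R + Real.log (4 / ε) + 1) * (s + 1) := by
        field_simp
      rw [h3] at h2
      linarith
    have hs : (0 : ℝ) ≤ s := Nat.cast_nonneg s
    have h4 : s * Real.log R + Real.log (4 / ε) ≤ ε ^ 2 * m / 64 := by nlinarith
    have h5 : Real.exp (-(ε ^ 2 * m / 64)) ≤
        Real.exp (-(s * Real.log R + Real.log (4 / ε))) := Real.exp_le_exp.2 (by linarith)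
    have h6 : Real.exp (-(s * Real.log R + Real.log (4 / ε))) = (R ^ s)⁻¹ * (ε / 4) := by
      rw [neg_add, Real.exp_add, Real.exp_neg, Real.exp_neg, Real.exp_nat_mul,
        Real.exp_log hR0, Real.exp_log (by positivity), inv_div]
    have h7 : 0 < R ^ s := pow_pos hR0 s
    calc R ^ s * (4 * Real.exp (-(ε ^ 2 * m / 64)))
        ≤ R ^ s * (4 * ((R ^ s)⁻¹ * (ε / 4))) := by
          rw [← h6]
          gcongr
      _ = ε := by field_simp

end Pool.H2.EL
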