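import Mathlib
import Pool.Agent.H2.EL.Alg

/-!
Module REG (short): for a fixed residue the clusters are constant on intervals of `t`.

`elt v t = (el v).filter (sl * t + os < N)` decreases with `t`. For non-empty `T`: if some `t` has
`elt v t = T`, the set of these `t` is convex: for `t₁ ≤ t ≤ t₂` with `elt v t₁ = elt v t₂ = T`,
`T = elt t₂ ⊆ elt t ⊆ elt t₁ = T`. A convex finite set of naturals is `Ico x0 x1` (`x0` = minimum,
`x1` = maximum + 1), contained in `range N`, so `x1 ≤ N`. If there is no such `t`, take `x0 = x1 = 0`.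
-/

set_option autoImplicit false

open Finset

namespace Pool.H2.EL

lemma elt_anti {k : ℕ} (D : Dat k) (E B N v t t' : ℕ) (h : t ≤ t') :
    elt D E B N v t' ⊆ elt D E B N v t := by
  intro l hl
  rw [mem_elt] at hl ⊢
  refine ⟨hl.1, lt_of_le_of_lt ?_ hl.2⟩
  gcongr

open Classical in
theorem region {k P : ℕ} {D : Dat k} (hD : D.Ok P) (E B N v : ℕ) (T : Finset (ℕ × ℕ)) :
    ∃ x0 x1 : ℕ, x0 ≤ x1 ∧ x1 ≤ N ∧
      (range N).filter (fun t => elt D E B N v t = T) = Ico x0 x1 := by
  set S := (range N).filter (fun t => elt D E B N v t = T) with hS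
  rcases S.eq_empty_or_nonempty with h0 | hne
  · exact ⟨0, 0, le_rfl, Nat.zero_le _, by rw [h0]; simp⟩
  · have hmin := S.min'_mem hne
    have hmax := S.max'_mem hne
    have hm : ∀ t, t ∈ S ↔ t < N ∧ elt D E B N v t = T := by
      intro t
      rw [hS, mem_filter, mem_range]
    have hle : S.min' hne ≤ S.max' hne := S.min'_le _ hmax
    refine ⟨S.min' hne, S.max' hne + 1, by omega, ((hm _).1 hmax).1, ?_⟩
    ext t
    rw [mem_Ico]
    constructor
    · intro ht
      exact ⟨S.min'_le _ ht, Nat.lt_succ_of_le (S.le_max' _ ht)⟩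
    · rintro ⟨h1, h2⟩
      have h3 : t ≤ S.max' hne := by omega
      rw [hm]
      refine ⟨lt_of_le_of_lt h3 ((hm _).1 hmax).1, ?_⟩
      apply Finset.Subset.antisymm
      · have := elt_anti D E B N v _ _ h1
        rwa [((hm _).1 hmin).2] at this
      · have := elt_anti D E B N v _ _ h3
        rwa [((hm _).1 hmax).2] at this

end Pool.H2.EL
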