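import Mathlib
import Pool.Agent.H2.EL.Conc
import Pool.Agent.H2.EL.NumA
import Pool.Agent.H2.EL.Cor
import Pool.Agent.H2.EL.Reg
import Pool.Agent.H2.EL.Fac

/-!
Module PERT: the clusters of one shape.

`ls D v T`: number of labels of `T` (plus the divisors of `QQ`, which are the labels for the values of the `g i` on
divisors of `QQ`). `K = {t < N : elt v t = T} = Ico x0 x1` (`region`). Write `z l t = F (sl l * t + os v l)`,
`J = Fin k ⊕ Fin k`, `Λ = (Fin k × ℕ) ⊕ (Fin k × ℕ)`, `lb (inl i) l = inl (i, gcd (os v l + h i) QQ)`,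
`lb (inr i) l = inr (i, lab i v l)`, `S` = the image: `S.card ≤ ls D v T`. For `t ∈ K` put
`y (inl (i,d)) = g i d`, `y (inr (i,ρ)) = g i (fr I (W t + ρ))`: by `factor`,
`GG (sl t + os) = z l t * ∏_j y (lb j l)` for `l ∈ T ⊆ el D E B v` (`Fintype.prod_sum_type`, `Finset.prod_mul_distrib`).
Correlations: `cor_small` gives `η = 2 (δ N)`.
* If `C1 * (ls + 1) < T.card`: let `Bd ⊆ K` be the exceptional set of `conc`; by `conc`, `net ^ S.card ≤ net ^ ls`
  (`net` has at least one element) and `hC1`: `Bd.card ≤ ε (K.card + 2^|T| η)`. On `K \ Bd` the norm is `≤ ε |T|`, on `Bd` it is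
  `≤ |T|`. Total `≤ ε |T| |K| + |T| ε (|K| + 2^|T| η)`.
* Otherwise the sum is `≤ |T| |K| ≤ C1 (ls + 1) |K|`.
-/

set_option autoImplicit false

open Finset

namespace Pool.H2.EL

/-- number of labels -/
noncomputable def ls {k : ℕ} (D : Dat k) (v : ℕ) (T : Finset (ℕ × ℕ)) : ℕ :=
  k * (QQ D.I).divisors.card + ∑ i, (T.image (lab D i v)).card

open Classical in
theorem pert {k P : ℕ} {D : Dat k} (hD : D.Ok P) (E B N v H : ℕ)
    (hv : v ∈ Ico B (B + D.W E)) (hH : B + D.W E + (box D.I E).card * B ≤ H) (F : ℕ → ℂ)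
    (hF : ∀ n, ‖F n‖ ≤ 1) (δ : ℝ) (hδ : 0 ≤ δ) (hU : Unc F D.h0 H N δ)
    (g : Fin k → ArithmeticFunction ℂ) (hg : ∀ i, (g i).IsMultiplicative)
    (hb : ∀ i n, ‖g i n‖ ≤ 1) (ε : ℝ) (hε : 0 < ε) (hε1 : ε ≤ 1) (M : ℕ) (hM : 1 ≤ M)
    (hMk : 4 * (k : ℝ) ≤ ε * M) (C1 : ℝ) (hC0 : 1 ≤ C1)
    (hC1 : ∀ s m : ℕ, C1 * (s + 1) < m →
      ((Pool.H2.TA.net M).card : ℝ) ^ s * (4 * Real.exp (-(ε ^ 2 * m / 64))) ≤ ε)
    (T : Finset (ℕ × ℕ)) (hT : T ⊆ el D E B v) (hTn : T.Nonempty) :
    ∑ t ∈ (range N).filter (fun t => elt D E B N v t = T),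
      ‖∑ l ∈ elt D E B N v t, GG D F g (sl D E l * t + os v l)‖ ≤
      2 * ε * (T.card * ((range N).filter (fun t => elt D E B N v t = T)).card) +
        C1 * (ls D v T + 1) * ((range N).filter (fun t => elt D E B N v t = T)).card +
        T.card * ε * 2 ^ T.card * (2 * (δ * N)) := by
  obtain ⟨x0, x1, h01, h1N, hK⟩ := region hD E B N v T
  have hvB : B ≤ v := (mem_Ico.1 hv).1
  set K := (range N).filter (fun t => elt D E B N v t = T) with hKdef
  set z : ℕ × ℕ → ℕ → ℂ := fun l t => F (sl D E l * t + os v l) with hz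
  have hz1 : ∀ l t, ‖z l t‖ ≤ 1 := fun l t => hF _
  set η : ℝ := 2 * (δ * N) with hη
  have hη0 : 0 ≤ η := by positivity
  have hsum : ∀ t ∈ K, ∑ l ∈ elt D E B N v t, GG D F g (sl D E l * t + os v l) =
      ∑ l ∈ T, GG D F g (sl D E l * t + os v l) := by
    intro t ht
    rw [hKdef, mem_filter] at ht
    rw [ht.2]
  have hG1 : ∀ n, ‖GG D F g n‖ ≤ 1 := by
    intro n
    unfold GG
    rw [norm_mul, norm_prod]
    have h1 := hF n
    have h2 : ∏ i, ‖g i (n + D.h i)‖ ≤ 1 :=
      prod_le_one (fun i _ => norm_nonneg _) (fun i _ => hb i _)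
    calc ‖F n‖ * ∏ i, ‖g i (n + D.h i)‖ ≤ 1 * 1 :=
          mul_le_mul h1 h2 (prod_nonneg fun i _ => norm_nonneg _) zero_le_one
      _ = 1 := one_mul 1
  have htriv : ∀ t, ‖∑ l ∈ T, GG D F g (sl D E l * t + os v l)‖ ≤ T.card := by
    intro t
    refine (norm_sum_le _ _).trans ?_
    refine (sum_le_sum fun l _ => hG1 _).trans ?_
    simp
  rw [sum_congr rfl fun t ht => by rw [hsum t ht]]
  have hls0 : (0 : ℝ) ≤ (ls D v T : ℝ) := Nat.cast_nonneg _
  by_cases hcase : C1 * ((ls D v T : ℝ) + 1) < T.card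
  · -- many elements
    set lb : Fin k ⊕ Fin k → ℕ × ℕ → (Fin k × ℕ) ⊕ (Fin k × ℕ) := fun j l =>
      match j with
      | Sum.inl i => Sum.inl (i, Nat.gcd (os v l + D.h i) (QQ D.I))
      | Sum.inr i => Sum.inr (i, lab D i v l) with hlb
    set S1 : Finset (Fin k × ℕ) := univ ×ˢ (QQ D.I).divisors with hS1
    set S2 : Finset (Fin k × ℕ) := univ.biUnion fun i : Fin k =>
      (T.image (lab D i v)).image (fun ρ => (i, ρ)) with hS2
    set S : Finset ((Fin k × ℕ) ⊕ (Fin k × ℕ)) := S1.disjSum S2 with hS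
    have hQ : QQ D.I ≠ 0 := by
      unfold QQ
      exact prod_ne_zero_iff.2 fun p hp => (hD.prime p hp).ne_zero
    have hScard : S.card ≤ ls D v T := by
      rw [hS, card_disjSum, hS1, card_product]
      unfold ls
      have e1 : (univ : Finset (Fin k)).card = k := by simp
      rw [e1]
      refine Nat.add_le_add_left ?_ _
      rw [hS2]
      refine card_biUnion_le.trans ?_
      exact sum_le_sum fun i _ => card_image_le
    have hSm : ∀ j, ∀ l ∈ T, lb j l ∈ S := by
      intro j l hl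
      cases j with
      | inl i =>
        simp only [hlb, hS, inl_mem_disjSum, hS1, mem_product, mem_univ, true_and]
        exact Nat.mem_divisors.2 ⟨Nat.gcd_dvd_right _ _, hQ⟩
      | inr i =>
        simp only [hlb, hS, inr_mem_disjSum, hS2, mem_biUnion, mem_univ, true_and]
        exact ⟨i, mem_image.2 ⟨_, mem_image.2 ⟨l, hl, rfl⟩, rfl⟩⟩
    have hcor : ∀ S' ⊆ T, S'.Nonempty → ∀ c : ℕ × ℕ → Bool,
        ‖∑ t ∈ K, ∏ l ∈ S', cj (c l) (z l t)‖ ≤ η := by
      intro S' hS' hne c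
      rw [hK]
      exact cor_small hD E B N v H hv hH F δ hU S' (hS'.trans hT) hne c x0 x1 h01 h1N
    have hMJ : 2 * (Fintype.card (Fin k ⊕ Fin k) : ℝ) ≤ ε * M := by
      simp only [Fintype.card_sum, Fintype.card_fin, Nat.cast_add]
      linarith
    have hconc := conc T z hz1 lb S hSm K η hη0 hcor ε hε hε1 M hM hMJ
    set Bd := K.filter (fun t => ∃ y : (Fin k × ℕ) ⊕ (Fin k × ℕ) → ℂ, (∀ a, ‖y a‖ ≤ 1) ∧
      ε * T.card < ‖∑ l ∈ T, z l t * ∏ j, y (lb j l)‖) with hBd
    have hnet : (1 : ℝ) ≤ ((Pool.H2.TA.net M).card : ℝ) := by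
      have : 0 < (Pool.H2.TA.net M).card := card_pos.2 ⟨0, Pool.H2.TA.net_zero M⟩
      exact_mod_cast this
    have hBdc : (Bd.card : ℝ) ≤ ε * (K.card + 2 ^ T.card * η) := by
      have h0 : (0 : ℝ) ≤ K.card + 2 ^ T.card * η := by positivity
      have h2 : ((Pool.H2.TA.net M).card : ℝ) ^ S.card ≤
          ((Pool.H2.TA.net M).card : ℝ) ^ (ls D v T) := pow_le_pow_right₀ hnet hScard
      have h3 := hC1 (ls D v T) T.card hcase
      have h4 : (0 : ℝ) ≤ 4 * Real.exp (-(ε ^ 2 * T.card / 64)) := by positivity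
      calc (Bd.card : ℝ) ≤ ((Pool.H2.TA.net M).card : ℝ) ^ S.card *
            (4 * Real.exp (-(ε ^ 2 * T.card / 64)) * (K.card + 2 ^ T.card * η)) := hconc
        _ = (((Pool.H2.TA.net M).card : ℝ) ^ S.card *
            (4 * Real.exp (-(ε ^ 2 * T.card / 64)))) * (K.card + 2 ^ T.card * η) := by ring
        _ ≤ ε * (K.card + 2 ^ T.card * η) := by
            refine mul_le_mul_of_nonneg_right ?_ h0
            exact (mul_le_mul_of_nonneg_right h2 h4).trans h3
    have hgood : ∀ t ∈ K, t ∉ Bd → ‖∑ l ∈ T, GG D F g (sl D E l * t + os v l)‖ ≤ ε * T.card := by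
      intro t ht hn
      by_contra hcon
      push Not at hcon
      apply hn
      rw [hBd, mem_filter]
      refine ⟨ht, ?_⟩
      refine ⟨fun a => match a with
        | Sum.inl x => g x.1 x.2
        | Sum.inr x => g x.1 (fr D.I (D.W E * t + x.2)), ?_, ?_⟩
      · intro a
        cases a with
        | inl x => exact hb _ _
        | inr x => exact hb _ _
      · refine lt_of_lt_of_eq hcon ?_
        congr 1
        refine sum_congr rfl fun l hl => ?_
        unfold GG
        rw [Fintype.prod_sum_type, ← prod_mul_distrib]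
        congr 1
        refine prod_congr rfl fun i _ => ?_
        exact factor hD E B v t hvB l (hT hl) i (g i) (hg i)
    have hsplit : ∑ t ∈ K, ‖∑ l ∈ T, GG D F g (sl D E l * t + os v l)‖ ≤
        ∑ t ∈ K, (ε * T.card + if t ∈ Bd then (T.card : ℝ) else 0) := by
      refine sum_le_sum fun t ht => ?_
      have hp : (0 : ℝ) ≤ ε * T.card := by positivity
      by_cases hb' : t ∈ Bd
      · rw [if_pos hb']
        linarith [htriv t]
      · rw [if_neg hb', add_zero]
        exact hgood t ht hb'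
    have hBK : Bd ⊆ K := filter_subset _ _
    rw [sum_add_distrib, sum_const, nsmul_eq_mul, ← sum_filter,
      show K.filter (fun t => t ∈ Bd) = Bd from by
        ext t
        rw [mem_filter]
        exact ⟨fun h => h.2, fun h => ⟨hBK h, h⟩⟩, sum_const, nsmul_eq_mul] at hsplit
    have hT0 : (0 : ℝ) ≤ (T.card : ℝ) := Nat.cast_nonneg _
    have hBT : (Bd.card : ℝ) * T.card ≤ ε * (K.card + 2 ^ T.card * η) * T.card :=
      mul_le_mul_of_nonneg_right hBdc hT0
    have hmid : (0 : ℝ) ≤ C1 * (ls D v T + 1) * K.card := by positivity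
    calc ∑ t ∈ K, ‖∑ l ∈ T, GG D F g (sl D E l * t + os v l)‖ ≤
          K.card * (ε * T.card) + Bd.card * T.card := hsplit
      _ ≤ K.card * (ε * T.card) + ε * (K.card + 2 ^ T.card * η) * T.card := by linarith
      _ = 2 * ε * (T.card * K.card) + T.card * ε * 2 ^ T.card * η := by ring
      _ ≤ _ := by linarith
  · push Not at hcase
    have h1 : ∑ t ∈ K, ‖∑ l ∈ T, GG D F g (sl D E l * t + os v l)‖ ≤ T.card * K.card := by
      refine (sum_le_sum fun t _ => htriv t).trans ?_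
      rw [sum_const, nsmul_eq_mul, mul_comm]
    have h2 : (T.card : ℝ) * K.card ≤ C1 * (ls D v T + 1) * K.card :=
      mul_le_mul_of_nonneg_right hcase (Nat.cast_nonneg _)
    have h3 : (0 : ℝ) ≤ 2 * ε * (T.card * K.card) := by positivity
    have h4 : (0 : ℝ) ≤ T.card * ε * 2 ^ T.card * η := by positivity
    linarith

end Pool.H2.EL
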