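import Mathlib
import Pool.Agent.H2.EL.PerT

/-!
Module PERV (short): the clusters over one residue.

Partition `range N` by the value `T = elt D E B N v t ∈ (el D E B v).powerset` (`Finset.sum_fiberwise_of_maps_to` or
`Finset.sum_comm` with indicator functions). `T = ∅`: the inner sum is empty. `T ≠ ∅`: `pert`. The first two terms of
`pert` are `∑_{t ∈ fibre} (2 ε (elt v t).card + C1 (ls (elt v t) + 1))`. The last terms add up to at most
`Kc * (δ N)` with `Kc = ∑_{T ∈ powerset} T.card * ε * 2^T.card * 2`, or any bound such as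
`2^(card el) * card el * 2^(card el) * 2`; here `Kc v` is defined as this sum with `ε ≤ 1` replaced by `1`.
-/

set_option autoImplicit false

open Finset

namespace Pool.H2.EL

/-- constant of the error term -/
noncomputable def Kc {k : ℕ} (D : Dat k) (E B v : ℕ) : ℝ :=
  ∑ T ∈ (el D E B v).powerset, (T.card : ℝ) * 2 ^ T.card * 2

open Classical in
theorem perv {k P : ℕ} {D : Dat k} (hD : D.Ok P) (E B N v H : ℕ)
    (hv : v ∈ Ico B (B + D.W E)) (hH : B + D.W E + (box D.I E).card * B ≤ H) (F : ℕ → ℂ)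
    (hF : ∀ n, ‖F n‖ ≤ 1) (δ : ℝ) (hδ : 0 ≤ δ) (hU : Unc F D.h0 H N δ)
    (g : Fin k → ArithmeticFunction ℂ) (hg : ∀ i, (g i).IsMultiplicative)
    (hb : ∀ i n, ‖g i n‖ ≤ 1) (ε : ℝ) (hε : 0 < ε) (hε1 : ε ≤ 1) (M : ℕ) (hM : 1 ≤ M)
    (hMk : 4 * (k : ℝ) ≤ ε * M) (C1 : ℝ) (hC0 : 1 ≤ C1)
    (hC1 : ∀ s m : ℕ, C1 * (s + 1) < m →
      ((Pool.H2.TA.net M).card : ℝ) ^ s * (4 * Real.exp (-(ε ^ 2 * m / 64))) ≤ ε) :
    ∑ t ∈ range N, ‖∑ l ∈ elt D E B N v t, GG D F g (sl D E l * t + os v l)‖ ≤
      2 * ε * ∑ t ∈ range N, ((elt D E B N v t).card : ℝ) +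
        C1 * ∑ t ∈ range N, (if (elt D E B N v t).Nonempty then
          (ls D v (elt D E B N v t) + 1 : ℝ) else 0) + Kc D E B v * (δ * N) := by
  have hmaps : ∀ t ∈ range N, elt D E B N v t ∈ (el D E B v).powerset := by
    intro t _
    rw [Finset.mem_powerset]
    exact Finset.filter_subset _ _
  have hmain : ∀ T ∈ (el D E B v).powerset,
      ∑ t ∈ (range N).filter (fun t => elt D E B N v t = T),
        ‖∑ l ∈ elt D E B N v t, GG D F g (sl D E l * t + os v l)‖ ≤
      ∑ t ∈ (range N).filter (fun t => elt D E B N v t = T),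
        (2 * ε * ((elt D E B N v t).card : ℝ) +
          C1 * (if (elt D E B N v t).Nonempty then
            (ls D v (elt D E B N v t) + 1 : ℝ) else 0)) +
        (T.card : ℝ) * 2 ^ T.card * 2 * (δ * N) := by
    intro T hT
    have hTs : T ⊆ el D E B v := Finset.mem_powerset.mp hT
    have hsum : ∑ t ∈ (range N).filter (fun t => elt D E B N v t = T),
        (2 * ε * ((elt D E B N v t).card : ℝ) +
          C1 * (if (elt D E B N v t).Nonempty then
            (ls D v (elt D E B N v t) + 1 : ℝ) else 0)) =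
        (((range N).filter (fun t => elt D E B N v t = T)).card : ℝ) *
          (2 * ε * (T.card : ℝ) + C1 * (if T.Nonempty then (ls D v T + 1 : ℝ) else 0)) := by
      rw [← nsmul_eq_mul, ← Finset.sum_const]
      refine Finset.sum_congr rfl fun t ht => ?_
      rw [(Finset.mem_filter.mp ht).2]
    rw [hsum]
    rcases T.eq_empty_or_nonempty with h0 | hne
    · subst h0
      have : ∑ t ∈ (range N).filter (fun t => elt D E B N v t = ∅),
          ‖∑ l ∈ elt D E B N v t, GG D F g (sl D E l * t + os v l)‖ = 0 := by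
        refine Finset.sum_eq_zero fun t ht => ?_
        rw [(Finset.mem_filter.mp ht).2]
        simp
      rw [this]
      simp
    · rw [if_pos hne]
      refine (pert hD E B N v H hv hH F hF δ hδ hU g hg hb ε hε hε1 M hM hMk C1 hC0 hC1 T hTs
        hne).trans ?_
      have h1 : (T.card : ℝ) * ε * 2 ^ T.card * (2 * (δ * N)) ≤
          (T.card : ℝ) * 2 ^ T.card * 2 * (δ * N) := by
        have h2 : (T.card : ℝ) * ε * 2 ^ T.card * (2 * (δ * N)) =
            ε * ((T.card : ℝ) * 2 ^ T.card * 2 * (δ * N)) := by ring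
        rw [h2]
        have h3 : 0 ≤ (T.card : ℝ) * 2 ^ T.card * 2 * (δ * N) := by positivity
        exact mul_le_of_le_one_left h3 hε1
      nlinarith [h1]
  have hL : ∑ t ∈ range N, ‖∑ l ∈ elt D E B N v t, GG D F g (sl D E l * t + os v l)‖ =
      ∑ T ∈ (el D E B v).powerset, ∑ t ∈ (range N).filter (fun t => elt D E B N v t = T),
        ‖∑ l ∈ elt D E B N v t, GG D F g (sl D E l * t + os v l)‖ :=
    (Finset.sum_fiberwise_of_maps_to hmaps _).symm
  rw [hL]
  refine (Finset.sum_le_sum hmain).trans ?_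
  rw [Finset.sum_add_distrib, Finset.sum_fiberwise_of_maps_to hmaps, Finset.sum_add_distrib,
    ← Finset.mul_sum, ← Finset.mul_sum, ← Finset.sum_mul]
  exact le_of_eq rfl

end Pool.H2.EL
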