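import Mathlib
import Pool.Agent.H2.EL.PerV
import Pool.Agent.H2.EL.Idn
import Pool.Agent.H2.EL.Cts
import Pool.Agent.H2.EL.LabC
import Pool.Agent.H2.EL.BoxC

/-!
Module CLS (assembly, numerics): the sum over one class.

`clsA` (exact form). Sum `perv` over `v ∈ Ico B (B+W)` and insert in `idn` (`G = GG D F g`, `‖GG‖ ≤ 1`), with
`sum_elt`, `card_ne`, `lab_count`; `ls = k * τ(QQ) + ∑_i labels`, and `(if Nonempty then ls + 1 else 0) ≤
(k τ(QQ) + 1) * (if Nonempty then 1 else 0) + ∑_i labels`.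
-/

set_option autoImplicit false

open Finset

namespace Pool.H2.EL

lemma GG_norm {k : ℕ} (D : Dat k) (F : ℕ → ℂ) (hF : ∀ n, ‖F n‖ ≤ 1)
    (g : Fin k → ArithmeticFunction ℂ) (hb : ∀ i n, ‖g i n‖ ≤ 1) (n : ℕ) : ‖GG D F g n‖ ≤ 1 := by
  unfold GG
  rw [norm_mul, norm_prod]
  exact mul_le_one₀ (hF n) (prod_nonneg fun _ _ => norm_nonneg _)
    (prod_le_one (fun _ _ => norm_nonneg _) fun i _ => hb i _)

open Classical in
theorem clsA {k P : ℕ} {D : Dat k} (hD : D.Ok P) (hP : 1 ≤ P) (E B N H : ℕ)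
    (hH : B + B + 2 * D.W E + (box D.I E).card * B ≤ H) (F : ℕ → ℂ)
    (hF : ∀ n, ‖F n‖ ≤ 1) (δ : ℝ) (hδ : 0 ≤ δ) (hU : Unc F D.h0 H N δ)
    (g : Fin k → ArithmeticFunction ℂ) (hg : ∀ i, (g i).IsMultiplicative)
    (hb : ∀ i n, ‖g i n‖ ≤ 1) (ε : ℝ) (hε : 0 < ε) (hε1 : ε ≤ 1) (M : ℕ) (hM : 1 ≤ M)
    (hMk : 4 * (k : ℝ) ≤ ε * M) (C1 : ℝ) (hC0 : 1 ≤ C1)
    (hC1 : ∀ s m : ℕ, C1 * (s + 1) < m →
      ((Pool.H2.TA.net M).card : ℝ) ^ s * (4 * Real.exp (-(ε ^ 2 * m / 64))) ≤ ε) :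
    ((box D.I E).card : ℝ) * B * ‖∑ n ∈ (range N).filter D.cls, GG D F g n‖ ≤
      2 * ε * (((box D.I E).card : ℝ) * B * N) +
      C1 * ((k * (QQ D.I).divisors.card + 1 : ℝ) * ((QQ D.I : ℝ) ^ E * N + B) +
        ∑ i, ((B : ℝ) + (QQ D.I : ℝ) ^ E * D.h i) *
          (((QQ D.I ^ (E + 1)).divisors.card : ℝ) * (((N + D.h i : ℕ) : ℝ) / P + 1))) +
      (∑ v ∈ Ico B (B + D.W E), Kc D E B v) * (δ * N) + ((box D.I E).card : ℝ) * B * B := by
  have h1 := idn hD E B N (GG D F g) (GG_norm D F hF g hb)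
  have h2 : ∀ v ∈ Ico B (B + D.W E), _ := fun v hv => perv hD E B N v H hv
    (by omega : B + D.W E + (box D.I E).card * B ≤ H) F hF δ hδ hU g hg hb ε hε hε1 M hM hMk C1
    hC0 hC1
  have h3 := sum_le_sum h2
  rw [sum_add_distrib, sum_add_distrib, ← mul_sum, ← mul_sum, ← sum_mul] at h3
  -- the number of elements
  have h4 : ∑ v ∈ Ico B (B + D.W E), ∑ t ∈ range N, ((elt D E B N v t).card : ℝ) ≤
      ((box D.I E).card : ℝ) * B * N := by
    have h5 := sum_elt hD E B N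
    exact_mod_cast h5
  -- the number of nonempty clusters
  have h5 : ∑ v ∈ Ico B (B + D.W E), ∑ t ∈ range N,
      (if (elt D E B N v t).Nonempty then (1 : ℝ) else 0) ≤ (QQ D.I : ℝ) ^ E * N + B := by
    have h6 := card_ne hD E B N
    have h7 : ((∑ v ∈ Ico B (B + D.W E), ∑ t ∈ range N,
        (if (elt D E B N v t).Nonempty then 1 else 0) : ℕ) : ℝ) ≤
        ((QQ D.I ^ E * N + B : ℕ) : ℝ) := Nat.cast_le.2 h6
    push_cast at h7
    exact h7
  -- the labels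
  have h6 : ∀ i, ∑ v ∈ Ico B (B + D.W E), ∑ t ∈ range N,
      (((elt D E B N v t).image (lab D i v)).card : ℝ) ≤
      ((B : ℝ) + (QQ D.I : ℝ) ^ E * D.h i) *
          (((QQ D.I ^ (E + 1)).divisors.card : ℝ) * (((N + D.h i : ℕ) : ℝ) / P + 1)) := by
    intro i
    have h7 := lab_count hD hP E B N i
    have h8 : ((∑ v ∈ Ico B (B + D.W E), ∑ t ∈ range N,
        ((elt D E B N v t).image (lab D i v)).card : ℕ) : ℝ) ≤
        (((B + QQ D.I ^ E * D.h i) * ((QQ D.I ^ (E + 1)).divisors.card *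
          ((N + D.h i) / P + 1)) : ℕ) : ℝ) := Nat.cast_le.2 h7
    have h9 : (((N + D.h i) / P : ℕ) : ℝ) ≤ ((N + D.h i : ℕ) : ℝ) / P := Nat.cast_div_le
    rw [Nat.cast_sum, Nat.cast_mul, Nat.cast_mul, Nat.cast_add, Nat.cast_add, Nat.cast_mul,
      Nat.cast_pow, Nat.cast_one] at h8
    simp only [Nat.cast_sum] at h8
    refine h8.trans ?_
    gcongr
  have h7 : ∑ v ∈ Ico B (B + D.W E), ∑ t ∈ range N, (if (elt D E B N v t).Nonempty then
      (ls D v (elt D E B N v t) + 1 : ℝ) else 0) ≤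
      (k * (QQ D.I).divisors.card + 1 : ℝ) * ((QQ D.I : ℝ) ^ E * N + B) +
        ∑ i, ((B : ℝ) + (QQ D.I : ℝ) ^ E * D.h i) *
          (((QQ D.I ^ (E + 1)).divisors.card : ℝ) * (((N + D.h i : ℕ) : ℝ) / P + 1)) := by
    have h8 : ∀ v ∈ Ico B (B + D.W E), ∀ t ∈ range N, (if (elt D E B N v t).Nonempty then
        (ls D v (elt D E B N v t) + 1 : ℝ) else 0) ≤
        (k * (QQ D.I).divisors.card + 1 : ℝ) *
          (if (elt D E B N v t).Nonempty then (1 : ℝ) else 0) +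
        ∑ i, (((elt D E B N v t).image (lab D i v)).card : ℝ) := by
      intro v _ t _
      split_ifs with h9
      · unfold ls
        push_cast
        linarith
      · have : (0 : ℝ) ≤ ∑ i, (((elt D E B N v t).image (lab D i v)).card : ℝ) :=
          sum_nonneg fun _ _ => Nat.cast_nonneg _
        linarith
    refine (sum_le_sum fun v hv => sum_le_sum fun t ht => h8 v hv t ht).trans ?_
    simp only [sum_add_distrib, ← mul_sum]
    refine add_le_add ?_ ?_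
    · exact mul_le_mul_of_nonneg_left h5 (by positivity)
    · have h9 : ∑ v ∈ Ico B (B + D.W E), ∑ t ∈ range N,
          ∑ i, (((elt D E B N v t).image (lab D i v)).card : ℝ) =
          ∑ i, ∑ v ∈ Ico B (B + D.W E), ∑ t ∈ range N,
            (((elt D E B N v t).image (lab D i v)).card : ℝ) := by
        exact (sum_congr rfl fun v _ => sum_comm).trans sum_comm
      rw [h9]
      exact sum_le_sum fun i _ => h6 i
  have h8 : 2 * ε * ∑ v ∈ Ico B (B + D.W E), ∑ t ∈ range N, ((elt D E B N v t).card : ℝ) ≤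
      2 * ε * (((box D.I E).card : ℝ) * B * N) := mul_le_mul_of_nonneg_left h4 (by linarith)
  have h9 := mul_le_mul_of_nonneg_left h7 (by linarith : (0 : ℝ) ≤ C1)
  linarith

end Pool.H2.EL
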