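import Mathlib
import Pool.Agent.H2.EL.Cls

/-!
Module CLSB (numerics): `class_bound` from `clsA`.
-/

set_option autoImplicit false

open Finset

namespace Pool.H2.EL

/-- the pure numerics of `class_bound` -/
lemma clsB_num (k : ℕ) (ε A a B N Q C1 T P0 Kt δ ε0 t2 X hs : ℝ) (h : Fin k → ℝ)
    (hε : 0 < ε) (ha : 1 ≤ a) (hB : 1 ≤ B) (hA : A = a * B) (hN : 0 ≤ N) (hC : 1 ≤ C1)
    (hT : 1 ≤ T) (hQ : 1 ≤ Q)
    (h0 : 0 ≤ ε0) (hε0 : ε0 ≤ ε / 16)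
    (hB1 : 16 * C1 * T * Q ≤ ε * B) (hB2 : ∀ i, Q * h i ≤ B) (hh : ∀ i, 0 ≤ h i)
    (hhN : ∀ i, h i ≤ N) (ht0 : 0 ≤ t2) (ht : t2 ≤ 2 * a) (hP : 64 * k * C1 ≤ ε * P0) (hP1 : 1 ≤ P0)
    (hKt : 0 ≤ Kt) (hδ : 16 * ((Kt + 1) * δ) = ε)
    (hN1 : 16 * C1 * T ≤ ε * N) (hN2 : 64 * C1 * k ≤ ε * N) (hN3 : 16 * B ≤ ε * N)
    (hX : A * X ≤ 2 * ε0 * (A * N) + C1 * (T * (Q * N + B) +
        ∑ i, (B + Q * h i) * (t2 * ((N + h i) / P0 + 1))) + Kt * (δ * N) + A * B) :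
    X ≤ ε * N := by
  have hA1 : 1 ≤ A := by rw [hA]; nlinarith
  have hA0 : 0 < A := by linarith
  have hBA : B ≤ A := by rw [hA]; nlinarith
  have hP00 : 0 < P0 := by linarith
  have hk0 : (0 : ℝ) ≤ k := Nat.cast_nonneg k
  have hεN : 0 ≤ ε * N := by positivity
  -- term 1
  have e1 : 2 * ε0 * (A * N) ≤ (ε * N * A) * (2 / 16) := by
    have : 0 ≤ A * N := by positivity
    nlinarith
  -- term 2
  have e2 : C1 * (T * (Q * N)) ≤ (ε * N * A) * (1 / 16) := by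
    have h1 : C1 * T * Q * N ≤ (ε * B / 16) * N := mul_le_mul_of_nonneg_right (by linarith) hN
    have h2 : (ε * B / 16) * N ≤ (ε * A / 16) * N :=
      mul_le_mul_of_nonneg_right (by nlinarith) hN
    nlinarith
  -- term 3
  have e3 : C1 * (T * B) ≤ (ε * N * A) * (1 / 16) := by
    have h1 : C1 * T * B ≤ (ε * N / 16) * B := mul_le_mul_of_nonneg_right (by linarith) (by linarith)
    have h2 : (ε * N / 16) * B ≤ (ε * N / 16) * A := mul_le_mul_of_nonneg_left hBA (by positivity)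
    nlinarith
  -- term 4
  have e4 : C1 * (∑ i, (B + Q * h i) * (t2 * ((N + h i) / P0 + 1))) ≤ (ε * N * A) * (3 / 16) := by
    have hi : ∀ i ∈ (Finset.univ : Finset (Fin k)), (B + Q * h i) * (t2 * ((N + h i) / P0 + 1)) ≤
        (2 * B) * ((2 * a) * (2 * N / P0 + 1)) := by
      intro i _
      have hQh : 0 ≤ Q * h i := mul_nonneg (by linarith) (hh i)
      have h1 : (N + h i) / P0 ≤ 2 * N / P0 := by
        apply div_le_div_of_nonneg_right _ hP00.le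
        linarith [hhN i]
      have h2 : 0 ≤ (N + h i) / P0 := div_nonneg (by linarith [hh i]) hP00.le
      apply mul_le_mul (by linarith [hB2 i]) _ _ (by linarith)
      · apply mul_le_mul ht (by linarith) (by linarith) (by linarith)
      · exact mul_nonneg ht0 (by linarith)
    have hs1 := Finset.sum_le_sum hi
    rw [Finset.sum_const, Finset.card_univ, Fintype.card_fin, nsmul_eq_mul] at hs1
    have hd : 64 * k * C1 * (N / P0) ≤ ε * N := by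
      have h3 : 64 * k * C1 * (N / P0) = (64 * k * C1) * N / P0 := by ring
      rw [h3, div_le_iff₀ hP00]
      nlinarith
    calc C1 * (∑ i, (B + Q * h i) * (t2 * ((N + h i) / P0 + 1)))
        ≤ C1 * (k * ((2 * B) * ((2 * a) * (2 * N / P0 + 1)))) :=
          mul_le_mul_of_nonneg_left hs1 (by linarith)
      _ = A * (8 * k * C1 * (N / P0) + 4 * C1 * k) := by rw [hA]; ring
      _ ≤ A * (ε * N * (3 / 16)) := mul_le_mul_of_nonneg_left (by linarith) hA0.le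
      _ = (ε * N * A) * (3 / 16) := by ring
  -- term 5
  have e5 : Kt * (δ * N) ≤ (ε * N * A) * (1 / 16) := by
    have hδ0 : 0 < δ := by
      by_contra hcon
      push Not at hcon
      have : (Kt + 1) * δ ≤ 0 := mul_nonpos_of_nonneg_of_nonpos (by linarith) hcon
      linarith
    have h0 : (Kt + 1) * δ = Kt * δ + δ := by ring
    rw [h0] at hδ
    have h1 : Kt * δ ≤ ε / 16 := by linarith
    have h2 : Kt * δ * N ≤ ε / 16 * N := mul_le_mul_of_nonneg_right h1 hN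
    have h3 : ε * N ≤ ε * N * A := le_mul_of_one_le_right hεN hA1
    calc Kt * (δ * N) = Kt * δ * N := by ring
      _ ≤ ε / 16 * N := h2
      _ = (ε * N) * (1 / 16) := by ring
      _ ≤ (ε * N * A) * (1 / 16) := mul_le_mul_of_nonneg_right h3 (by norm_num)
  -- term 6
  have e6 : A * B ≤ (ε * N * A) * (1 / 16) := by
    have h1 : A * B ≤ A * (ε * N / 16) := mul_le_mul_of_nonneg_left (by linarith) hA0.le
    calc A * B ≤ A * (ε * N / 16) := h1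
      _ = (ε * N * A) * (1 / 16) := by ring
  have hfin : A * X ≤ A * (ε * N) := by
    have : C1 * (T * (Q * N + B) + ∑ i, (B + Q * h i) * (t2 * ((N + h i) / P0 + 1))) =
      C1 * (T * (Q * N)) + C1 * (T * B) +
        C1 * (∑ i, (B + Q * h i) * (t2 * ((N + h i) / P0 + 1))) := by ring
    rw [this] at hX
    have h9 : 0 ≤ ε * N * A := by positivity
    have h10 : A * (ε * N) = ε * N * A := by ring
    rw [h10]
    generalize C1 * (∑ i, (B + Q * h i) * (t2 * ((N + h i) / P0 + 1))) = Z at e4 hX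
    generalize ε * N * A = Y at *
    generalize C1 * (T * (Q * N)) = Z2 at *
    generalize C1 * (T * B) = Z3 at *
    generalize Kt * (δ * N) = Z4 at *
    generalize 2 * ε0 * (A * N) = Z5 at *
    generalize A * B = Z6 at *
    generalize A * X = Z7 at *
    linarith
  exact le_of_mul_le_mul_left hfin hA0

theorem class_bound (k : ℕ) (ε : ℝ) (hε : 0 < ε) : ∃ P0 : ℕ, 1 ≤ P0 ∧ ∀ D : Dat k, D.Ok P0 →
    ∃ (H : ℕ) (δ : ℝ) (N0 : ℕ), 0 < δ ∧ ∀ N : ℕ, N0 ≤ N → ∀ F : ℕ → ℂ, (∀ n, ‖F n‖ ≤ 1) →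
      Unc F D.h0 H N δ → ∀ g : Fin k → ArithmeticFunction ℂ, (∀ i, (g i).IsMultiplicative) →
      (∀ i n, ‖g i n‖ ≤ 1) →
      ∀ S : Finset ℕ, (∀ n, n ∈ S ↔ n < N ∧ D.cls n) → ‖∑ n ∈ S, GG D F g n‖ ≤ ε * N := by
  classical
  obtain ⟨ε0, hε0, hε01, hε0e⟩ : ∃ ε0 : ℝ, 0 < ε0 ∧ ε0 ≤ 1 ∧ ε0 ≤ ε / 16 :=
    ⟨min (ε / 16) 1, lt_min (by linarith) one_pos, min_le_right _ _, min_le_left _ _⟩
  obtain ⟨M, hM1, hMk⟩ : ∃ M : ℕ, 1 ≤ M ∧ 4 * (k : ℝ) ≤ ε0 * M := by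
    refine ⟨⌈4 * (k : ℝ) / ε0⌉₊ + 1, by omega, ?_⟩
    have h1 : 4 * (k : ℝ) / ε0 ≤ (⌈4 * (k : ℝ) / ε0⌉₊ : ℝ) := Nat.le_ceil _
    rw [div_le_iff₀ hε0] at h1
    push_cast
    nlinarith
  have hR : (1 : ℝ) ≤ ((Pool.H2.TA.net M).card : ℝ) := by
    have : 1 ≤ (Pool.H2.TA.net M).card := Finset.card_pos.2 ⟨0, Pool.H2.TA.net_zero M⟩
    exact_mod_cast this
  obtain ⟨C1, hC0, hC1⟩ := numC ε0 hε0 hε01 _ hR
  refine ⟨⌈64 * (k : ℝ) * C1 / ε⌉₊ + 1, by omega, ?_⟩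
  set P0 : ℕ := ⌈64 * (k : ℝ) * C1 / ε⌉₊ + 1 with hP0
  have hP01 : 1 ≤ P0 := by omega
  have hPb : 64 * (k : ℝ) * C1 ≤ ε * P0 := by
    have h1 : 64 * (k : ℝ) * C1 / ε ≤ (⌈64 * (k : ℝ) * C1 / ε⌉₊ : ℝ) := Nat.le_ceil _
    rw [div_le_iff₀ hε] at h1
    rw [hP0]
    push_cast
    nlinarith
  intro D hD
  set E : ℕ := 2 * D.I.card with hE
  obtain ⟨B, hB1, hBh, hBC⟩ : ∃ B : ℕ, 1 ≤ B ∧ (∀ i, QQ D.I ^ E * D.h i ≤ B) ∧
      16 * C1 * (k * (QQ D.I).divisors.card + 1 : ℝ) * (QQ D.I : ℝ) ^ E ≤ ε * B := by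
    refine ⟨1 + ∑ i, QQ D.I ^ E * D.h i +
      ⌈16 * C1 * (k * (QQ D.I).divisors.card + 1 : ℝ) * (QQ D.I : ℝ) ^ E / ε⌉₊, by omega, ?_, ?_⟩
    · intro i
      have : QQ D.I ^ E * D.h i ≤ ∑ i, QQ D.I ^ E * D.h i :=
        Finset.single_le_sum (f := fun i => QQ D.I ^ E * D.h i) (fun _ _ => Nat.zero_le _)
          (Finset.mem_univ i)
      omega
    · have h1 := Nat.le_ceil
        (16 * C1 * (k * (QQ D.I).divisors.card + 1 : ℝ) * (QQ D.I : ℝ) ^ E / ε)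
      rw [div_le_iff₀ hε] at h1
      have h2 : (0 : ℝ) ≤ ((∑ i, QQ D.I ^ E * D.h i : ℕ) : ℝ) := Nat.cast_nonneg _
      rw [Nat.cast_add, Nat.cast_add, Nat.cast_one]
      nlinarith
  set Kt : ℝ := ∑ v ∈ Ico B (B + D.W E), Kc D E B v with hKt
  have hKt0 : 0 ≤ Kt := by
    rw [hKt]
    refine Finset.sum_nonneg fun v _ => ?_
    unfold Kc
    exact Finset.sum_nonneg fun T _ => by positivity
  have hδ0 : 0 < ε / (16 * (Kt + 1)) := by positivity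
  set Tt : ℝ := (k * (QQ D.I).divisors.card + 1 : ℝ) with hTt
  have hTt1 : 1 ≤ Tt := by
    rw [hTt]
    have : (0 : ℝ) ≤ (k : ℝ) * (QQ D.I).divisors.card := by positivity
    linarith
  refine ⟨B + B + 2 * D.W E + (box D.I E).card * B, ε / (16 * (Kt + 1)),
    ⌈16 * C1 * Tt / ε⌉₊ + ⌈64 * C1 * k / ε⌉₊ + ⌈16 * (B : ℝ) / ε⌉₊ + ∑ i, D.h i, hδ0, ?_⟩
  intro N hN F hF hU g hg hb S hS
  have hSe : S = (range N).filter D.cls := by
    ext n
    rw [hS, mem_filter, mem_range]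
  rw [hSe]
  have hmain := clsA hD hP01 E B N _ le_rfl F hF _ hδ0.le hU g hg hb ε0 hε0 hε01 M hM1 hMk C1 hC0
    hC1
  have hQ1 : (1 : ℝ) ≤ (QQ D.I : ℝ) ^ E := by
    have : (1 : ℝ) ≤ (QQ D.I : ℝ) := by exact_mod_cast QQ_pos D.I hD.prime
    exact one_le_pow₀ this
  have ha1 : (1 : ℝ) ≤ ((box D.I E).card : ℝ) := by exact_mod_cast box_card_pos D.I hD.prime E
  have hN1 : 16 * C1 * Tt ≤ ε * N := by
    have h1 := Nat.le_ceil (16 * C1 * Tt / ε)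
    rw [div_le_iff₀ hε] at h1
    have h2 : (⌈16 * C1 * Tt / ε⌉₊ : ℝ) ≤ N := by
      have : ⌈16 * C1 * Tt / ε⌉₊ ≤ N := by omega
      exact_mod_cast this
    nlinarith
  have hN2 : 64 * C1 * k ≤ ε * N := by
    have h1 := Nat.le_ceil (64 * C1 * k / ε)
    rw [div_le_iff₀ hε] at h1
    have h2 : (⌈64 * C1 * k / ε⌉₊ : ℝ) ≤ N := by
      have : ⌈64 * C1 * k / ε⌉₊ ≤ N := by omega
      exact_mod_cast this
    nlinarith
  have hN3 : 16 * (B : ℝ) ≤ ε * N := by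
    have h1 := Nat.le_ceil (16 * (B : ℝ) / ε)
    rw [div_le_iff₀ hε] at h1
    have h2 : (⌈16 * (B : ℝ) / ε⌉₊ : ℝ) ≤ N := by
      have : ⌈16 * (B : ℝ) / ε⌉₊ ≤ N := by omega
      exact_mod_cast this
    nlinarith
  refine clsB_num k ε (((box D.I E).card : ℝ) * B) ((box D.I E).card : ℝ) B N ((QQ D.I : ℝ) ^ E) C1
    Tt P0 Kt (ε / (16 * (Kt + 1))) ε0 ((QQ D.I ^ (E + 1)).divisors.card : ℝ) _ 0
    (fun i => (D.h i : ℝ)) hε ha1 (by exact_mod_cast hB1) rfl (Nat.cast_nonneg _) hC0 hTt1 hQ1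
    hε0.le hε0e hBC ?_ (fun i => Nat.cast_nonneg _) ?_ (Nat.cast_nonneg _) ?_ hPb
    (by exact_mod_cast hP01) hKt0 ?_ hN1 hN2 hN3 ?_
  · intro i
    have := hBh i
    exact_mod_cast this
  · intro i
    have h1 : D.h i ≤ ∑ i, D.h i :=
      Finset.single_le_sum (f := fun i => D.h i) (fun _ _ => Nat.zero_le _) (Finset.mem_univ i)
    have : D.h i ≤ N := by omega
    exact_mod_cast this
  · have := box_double D.I hD.prime E (by omega)
    exact_mod_cast this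
  · field_simp
  · simpa only [Nat.cast_add] using hmain

end Pool.H2.EL
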