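import Mathlib

/-!
Module BLKS (short): disjoint blocks of primes of mass between 1 and 2.

`∑ 1/p` over the primes diverges (`Nat.Primes.not_summable_one_div`, or
`not_summable_one_div_on_primes`-like), so for every `P` the primes in `(P, Q]` have mass `≥ 1` for some
`Q`; take the least such `Q`: the mass is `< 1 + 1/Q ≤ 2`. `blks`: induction on `m`: the next block uses primes
larger than `P` and than all primes of the earlier blocks.
-/

set_option autoImplicit false

open Finset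

namespace Pool.H2.EL

lemma blk_one (P : ℕ) : ∃ I : Finset ℕ, (∀ p ∈ I, p.Prime ∧ P < p) ∧
    1 ≤ ∑ p ∈ I, (1 : ℝ) / p ∧ ∑ p ∈ I, (1 : ℝ) / p ≤ 2 := by
  classical
  obtain ⟨f, hf⟩ : ∃ f : ℕ → ℝ, f = Set.indicator {p | p.Prime} (fun n : ℕ => (1 : ℝ) / n) :=
    ⟨_, rfl⟩
  have hf0 : ∀ n, 0 ≤ f n := by
    intro n
    rw [hf]
    exact Set.indicator_nonneg (fun _ _ => by positivity) n
  have hsum : ∀ Q, ∑ p ∈ (Ico (P + 1) Q).filter Nat.Prime, (1 : ℝ) / p =
      ∑ n ∈ Ico (P + 1) Q, f n := by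
    intro Q
    rw [sum_filter]
    refine sum_congr rfl fun n _ => ?_
    rw [hf, Set.indicator_apply]
    rfl
  have hex : ∃ Q, 1 ≤ ∑ p ∈ (Ico (P + 1) Q).filter Nat.Prime, (1 : ℝ) / p := by
    have h1 : ¬ Summable f := by
      rw [hf]
      exact not_summable_one_div_on_primes
    have h2 := (not_summable_iff_tendsto_nat_atTop_of_nonneg hf0).1 h1
    obtain ⟨Q, hQ1, hQ2⟩ := (((h2.eventually_ge_atTop (1 + ∑ i ∈ range (P + 1), f i)).and
      (Filter.eventually_ge_atTop (P + 1)))).exists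
    refine ⟨Q, ?_⟩
    rw [hsum]
    rw [← sum_range_add_sum_Ico f hQ2] at hQ1
    linarith
  obtain ⟨Q, hQ, hmin⟩ : ∃ Q, (1 ≤ ∑ p ∈ (Ico (P + 1) Q).filter Nat.Prime, (1 : ℝ) / p) ∧
      ∀ R < Q, ¬ 1 ≤ ∑ p ∈ (Ico (P + 1) R).filter Nat.Prime, (1 : ℝ) / p :=
    ⟨Nat.find hex, Nat.find_spec hex, fun R hR => Nat.find_min hex hR⟩
  refine ⟨(Ico (P + 1) Q).filter Nat.Prime, ?_, hQ, ?_⟩
  · intro p hp
    rw [mem_filter, mem_Ico] at hp
    exact ⟨hp.2, hp.1.1⟩
  · rcases Nat.lt_or_ge (P + 1) Q with h3 | h3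
    · obtain ⟨R, rfl⟩ : ∃ R, Q = R + 1 := ⟨Q - 1, by omega⟩
      have h4 := not_le.1 (hmin R (Nat.lt_succ_self R))
      rw [hsum] at h4 ⊢
      rw [sum_Ico_succ_top (by omega)]
      have h5 : f R ≤ 1 := by
        rw [hf, Set.indicator_apply]
        split_ifs
        · rcases Nat.eq_zero_or_pos R with h6 | h6
          · rw [h6]
            simp
          · rw [div_le_one (by exact_mod_cast h6)]
            exact_mod_cast h6
        · exact zero_le_one
      linarith
    · rw [Ico_eq_empty_of_le h3]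
      simp

theorem blks (m P : ℕ) : ∃ I : ℕ → Finset ℕ, (∀ j, j < m → (∀ p ∈ I j, p.Prime ∧ P < p) ∧
    1 ≤ ∑ p ∈ I j, (1 : ℝ) / p ∧ ∑ p ∈ I j, (1 : ℝ) / p ≤ 2) ∧
    ∀ i j, i < m → j < m → i ≠ j → Disjoint (I i) (I j) := by
  classical
  induction m with
  | zero => exact ⟨fun _ => ∅, fun j hj => absurd hj (Nat.not_lt_zero j),
      fun i j hi => absurd hi (Nat.not_lt_zero i)⟩
  | succ m ih =>
    obtain ⟨I, hI, hdis⟩ := ih
    obtain ⟨J, hJ, hJ1, hJ2⟩ := blk_one (P + ∑ j ∈ range m, ∑ p ∈ I j, p)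
    have hnew : ∀ i, i < m → Disjoint (I i) J := by
      intro i hi
      rw [Finset.disjoint_left]
      intro p hp hpJ
      have h1 := (hJ p hpJ).2
      have h2 : p ≤ ∑ p ∈ I i, p := single_le_sum (f := fun p => p) (fun _ _ => Nat.zero_le _) hp
      have h3 : ∑ p ∈ I i, p ≤ ∑ j ∈ range m, ∑ p ∈ I j, p :=
        single_le_sum (f := fun j => ∑ p ∈ I j, p) (fun _ _ => Nat.zero_le _) (mem_range.2 hi)
      omega
    refine ⟨fun j => if j < m then I j else J, ?_, ?_⟩
    · intro j hj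
      by_cases h : j < m
      · beta_reduce
        rw [if_pos h]
        exact hI j h
      · beta_reduce
        rw [if_neg h]
        exact ⟨fun p hp => ⟨(hJ p hp).1, by have := (hJ p hp).2; omega⟩, hJ1, hJ2⟩
    · intro i j hi hj hij
      beta_reduce
      by_cases h1 : i < m <;> by_cases h2 : j < m
      · rw [if_pos h1, if_pos h2]
        exact hdis i j h1 h2 hij
      · rw [if_pos h1, if_neg h2]
        exact hnew i h1
      · rw [if_neg h1, if_pos h2]
        exact (hnew j h2).symm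
      · omega

end Pool.H2.EL
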