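import Mathlib

/-!
Module DEN: densities of periodic predicates.

`den Q W` = (number of `n < W` with `Q n`)/`W`. `den_mul`: Chinese remainder: `n ↦ (n % W, n % W')` is a bijection from
`range (W * W')` to `range W × range W'` (`Nat.chineseRemainder`, or injective + equal cardinality), and
`Q n ↔ Q (n % W)` for a predicate of period `W`. `den_pi`: induction over the finset with `den_mul`
(`∏` over the rest is coprime to `W i`: `Nat.Coprime.prod_right`; periodicity mod a product: `per_mul`).
`den_count`: the numbers `n < N` with `Q n`: blocks of length `W` (`Nat.count_modEq_card`-like, or by strong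
induction on `N`: `N < W`: at most `den Q W * W ≤ W`..., `N ≥ W`: shift by `W`).
-/

set_option autoImplicit false

open Finset

namespace Pool.H2.EL

open Classical in
/-- density of a periodic predicate -/
noncomputable def den (Q : ℕ → Prop) (W : ℕ) : ℝ := (((range W).filter Q).card : ℝ) / W

lemma per_mul (Q : ℕ → Prop) (W : ℕ) (hQ : ∀ n, Q (n + W) ↔ Q n) (m n : ℕ) :
    Q (n + m * W) ↔ Q n := by
  induction m with
  | zero => simp
  | succ m ih =>
    rw [← ih, ← hQ (n + m * W)]
    have : n + (m + 1) * W = n + m * W + W := by ring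
    rw [this]

lemma per_mod (Q : ℕ → Prop) (W : ℕ) (hQ : ∀ n, Q (n + W) ↔ Q n) (n : ℕ) :
    Q (n % W) ↔ Q n := by
  rw [← per_mul Q W hQ (n / W) (n % W)]
  have : n % W + n / W * W = n := by rw [mul_comm]; exact Nat.mod_add_div n W
  rw [this]

lemma den_eq (Q : ℕ → Prop) [DecidablePred Q] (W : ℕ) :
    den Q W = (((range W).filter Q).card : ℝ) / W := by
  unfold den
  congr

lemma den_nonneg (Q : ℕ → Prop) (W : ℕ) : 0 ≤ den Q W := by
  unfold den
  positivity

lemma den_le_one (Q : ℕ → Prop) (W : ℕ) : den Q W ≤ 1 := by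
  classical
  unfold den
  apply div_le_one_of_le₀ _ (Nat.cast_nonneg _)
  have := card_filter_le (range W) Q
  rw [card_range] at this
  exact_mod_cast this

lemma den_not (Q : ℕ → Prop) (W : ℕ) (hW : 1 ≤ W) : den (fun n => ¬ Q n) W = 1 - den Q W := by
  classical
  rw [den_eq, den_eq]
  have hW' : (W : ℝ) ≠ 0 := by positivity
  have h := card_filter_add_card_filter_not (s := range W) Q
  rw [card_range] at h
  have h2 : (((range W).filter Q).card : ℝ) + (((range W).filter (fun n => ¬ Q n)).card : ℝ) = W := by
    exact_mod_cast h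
  field_simp
  linarith

theorem den_mul (Q Q' : ℕ → Prop) (W W' : ℕ) (hW : 1 ≤ W) (hW' : 1 ≤ W')
    (hc : Nat.Coprime W W') (hQ : ∀ n, Q (n + W) ↔ Q n) (hQ' : ∀ n, Q' (n + W') ↔ Q' n) :
    den (fun n => Q n ∧ Q' n) (W * W') = den Q W * den Q' W' := by
  classical
  rw [den_eq, den_eq, den_eq, div_mul_div_comm, ← Nat.cast_mul, ← Nat.cast_mul, ← card_product]
  congr 2
  refine card_bij' (fun n _ => (n % W, n % W'))
    (fun x _ => (Nat.chineseRemainder hc x.1 x.2 : ℕ)) ?_ ?_ ?_ ?_
  · intro n hn
    rw [mem_filter, mem_range] at hn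
    simp only [mem_product, mem_filter, mem_range]
    exact ⟨⟨Nat.mod_lt _ hW, (per_mod Q W hQ n).2 hn.2.1⟩,
      ⟨Nat.mod_lt _ hW', (per_mod Q' W' hQ' n).2 hn.2.2⟩⟩
  · intro x hx
    simp only [mem_product, mem_filter, mem_range] at hx
    rw [mem_filter, mem_range]
    refine ⟨Nat.chineseRemainder_lt_mul hc _ _ (by omega) (by omega), ?_, ?_⟩
    · rw [← per_mod Q W hQ, (Nat.chineseRemainder hc x.1 x.2).2.1, per_mod Q W hQ]
      exact hx.1.2
    · rw [← per_mod Q' W' hQ', (Nat.chineseRemainder hc x.1 x.2).2.2, per_mod Q' W' hQ']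
      exact hx.2.2
  · intro n hn
    rw [mem_filter, mem_range] at hn
    have h1 := Nat.chineseRemainder_lt_mul hc (n % W) (n % W') (by omega) (by omega)
    have h2 : (Nat.chineseRemainder hc (n % W) (n % W') : ℕ) ≡ n [MOD W * W'] := by
      rw [← Nat.modEq_and_modEq_iff_modEq_mul hc]
      exact ⟨(Nat.chineseRemainder hc (n % W) (n % W')).2.1.trans (Nat.mod_modEq n W),
        (Nat.chineseRemainder hc (n % W) (n % W')).2.2.trans (Nat.mod_modEq n W')⟩
    exact Nat.ModEq.eq_of_lt_of_lt h2 h1 hn.1
  · intro x hx
    simp only [mem_product, mem_filter, mem_range] at hx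
    ext
    · have := (Nat.chineseRemainder hc x.1 x.2).2.1
      change (Nat.chineseRemainder hc x.1 x.2 : ℕ) % W = x.1
      rw [this]
      exact Nat.mod_eq_of_lt hx.1.1
    · have := (Nat.chineseRemainder hc x.1 x.2).2.2
      change (Nat.chineseRemainder hc x.1 x.2 : ℕ) % W' = x.2
      rw [this]
      exact Nat.mod_eq_of_lt hx.2.1

theorem den_pi {ι : Type} [DecidableEq ι] (s : Finset ι) (Q : ι → ℕ → Prop) (W : ι → ℕ)
    (hW : ∀ i ∈ s, 1 ≤ W i) (hper : ∀ i ∈ s, ∀ n, Q i (n + W i) ↔ Q i n)
    (hc : ∀ i ∈ s, ∀ j ∈ s, i ≠ j → Nat.Coprime (W i) (W j)) :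
    den (fun n => ∀ i ∈ s, Q i n) (∏ i ∈ s, W i) = ∏ i ∈ s, den (Q i) (W i) := by
  classical
  induction s using Finset.induction_on with
  | empty =>
    simp [den]
  | insert a s ha ih =>
    rw [prod_insert ha, prod_insert ha, ← ih (fun i hi => hW i (mem_insert_of_mem hi))
      (fun i hi => hper i (mem_insert_of_mem hi))
      (fun i hi j hj => hc i (mem_insert_of_mem hi) j (mem_insert_of_mem hj))]
    rw [← den_mul (Q a) (fun n => ∀ i ∈ s, Q i n) (W a) (∏ i ∈ s, W i) (hW a (mem_insert_self _ _))
      (Nat.succ_le_of_lt (Finset.prod_pos fun i hi => hW i (mem_insert_of_mem hi)))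
      (Nat.Coprime.prod_right fun i hi => hc a (mem_insert_self _ _) i (mem_insert_of_mem hi)
        (fun h => ha (h ▸ hi)))
      (hper a (mem_insert_self _ _))]
    · congr 1
      ext n
      simp only [mem_insert, forall_eq_or_imp]
    · intro n
      apply forall_congr'
      intro i
      apply imp_congr_right
      intro hi
      have : (∏ i ∈ s, W i) = (∏ j ∈ s.erase i, W j) * W i := (prod_erase_mul s W hi).symm
      rw [this]
      exact per_mul (Q i) (W i) (hper i (mem_insert_of_mem hi)) _ n

open Classical in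
theorem den_count (Q : ℕ → Prop) (W : ℕ) (hW : 1 ≤ W) (hQ : ∀ n, Q (n + W) ↔ Q n) (N : ℕ) :
    (((range N).filter Q).card : ℝ) ≤ den Q W * N + W := by
  have hW' : (0 : ℝ) < W := by exact_mod_cast hW
  have key : ∀ q : ℕ, ((range (q * W)).filter Q).card = q * ((range W).filter Q).card := by
    intro q
    induction q with
    | zero => simp
    | succ q ih =>
      have h1 : range ((q + 1) * W) = range (q * W) ∪ (range W).map ⟨fun n => n + q * W,
          fun a b h => by simpa using h⟩ := by
        ext n
        simp only [mem_range, mem_union, mem_map, Function.Embedding.coeFn_mk, add_mul, one_mul]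
        constructor
        · intro h
          by_cases h2 : n < q * W
          · exact Or.inl h2
          · exact Or.inr ⟨n - q * W, by omega, by omega⟩
        · rintro (h | ⟨a, ha, rfl⟩)
          · omega
          · omega
      rw [h1, filter_union, card_union_of_disjoint, ih, filter_map, card_map]
      · have h2 : (range W).filter (Q ∘ ⇑(⟨fun n => n + q * W,
          fun a b h => by simpa using h⟩ : ℕ ↪ ℕ)) = (range W).filter Q := by
          apply filter_congr
          intro n _
          exact per_mul Q W hQ q n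
        rw [h2]
        ring
      · rw [Finset.disjoint_left]
        intro n hn hn'
        simp only [mem_filter, mem_range, mem_map, Function.Embedding.coeFn_mk] at hn hn'
        obtain ⟨⟨a, ha, rfl⟩, _⟩ := hn'
        omega
  have h1 : (range N).filter Q ⊆ (range ((N / W) * W)).filter Q ∪ Ico (N / W * W) N := by
    intro n hn
    rw [mem_filter, mem_range] at hn
    rw [mem_union, mem_filter, mem_range, mem_Ico]
    by_cases h : n < N / W * W
    · exact Or.inl ⟨h, hn.2⟩
    · exact Or.inr ⟨by omega, hn.1⟩
  have h2 := (card_le_card h1).trans (card_union_le _ _)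
  rw [key, Nat.card_Ico] at h2
  have h3 : N - N / W * W ≤ W := by
    have := Nat.mod_lt N hW
    have h4 := Nat.div_add_mod N W
    rw [mul_comm] at h4
    omega
  have h4 : (((range N).filter Q).card : ℝ) ≤ ((N / W : ℕ) : ℝ) * ((range W).filter Q).card + W := by
    have : ((range N).filter Q).card ≤ N / W * ((range W).filter Q).card + W := by omega
    exact_mod_cast this
  refine h4.trans ?_
  have h5 : ((N / W : ℕ) : ℝ) ≤ N / W := Nat.cast_div_le
  unfold den
  have h6 : ((N / W : ℕ) : ℝ) * ((range W).filter Q).card ≤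
      (N : ℝ) / W * ((range W).filter Q).card := by gcongr
  have h7 : (N : ℝ) / W * ((range W).filter Q).card = (((range W).filter Q).card : ℝ) / W * N := by
    ring
  linarith

end Pool.H2.EL
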