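import Mathlib
import Pool.Agent.H2.EL.Den
import Pool.Agent.H2.EL.Def

/-!
Module DENP (short): one block of primes.

`den_p1`: exactly one `n < p` has `p ∣ n + h`. `den_p2`: exactly two (`p ∤ h - h'`, here `h, h' < p`, `h ≠ h'`).
`den_blk`: with `x = ∏ (1 - 1/p)`, `y = ∏ (1 - 2/p)` (`den_pi` with `W p = p`, `QQ I = ∏ p`):
`den (no p ∣ n + h0) = x`, `den (no p ∣ n + h0 and no p ∣ n + h) = y`, and the predicate of the theorem is the
difference, so its density is `x - y`. Bounds: `1 - 2u ≤ (1-u)^2` gives `y ≤ x^2`; `x ≤ exp (-∑ 1/p) ≤ exp (-1)`;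
`1 - u ≥ exp (-2u)` for `0 ≤ u ≤ 1/2` gives `x ≥ exp (-4)`; so `x - y ≥ x (1 - x) ≥ exp (-4) (1 - exp (-1)) ≥ 1/100`.
-/

set_option autoImplicit false

open Finset

namespace Pool.H2.EL

private lemma den_p0 (p h : ℕ) (hp : p.Prime) : ∃ a, a < p ∧ ∀ n, n < p → (p ∣ n + h ↔ n = a) := by
  have hp0 := hp.pos
  have hr := Nat.mod_lt h hp0
  have hd : ∀ n, p ∣ n + h ↔ p ∣ n + h % p := by
    intro n
    have h1 : n + h = n + h % p + p * (h / p) := by
      have := Nat.mod_add_div h p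
      omega
    rw [h1]
    exact (Nat.dvd_add_iff_left (dvd_mul_right p _)).symm
  obtain ⟨r, hr'⟩ : ∃ r, r = h % p := ⟨_, rfl⟩
  rw [← hr'] at hd hr
  by_cases h0 : r = 0
  · refine ⟨0, hp0, fun n hn => ?_⟩
    rw [hd, h0, add_zero]
    constructor
    · intro h1
      exact Nat.eq_zero_of_dvd_of_lt h1 hn
    · rintro rfl
      exact dvd_zero p
  · refine ⟨p - r, by omega, fun n hn => ?_⟩
    rw [hd]
    constructor
    · rintro ⟨c, hc⟩
      have h1 : c < 2 := by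
        by_contra h2
        have h3 : p * 2 ≤ p * c := Nat.mul_le_mul_left p (by omega)
        omega
      have h4 : c = 1 := by
        rcases Nat.eq_zero_or_pos c with h5 | h5
        · rw [h5, mul_zero] at hc
          omega
        · omega
      rw [h4, mul_one] at hc
      omega
    · rintro rfl
      rw [Nat.sub_add_cancel hr.le]

lemma den_p1 (p h : ℕ) (hp : p.Prime) : den (fun n => ¬ p ∣ n + h) p = 1 - 1 / p := by
  classical
  obtain ⟨a, ha, hn⟩ := den_p0 p h hp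
  have hp0 : (p : ℝ) ≠ 0 := by exact_mod_cast hp.ne_zero
  have h1 : (range p).filter (fun n => ¬ p ∣ n + h) = (range p).erase a := by
    ext n
    rw [mem_filter, mem_erase, mem_range]
    constructor
    · rintro ⟨h2, h3⟩
      exact ⟨fun h4 => h3 ((hn n h2).2 h4), h2⟩
    · rintro ⟨h2, h3⟩
      exact ⟨h3, fun h4 => h2 ((hn n h3).1 h4)⟩
  have h2 : (((range p).filter (fun n => ¬ p ∣ n + h)).card : ℝ) = p - 1 := by
    rw [h1, card_erase_of_mem (mem_range.2 ha), card_range, Nat.cast_sub hp.one_lt.le, Nat.cast_one]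
  have h3 : den (fun n => ¬ p ∣ n + h) p =
      (((range p).filter (fun n => ¬ p ∣ n + h)).card : ℝ) / p := by
    unfold den
    congr
  rw [h3, h2, sub_div, div_self hp0]

lemma den_p2 (p h h' : ℕ) (hp : p.Prime) (hh : h < p) (hh' : h' < p) (hne : h ≠ h') :
    den (fun n => ¬ p ∣ n + h ∧ ¬ p ∣ n + h') p = 1 - 2 / p := by
  classical
  obtain ⟨a, ha, hn⟩ := den_p0 p h hp
  obtain ⟨a', ha', hn'⟩ := den_p0 p h' hp
  have hp0 : (p : ℝ) ≠ 0 := by exact_mod_cast hp.ne_zero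
  have haa : a' ≠ a := by
    rintro rfl
    have h1 := (hn a' ha).2 rfl
    have h2 := (hn' a' ha).2 rfl
    rcases Nat.lt_or_gt_of_ne hne with h3 | h3
    · have h4 := (Nat.dvd_sub h2 h1)
      have h5 : a' + h' - (a' + h) = h' - h := by omega
      rw [h5] at h4
      have := Nat.le_of_dvd (by omega) h4
      omega
    · have h4 := (Nat.dvd_sub h1 h2)
      have h5 : a' + h - (a' + h') = h - h' := by omega
      rw [h5] at h4
      have := Nat.le_of_dvd (by omega) h4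
      omega
  have h1 : (range p).filter (fun n => ¬ p ∣ n + h ∧ ¬ p ∣ n + h') =
      ((range p).erase a).erase a' := by
    ext n
    rw [mem_filter, mem_erase, mem_erase, mem_range]
    constructor
    · rintro ⟨h2, h3, h4⟩
      exact ⟨fun h5 => h4 ((hn' n h2).2 h5), fun h5 => h3 ((hn n h2).2 h5), h2⟩
    · rintro ⟨h2, h3, h4⟩
      exact ⟨h4, fun h5 => h3 ((hn n h4).1 h5), fun h5 => h2 ((hn' n h4).1 h5)⟩
  have h2 : (((range p).filter (fun n => ¬ p ∣ n + h ∧ ¬ p ∣ n + h')).card : ℝ) = p - 2 := by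
    rw [h1, card_erase_of_mem (mem_erase.2 ⟨haa, mem_range.2 ha'⟩),
      card_erase_of_mem (mem_range.2 ha), card_range, Nat.sub_sub, Nat.cast_sub hp.two_le]
    norm_num
  have h3 : den (fun n => ¬ p ∣ n + h ∧ ¬ p ∣ n + h') p =
      (((range p).filter (fun n => ¬ p ∣ n + h ∧ ¬ p ∣ n + h')).card : ℝ) / p := by
    unfold den
    congr
  rw [h3, h2, sub_div, div_self hp0]

theorem den_blk (I : Finset ℕ) (hI : ∀ p ∈ I, p.Prime) (h h0 : ℕ) (hne : h ≠ h0)
    (hh : ∀ p ∈ I, h < p ∧ h0 < p ∧ 3 ≤ p) (hm1 : 1 ≤ ∑ p ∈ I, (1 : ℝ) / p)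
    (hm2 : ∑ p ∈ I, (1 : ℝ) / p ≤ 2) :
    1 / 100 ≤ den (fun n => (∃ p ∈ I, p ∣ n + h) ∧ ∀ p ∈ I, ¬ p ∣ n + h0) (QQ I) := by
  classical
  obtain ⟨x, hx⟩ : ∃ x : ℝ, x = ∏ p ∈ I, (1 - 1 / (p : ℝ)) := ⟨_, rfl⟩
  obtain ⟨y, hy⟩ : ∃ y : ℝ, y = ∏ p ∈ I, (1 - 2 / (p : ℝ)) := ⟨_, rfl⟩
  have hco : ∀ i ∈ I, ∀ j ∈ I, i ≠ j → Nat.Coprime i j := fun i hi j hj hij =>
    (Nat.coprime_primes (hI i hi) (hI j hj)).2 hij
  have hper : ∀ p c n : ℕ, p ∣ n + p + c ↔ p ∣ n + c := by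
    intro p c n
    rw [show n + p + c = n + c + p by omega]
    exact (Nat.dvd_add_iff_left dvd_rfl).symm
  have h1 : den (fun n => ∀ p ∈ I, ¬ p ∣ n + h0) (QQ I) = x := by
    have h2 := den_pi I (fun p n => ¬ p ∣ n + h0) (fun p => p) (fun p hp => (hI p hp).pos)
      (fun p hp n => not_congr (hper p h0 n)) hco
    rw [hx]
    refine h2.trans (prod_congr rfl fun p hp => den_p1 p h0 (hI p hp))
  have h2 : den (fun n => ∀ p ∈ I, ¬ p ∣ n + h ∧ ¬ p ∣ n + h0) (QQ I) = y := by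
    have h2 := den_pi I (fun p n => ¬ p ∣ n + h ∧ ¬ p ∣ n + h0) (fun p => p)
      (fun p hp => (hI p hp).pos)
      (fun p hp n => and_congr (not_congr (hper p h n)) (not_congr (hper p h0 n))) hco
    rw [hy]
    refine h2.trans (prod_congr rfl fun p hp =>
      den_p2 p h h0 (hI p hp) (hh p hp).1 (hh p hp).2.1 hne)
  have h3 : den (fun n => (∃ p ∈ I, p ∣ n + h) ∧ ∀ p ∈ I, ¬ p ∣ n + h0) (QQ I) = x - y := by
    rw [eq_sub_iff_add_eq, ← h1, ← h2]
    unfold den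
    rw [← add_div, ← Nat.cast_add]
    congr 2
    rw [← card_union_of_disjoint]
    · congr 1
      ext n
      simp only [mem_union, mem_filter]
      constructor
      · rintro (⟨h4, h5, h6⟩ | ⟨h4, h5⟩)
        · exact ⟨h4, h6⟩
        · exact ⟨h4, fun p hp => (h5 p hp).2⟩
      · rintro ⟨h4, h5⟩
        by_cases h6 : ∃ p ∈ I, p ∣ n + h
        · exact Or.inl ⟨h4, h6, h5⟩
        · push Not at h6
          exact Or.inr ⟨h4, fun p hp => ⟨h6 p hp, h5 p hp⟩⟩
    · rw [Finset.disjoint_left]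
      intro n hn1 hn2
      simp only [mem_filter] at hn1 hn2
      obtain ⟨p, hp, h4⟩ := hn1.2.1
      exact (hn2.2 p hp).1 h4
  rw [h3]
  have hu : ∀ p ∈ I, 0 ≤ 1 / (p : ℝ) ∧ 1 / (p : ℝ) ≤ 1 / 3 := by
    intro p hp
    have h4 : (3 : ℝ) ≤ p := by exact_mod_cast (hh p hp).2.2
    exact ⟨by positivity, one_div_le_one_div_of_le (by norm_num) h4⟩
  have hx1 : x ≤ Real.exp (-1) := by
    have h4 : x ≤ ∏ p ∈ I, Real.exp (-(1 / (p : ℝ))) := by
      rw [hx]
      refine prod_le_prod (fun p hp => by linarith [(hu p hp).2]) fun p hp => ?_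
      have := Real.add_one_le_exp (-(1 / (p : ℝ)))
      linarith
    rw [← Real.exp_sum, sum_neg_distrib] at h4
    exact h4.trans (Real.exp_le_exp.2 (by linarith))
  have hx4 : Real.exp (-4) ≤ x := by
    have h4 : ∏ p ∈ I, Real.exp (-(2 * (1 / (p : ℝ)))) ≤ x := by
      rw [hx]
      refine prod_le_prod (fun p _ => (Real.exp_pos _).le) fun p hp => ?_
      obtain ⟨h5, h6⟩ := hu p hp
      have h7 : 0 < 1 - 1 / (p : ℝ) := by linarith
      rw [← Real.le_log_iff_exp_le h7]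
      refine le_trans ?_ (Real.one_sub_inv_le_log_of_pos h7)
      obtain ⟨u, hu'⟩ : ∃ u : ℝ, u = 1 / (p : ℝ) := ⟨_, rfl⟩
      rw [← hu'] at h5 h6 h7 ⊢
      rw [neg_le_sub_iff_le_add, ← sub_nonneg]
      have h8 : 1 + 2 * u - (1 - u)⁻¹ = u * (1 - 2 * u) / (1 - u) := by
        field_simp
        ring
      rw [h8]
      exact div_nonneg (mul_nonneg h5 (by linarith)) h7.le
    rw [← Real.exp_sum, sum_neg_distrib, ← mul_sum] at h4
    exact le_trans (Real.exp_le_exp.2 (by linarith)) h4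
  have hy2 : y ≤ x ^ 2 := by
    rw [hy, hx, ← prod_pow]
    refine prod_le_prod (fun p hp => ?_) fun p hp => ?_
    · have h4 := (hu p hp).2
      have h5 : (2 : ℝ) / p = 2 * (1 / p) := by ring
      rw [h5]
      linarith
    · have h5 : (2 : ℝ) / p = 2 * (1 / p) := by ring
      rw [h5]
      nlinarith [sq_nonneg (1 / (p : ℝ))]
  have he1 := Real.exp_neg_one_lt_d9
  have he2 := Real.exp_neg_one_gt_d9
  have he3 : (0.0183 : ℝ) ≤ Real.exp (-4) := by
    have h4 : Real.exp (-4) = Real.exp (-1) ^ 4 := by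
      rw [← Real.exp_nat_mul]
      norm_num
    rw [h4]
    have h5 : (0.3679 - 0.00003 : ℝ) ^ 4 ≤ Real.exp (-1) ^ 4 :=
      pow_le_pow_left₀ (by norm_num) (by linarith) 4
    refine le_trans ?_ h5
    norm_num
  nlinarith [hx1, hx4, hy2, he1, he3]

end Pool.H2.EL
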