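import Mathlib

/-!
Module SQC (short): squares of large primes.

For each `i` and `p ∈ A`: the number of `n < N` with `p^2 ∣ n + h i` is at most `N/p^2 + 1`. Union bound:
`≤ ∑_i ∑_{p ∈ A} (N/p^2 + 1) ≤ k (N * ∑_{p > P} 1/p^2 + |A|) ≤ k N * 2/P + k |A|`, with
`sum_Ioo_inv_sq_le` (`∑_{P < p < y} 1/p^2 ≤ 2/(P+1)`).
-/

set_option autoImplicit false

open Finset

namespace Pool.H2.EL

private theorem sqc_one (r : ℕ) (hr : 0 < r) (a N : ℕ) :
    (((range N).filter (fun n => r ∣ n + a)).card : ℝ) ≤ (N : ℝ) / r + 1 := by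
  have h1 : ∀ n : ℕ, r ∣ n + a ↔ n ≡ (r - 1) * a [MOD r] := by
    intro n
    obtain ⟨s, rfl⟩ : ∃ s, r = s + 1 := ⟨r - 1, by omega⟩
    have h2 : (s + 1) * a ≡ 0 [MOD (s + 1)] := by
      simp [Nat.modEq_zero_iff_dvd]
    constructor
    · intro h
      have h3 : n + a ≡ s * a + a [MOD (s + 1)] := by
        have h4 : n + a ≡ 0 [MOD (s + 1)] := (Nat.modEq_zero_iff_dvd).2 h
        have h5 : s * a + a = (s + 1) * a := by ring
        rw [h5]
        exact h4.trans h2.symm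
      have := Nat.ModEq.add_right_cancel' a h3
      simpa using this
    · intro h
      have h3 : n + a ≡ s * a + a [MOD (s + 1)] := by
        apply Nat.ModEq.add_right
        simpa using h
      have h5 : s * a + a = (s + 1) * a := by ring
      rw [h5] at h3
      exact (Nat.modEq_zero_iff_dvd).1 (h3.trans h2)
  have h6 : ((range N).filter (fun n => r ∣ n + a)).card = N.count (· ≡ (r - 1) * a [MOD r]) := by
    rw [Nat.count_eq_card_filter_range]
    congr 1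
    apply Finset.filter_congr
    intro n _
    exact h1 n
  rw [h6, Nat.count_modEq_card _ hr]
  push_cast
  have h7 : ((N / r : ℕ) : ℝ) ≤ (N : ℝ) / r := Nat.cast_div_le
  split_ifs <;> linarith

open Classical in
theorem sq_count (k : ℕ) (h : Fin k → ℕ) (P : ℕ) (hP : 1 ≤ P) (A : Finset ℕ)
    (hA : ∀ p ∈ A, P < p) (N : ℕ) :
    (((range N).filter (fun n => ∃ i, ∃ p ∈ A, p ^ 2 ∣ n + h i)).card : ℝ) ≤
      2 * k * N / P + k * A.card := by
  have hsub : (range N).filter (fun n => ∃ i, ∃ p ∈ A, p ^ 2 ∣ n + h i) ⊆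
      (Finset.univ : Finset (Fin k)).biUnion (fun i => A.biUnion (fun p =>
        (range N).filter (fun n => p ^ 2 ∣ n + h i))) := by
    intro n hn
    simp only [mem_filter, mem_biUnion, mem_univ, true_and] at hn ⊢
    obtain ⟨h1, i, p, hp, hd⟩ := hn
    exact ⟨i, p, hp, h1, hd⟩
  have hc1 : (((range N).filter (fun n => ∃ i, ∃ p ∈ A, p ^ 2 ∣ n + h i)).card : ℝ) ≤
      ∑ i : Fin k, ∑ p ∈ A, (((range N).filter (fun n => p ^ 2 ∣ n + h i)).card : ℝ) := by
    have h1 := (card_le_card hsub).trans card_biUnion_le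
    have h2 : ∑ i : Fin k, (A.biUnion (fun p =>
        (range N).filter (fun n => p ^ 2 ∣ n + h i))).card ≤
        ∑ i : Fin k, ∑ p ∈ A, ((range N).filter (fun n => p ^ 2 ∣ n + h i)).card :=
      Finset.sum_le_sum (fun i _ => card_biUnion_le)
    exact_mod_cast h1.trans h2
  have hsum : ∑ p ∈ A, ((p : ℝ) ^ 2)⁻¹ ≤ 2 / P := by
    have h1 : A ⊆ Ioo P (A.sup id + 1) := by
      intro p hp
      rw [mem_Ioo]
      exact ⟨hA p hp, Nat.lt_succ_of_le (Finset.le_sup (f := id) hp)⟩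
    have h2 : ∑ p ∈ A, ((p : ℝ) ^ 2)⁻¹ ≤ ∑ p ∈ Ioo P (A.sup id + 1), ((p : ℝ) ^ 2)⁻¹ :=
      Finset.sum_le_sum_of_subset_of_nonneg h1 (fun _ _ _ => by positivity)
    have h3 : ∑ p ∈ Ioo P (A.sup id + 1), ((p : ℝ) ^ 2)⁻¹ ≤ 2 / ((P : ℝ) + 1) :=
      sum_Ioo_inv_sq_le P (A.sup id + 1)
    have hP0 : (0 : ℝ) < P := by exact_mod_cast hP
    have h4 : 2 / ((P : ℝ) + 1) ≤ 2 / P :=
      div_le_div_of_nonneg_left (by norm_num) hP0 (by linarith)
    linarith
  have hc2 : ∀ i : Fin k, ∑ p ∈ A, (((range N).filter (fun n => p ^ 2 ∣ n + h i)).card : ℝ) ≤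
      N * (2 / P) + A.card := by
    intro i
    have h1 : ∑ p ∈ A, (((range N).filter (fun n => p ^ 2 ∣ n + h i)).card : ℝ) ≤
        ∑ p ∈ A, ((N : ℝ) * ((p : ℝ) ^ 2)⁻¹ + 1) := by
      apply Finset.sum_le_sum
      intro p hp
      have hp0 : 0 < p := by have := hA p hp; omega
      have h2 := sqc_one (p ^ 2) (by positivity) (h i) N
      push_cast at h2
      rw [div_eq_mul_inv] at h2
      exact h2
    have h3 : ∑ p ∈ A, ((N : ℝ) * ((p : ℝ) ^ 2)⁻¹ + 1) =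
        N * ∑ p ∈ A, ((p : ℝ) ^ 2)⁻¹ + A.card := by
      rw [Finset.sum_add_distrib, Finset.mul_sum]
      simp
    have h4 : (N : ℝ) * ∑ p ∈ A, ((p : ℝ) ^ 2)⁻¹ ≤ N * (2 / P) :=
      mul_le_mul_of_nonneg_left hsum (by positivity)
    linarith
  have hc3 : ∑ i : Fin k, ∑ p ∈ A, (((range N).filter (fun n => p ^ 2 ∣ n + h i)).card : ℝ) ≤
      ∑ _i : Fin k, ((N : ℝ) * (2 / P) + A.card) := Finset.sum_le_sum (fun i _ => hc2 i)
  have hc4 : ∑ _i : Fin k, ((N : ℝ) * (2 / P) + A.card) = 2 * k * N / P + k * A.card := by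
    rw [Finset.sum_const, Finset.card_univ, Fintype.card_fin, nsmul_eq_mul]
    ring
  linarith

end Pool.H2.EL
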