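import Mathlib
import Pool.Agent.H2.EL.DenP
import Pool.Agent.H2.EL.Blks
import Pool.Agent.H2.EL.SqC

/-!
Module COV: the classes and their covering property.

Given `ε > 0` (wlog `ε ≤ 1`), `k`: let `q = (1/100)^k > 0` and `J` with `(1-q)^J ≤ ε/4`. Given `P`: enlarge it to
`P' = max P, 3, all h i, h0, ⌈8k/ε⌉`. Take `blks (J * k) P'` (index `j * k + i`), `I j i`, `A` = union of all, `I j` = union
over `i`, `W0 = ∏_{p ∈ A} p^2`,
`Ev j n` : `∀ i, (∃ p ∈ I j i, p ∣ n + h i) ∧ ∀ p ∈ I j i, ¬ p ∣ n + h0`,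
`Sq n` : `∃ i, ∃ p ∈ A, p^2 ∣ n + h i`, `cls j n` : `Ev j n ∧ (∀ j' < j, ¬ Ev j' n) ∧ ¬ Sq n`.
`Dat.Ok`: `per` because every `p` and `p^2`, `p ∈ A`, divides `W0` (`(Nat.dvd_add_right _)`); `c0, c1` from `Ev j`, `c2` from
`¬ Sq`. Disjointness by the minimality of `j`. An `n` in no class satisfies `Sq n` or `∀ j, ¬ Ev j n`.
Densities: `den (Ev j) (∏_i QQ (I j i)) = ∏_i den_i ≥ (1/100)^k = q` (`den_pi`, `den_blk`),
`den (¬ Ev j) ≤ 1 - q` (`den_not`), `den (∀ j, ¬ Ev j) ≤ (1-q)^J ≤ ε/4` (`den_pi`; the moduli are coprime as the blocks are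
disjoint sets of primes), so by `den_count` and `sq_count` the exceptional set has at most
`(ε/4) N + W + 2 k N/P' + k |A| ≤ ε N` elements for `N ≥ N0`.
-/

set_option autoImplicit false

open Finset

namespace Pool.H2.EL

private lemma cov_per {p m n a : ℕ} (hp : p ∣ m) : p ∣ n + m + a ↔ p ∣ n + a := by
  rw [show n + m + a = m + (n + a) by ring]
  exact Nat.dvd_add_right hp

private lemma cov_ev_per {k : ℕ} (I2 : Fin k → Finset ℕ) (h : Fin k → ℕ) (h0 m : ℕ)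
    (hm : ∀ i, ∀ p ∈ I2 i, p ∣ m) (n : ℕ) :
    (∀ i, (∃ p ∈ I2 i, p ∣ n + m + h i) ∧ ∀ p ∈ I2 i, ¬ p ∣ n + m + h0) ↔
    (∀ i, (∃ p ∈ I2 i, p ∣ n + h i) ∧ ∀ p ∈ I2 i, ¬ p ∣ n + h0) := by
  refine forall_congr' fun i => and_congr
    (exists_congr fun p => and_congr_right fun hp => cov_per (hm i p hp))
    (forall₂_congr fun p hp => not_congr (cov_per (hm i p hp)))

private lemma cov_copr {I I' : Finset ℕ} (hI : ∀ p ∈ I, p.Prime) (hI' : ∀ p ∈ I', p.Prime)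
    (hd : Disjoint I I') : Nat.Coprime (QQ I) (QQ I') := by
  unfold QQ
  refine Nat.Coprime.prod_left fun p hp => Nat.Coprime.prod_right fun p' hp' => ?_
  rw [Nat.coprime_primes (hI p hp) (hI' p' hp')]
  rintro rfl
  exact (Finset.disjoint_left.1 hd) hp hp'

private lemma cov_QQ_pos {I : Finset ℕ} (hI : ∀ p ∈ I, p.Prime) : 1 ≤ QQ I :=
  Finset.prod_pos fun p hp => (hI p hp).pos

/-- one family of blocks -/
private lemma cov_fam {k : ℕ} (I2 : Fin k → Finset ℕ) (h : Fin k → ℕ) (h0 : ℕ)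
    (hne : ∀ i, h i ≠ h0) (hI : ∀ i, ∀ p ∈ I2 i, p.Prime)
    (hh : ∀ i, ∀ p ∈ I2 i, h i < p ∧ h0 < p ∧ 3 ≤ p)
    (hm1 : ∀ i, 1 ≤ ∑ p ∈ I2 i, (1 : ℝ) / p) (hm2 : ∀ i, ∑ p ∈ I2 i, (1 : ℝ) / p ≤ 2)
    (hd : ∀ i i', i ≠ i' → Disjoint (I2 i) (I2 i')) :
    (1 / 100 : ℝ) ^ k ≤ den (fun n => ∀ i, (∃ p ∈ I2 i, p ∣ n + h i) ∧
      ∀ p ∈ I2 i, ¬ p ∣ n + h0) (∏ i, QQ (I2 i)) := by
  have hpi := den_pi (Finset.univ : Finset (Fin k))
    (fun i n => (∃ p ∈ I2 i, p ∣ n + h i) ∧ ∀ p ∈ I2 i, ¬ p ∣ n + h0) (fun i => QQ (I2 i))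
    (fun i _ => cov_QQ_pos (hI i))
    (fun i _ n => and_congr
      (exists_congr fun p => and_congr_right fun hp => cov_per (Finset.dvd_prod_of_mem _ hp))
      (forall₂_congr fun p hp => not_congr (cov_per (Finset.dvd_prod_of_mem _ hp))))
    (fun i _ j _ hij => cov_copr (hI i) (hI j) (hd i j hij))
  have he : (fun n => ∀ i ∈ (Finset.univ : Finset (Fin k)), (∃ p ∈ I2 i, p ∣ n + h i) ∧
      ∀ p ∈ I2 i, ¬ p ∣ n + h0) = (fun n => ∀ i, (∃ p ∈ I2 i, p ∣ n + h i) ∧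
      ∀ p ∈ I2 i, ¬ p ∣ n + h0) := by
    funext n
    simp
  rw [he] at hpi
  rw [hpi]
  have hc : (1 / 100 : ℝ) ^ k = ∏ _i : Fin k, (1 / 100 : ℝ) := by
    rw [Finset.prod_const, Finset.card_univ, Fintype.card_fin]
  rw [hc]
  refine Finset.prod_le_prod (fun i _ => by norm_num) fun i _ => ?_
  exact den_blk (I2 i) (hI i) (h i) h0 (hne i) (hh i) (hm1 i) (hm2 i)

open Classical in
theorem cover (k h0 : ℕ) (h : Fin k → ℕ) (hne : ∀ i, h i ≠ h0) (ε : ℝ) (hε : 0 < ε) :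
    ∃ J : ℕ, ∀ P : ℕ, ∃ (I : Fin J → Finset ℕ) (W0 : ℕ) (cls : Fin J → ℕ → Prop) (N0 : ℕ),
      (∀ j, Dat.Ok (⟨I j, W0, h0, h, cls j⟩ : Dat k) P) ∧
      (∀ n j j', cls j n → cls j' n → j = j') ∧
      ∀ N : ℕ, N0 ≤ N →
        (((range N).filter (fun n => ∀ j, ¬ cls j n)).card : ℝ) ≤ ε * N := by
  have hq0 : (0 : ℝ) < (1 / 100 : ℝ) ^ k := by positivity
  have hq1 : (1 / 100 : ℝ) ^ k ≤ 1 := pow_le_one₀ (by norm_num) (by norm_num)
  obtain ⟨J, hJ⟩ := exists_pow_lt_of_lt_one (show (0 : ℝ) < ε / 4 by positivity)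
    (show 1 - (1 / 100 : ℝ) ^ k < 1 by linarith)
  refine ⟨J, fun P => ?_⟩
  obtain ⟨P', hP'⟩ : ∃ P' : ℕ, P' = P + 3 + (∑ i, h i) + h0 + ⌈8 * (k : ℝ) / ε⌉₊ := ⟨_, rfl⟩
  have hPP : P ≤ P' := by omega
  have h3P : 3 ≤ P' := by omega
  have h0P : h0 ≤ P' := by omega
  have hiP : ∀ i, h i ≤ P' := fun i => by
    have := Finset.single_le_sum (f := h) (fun i _ => Nat.zero_le _) (Finset.mem_univ i)
    omega
  have hεP : 8 * (k : ℝ) / ε ≤ P' := by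
    refine (Nat.le_ceil _).trans ?_
    exact_mod_cast (by omega : ⌈8 * (k : ℝ) / ε⌉₊ ≤ P')
  obtain ⟨Ib, hIb, hdis⟩ := blks (J * k) P'
  obtain ⟨I2, hI2⟩ : ∃ I2 : Fin J → Fin k → Finset ℕ,
      ∀ j i, I2 j i = Ib (finProdFinEquiv (j, i) : Fin (J * k)) := ⟨_, fun _ _ => rfl⟩
  have hpr : ∀ j i, ∀ p ∈ I2 j i, p.Prime ∧ P' < p := by
    intro j i p hp
    rw [hI2] at hp
    exact (hIb _ (Fin.is_lt _)).1 p hp
  have hm1 : ∀ j i, 1 ≤ ∑ p ∈ I2 j i, (1 : ℝ) / p := by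
    intro j i
    rw [hI2]
    exact (hIb _ (Fin.is_lt _)).2.1
  have hm2 : ∀ j i, ∑ p ∈ I2 j i, (1 : ℝ) / p ≤ 2 := by
    intro j i
    rw [hI2]
    exact (hIb _ (Fin.is_lt _)).2.2
  have hd : ∀ j i j' i', (j, i) ≠ (j', i') → Disjoint (I2 j i) (I2 j' i') := by
    intro j i j' i' hne'
    rw [hI2, hI2]
    refine hdis _ _ (Fin.is_lt _) (Fin.is_lt _) fun he => hne' ?_
    exact finProdFinEquiv.injective (Fin.ext he)
  obtain ⟨Ev, hEv⟩ : ∃ Ev : Fin J → ℕ → Prop, ∀ j, Ev j = fun n =>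
      ∀ i, (∃ p ∈ I2 j i, p ∣ n + h i) ∧ ∀ p ∈ I2 j i, ¬ p ∣ n + h0 := ⟨_, fun _ => rfl⟩
  obtain ⟨Iu, hIu⟩ : ∃ Iu : Fin J → Finset ℕ, ∀ j, Iu j = Finset.univ.biUnion (I2 j) :=
    ⟨_, fun _ => rfl⟩
  have hIum : ∀ j p, p ∈ Iu j ↔ ∃ i, p ∈ I2 j i := by
    intro j p
    rw [hIu]
    simp
  obtain ⟨A, hA⟩ : ∃ A : Finset ℕ, A = Finset.univ.biUnion Iu := ⟨_, rfl⟩
  have hAm : ∀ p, p ∈ A ↔ ∃ j, p ∈ Iu j := by
    intro p
    rw [hA]
    simp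
  obtain ⟨W0, hW0⟩ : ∃ W0 : ℕ, W0 = ∏ p ∈ A, p ^ 2 := ⟨_, rfl⟩
  have hdW : ∀ p ∈ A, p ^ 2 ∣ W0 := by
    intro p hp
    rw [hW0]
    exact Finset.dvd_prod_of_mem (fun p => p ^ 2) hp
  have hdW1 : ∀ j i, ∀ p ∈ I2 j i, p ∣ W0 := by
    intro j i p hp
    exact (dvd_pow_self p two_ne_zero).trans
      (hdW p ((hAm p).2 ⟨j, (hIum j p).2 ⟨i, hp⟩⟩))
  obtain ⟨Sq, hSq⟩ : ∃ Sq : ℕ → Prop, ∀ n, Sq n ↔ ∃ i, ∃ p ∈ A, p ^ 2 ∣ n + h i :=
    ⟨_, fun _ => Iff.rfl⟩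
  have hEvp : ∀ j m n, (∀ i, ∀ p ∈ I2 j i, p ∣ m) → (Ev j (n + m) ↔ Ev j n) := by
    intro j m n hm
    rw [hEv]
    exact cov_ev_per (I2 j) h h0 m hm n
  have hSqp : ∀ n, Sq (n + W0) ↔ Sq n := by
    intro n
    rw [hSq, hSq]
    exact exists_congr fun i => exists_congr fun p => and_congr_right fun hp =>
      cov_per (hdW p hp)
  obtain ⟨WW, hWW⟩ : ∃ WW : Fin J → ℕ, ∀ j, WW j = ∏ i, QQ (I2 j i) := ⟨_, fun _ => rfl⟩
  have hWWpos : ∀ j, 1 ≤ WW j := by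
    intro j
    rw [hWW]
    exact Nat.succ_le_of_lt (Finset.prod_pos fun i _ => Nat.lt_of_succ_le
      (cov_QQ_pos fun p hp => (hpr j i p hp).1))
  have hWWd : ∀ j i, ∀ p ∈ I2 j i, p ∣ WW j := by
    intro j i p hp
    rw [hWW]
    exact (Finset.dvd_prod_of_mem (fun p => p) hp).trans
      (Finset.dvd_prod_of_mem (fun i => QQ (I2 j i)) (Finset.mem_univ i))
  have hWWc : ∀ j j', j ≠ j' → Nat.Coprime (WW j) (WW j') := by
    intro j j' hjj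
    rw [hWW, hWW]
    refine Nat.Coprime.prod_left fun i _ => Nat.Coprime.prod_right fun i' _ => ?_
    exact cov_copr (fun p hp => (hpr j i p hp).1) (fun p hp => (hpr j' i' p hp).1)
      (hd j i j' i' fun he => hjj (congrArg Prod.fst he))
  have hdenE : ∀ j, (1 / 100 : ℝ) ^ k ≤ den (Ev j) (WW j) := by
    intro j
    rw [hEv, hWW]
    exact cov_fam (I2 j) h h0 hne (fun i p hp => (hpr j i p hp).1)
      (fun i p hp => ⟨(hiP i).trans_lt (hpr j i p hp).2, h0P.trans_lt (hpr j i p hp).2,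
        h3P.trans (hpr j i p hp).2.le⟩) (hm1 j) (hm2 j)
      (fun i i' hii => hd j i j i' fun he => hii (congrArg Prod.snd he))
  have hdenN : ∀ j, den (fun n => ¬ Ev j n) (WW j) ≤ 1 - (1 / 100 : ℝ) ^ k := by
    intro j
    rw [den_not (Ev j) (WW j) (hWWpos j)]
    linarith [hdenE j]
  have hall := den_pi (Finset.univ : Finset (Fin J)) (fun j n => ¬ Ev j n) WW
    (fun j _ => hWWpos j) (fun j _ n => not_congr (hEvp j (WW j) n (hWWd j)))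
    (fun j _ j' _ hjj => hWWc j j' hjj)
  have hprod : ∏ j, den (fun n => ¬ Ev j n) (WW j) ≤ (1 - (1 / 100 : ℝ) ^ k) ^ J := by
    have hc : (1 - (1 / 100 : ℝ) ^ k) ^ J = ∏ _j : Fin J, (1 - (1 / 100 : ℝ) ^ k) := by
      rw [Finset.prod_const, Finset.card_univ, Fintype.card_fin]
    rw [hc]
    exact Finset.prod_le_prod (fun j _ => den_nonneg _ _) fun j _ => hdenN j
  have hWpos : 1 ≤ ∏ j, WW j := Nat.succ_le_of_lt
    (Finset.prod_pos fun j _ => Nat.lt_of_succ_le (hWWpos j))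
  have hcnt := den_count (fun n => ∀ j ∈ (Finset.univ : Finset (Fin J)), ¬ Ev j n)
    (∏ j, WW j) hWpos (fun n => forall₂_congr fun j _ => not_congr
      (hEvp j _ n fun i p hp => (hWWd j i p hp).trans
        (Finset.dvd_prod_of_mem WW (Finset.mem_univ j))))
  have hsqc := sq_count k h P' (by omega) A (fun p hp => by
    obtain ⟨j, hj⟩ := (hAm p).1 hp
    obtain ⟨i, hi⟩ := (hIum j p).1 hj
    exact (hpr j i p hi).2)
  obtain ⟨N0, hN0⟩ := exists_nat_ge (((∏ j, WW j : ℕ) + k * (A.card : ℝ)) * (2 / ε))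
  refine ⟨Iu, W0, fun j n => Ev j n ∧ (∀ j' < j, ¬ Ev j' n) ∧ ¬ Sq n, N0, ?_, ?_, ?_⟩
  · intro j
    refine ⟨?_, ?_, ?_, ?_, ?_, ?_, ?_⟩
    · intro p hp
      obtain ⟨i, hi⟩ := (hIum j p).1 hp
      exact (hpr j i p hi).1
    · intro p hp
      obtain ⟨i, hi⟩ := (hIum j p).1 hp
      exact hPP.trans_lt (hpr j i p hi).2
    · change 1 ≤ W0
      rw [hW0]
      have hpp : 0 < ∏ p ∈ A, p ^ 2 := by
        refine Finset.prod_pos fun p hp => ?_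
        obtain ⟨j, hj⟩ := (hAm p).1 hp
        obtain ⟨i, hi⟩ := (hIum j p).1 hj
        have := (hpr j i p hi).1.pos
        positivity
      omega
    · intro n
      exact and_congr (hEvp j W0 n (hdW1 j)) (and_congr
        (forall₂_congr fun j' _ => not_congr (hEvp j' W0 n (hdW1 j')))
        (not_congr (hSqp n)))
    · intro n hn p hp
      obtain ⟨i, hi⟩ := (hIum j p).1 hp
      have h1 := hn.1
      rw [hEv] at h1
      exact (h1 i).2 p hi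
    · intro n hn i
      have h1 := hn.1
      rw [hEv] at h1
      obtain ⟨p, hp, hpd⟩ := (h1 i).1
      exact ⟨p, (hIum j p).2 ⟨i, hp⟩, hpd⟩
    · intro n hn i p hp hpd
      exact hn.2.2 ((hSq n).2 ⟨i, p, (hAm p).2 ⟨j, hp⟩, hpd⟩)
  · intro n j j' hj hj'
    by_contra hjj
    rcases lt_or_gt_of_ne hjj with hlt | hlt
    · exact hj'.2.1 j hlt hj.1
    · exact hj.2.1 j' hlt hj'.1
  · intro N hN
    have hsub : (range N).filter (fun n => ∀ j : Fin J,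
        ¬ (Ev j n ∧ (∀ j' < j, ¬ Ev j' n) ∧ ¬ Sq n)) ⊆
        (range N).filter (fun n => ∀ j ∈ (Finset.univ : Finset (Fin J)), ¬ Ev j n) ∪
        (range N).filter (fun n => ∃ i, ∃ p ∈ A, p ^ 2 ∣ n + h i) := by
      intro n hn
      rw [mem_filter] at hn
      rw [mem_union, mem_filter, mem_filter]
      by_cases hs : Sq n
      · exact Or.inr ⟨hn.1, (hSq n).1 hs⟩
      · refine Or.inl ⟨hn.1, fun j _ hj => ?_⟩
        obtain ⟨j0, hj0, hmin⟩ := WellFounded.has_min (wellFounded_lt (α := Fin J))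
          {j | Ev j n} ⟨j, hj⟩
        exact hn.2 j0 ⟨hj0, fun j' hj' he => hmin j' he hj', hs⟩
    have hcard : (((range N).filter (fun n => ∀ j : Fin J,
        ¬ (Ev j n ∧ (∀ j' < j, ¬ Ev j' n) ∧ ¬ Sq n))).card : ℝ) ≤
        (((range N).filter (fun n => ∀ j ∈ (Finset.univ : Finset (Fin J)), ¬ Ev j n)).card : ℝ) +
        (((range N).filter (fun n => ∃ i, ∃ p ∈ A, p ^ 2 ∣ n + h i)).card : ℝ) := by
      exact_mod_cast (Finset.card_le_card hsub).trans (Finset.card_union_le _ _)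
    refine (le_of_eq ?_).trans (hcard.trans ?_)
    · congr!
    have h1 : (((range N).filter (fun n => ∀ j ∈ (Finset.univ : Finset (Fin J)),
        ¬ Ev j n)).card : ℝ) ≤ (∏ j, den (fun n => ¬ Ev j n) (WW j)) * N +
          ((∏ j, WW j : ℕ) : ℝ) := by
      have h1' := hcnt N
      rw [hall] at h1'
      refine (le_of_eq ?_).trans h1'
      congr!
    have h2 : (((range N).filter (fun n => ∃ i, ∃ p ∈ A, p ^ 2 ∣ n + h i)).card : ℝ) ≤
        2 * k * N / P' + k * A.card := by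
      refine (le_of_eq ?_).trans (hsqc N)
      congr!
    have hNr : (0 : ℝ) ≤ N := Nat.cast_nonneg N
    have h3 : (∏ j, den (fun n => ¬ Ev j n) (WW j)) * N ≤ ε / 4 * N :=
      mul_le_mul_of_nonneg_right (hprod.trans hJ.le) hNr
    have hP'pos : (0 : ℝ) < P' := by exact_mod_cast (by omega : 0 < P')
    have h4 : 2 * (k : ℝ) * N / P' ≤ ε / 4 * N := by
      rw [div_le_iff₀ hP'pos]
      rw [div_le_iff₀ hε] at hεP
      nlinarith
    have h5 : ((∏ j, WW j : ℕ) : ℝ) + k * (A.card : ℝ) ≤ ε / 2 * N := by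
      have h6 : (((∏ j, WW j : ℕ) : ℝ) + k * (A.card : ℝ)) * (2 / ε) ≤ N :=
        hN0.trans (by exact_mod_cast hN)
      rw [mul_div_assoc', div_le_iff₀ hε] at h6
      linarith
    linarith

end Pool.H2.EL
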