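import Mathlib
import Pool.Agent.H2.EL.ClsB
import Pool.Agent.H2.EL.Cov

/-!
Module MAIN: the core theorem, assembled.
-/

set_option autoImplicit false

open Finset

namespace Pool.H2.EL

theorem core (k h0 : ℕ) (h : Fin k → ℕ) (hne : ∀ i, h i ≠ h0) (ε : ℝ) (hε : 0 < ε) :
    ∃ (H : ℕ) (δ : ℝ) (N0 : ℕ), 0 < δ ∧ ∀ N : ℕ, N0 ≤ N → ∀ F : ℕ → ℂ, (∀ n, ‖F n‖ ≤ 1) →
      Unc F h0 H N δ → ∀ g : Fin k → ArithmeticFunction ℂ, (∀ i, (g i).IsMultiplicative) →
      (∀ i n, ‖g i n‖ ≤ 1) →
      ‖∑ n ∈ range N, F n * ∏ i, g i (n + h i)‖ ≤ ε * N := by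
  classical
  obtain ⟨J, hJ⟩ := cover k h0 h hne (ε / 2) (half_pos hε)
  obtain ⟨P0, hP0, hcb⟩ := class_bound k (ε / (2 * (J + 1))) (by positivity)
  obtain ⟨I, W0, cls, N1, hok, hdis, hcov⟩ := hJ P0
  have hcb' := fun j : Fin J => hcb (⟨I j, W0, h0, h, cls j⟩ : Dat k) (hok j)
  choose H δ N2 hδ hmain using hcb'
  refine ⟨∑ j, H j, if hJ0 : (univ : Finset (Fin J)).Nonempty then
    (univ : Finset (Fin J)).inf' hJ0 δ else 1, max N1 (∑ j, N2 j), ?_, ?_⟩
  · split_ifs with hJ0
    · rw [Finset.lt_inf'_iff]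
      exact fun j _ => hδ j
    · exact one_pos
  · intro N hN F hF hU g hg hb
    set δ0 : ℝ := if hJ0 : (univ : Finset (Fin J)).Nonempty then
      (univ : Finset (Fin J)).inf' hJ0 δ else 1 with hδ0
    have hδj : ∀ j, δ0 ≤ δ j := by
      intro j
      have hne' : (univ : Finset (Fin J)).Nonempty := ⟨j, mem_univ j⟩
      rw [hδ0, dif_pos hne']
      exact Finset.inf'_le _ (mem_univ j)
    have hHj : ∀ j, H j ≤ ∑ j, H j := fun j => single_le_sum (fun _ _ => Nat.zero_le _) (mem_univ j)
    have hNj : ∀ j, N2 j ≤ N := fun j =>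
      (single_le_sum (f := N2) (fun _ _ => Nat.zero_le _) (mem_univ j)).trans
        ((le_max_right _ _).trans hN)
    have hN1 : N1 ≤ N := (le_max_left _ _).trans hN
    -- split
    set G : ℕ → ℂ := fun n => F n * ∏ i, g i (n + h i) with hG
    have hGn : ∀ n, ‖G n‖ ≤ 1 := by
      intro n
      rw [hG]
      simp only
      rw [norm_mul, norm_prod]
      exact mul_le_one₀ (hF n) (prod_nonneg fun _ _ => norm_nonneg _)
        (prod_le_one (fun _ _ => norm_nonneg _) fun i _ => hb i _)
    have hsplit : range N = ((range N).filter (fun n => ∀ j, ¬ cls j n)) ∪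
        (univ : Finset (Fin J)).biUnion (fun j => (range N).filter (fun n => cls j n)) := by
      ext n
      simp only [mem_union, mem_filter, mem_biUnion, mem_univ, true_and]
      constructor
      · intro hn
        by_cases hc : ∀ j, ¬ cls j n
        · exact Or.inl ⟨hn, hc⟩
        · push Not at hc
          obtain ⟨j, hj⟩ := hc
          exact Or.inr ⟨j, hn, hj⟩
      · rintro (⟨hn, _⟩ | ⟨j, hn, _⟩) <;> exact hn
    have hd1 : Disjoint ((range N).filter (fun n => ∀ j, ¬ cls j n))
        ((univ : Finset (Fin J)).biUnion (fun j => (range N).filter (fun n => cls j n))) := by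
      rw [Finset.disjoint_left]
      intro n hn hn'
      simp only [mem_filter, mem_biUnion, mem_univ, true_and] at hn hn'
      obtain ⟨j, _, hj⟩ := hn'
      exact hn.2 j hj
    have hd2 : ∀ j ∈ (univ : Finset (Fin J)), ∀ j' ∈ (univ : Finset (Fin J)), j ≠ j' →
        Disjoint ((range N).filter (fun n => cls j n)) ((range N).filter (fun n => cls j' n)) := by
      intro j _ j' _ hjj
      rw [Finset.disjoint_left]
      intro n hn hn'
      exact hjj (hdis n j j' (mem_filter.1 hn).2 (mem_filter.1 hn').2)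
    have hsum : ∑ n ∈ range N, G n = ∑ n ∈ (range N).filter (fun n => ∀ j, ¬ cls j n), G n +
        ∑ j : Fin J, ∑ n ∈ (range N).filter (fun n => cls j n), G n := by
      conv_lhs => rw [hsplit]
      rw [sum_union hd1, sum_biUnion hd2]
    rw [hsum]
    refine (norm_add_le _ _).trans ?_
    have h1 : ‖∑ n ∈ (range N).filter (fun n => ∀ j, ¬ cls j n), G n‖ ≤ ε / 2 * N := by
      refine le_trans ?_ (hcov N hN1)
      refine (norm_sum_le _ _).trans ?_
      calc ∑ n ∈ (range N).filter (fun n => ∀ j, ¬ cls j n), ‖G n‖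
          ≤ ∑ n ∈ (range N).filter (fun n => ∀ j, ¬ cls j n), (1 : ℝ) :=
            sum_le_sum fun n _ => hGn n
        _ = _ := by rw [sum_const, nsmul_eq_mul, mul_one]
    have h2 : ‖∑ j : Fin J, ∑ n ∈ (range N).filter (fun n => cls j n), G n‖ ≤ ε / 2 * N := by
      refine (norm_sum_le _ _).trans ?_
      calc ∑ j : Fin J, ‖∑ n ∈ (range N).filter (fun n => cls j n), G n‖
          ≤ ∑ j : Fin J, ε / (2 * (J + 1)) * N := by
            refine sum_le_sum fun j _ => ?_
            exact hmain j N (hNj j) F hF (hU.mono (hHj j) (hδj j)) g hg hb _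
              (fun n => by simp [mem_filter])
        _ = J * (ε / (2 * (J + 1)) * N) := by
            rw [sum_const, card_univ, Fintype.card_fin, nsmul_eq_mul]
        _ ≤ ε / 2 * N := by
            have hJ1 : (0 : ℝ) < (J : ℝ) + 1 := by positivity
            have : (J : ℝ) * (ε / (2 * (J + 1))) ≤ ε / 2 := by
              rw [mul_div_assoc', div_le_div_iff₀ (by positivity) (by norm_num)]
              nlinarith
            calc (J : ℝ) * (ε / (2 * (J + 1)) * N) = (J * (ε / (2 * (J + 1)))) * N := by ring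
              _ ≤ ε / 2 * N := by gcongr
    linarith

end Pool.H2.EL
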