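import Mathlib
import Pool.Agent.H2.EL.Def

/-!
Module SHF (short): from integer shifts to natural shifts.

`shift`: with `0 ≤ h i + s`: for `n = m + s` one has `n + h i = m + (h i + s)`. The two sums differ by the terms
`1 ≤ n < s` (`n ≤ X`) and `X - s < m < X`, `m = 0` or `n = X`: at most `2 s + 2` terms of norm `≤ 1`.
(`Finset.sum_Ico_add'`-like reindexing; simplest: by induction on `s`, or compare both with the sum over
`n ∈ Ico s X`.)
`icc_range`: the case of natural shifts: `Icc 1 X` and `range X` differ by `n = 0` and `n = X`.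
-/

set_option autoImplicit false

open Finset

namespace Pool.H2.EL

lemma icc_range (f : ℕ → ℂ) (hf : ∀ n, ‖f n‖ ≤ 1) (X : ℕ) :
    ‖∑ n ∈ Icc 1 X, f n - ∑ n ∈ range X, f n‖ ≤ 2 := by
  have h1 : ∑ n ∈ Icc 1 X, f n + f 0 = ∑ n ∈ range X, f n + f X := by
    induction X with
    | zero => simp
    | succ X ih =>
      rw [Finset.sum_Icc_succ_top (by omega), sum_range_succ, ← ih]
      ring
  have h2 : ∑ n ∈ Icc 1 X, f n - ∑ n ∈ range X, f n = f X - f 0 := by
    linear_combination h1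
  rw [h2]
  refine (norm_sub_le _ _).trans ?_
  have := hf X
  have := hf 0
  linarith

theorem shift {k : ℕ} (G : Fin k → ArithmeticFunction ℂ) (hb : ∀ i n, ‖G i n‖ ≤ 1)
    (h : Fin k → ℤ) (s : ℕ) (hs : ∀ i, 0 ≤ h i + s) (X : ℕ) :
    ‖∑ n ∈ Icc 1 X, ∏ i, G i ((n : ℤ) + h i).toNat -
      ∑ n ∈ range X, ∏ i, G i (n + (h i + s).toNat)‖ ≤ 2 * s + 2 := by
  set f : ℕ → ℂ := fun n => ∏ i, G i ((n : ℤ) + h i).toNat with hf
  have hfn : ∀ n, ‖f n‖ ≤ 1 := by
    intro n
    rw [hf]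
    simp only
    rw [norm_prod]
    exact prod_le_one (fun _ _ => norm_nonneg _) fun i _ => hb i _
  have h1 : ∑ n ∈ range X, ∏ i, G i (n + (h i + s).toNat) = ∑ n ∈ range X, f (s + n) := by
    refine sum_congr rfl fun n _ => ?_
    rw [hf]
    simp only
    refine prod_congr rfl fun i _ => ?_
    have := hs i
    congr 1
    push_cast
    omega
  have h2 := Finset.sum_range_add f s X
  have h3 := Finset.sum_range_add f X s
  rw [add_comm s X, h3] at h2
  have h4 : ∑ n ∈ Icc 1 X, f n - ∑ n ∈ range X, f (s + n) =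
      (∑ n ∈ Icc 1 X, f n - ∑ n ∈ range X, f n) +
        (∑ n ∈ range s, f n - ∑ n ∈ range s, f (X + n)) := by
    linear_combination h2
  rw [h1, h4]
  have h5 : ∀ u : ℕ → ℂ, (∀ n, ‖u n‖ ≤ 1) → ‖∑ n ∈ range s, u n‖ ≤ s := by
    intro u hu
    refine (norm_sum_le _ _).trans ?_
    calc ∑ n ∈ range s, ‖u n‖ ≤ ∑ n ∈ range s, (1 : ℝ) := sum_le_sum fun n _ => hu n
      _ = s := by rw [sum_const, card_range, nsmul_eq_mul, mul_one]
  have h6 := icc_range f hfn X
  have h7 := h5 f hfn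
  have h8 := h5 (fun n => f (X + n)) fun n => hfn _
  refine (norm_add_le _ _).trans ?_
  have h9 := norm_sub_le (∑ n ∈ range s, f n) (∑ n ∈ range s, f (X + n))
  linarith

end Pool.H2.EL
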