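import Mathlib
import Pool.Agent.H2.EL.Main
import Pool.Agent.H2.EL.Shf

/-!
Module FINC: the core theorem for tuples with integer shifts, one place `j` with a distinguished function, the places
outside `A` (among them `j`) arbitrary bounded functions, the places in `A` arbitrary multiplicative ones.

Let `s = 1 + ∑ |h i|`, so `1 ≤ h i + s`. Apply `core` with `k = m`, `h0 = (h j + s).toNat`,
`h' x = (h (j.succAbove x) + s).toNat` (`≠ h0`), and `ε/2`. For a tuple `G`, `F n = ∏_{x ∉ A} G x (n + (h x + s).toNat)`,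
`g x = G (j.succAbove x)` if `j.succAbove x ∈ A` and otherwise `ζ` (the arithmetic function with value `1` at `n ≥ 1`:
`(ArithmeticFunction.zeta : ArithmeticFunction ℂ)`, multiplicative, norm `≤ 1`): `n + h' x ≥ 1`, so
`F n * ∏_x g x (n + h' x) = ∏_i G i (n + (h i + s).toNat)` (`Fin.prod_univ_succAbove`, `j ∉ A`). With `shift`:
the norm of the sum over `Icc 1 X` is at most `(ε/2) X + 2 s + 2 ≤ ε X` for `X ≥ max N0 ((4 s + 4)/ε)`, `X ≥ 1`.
-/

set_option autoImplicit false

open Finset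

namespace Pool.H2.EL

theorem fin_core (m : ℕ) (h : Fin (m + 1) → ℤ) (j : Fin (m + 1)) (hne : ∀ i, i ≠ j → h i ≠ h j)
    (ε : ℝ) (hε : 0 < ε) :
    ∃ (H : ℕ) (δ : ℝ) (N0 s : ℕ), 0 < δ ∧ (∀ i, 1 ≤ h i + s) ∧ ∀ X : ℕ, N0 ≤ X →
      ∀ (G : Fin (m + 1) → ArithmeticFunction ℂ) (A : Finset (Fin (m + 1))), j ∉ A →
      (∀ i n, ‖G i n‖ ≤ 1) → (∀ i ∈ A, (G i).IsMultiplicative) →
      Unc (fun n => ∏ x ∈ univ \ A, G x (n + (h x + s).toNat)) (h j + s).toNat H X δ →
      ‖(1 / (X : ℂ)) * ∑ n ∈ Icc 1 X, ∏ i, G i ((n : ℤ) + h i).toNat‖ ≤ ε := by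
  classical
  set s : ℕ := 1 + ∑ i, (h i).natAbs with hsd
  have hs1 : ∀ i, 1 ≤ h i + s := by
    intro i
    have h1 : (h i).natAbs ≤ ∑ i, (h i).natAbs :=
      single_le_sum (f := fun i => (h i).natAbs) (fun _ _ => Nat.zero_le _) (mem_univ i)
    omega
  obtain ⟨H, δ, N0, hδ, hcore⟩ := core m (h j + s).toNat
    (fun x => (h (j.succAbove x) + s).toNat) (by
      intro x hx
      have h1 := hne (j.succAbove x) (Fin.succAbove_ne j x)
      have h2 := hs1 (j.succAbove x)
      have h3 := hs1 j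
      omega) (ε / 2) (half_pos hε)
  refine ⟨H, δ, max N0 (max 1 (Nat.ceil ((4 * s + 4) / ε))), s, hδ, hs1, ?_⟩
  intro X hX G A hjA hb hmul hU
  have hX0 : N0 ≤ X := (le_max_left _ _).trans hX
  have hX1 : 1 ≤ X := (le_max_left _ _).trans ((le_max_right _ _).trans hX)
  have hX2 : (4 * s + 4) / ε ≤ X :=
    (Nat.le_ceil _).trans (by
      exact_mod_cast (le_max_right _ _).trans ((le_max_right _ _).trans hX))
  let ζ : ArithmeticFunction ℂ := (ArithmeticFunction.zeta : ArithmeticFunction ℂ)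
  have hζ : ∀ n, ζ n = if n = 0 then 0 else 1 := by
    intro n
    simp only [ζ, ArithmeticFunction.natCoe_apply, ArithmeticFunction.zeta_apply]
    split_ifs <;> simp
  have hζm : ζ.IsMultiplicative := ArithmeticFunction.isMultiplicative_zeta.natCast
  have hF : ∀ n, ‖∏ x ∈ univ \ A, G x (n + (h x + s).toNat)‖ ≤ 1 := by
    intro n
    rw [norm_prod]
    exact prod_le_one (fun _ _ => norm_nonneg _) fun i _ => hb i _
  have h1 := hcore X hX0 _ hF hU
    (fun x => if j.succAbove x ∈ A then G (j.succAbove x) else ζ) (by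
      intro x
      split_ifs with hx
      · exact hmul _ hx
      · exact hζm) (by
      intro x n
      split_ifs with hx
      · exact hb _ _
      · rw [hζ]
        split_ifs
        · rw [norm_zero]; exact zero_le_one
        · rw [norm_one])
  have h2 : ∀ n ∈ range X, (∏ x ∈ univ \ A, G x (n + (h x + s).toNat)) *
      ∏ x, (if j.succAbove x ∈ A then G (j.succAbove x) else ζ)
        (n + (h (j.succAbove x) + s).toNat) = ∏ i, G i (n + (h i + s).toNat) := by
    intro n _
    rw [← prod_sdiff (subset_univ A)]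
    congr 1
    have h3 : ∏ i ∈ A, G i (n + (h i + s).toNat) =
        ∏ i, if i ∈ A then G i (n + (h i + s).toNat) else 1 := by
      rw [prod_ite_mem, univ_inter]
    rw [h3, Fin.prod_univ_succAbove _ j, if_neg hjA, one_mul]
    refine prod_congr rfl fun x _ => ?_
    split_ifs with hx
    · rfl
    · rw [hζ, if_neg]
      have := hs1 (j.succAbove x)
      omega
  rw [sum_congr rfl h2] at h1
  have h3 := shift G hb h s (fun i => by have := hs1 i; omega) X
  have hXp : (0 : ℝ) < X := by exact_mod_cast hX1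
  have h4 : ‖∑ n ∈ Icc 1 X, ∏ i, G i ((n : ℤ) + h i).toNat‖ ≤ ε / 2 * X + (2 * s + 2) := by
    have h5 := norm_add_le (∑ n ∈ Icc 1 X, ∏ i, G i ((n : ℤ) + h i).toNat -
      ∑ n ∈ range X, ∏ i, G i (n + (h i + s).toNat))
      (∑ n ∈ range X, ∏ i, G i (n + (h i + s).toNat))
    rw [sub_add_cancel] at h5
    linarith
  rw [norm_mul, norm_div, norm_one, Complex.norm_natCast, one_div, inv_mul_le_iff₀ hXp]
  rw [div_le_iff₀ hε] at hX2
  nlinarith

end Pool.H2.EL
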