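import Mathlib

/-!
Module CHA (short): Dirichlet characters as arithmetic functions, and the orthogonality relation.

`chA χ n = χ n` for `n ≠ 0`, `0` for `n = 0`. Multiplicative: `χ (m n) = χ m χ n` (if one argument is `0` and the
two are coprime, the other is `1`). `cha_sum`: for `j ≡ 1 (mod A)`, `j ≥ 1`: `χ (n + j)`, sum over `χ` is `φ(A)` if
`n + j ≡ 1`, i.e. `A ∣ n`, else `0` (`DirichletCharacter.sum_char_inv_mul_char_eq` with `a = 1`, or
`DirichletCharacter.sum_characters_eq`).
-/

set_option autoImplicit false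

open Finset

namespace Pool.H2.EL

/-- a Dirichlet character as an arithmetic function -/
noncomputable def chA {A : ℕ} (χ : DirichletCharacter ℂ A) : ArithmeticFunction ℂ :=
  ⟨fun n => if n = 0 then 0 else χ (n : ZMod A), by simp⟩

lemma chA_apply {A : ℕ} (χ : DirichletCharacter ℂ A) (n : ℕ) (hn : n ≠ 0) :
    chA χ n = χ (n : ZMod A) := by
  change (if n = 0 then (0 : ℂ) else _) = _
  rw [if_neg hn]

lemma chA_mult {A : ℕ} (χ : DirichletCharacter ℂ A) : (chA χ).IsMultiplicative := by
  have h1 : chA χ 1 = 1 := by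
    rw [chA_apply χ 1 one_ne_zero, Nat.cast_one, map_one]
  refine ⟨h1, ?_⟩
  intro m n hmn
  by_cases hm : m = 0
  · subst hm
    have hn : n = 1 := by simpa using hmn
    rw [hn, h1, mul_one, mul_one]
  by_cases hn : n = 0
  · subst hn
    have hm' : m = 1 := by simpa using hmn
    rw [hm', h1, one_mul, one_mul]
  rw [chA_apply χ _ (mul_ne_zero hm hn), chA_apply χ _ hm, chA_apply χ _ hn, Nat.cast_mul,
    map_mul]

lemma chA_norm {A : ℕ} (χ : DirichletCharacter ℂ A) (n : ℕ) : ‖chA χ n‖ ≤ 1 := by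
  by_cases hn : n = 0
  · rw [hn, ArithmeticFunction.map_zero, norm_zero]
    exact zero_le_one
  · rw [chA_apply χ n hn]
    exact χ.norm_le_one _

theorem cha_sum (A j : ℕ) (hA : 1 ≤ A) (hj : 1 ≤ j) (hjA : j ≡ 1 [MOD A]) (n : ℕ) :
    haveI : NeZero A := ⟨by omega⟩
    ∑ χ : DirichletCharacter ℂ A, chA χ (n + j) = if A ∣ n then (A.totient : ℂ) else 0 := by
  have : NeZero A := ⟨by omega⟩
  have h1 : ∀ χ : DirichletCharacter ℂ A, chA χ (n + j) = χ ((n + j : ℕ) : ZMod A) :=
    fun χ => chA_apply χ _ (by omega)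
  simp only [h1]
  rw [DirichletCharacter.sum_characters_eq]
  have h2 : (((n + j : ℕ) : ZMod A) = 1) ↔ A ∣ n := by
    have h3 : ((j : ℕ) : ZMod A) = 1 := by
      have := (ZMod.natCast_eq_natCast_iff j 1 A).mpr hjA
      rwa [Nat.cast_one] at this
    rw [Nat.cast_add, h3, ← ZMod.natCast_eq_zero_iff]
    constructor
    · intro h
      have h4 := congrArg (fun z => z - 1) h
      simpa using h4
    · intro h
      rw [h, zero_add]
  simp only [h2]

end Pool.H2.EL
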