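import Mathlib
import Pool.Agent.H2.EL.Md
import Pool.Agent.H2.EL.Cha

/-!
Module LIN (short): affine forms to shifts.

`step`: for `α ∣ A`, `c = A/α`: `cj b (f (α t + β)) = md c (cjA b f) (A t + c β)` because
`A t + c β = c (α t + β)` and `md_mul`. `lin`: the integers `n = A t`, `t < x`, are the multiples of `A` in
`range (A * x)`; the indicator of `A ∣ n` is `(1/φ(A)) ∑_χ chA χ (n + j)` (`cha_sum`).
`linD`: the same with a weight `w' t` in place of the indicator: `DD w' A j` is the function `m ↦ w' ((m-j)/A)` if `j ≤ m` and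
`A ∣ m - j`, else `0`.
-/

set_option autoImplicit false

open Finset

namespace Pool.H2.EL

lemma lin_step (A α : ℕ) (hα : 1 ≤ α) (hA : 1 ≤ A) (hd : α ∣ A) (b : Bool)
    (f : ArithmeticFunction ℂ) (hf : f.IsMultiplicative) (t β : ℕ) :
    cj b (f (α * t + β)) = md (A / α) (cjA b f) (A * t + A / α * β) := by
  obtain ⟨c, rfl⟩ := hd
  have hc : 1 ≤ c := by
    rcases Nat.eq_zero_or_pos c with h | h
    · rw [h, mul_zero] at hA
      omega
    · exact h
  rw [Nat.mul_div_cancel_left c (by omega)]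
  have h1 : α * c * t + c * β = c * (α * t + β) := by ring
  rw [h1, md_mul c hc _ (cjA_mult b f hf), cjA_apply]

lemma sum_mult (A : ℕ) (hA : 1 ≤ A) (x : ℕ) (g : ℕ → ℂ) :
    ∑ n ∈ range (A * x), (if A ∣ n then g n else 0) = ∑ t ∈ range x, g (A * t) := by
  rw [← sum_filter]
  refine sum_nbij' (fun n => n / A) (fun t => A * t) ?_ ?_ ?_ ?_ ?_
  · intro n hn
    rw [mem_filter, mem_range] at hn
    rw [mem_range]
    exact Nat.div_lt_of_lt_mul hn.1
  · intro t ht
    rw [mem_range] at ht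
    rw [mem_filter, mem_range]
    exact ⟨Nat.mul_lt_mul_of_pos_left ht hA, dvd_mul_right _ _⟩
  · intro n hn
    rw [mem_filter] at hn
    exact Nat.mul_div_cancel' hn.2
  · intro t _
    exact Nat.mul_div_cancel_left t hA
  · intro n hn
    rw [mem_filter] at hn
    rw [Nat.mul_div_cancel' hn.2]

theorem lin {r : ℕ} (A j : ℕ) (hA : 1 ≤ A) (hj : 1 ≤ j) (hjA : j ≡ 1 [MOD A]) (α β : Fin r → ℕ)
    (hα : ∀ l, 1 ≤ α l) (hd : ∀ l, α l ∣ A) (c : Fin r → Bool) (f : ArithmeticFunction ℂ)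
    (hf : f.IsMultiplicative) (x : ℕ) :
    haveI : NeZero A := ⟨by omega⟩
    (A.totient : ℂ) * ∑ t ∈ range x, ∏ l, cj (c l) (f (α l * t + β l)) =
      ∑ χ : DirichletCharacter ℂ A, ∑ n ∈ range (A * x),
        chA χ (n + j) * ∏ l, md (A / α l) (cjA (c l) f) (n + A / α l * β l) := by
  have : NeZero A := ⟨by omega⟩
  rw [sum_comm]
  have h1 : ∀ n ∈ range (A * x), ∑ χ : DirichletCharacter ℂ A,
      chA χ (n + j) * ∏ l, md (A / α l) (cjA (c l) f) (n + A / α l * β l) =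
      if A ∣ n then (A.totient : ℂ) * ∏ l, md (A / α l) (cjA (c l) f) (n + A / α l * β l)
        else 0 := by
    intro n _
    rw [← sum_mul, cha_sum A j hA hj hjA n]
    split_ifs
    · rfl
    · rw [zero_mul]
  rw [sum_congr rfl h1, sum_mult A hA x
    (fun n => (A.totient : ℂ) * ∏ l, md (A / α l) (cjA (c l) f) (n + A / α l * β l)), mul_sum]
  refine sum_congr rfl fun t _ => ?_
  congr 1
  exact prod_congr rfl fun l _ => lin_step A (α l) (hα l) hA (hd l) (c l) f hf t (β l)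

/-- a weight on the multiples of `A`, shifted by `j` -/
noncomputable def DD (w : ℕ → ℂ) (A j : ℕ) (hj : 1 ≤ j) : ArithmeticFunction ℂ :=
  ⟨fun m => if j ≤ m ∧ A ∣ m - j then w ((m - j) / A) else 0, by
    rw [if_neg]
    omega⟩

lemma DD_norm (w : ℕ → ℂ) (hw : ∀ n, ‖w n‖ ≤ 1) (A j : ℕ) (hj : 1 ≤ j) (n : ℕ) :
    ‖DD w A j hj n‖ ≤ 1 := by
  change ‖(if j ≤ n ∧ A ∣ n - j then w ((n - j) / A) else 0 : ℂ)‖ ≤ 1
  split_ifs
  · exact hw _
  · rw [norm_zero]
    exact zero_le_one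

lemma DD_apply (w : ℕ → ℂ) (A j : ℕ) (hj : 1 ≤ j) (n : ℕ) :
    DD w A j hj (n + j) = if A ∣ n then w (n / A) else 0 := by
  change (if j ≤ n + j ∧ A ∣ n + j - j then w ((n + j - j) / A) else 0 : ℂ) = _
  rw [Nat.add_sub_cancel]
  by_cases h : A ∣ n
  · rw [if_pos ⟨Nat.le_add_left _ _, h⟩, if_pos h]
  · rw [if_neg (fun h2 => h h2.2), if_neg h]

theorem linD {r : ℕ} (A j : ℕ) (hA : 1 ≤ A) (hj : 1 ≤ j) (α β : Fin r → ℕ)
    (hα : ∀ l, 1 ≤ α l) (hd : ∀ l, α l ∣ A) (c : Fin r → Bool) (f : ArithmeticFunction ℂ)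
    (hf : f.IsMultiplicative) (w : ℕ → ℂ) (x : ℕ) :
    ∑ t ∈ range x, w t * ∏ l, cj (c l) (f (α l * t + β l)) =
      ∑ n ∈ range (A * x),
        DD w A j hj (n + j) * ∏ l, md (A / α l) (cjA (c l) f) (n + A / α l * β l) := by
  have h1 : ∀ n ∈ range (A * x),
      DD w A j hj (n + j) * ∏ l, md (A / α l) (cjA (c l) f) (n + A / α l * β l) =
      if A ∣ n then w (n / A) * ∏ l, md (A / α l) (cjA (c l) f) (n + A / α l * β l)
        else 0 := by
    intro n _
    rw [DD_apply]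
    split_ifs
    · rfl
    · rw [zero_mul]
  rw [sum_congr rfl h1, sum_mult A hA x
    (fun n => w (n / A) * ∏ l, md (A / α l) (cjA (c l) f) (n + A / α l * β l))]
  refine sum_congr rfl fun t _ => ?_
  rw [Nat.mul_div_cancel_left t hA]
  congr 1
  exact prod_congr rfl fun l _ => lin_step A (α l) (hα l) hA (hd l) (c l) f hf t (β l)

end Pool.H2.EL
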