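import Mathlib
import Pool.Agent.H2.EL.Dsq
import Pool.Agent.H2.EL.Shf

/-!
Module UA0: correlations of modifications of one locally pretentious function with an arbitrary multiplicative function.

Apply `Pool.Agent.H1.LP.partA` with `k = r + 1`, the shifts `Fin.cons (j : ℤ) (fun l => (h l : ℤ))` (injective) and `ε/2`: it gives
`α' > 0`. Put `a = min (α'/2) 1`. For `Q` it gives `D', X₀'`. Put `D = D' + 2 ∑ l, cc l` and choose `X₀ ≥ X₀'` such that for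
`X ≥ X₀`: `pms A (α'/2)`; `X^a ≥ ∑ cc l` (`X^a → ∞`: `tendsto_rpow_atTop`); `2/X ≤ ε/2`; `X ≥ 1`.
Given `X ≤ X' ≤ A X` apply it at `X'` with the tuple `Fin.cons ψ (fun l => md (cc l) (cjA (b l) g))`, `i₀ = 0`, `q i = q`, the
characters `chb (b l) χ` and `tb (b l) t` (for `i = 0` take `χ`, `t`): `|tb t| = |t| ≤ X ≤ X'`;
`distSq (md ..) (chb ..) (tb ..) (X'^α') X' ≤ distSq g χ t (X'^α') X + ∑_{X<p≤X'} 2/p ≤ distSq g χ t (X^a) X + α'/2 ≤ a + α'/2 ≤ α'`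
by `dsq_upper` (`X'^α' ≥ X^α' ≥ X^a ≥ cc l`), `dist_anti`, `pms`; for the index `l = 0 : Fin r` (`r ≥ 1`):
`D' ≤ distSq (md ..) .. 0 X'` by `dsq_lower`. Finally `(n : ℤ) + (j : ℤ)` has `toNat = n + j` (`Fin.prod_univ_succ`), and `icc_range`
(the summands have norm `≤ 1`) gives the sum over `range X'`: error `2 ≤ (ε/2) X'`.
-/

set_option autoImplicit false

open Finset

namespace Pool.H2.EL

open Pool.Agent.H1.LP

theorem ua0 {r : ℕ} (hr : 1 ≤ r) (A j : ℕ) (h : Fin r → ℕ) (hinj : Function.Injective h)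
    (hj : ∀ l, h l ≠ j) (cc : Fin r → ℕ) (hcc : ∀ l, 1 ≤ cc l) (b : Fin r → Bool) (ε : ℝ)
    (hε : 0 < ε) :
    ∃ a : ℝ, 0 < a ∧ a ≤ 1 ∧ ∀ Q : ℕ, ∃ (D : ℝ) (X₀ : ℕ), ∀ X : ℕ, X₀ ≤ X →
      ∀ g : ArithmeticFunction ℂ, g.IsMultiplicative → (∀ n, ‖g n‖ ≤ 1) →
      ∀ (q : ℕ) (χ : DirichletCharacter ℂ q) (t : ℝ), 0 < q → q ≤ Q → |t| ≤ X →
      distSq (fun n => g n) χ t ((X : ℝ) ^ a) X ≤ a → D ≤ distSq (fun n => g n) χ t 0 X →
      ∀ X' : ℕ, X ≤ X' → X' ≤ A * X → ∀ ψ : ArithmeticFunction ℂ, ψ.IsMultiplicative →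
      (∀ n, ‖ψ n‖ ≤ 1) →
      ‖∑ n ∈ range X', ψ (n + j) * ∏ l, md (cc l) (cjA (b l) g) (n + h l)‖ ≤ ε * X' := by
  classical
  have hinj' : Function.Injective
      (Fin.cons (j : ℤ) (fun l => (h l : ℤ)) : Fin (r + 1) → ℤ) := by
    rw [Fin.cons_injective_iff]
    refine ⟨?_, ?_⟩
    · rintro ⟨l, hl⟩
      have hl' : (h l : ℤ) = (j : ℤ) := hl
      exact hj l (by exact_mod_cast hl')
    · intro l l' hll
      have hll' : (h l : ℤ) = (h l' : ℤ) := hll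
      exact hinj (by exact_mod_cast hll')
  obtain ⟨α', hα', hpA⟩ := partA (r + 1) _ hinj' (half_pos hε)
  have ha : 0 < min (α' / 2) 1 := lt_min (half_pos hα') one_pos
  refine ⟨min (α' / 2) 1, ha, min_le_right _ _, fun Q => ?_⟩
  obtain ⟨D', X0', hD'⟩ := hpA Q
  obtain ⟨X1, hX1⟩ := pms A (α' / 2) (half_pos hα')
  have hev : ∀ᶠ X : ℕ in Filter.atTop, ((∑ l, cc l : ℕ) : ℝ) ≤ (X : ℝ) ^ (min (α' / 2) 1) :=
    ((tendsto_rpow_atTop ha).comp tendsto_natCast_atTop_atTop).eventually_ge_atTop _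
  obtain ⟨X2, hX2⟩ := Filter.eventually_atTop.1 hev
  refine ⟨D' + 2 * (∑ l, cc l : ℕ), max (max X0' X1) (max X2 (max 1 ⌈4 / ε⌉₊)), ?_⟩
  intro X hX g hg hgb q χ t hq hqQ ht hd1 hd2 X' hXX' hX'A ψ hψ hψb
  have hXa : X0' ≤ X := ((le_max_left _ _).trans (le_max_left _ _)).trans hX
  have hXb : X1 ≤ X := ((le_max_right _ _).trans (le_max_left _ _)).trans hX
  have hXc : X2 ≤ X := ((le_max_left _ _).trans (le_max_right _ _)).trans hX
  have hXd : 1 ≤ X := (((le_max_left _ _).trans (le_max_right _ _)).trans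
    (le_max_right _ _)).trans hX
  have hXe : 4 / ε ≤ X := (Nat.le_ceil _).trans (by
    exact_mod_cast (((le_max_right _ _).trans (le_max_right _ _)).trans
      (le_max_right _ _)).trans hX)
  have hXr : (1 : ℝ) ≤ X := by exact_mod_cast hXd
  have hXX'r : (X : ℝ) ≤ X' := by exact_mod_cast hXX'
  have hX'r : (1 : ℝ) ≤ X' := hXr.trans hXX'r
  have hccle : ∀ l, (cc l : ℝ) ≤ (X' : ℝ) ^ α' := by
    intro l
    have h1 : cc l ≤ ∑ l, cc l := single_le_sum (f := cc) (fun _ _ => Nat.zero_le _) (mem_univ l)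
    calc (cc l : ℝ) ≤ ((∑ l, cc l : ℕ) : ℝ) := by exact_mod_cast h1
      _ ≤ (X : ℝ) ^ (min (α' / 2) 1) := hX2 X hXc
      _ ≤ (X' : ℝ) ^ (min (α' / 2) 1) := Real.rpow_le_rpow (by positivity) hXX'r ha.le
      _ ≤ (X' : ℝ) ^ α' := Real.rpow_le_rpow_of_exponent_le hX'r
          ((min_le_left _ _).trans (by linarith))
  have hpow : (X : ℝ) ^ (min (α' / 2) 1) ≤ (X' : ℝ) ^ α' :=
    (Real.rpow_le_rpow (by positivity) hXX'r ha.le).trans
      (Real.rpow_le_rpow_of_exponent_le hX'r ((min_le_left _ _).trans (by linarith)))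
  obtain ⟨G, hG⟩ : ∃ G : Fin (r + 1) → ArithmeticFunction ℂ,
      G = Fin.cons ψ (fun l => md (cc l) (cjA (b l) g)) := ⟨_, rfl⟩
  have hG0 : G 0 = ψ := by rw [hG, Fin.cons_zero]
  have hGs : ∀ l : Fin r, G l.succ = md (cc l) (cjA (b l) g) := by
    intro l
    rw [hG, Fin.cons_succ]
  have hGm : ∀ i, (G i).IsMultiplicative := by
    intro i
    refine Fin.cases ?_ (fun l => ?_) i
    · rw [hG0]
      exact hψ
    · rw [hGs]
      exact md_mult _ _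
  have hGb : ∀ i n, ‖G i n‖ ≤ 1 := by
    intro i n
    refine Fin.cases ?_ (fun l => ?_) i
    · rw [hG0]
      exact hψb n
    · rw [hGs]
      exact md_norm _ _ (cjA_norm _ _ hgb) n
  have hmain := hD' X' (hXa.trans hXX') G hGm hGb 0 (fun _ => q)
    (Fin.cons χ (fun l => chb (b l) χ) : Fin (r + 1) → DirichletCharacter ℂ q)
    (Fin.cons t (fun l => tb (b l) t)) (by
      intro i hi
      obtain ⟨l, rfl⟩ := Fin.exists_succ_eq.2 hi
      rw [hGs, Fin.cons_succ, Fin.cons_succ]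
      refine ⟨hq, hqQ, ?_, ?_⟩
      · rw [tb_abs]
        exact ht.trans hXX'r
      · have h1 := dsq_upper g hgb (cc l) (hcc l) (b l) hq χ t ((X' : ℝ) ^ α') X X' (hccle l)
        have h2 := dist_anti (fun n => g n) hgb χ t hpow X
        have h3 := hX1 X X' hXb hX'A
        have h4 := min_le_left (α' / 2) 1
        linarith) (by
      refine ⟨Fin.succ ⟨0, hr⟩, Fin.succ_ne_zero _, ?_⟩
      rw [hGs, Fin.cons_succ, Fin.cons_succ]
      have h1 := dsq_lower g hgb (cc ⟨0, hr⟩) (hcc _) (b ⟨0, hr⟩) hq χ t X X' hXX'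
      have h2 : cc ⟨0, hr⟩ ≤ ∑ l, cc l :=
        single_le_sum (f := cc) (fun _ _ => Nat.zero_le _) (mem_univ _)
      have h3 : (cc ⟨0, hr⟩ : ℝ) ≤ ((∑ l, cc l : ℕ) : ℝ) := by exact_mod_cast h2
      linarith)
  obtain ⟨f, hf⟩ : ∃ f : ℕ → ℂ, f = fun n => ψ (n + j) *
      ∏ l, md (cc l) (cjA (b l) g) (n + h l) := ⟨_, rfl⟩
  have hsum : ∑ n ∈ Finset.Icc 1 X', ∏ i, G i ((n : ℤ) +
      (Fin.cons (j : ℤ) (fun l => (h l : ℤ)) : Fin (r + 1) → ℤ) i).toNat =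
      ∑ n ∈ Finset.Icc 1 X', f n := by
    refine sum_congr rfl fun n _ => ?_
    rw [Fin.prod_univ_succ, hG0, Fin.cons_zero, hf]
    have e1 : ((n : ℤ) + (j : ℤ)).toNat = n + j := by omega
    rw [e1]
    congr 1
    refine prod_congr rfl fun l _ => ?_
    rw [hGs, Fin.cons_succ]
    have e2 : ((n : ℤ) + (h l : ℤ)).toNat = n + h l := by omega
    rw [e2]
  have hfn : ∀ n, ‖f n‖ ≤ 1 := by
    intro n
    rw [hf]
    simp only [norm_mul, norm_prod]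
    refine mul_le_one₀ (hψb _) (prod_nonneg fun _ _ => norm_nonneg _) ?_
    exact prod_le_one (fun _ _ => norm_nonneg _) fun l _ =>
      md_norm _ _ (cjA_norm _ _ hgb) _
  have hX'p : (0 : ℝ) < X' := by linarith
  rw [hsum, norm_mul, norm_div, norm_one, Complex.norm_natCast, one_div,
    inv_mul_le_iff₀ hX'p] at hmain
  have h5 := icc_range f hfn X'
  have h6 : ‖∑ n ∈ range X', f n‖ ≤ ‖∑ n ∈ Icc 1 X', f n‖ +
      ‖∑ n ∈ Icc 1 X', f n - ∑ n ∈ range X', f n‖ := by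
    have := norm_sub_le (∑ n ∈ Icc 1 X', f n) (∑ n ∈ Icc 1 X', f n - ∑ n ∈ range X', f n)
    rwa [sub_sub_cancel] at this
  have h7 : 4 ≤ ε * X' := by
    rw [div_le_iff₀ hε] at hXe
    nlinarith
  have h8 : ‖∑ n ∈ range X', f n‖ ≤ ε * X' := by nlinarith
  rw [hf] at h8
  exact h8

end Pool.H2.EL
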