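import Mathlib
import Pool.Agent.H2.EL.Ua0
import Pool.Agent.H2.EL.Lin

/-!
Module UA1 (short): one configuration of affine forms.

`K = ⌈1/δ⌉₊ + 1`, `A = K * ∏ l, α l`, so `α l ∣ A`, `A ≥ 1/δ`, `A ≥ 1`. Apply `ua0` with this `A`, `cc l = A / α l`,
`h l = A / α l * (β l + h0)` (injective: `α l (β l' + h0) ≠ α l' (β l + h0)` multiplied by `A/(α l)*(A/α l')`),
`j = 1 + A * (1 + ∑ l, h l)` (`> h l`, `≡ 1 mod A`), `b = c`, `ε = δ / A`.
If `x ≤ δ X` the sum has at most `x` terms of norm `≤ 1`. Otherwise `X' = A * x` satisfies `X ≤ X' ≤ A X`, and `lin` (with `β l + h0`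
in place of `β l`; `Nat.add_assoc`) gives `φ(A) ‖∑‖ ≤ ∑_χ ε X' = φ(A) ε A x`
(`DirichletCharacter.card_eq_totient_of_hasEnoughRootsOfUnity` or a similar name; the cardinality can also be read off from
`cha_sum` with `n = 0`, as `chA χ j = 1` for `j ≡ 1 mod A`), hence `‖∑‖ ≤ ε A x ≤ δ X`.
-/

set_option autoImplicit false

open Finset

namespace Pool.H2.EL

open Pool.Agent.H1.LP

theorem ua1 {r : ℕ} (hr : 1 ≤ r) (α β : Fin r → ℕ) (c : Fin r → Bool) (h0 : ℕ)
    (hα : ∀ l, 1 ≤ α l) (hne : ∀ l l', l ≠ l' → α l * (β l' + h0) ≠ α l' * (β l + h0)) (δ : ℝ)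
    (hδ : 0 < δ) :
    ∃ a : ℝ, 0 < a ∧ a ≤ 1 ∧ ∀ Q : ℕ, ∃ (D : ℝ) (X₀ : ℕ), ∀ X : ℕ, X₀ ≤ X →
      ∀ g : ArithmeticFunction ℂ, g.IsMultiplicative → (∀ n, ‖g n‖ ≤ 1) →
      ∀ (q : ℕ) (χ : DirichletCharacter ℂ q) (t : ℝ), 0 < q → q ≤ Q → |t| ≤ X →
      distSq (fun n => g n) χ t ((X : ℝ) ^ a) X ≤ a → D ≤ distSq (fun n => g n) χ t 0 X →
      ∀ x : ℕ, x ≤ X → ‖∑ t ∈ range x, ∏ l, cj (c l) (g (α l * t + β l + h0))‖ ≤ δ * X := by
  classical
  obtain ⟨A, hAdef⟩ : ∃ A : ℕ, A = (⌈1 / δ⌉₊ + 1) * ∏ l, α l := ⟨_, rfl⟩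
  have hprod : 1 ≤ ∏ l, α l := Nat.one_le_iff_ne_zero.2 (prod_ne_zero_iff.2 fun l _ => by
    have := hα l
    omega)
  have hA : 1 ≤ A := by
    rw [hAdef]
    exact Nat.mul_pos (Nat.succ_pos _) hprod
  have hdvd : ∀ l, α l ∣ A := by
    intro l
    rw [hAdef]
    exact Dvd.dvd.mul_left (dvd_prod_of_mem α (mem_univ l)) _
  have hAδ : 1 / δ ≤ A := by
    have h1 : ⌈1 / δ⌉₊ ≤ A := by
      rw [hAdef]
      calc ⌈1 / δ⌉₊ ≤ (⌈1 / δ⌉₊ + 1) * 1 := by omega
        _ ≤ (⌈1 / δ⌉₊ + 1) * ∏ l, α l := Nat.mul_le_mul_left _ hprod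
    exact (Nat.le_ceil _).trans (by exact_mod_cast h1)
  obtain ⟨h, hh⟩ : ∃ h : Fin r → ℕ, h = fun l => A / α l * (β l + h0) := ⟨_, rfl⟩
  have hinj : Function.Injective h := by
    intro l l' hll
    by_contra hne'
    apply hne l l' hne'
    rw [hh] at hll
    simp only at hll
    have e1 : α l * (A / α l) = A := Nat.mul_div_cancel' (hdvd l)
    have e2 : α l' * (A / α l') = A := Nat.mul_div_cancel' (hdvd l')
    have h3 : A * (α l * (β l' + h0)) = A * (α l' * (β l + h0)) := by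
      calc A * (α l * (β l' + h0)) = (α l' * (A / α l')) * (α l * (β l' + h0)) := by rw [e2]
        _ = α l * α l' * (A / α l' * (β l' + h0)) := by ring
        _ = α l * α l' * (A / α l * (β l + h0)) := by rw [hll]
        _ = (α l * (A / α l)) * (α l' * (β l + h0)) := by ring
        _ = A * (α l' * (β l + h0)) := by rw [e1]
    exact Nat.eq_of_mul_eq_mul_left (by omega) h3
  obtain ⟨j, hjd⟩ : ∃ j : ℕ, j = 1 + A * (1 + ∑ l, h l) := ⟨_, rfl⟩
  have hj1 : 1 ≤ j := by omega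
  have hjA : j ≡ 1 [MOD A] := by
    rw [hjd]
    unfold Nat.ModEq
    rw [Nat.add_mul_mod_self_left]
  have hhj : ∀ l, h l ≠ j := by
    intro l
    have h1 : h l ≤ ∑ l, h l := single_le_sum (f := h) (fun _ _ => Nat.zero_le _) (mem_univ l)
    have h2 : 1 * (1 + ∑ l, h l) ≤ A * (1 + ∑ l, h l) := Nat.mul_le_mul_right _ hA
    omega
  have hcc : ∀ l, 1 ≤ A / α l := by
    intro l
    exact Nat.div_pos (Nat.le_of_dvd (by omega) (hdvd l)) (hα l)
  have hAr : (1 : ℝ) ≤ A := by exact_mod_cast hA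
  have hε : 0 < δ / A := div_pos hδ (by linarith)
  obtain ⟨a, ha, ha1, hua⟩ := ua0 hr A j h hinj hhj (fun l => A / α l) hcc c (δ / A) hε
  refine ⟨a, ha, ha1, fun Q => ?_⟩
  obtain ⟨D, X0, hX0⟩ := hua Q
  refine ⟨D, X0, ?_⟩
  intro X hX g hg hgb q χ t hq hqQ ht hd1 hd2 x hx
  have hterm : ∀ t : ℕ, ‖∏ l, cj (c l) (g (α l * t + β l + h0))‖ ≤ 1 := by
    intro t
    rw [norm_prod]
    refine prod_le_one (fun _ _ => norm_nonneg _) fun l _ => ?_
    rw [cj_norm]
    exact hgb _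
  by_cases hxs : (x : ℝ) ≤ δ * X
  · refine (norm_sum_le _ _).trans (le_trans ?_ hxs)
    calc ∑ t ∈ range x, ‖∏ l, cj (c l) (g (α l * t + β l + h0))‖ ≤ ∑ t ∈ range x, (1 : ℝ) :=
          sum_le_sum fun t _ => hterm t
      _ = x := by rw [sum_const, card_range, nsmul_eq_mul, mul_one]
  · push Not at hxs
    have hXX' : X ≤ A * x := by
      have h1 : (X : ℝ) ≤ A * x := by
        have h2 : 1 ≤ δ * A := by
          rw [div_le_iff₀ hδ] at hAδ
          linarith
        have h3 : (A : ℝ) * (δ * X) ≤ A * x := by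
          apply mul_le_mul_of_nonneg_left hxs.le
          linarith
        have h4 : (X : ℝ) * 1 ≤ X * (δ * A) := by
          apply mul_le_mul_of_nonneg_left h2
          positivity
        linarith
      exact_mod_cast h1
    have hX'A : A * x ≤ A * X := Nat.mul_le_mul_left _ hx
    have hNe : NeZero A := ⟨by omega⟩
    have hlin := lin A j hA hj1 hjA α (fun l => β l + h0) hα hdvd c g hg x
    have hb : ∀ χ' : DirichletCharacter ℂ A,
        ‖∑ n ∈ range (A * x), chA χ' (n + j) *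
          ∏ l, md (A / α l) (cjA (c l) g) (n + A / α l * (β l + h0))‖ ≤ δ / A * (A * x : ℕ) := by
      intro χ'
      have h1 := hX0 X hX g hg hgb q χ t hq hqQ ht hd1 hd2 (A * x) hXX' hX'A (chA χ')
        (chA_mult χ') (chA_norm χ')
      rw [hh] at h1
      exact h1
    have hnorm := congrArg norm hlin
    rw [norm_mul, Complex.norm_natCast] at hnorm
    have hsum : ‖∑ χ' : DirichletCharacter ℂ A, ∑ n ∈ range (A * x), chA χ' (n + j) *
          ∏ l, md (A / α l) (cjA (c l) g) (n + A / α l * (β l + h0))‖ ≤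
        A.totient * (δ / A * (A * x : ℕ)) := by
      refine (norm_sum_le _ _).trans ?_
      refine (sum_le_sum fun χ' _ => hb χ').trans ?_
      rw [sum_const, nsmul_eq_mul, card_univ]
      have hcard : Fintype.card (DirichletCharacter ℂ A) = A.totient := by
        rw [← Nat.card_eq_fintype_card]
        exact DirichletCharacter.card_eq_totient_of_hasEnoughRootsOfUnity ℂ A
      rw [hcard]
    rw [← hnorm] at hsum
    have htot : (0 : ℝ) < A.totient := by
      exact_mod_cast Nat.totient_pos.2 (by omega)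
    have h9 := le_of_mul_le_mul_left hsum htot
    have h10 : δ / A * ((A * x : ℕ) : ℝ) = δ * x := by
      push_cast
      field_simp
    rw [h10] at h9
    have h11 : δ * (x : ℝ) ≤ δ * X := by
      apply mul_le_mul_of_nonneg_left _ hδ.le
      exact_mod_cast hx
    have h12 : ∀ t : ℕ, ∏ l, cj (c l) (g (α l * t + (β l + h0))) =
        ∏ l, cj (c l) (g (α l * t + β l + h0)) := by
      intro t
      refine prod_congr rfl fun l _ => ?_
      rw [add_assoc]
    simp only [h12] at h9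
    exact h9.trans h11

end Pool.H2.EL
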