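import Mathlib
import Pool.Agent.H2.EL.Ua1

/-!
Module UA2 (short): all configurations at once (finitely many).

Index type `J = Σ r : Fin (H + 1), (Fin r → Fin (H + 1)) × (Fin r → Fin (H + 1)) × (Fin r → Bool)` (a `Fintype`). For every index
which satisfies `1 ≤ r`, `1 ≤ α l`, and the inequalities take `a`, `D(Q)`, `X₀(Q)` from `ua1`, for the others `a = 1`, `D = 0`,
`X₀ = 0` (state: for every index there is `a > 0` such that for all `Q` ... [if the configuration is valid then ...], and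
use `choose`). Take `a₀ = min` (`1/(1 + ∑ 1/a)` is convenient, or `Finset.inf'`), `D = ∑ |D|`, `X₀ = 1 + ∑ X₀`. For `X ≥ 1`:
`X^{a₀} ≤ X^a`, so `distSq (X^a) X ≤ distSq (X^{a₀}) X ≤ a₀ ≤ a` (`dist_anti`).
-/

set_option autoImplicit false

open Finset

namespace Pool.H2.EL

open Pool.Agent.H1.LP

/-- finitely many conditions at once -/
theorem ua_comb {J : Type} [Fintype J] (P : J → ℕ → ArithmeticFunction ℂ → Prop)
    (hP : ∀ z, ∃ a : ℝ, 0 < a ∧ ∀ Q : ℕ, ∃ (D : ℝ) (X₀ : ℕ), ∀ X : ℕ, X₀ ≤ X →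
      ∀ g : ArithmeticFunction ℂ, g.IsMultiplicative → (∀ n, ‖g n‖ ≤ 1) →
      ∀ (q : ℕ) (χ : DirichletCharacter ℂ q) (t : ℝ), 0 < q → q ≤ Q → |t| ≤ X →
      distSq (fun n => g n) χ t ((X : ℝ) ^ a) X ≤ a → D ≤ distSq (fun n => g n) χ t 0 X →
      P z X g) :
    ∃ a : ℝ, 0 < a ∧ ∀ Q : ℕ, ∃ (D : ℝ) (X₀ : ℕ), ∀ X : ℕ, X₀ ≤ X →
      ∀ g : ArithmeticFunction ℂ, g.IsMultiplicative → (∀ n, ‖g n‖ ≤ 1) →
      ∀ (q : ℕ) (χ : DirichletCharacter ℂ q) (t : ℝ), 0 < q → q ≤ Q → |t| ≤ X →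
      distSq (fun n => g n) χ t ((X : ℝ) ^ a) X ≤ a → D ≤ distSq (fun n => g n) χ t 0 X →
      ∀ z, P z X g := by
  classical
  choose a ha hQ using hP
  have hden : 0 < 1 + ∑ z, 1 / a z := by
    have : 0 ≤ ∑ z, 1 / a z := sum_nonneg fun z _ => (one_div_pos.2 (ha z)).le
    linarith
  have hale : ∀ z, 1 / (1 + ∑ z, 1 / a z) ≤ a z := by
    intro z
    have h1 : 1 / a z ≤ ∑ z, 1 / a z :=
      single_le_sum (f := fun z => 1 / a z) (fun z _ => (one_div_pos.2 (ha z)).le) (mem_univ z)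
    rw [div_le_iff₀ hden]
    have h3 : 1 / a z ≤ 1 + ∑ z, 1 / a z := by linarith
    calc (1 : ℝ) = a z * (1 / a z) := by rw [mul_one_div, div_self (ha z).ne']
      _ ≤ a z * (1 + ∑ z, 1 / a z) := by
        have := (ha z).le
        gcongr
  refine ⟨1 / (1 + ∑ z, 1 / a z), one_div_pos.2 hden, fun Q => ?_⟩
  choose D X0 hX using fun z => hQ z Q
  refine ⟨∑ z, |D z|, 1 + ∑ z, X0 z, ?_⟩
  intro X hXX g hg hgb q χ t hq hqQ ht hd1 hd2 z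
  have hXz : X0 z ≤ X := by
    have := single_le_sum (f := X0) (fun _ _ => Nat.zero_le _) (mem_univ z)
    omega
  have hX1 : (1 : ℝ) ≤ X := by
    exact_mod_cast (show 1 ≤ X by omega)
  have hDz : D z ≤ ∑ z, |D z| := (le_abs_self _).trans
    (single_le_sum (f := fun z => |D z|) (fun _ _ => abs_nonneg _) (mem_univ z))
  refine hX z X hXz g hg hgb q χ t hq hqQ ht ?_ (hDz.trans hd2)
  refine (dist_anti (fun n => g n) hgb χ t ?_ X).trans (hd1.trans (hale z))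
  exact Real.rpow_le_rpow_of_exponent_le hX1 (hale z)

theorem ua2 (h0 H : ℕ) (δ : ℝ) (hδ : 0 < δ) :
    ∃ a : ℝ, 0 < a ∧ ∀ Q : ℕ, ∃ (D : ℝ) (X₀ : ℕ), ∀ X : ℕ, X₀ ≤ X →
      ∀ g : ArithmeticFunction ℂ, g.IsMultiplicative → (∀ n, ‖g n‖ ≤ 1) →
      ∀ (q : ℕ) (χ : DirichletCharacter ℂ q) (t : ℝ), 0 < q → q ≤ Q → |t| ≤ X →
      distSq (fun n => g n) χ t ((X : ℝ) ^ a) X ≤ a → D ≤ distSq (fun n => g n) χ t 0 X →
      Unc (fun n => g (n + h0)) h0 H X δ := by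
  classical
  have hmain := ua_comb
    (J := Σ r : Fin (H + 1), (Fin r → Fin (H + 1)) × (Fin r → Fin (H + 1)) × (Fin r → Bool))
    (fun z X g => 1 ≤ (z.1 : ℕ) → (∀ l, 1 ≤ (z.2.1 l : ℕ)) →
      (∀ l l', l ≠ l' → (z.2.1 l : ℕ) * ((z.2.2.1 l' : ℕ) + h0) ≠
        (z.2.1 l' : ℕ) * ((z.2.2.1 l : ℕ) + h0)) →
      ∀ x : ℕ, x ≤ X → ‖∑ t ∈ range x, ∏ l, cj (z.2.2.2 l)
        (g ((z.2.1 l : ℕ) * t + (z.2.2.1 l : ℕ) + h0))‖ ≤ δ * X) ?_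
  · obtain ⟨a, ha, hQ⟩ := hmain
    refine ⟨a, ha, fun Q => ?_⟩
    obtain ⟨D, X0, hX⟩ := hQ Q
    refine ⟨D, X0, ?_⟩
    intro X hXX g hg hgb q χ t hq hqQ ht hd1 hd2
    have h1 := hX X hXX g hg hgb q χ t hq hqQ ht hd1 hd2
    intro r hr hrH α β c hα hβ hne x hx
    have h2 := h1 ⟨⟨r, by omega⟩, fun l => ⟨α l, by have := (hα l).2; omega⟩,
      fun l => ⟨β l, by have := hβ l; omega⟩, c⟩ hr (fun l => (hα l).1) hne x hx
    exact h2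
  · rintro ⟨r, α, β, c⟩
    by_cases hv : 1 ≤ (r : ℕ) ∧ (∀ l, 1 ≤ (α l : ℕ)) ∧
      (∀ l l', l ≠ l' → (α l : ℕ) * ((β l' : ℕ) + h0) ≠ (α l' : ℕ) * ((β l : ℕ) + h0))
    · obtain ⟨a, ha, _, hQ⟩ := ua1 hv.1 (fun l => (α l : ℕ)) (fun l => (β l : ℕ)) c h0 hv.2.1
        hv.2.2 δ hδ
      refine ⟨a, ha, fun Q => ?_⟩
      obtain ⟨D, X0, hX⟩ := hQ Q
      refine ⟨D, X0, ?_⟩
      intro X hXX g hg hgb q χ t hq hqQ ht hd1 hd2 _ _ _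
      exact hX X hXX g hg hgb q χ t hq hqQ ht hd1 hd2
    · refine ⟨1, one_pos, fun Q => ⟨0, 0, ?_⟩⟩
      intro X hXX g hg hgb q χ t hq hqQ ht hd1 hd2 h1 h2 h3
      exact absurd ⟨h1, h2, h3⟩ hv

end Pool.H2.EL
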