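import Mathlib
import Pool.Agent.H2.EL.Ua2
import Pool.Agent.H2.EL.FinC

/-!
Module RESA: result A (assembly), and its form for a fixed function.

`resA`: `k = 0`: there is no `i₀`. `k = m + 1`: for every `i₀` with `h i ≠ h i₀` (`i ≠ i₀`) take `H, δ, N0, s` from `fin_core` (with
`j = i₀`) and `a` from `ua2 (h i₀ + s).toNat H δ`; for the other `i₀` take `a = 1`, `D = 0`, `X₀ = 0`; `choose`, and combine the finitely
many `i₀` as in UA2 (`dist_anti`). `A = univ \ {i₀}`, `univ \ A = {i₀}`, so the function of `fin_core` is `fun n => g i₀ (n + h0)`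
(`Finset.sdiff_sdiff_eq_self`, `prod_singleton`).
`resA'`: for a fixed `f` with `distSq f χ t x (x^2) ≤ δ` for all large `x`: with `α, D, X₀` from `resA` (`Q = q`) and `J` with
`2^J ≥ 2/α` put `δ = α/J`: for large `X` with `y₀ = ⌊X^α⌋₊` and `y_{i+1} = y_i^2` one has `y_J ≥ X`
(`y₀ ≥ X^{α/2}`), so `distSq f χ t (X^α) X ≤ ∑_{i<J} distSq f χ t y_i (y_i^2) ≤ J δ = α`.
-/

set_option autoImplicit false

open Finset Filter Topology

namespace Pool.H2.EL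

open Pool.Agent.H1.LP

theorem resA (k : ℕ) (h : Fin k → ℤ) {ε : ℝ} (hε : 0 < ε) :
    ∃ α : ℝ, 0 < α ∧ ∀ Q : ℕ, ∃ (D : ℝ) (X₀ : ℕ), ∀ X : ℕ, X₀ ≤ X →
      ∀ (g : Fin k → ArithmeticFunction ℂ), (∀ i, (g i).IsMultiplicative) → (∀ i n, ‖g i n‖ ≤ 1) →
      ∀ (i₀ : Fin k), (∀ i, i ≠ i₀ → h i ≠ h i₀) →
      ∀ (q : ℕ) (χ : DirichletCharacter ℂ q) (t : ℝ), 0 < q → q ≤ Q → |t| ≤ X →
      distSq (fun n => g i₀ n) χ t ((X : ℝ) ^ α) X ≤ α →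
      D ≤ distSq (fun n => g i₀ n) χ t 0 X →
      ‖(1 / (X : ℂ)) * ∑ n ∈ Finset.Icc 1 X, ∏ i, g i ((n : ℤ) + h i).toNat‖ ≤ ε := by
  classical
  rcases k with _ | m
  · exact ⟨1, one_pos, fun Q => ⟨0, 0, fun X _ g _ _ i₀ => i₀.elim0⟩⟩
  obtain ⟨α, hα, hQ⟩ := ua_comb (J := Fin (m + 1))
    (fun i₀ X f => ∀ G : Fin (m + 1) → ArithmeticFunction ℂ, (∀ i, (G i).IsMultiplicative) →
      (∀ i n, ‖G i n‖ ≤ 1) → G i₀ = f → (∀ i, i ≠ i₀ → h i ≠ h i₀) →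
      ‖(1 / (X : ℂ)) * ∑ n ∈ Finset.Icc 1 X, ∏ i, G i ((n : ℤ) + h i).toNat‖ ≤ ε) (by
    intro i₀
    by_cases hv : ∀ i, i ≠ i₀ → h i ≠ h i₀
    · obtain ⟨H, δ, N0, s, hδ, hs, hfin⟩ := fin_core m h i₀ hv ε hε
      obtain ⟨a, ha, hQ⟩ := ua2 (h i₀ + s).toNat H δ hδ
      refine ⟨a, ha, fun Q => ?_⟩
      obtain ⟨D, X0, hX⟩ := hQ Q
      refine ⟨D, max X0 N0, ?_⟩
      intro X hXX f hf hfb q χ t hq hqQ ht hd1 hd2 G hG hGb hGf _
      refine hfin X ((le_max_right _ _).trans hXX) G (univ.erase i₀) (notMem_erase _ _) hGb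
        (fun i _ => hG i) ?_
      have h1 := hX X ((le_max_left _ _).trans hXX) f hf hfb q χ t hq hqQ ht hd1 hd2
      have h2 : univ \ univ.erase i₀ = {i₀} := by
        ext x
        simp
      have h3 : (fun n => ∏ x ∈ univ \ univ.erase i₀, G x (n + (h x + s).toNat)) =
          fun n => f (n + (h i₀ + s).toNat) := by
        funext n
        rw [h2, prod_singleton, hGf]
      rw [h3]
      exact h1
    · refine ⟨1, one_pos, fun Q => ⟨0, 0, ?_⟩⟩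
      intro X _ f _ _ q χ t _ _ _ _ _ G _ _ _ hv'
      exact absurd hv' hv)
  refine ⟨α, hα, fun Q => ?_⟩
  obtain ⟨D, X0, hX⟩ := hQ Q
  refine ⟨D, X0, ?_⟩
  intro X hXX g hg hgb i₀ hv q χ t hq hqQ ht hd1 hd2
  exact hX X hXX (g i₀) (hg i₀) (hgb i₀) q χ t hq hqQ ht hd1 hd2 i₀ g hg hgb rfl hv

private lemma ra_split (g : ℕ → ℂ) (hb : ∀ n, ‖g n‖ ≤ 1) {q : ℕ} (χ : DirichletCharacter ℂ q)
    (t : ℝ) (a b c : ℕ) : distSq g χ t (a : ℝ) (c : ℝ) ≤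
      distSq g χ t (a : ℝ) (b : ℝ) + distSq g χ t (b : ℝ) (c : ℝ) := by
  classical
  unfold distSq
  simp only [Nat.floor_natCast]
  set T : ℕ → ℝ := fun p =>
    (1 - (g p * starRingEnd ℂ (χ (p : ZMod q) * (p : ℂ) ^ (Complex.I * (t : ℂ)))).re) / (p : ℝ)
    with hT
  have h0 : ∀ p, p.Prime → 0 ≤ T p := fun p hp => (term_bd g hb χ t p hp).1
  have h1 : filter Nat.Prime (Ioc a c) ⊆
      filter Nat.Prime (Ioc a b) ∪ filter Nat.Prime (Ioc b c) := by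
    intro p hp
    rw [mem_filter, mem_Ioc] at hp
    rw [mem_union, mem_filter, mem_filter, mem_Ioc, mem_Ioc]
    rcases le_or_gt p b with h | h
    · exact Or.inl ⟨⟨hp.1.1, h⟩, hp.2⟩
    · exact Or.inr ⟨⟨h, hp.1.2⟩, hp.2⟩
  refine (sum_le_sum_of_subset_of_nonneg h1 ?_).trans ?_
  · intro p hp _
    rw [mem_union, mem_filter, mem_filter] at hp
    rcases hp with hp | hp
    · exact h0 p hp.2
    · exact h0 p hp.2
  · have h2 := sum_union_inter (s₁ := filter Nat.Prime (Ioc a b))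
      (s₂ := filter Nat.Prime (Ioc b c)) (f := T)
    have h3 : 0 ≤ ∑ p ∈ filter Nat.Prime (Ioc a b) ∩ filter Nat.Prime (Ioc b c), T p := by
      refine sum_nonneg fun p hp => ?_
      rw [mem_inter, mem_filter] at hp
      exact h0 p hp.1.2
    linarith

private lemma ra_pow (g : ℕ → ℂ) (hb : ∀ n, ‖g n‖ ≤ 1) {q : ℕ} (χ : DirichletCharacter ℂ q)
    (t δ : ℝ) (N : ℕ) (hN : ∀ x : ℕ, N ≤ x → distSq g χ t x ((x : ℝ) ^ 2) ≤ δ) (y : ℕ)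
    (hy : N ≤ y) (hy1 : 1 ≤ y) (n : ℕ) :
    distSq g χ t (y : ℝ) ((y ^ (2 ^ n) : ℕ) : ℝ) ≤ n * δ := by
  induction n with
  | zero =>
    unfold distSq
    simp
  | succ n ih =>
    have h1 := ra_split g hb χ t y (y ^ (2 ^ n)) (y ^ (2 ^ (n + 1)))
    have h2 : y ≤ y ^ (2 ^ n) := Nat.le_self_pow (by positivity) y
    have h3 := hN (y ^ (2 ^ n)) (hy.trans h2)
    have h4 : ((y ^ (2 ^ (n + 1)) : ℕ) : ℝ) = ((y ^ (2 ^ n) : ℕ) : ℝ) ^ 2 := by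
      push_cast
      rw [← pow_mul, ← pow_succ]
    rw [h4] at h1 ⊢
    push_cast at h1 ih h3 ⊢
    linarith

/-- the pieces of the range `(X^α, X]` -/
lemma pieces (α : ℝ) (hα : 0 < α) : ∃ δ : ℝ, 0 < δ ∧ ∀ (g : ℕ → ℂ) (_ : ∀ n, ‖g n‖ ≤ 1) (q : ℕ)
    (χ : DirichletCharacter ℂ q) (t : ℝ), (∀ᶠ x : ℕ in atTop, distSq g χ t x ((x : ℝ) ^ 2) ≤ δ) →
    ∀ᶠ X : ℕ in atTop, distSq g χ t ((X : ℝ) ^ α) X ≤ α := by
  obtain ⟨J, hJ⟩ : ∃ J : ℕ, 2 / α < (2 : ℝ) ^ J := pow_unbounded_of_one_lt _ one_lt_two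
  refine ⟨α / (J + 1), by positivity, ?_⟩
  intro g hb q χ t hev
  obtain ⟨N, hN⟩ := eventually_atTop.1 hev
  have e1 : ∀ᶠ X : ℕ in atTop, ((max N 1 : ℕ) : ℝ) ≤ (X : ℝ) ^ α :=
    ((tendsto_rpow_atTop hα).comp tendsto_natCast_atTop_atTop).eventually_ge_atTop _
  have e2 : ∀ᶠ X : ℕ in atTop, (2 : ℝ) ≤ (X : ℝ) ^ (α / 2) :=
    ((tendsto_rpow_atTop (half_pos hα)).comp tendsto_natCast_atTop_atTop).eventually_ge_atTop _
  filter_upwards [e1, e2, eventually_ge_atTop 1] with X h1 h2 h3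
  have hX1 : (1 : ℝ) ≤ X := by exact_mod_cast h3
  obtain ⟨y, hyd⟩ : ∃ y : ℕ, y = ⌊(X : ℝ) ^ α⌋₊ := ⟨_, rfl⟩
  have hy : max N 1 ≤ y := by
    rw [hyd]
    exact Nat.le_floor h1
  have hyN : N ≤ y := (le_max_left _ _).trans hy
  have hy1 : 1 ≤ y := (le_max_right _ _).trans hy
  have hy2 : (X : ℝ) ^ (α / 2) ≤ y := by
    have h4 : (X : ℝ) ^ α = (X : ℝ) ^ (α / 2) * (X : ℝ) ^ (α / 2) := by
      rw [← Real.rpow_add (by linarith)]
      congr 1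
      ring
    have h5 : (X : ℝ) ^ α < y + 1 := by
      rw [hyd]
      exact Nat.lt_floor_add_one _
    nlinarith
  have hyX : X ≤ y ^ (2 ^ J) := by
    have h4 : (X : ℝ) ≤ (y : ℝ) ^ (2 ^ J) := by
      calc (X : ℝ) = (X : ℝ) ^ (1 : ℝ) := (Real.rpow_one _).symm
        _ ≤ (X : ℝ) ^ (α / 2 * (2 ^ J : ℕ)) := by
          apply Real.rpow_le_rpow_of_exponent_le hX1
          push_cast
          rw [div_lt_iff₀ hα] at hJ
          linarith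
        _ = ((X : ℝ) ^ (α / 2)) ^ (2 ^ J) := by
          rw [Real.rpow_mul (by linarith), Real.rpow_natCast]
        _ ≤ (y : ℝ) ^ (2 ^ J) := by
          apply pow_le_pow_left₀ (by positivity) hy2
    exact_mod_cast h4
  have h6 := ra_pow g hb χ t (α / (J + 1)) N hN y hyN hy1 J
  have h7 : distSq g χ t ((X : ℝ) ^ α) X ≤ distSq g χ t (y : ℝ) ((y ^ (2 ^ J) : ℕ) : ℝ) := by
    unfold distSq
    rw [← hyd, Nat.floor_natCast, Nat.floor_natCast, Nat.floor_natCast]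
    refine sum_le_sum_of_subset_of_nonneg ?_ ?_
    · exact filter_subset_filter _ (Ioc_subset_Ioc_right hyX)
    · intro p hp _
      rw [mem_filter] at hp
      exact (term_bd g hb χ t p hp.2).1
  have h8 : (J : ℝ) * (α / (J + 1)) ≤ α := by
    rw [mul_div_assoc', div_le_iff₀ (by positivity)]
    nlinarith
  linarith

theorem resA' (k : ℕ) (h : Fin k → ℤ) {ε : ℝ} (hε : 0 < ε) :
    ∃ δ : ℝ, 0 < δ ∧ ∀ (i₀ : Fin k), (∀ i, i ≠ i₀ → h i ≠ h i₀) →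
      ∀ f : ArithmeticFunction ℂ, f.IsMultiplicative → (∀ n, ‖f n‖ ≤ 1) →
      ∀ (q : ℕ) (χ : DirichletCharacter ℂ q) (t : ℝ), 0 < q →
      (∀ᶠ x : ℕ in atTop, distSq (fun n => f n) χ t x ((x : ℝ) ^ 2) ≤ δ) →
      Tendsto (fun x : ℕ => distSq (fun n => f n) χ t 0 x) atTop atTop →
      ∀ᶠ X : ℕ in atTop, ∀ g : Fin k → ArithmeticFunction ℂ, g i₀ = f →
      (∀ i, (g i).IsMultiplicative) → (∀ i n, ‖g i n‖ ≤ 1) →
      ‖(1 / (X : ℂ)) * ∑ n ∈ Finset.Icc 1 X, ∏ i, g i ((n : ℤ) + h i).toNat‖ ≤ ε := by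
  obtain ⟨α, hα, hQ⟩ := resA k h hε
  obtain ⟨δ, hδ, hp⟩ := pieces α hα
  refine ⟨δ, hδ, ?_⟩
  intro i₀ hv f hf hfb q χ t hq hev htend
  obtain ⟨D, X0, hX⟩ := hQ q
  filter_upwards [hp (fun n => f n) hfb q χ t hev, htend.eventually_ge_atTop D,
    eventually_ge_atTop X0, tendsto_natCast_atTop_atTop.eventually_ge_atTop |t|] with X h1 h2 h3 h4
  intro g hgf hg hgb
  refine hX X h3 g hg hgb i₀ hv q χ t hq le_rfl h4 ?_ ?_
  · rw [hgf]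
    exact h1
  · rw [hgf]
    exact h2

end Pool.H2.EL
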