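import Mathlib
import Pool.Agent.H2.RandProb
import Pool.Agent.H2.SpTwist
import Pool.Agent.H2.EL.Md

/-!
Module RMD: the modifications and conjugates of a random family form a random family.

`famM F (i, c, b) ω = md c (cjA b (F i ω))`. `rmd`: `mul`: `md_mult`. `bd`: `md_norm`, `cjA_norm`. `meas`: `md c u n` is `0` or a finite
product of `loc c u p e`, and `loc` is a constant or `cj b (F i ω (p^(e-v)))` (conjugation is continuous, `cj` by cases on `b`).
`ind`: for `p` prime, `md c u (p^m) = loc c u p m` for `m ≥ 1` (`primeFactors (p^m) = {p}`) and `1` for `m = 0`, a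
measurable function of `(F x.1 ω (p^x.2))_x`: `iIndepFun.comp` of `hF.ind` with
`φ p (y : ι × ℕ → ℂ) (x : (ι × ℕ × Bool) × ℕ) = if x.2 < v_p(x.1.2.1) then (if x.2 = 0 then 1 else 0) else cj x.1.2.2 (y (x.1.1, x.2 - v_p(x.1.2.1)))`
(for `m = 0`: `v_p(c) > 0` gives `1`; `v_p(c) = 0` gives `cj b (F i ω 1) = 1` by `hF.mul`; `c = 0` has `v_p = 0`).
`thickM`: removing the finitely many primes with `v_p(c) ≠ 0` (they divide `c`) keeps thickness (for large `N` they are `≤ log N`, so
the sums do not change at all). `meanM`: `∫ cj b (F i ω p) = cj b (∫ F i ω p) = 0` (`integral_conj`).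
-/

set_option autoImplicit false

open Finset MeasureTheory ProbabilityTheory Filter Topology

namespace Pool.H2.EL

open Pool.H2.Rand

variable {Ω : Type} [mΩ : MeasurableSpace Ω] {μ : Measure Ω} {ι : Type}

/-- the family of all modifications and conjugates -/
noncomputable def famM (F : ι → Ω → ArithmeticFunction ℂ) :
    (ι × ℕ × Bool) → Ω → ArithmeticFunction ℂ :=
  fun x ω => md x.2.1 (cjA x.2.2 (F x.1 ω))

/-- the primes of `P i` not dividing the parameter -/
def PM (P : ι → Set ℕ) (x : ι × ℕ × Bool) : Set ℕ := {p | p ∈ P x.1 ∧ x.2.1.factorization p = 0}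

theorem rmd_cj (b : Bool) : Measurable (cj b) := by
  cases b
  · have h : cj false = fun z => (starRingEnd ℂ) z := by
      funext z
      simp [cj]
    rw [h]
    exact Complex.continuous_conj.measurable
  · have h : cj true = fun z => z := by
      funext z
      simp [cj]
    rw [h]
    exact measurable_id

theorem rmd_pow (c : ℕ) (u : ArithmeticFunction ℂ) (p m : ℕ) (hp : p.Prime) (hm : m ≠ 0) :
    md c u (p ^ m) = if m < c.factorization p then 0 else u (p ^ (m - c.factorization p)) := by
  rw [md_apply c u _ (pow_ne_zero _ hp.ne_zero), Nat.primeFactors_prime_pow hm hp, prod_singleton,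
    hp.factorization_pow, Finsupp.single_eq_same]
  unfold loc
  rw [if_neg hm]

theorem rmd {F : ι → Ω → ArithmeticFunction ℂ} (hF : RandMult μ F) : RandMult μ (famM F) where
  mul := fun x ω => md_mult _ _
  bd := fun x ω n => md_norm _ _ (fun m => cjA_norm _ _ (fun m => hF.bd _ _ _) m) n
  meas := by
    intro x n
    unfold famM
    rcases eq_or_ne n 0 with rfl | hn
    · simp only [ArithmeticFunction.map_zero]
      exact measurable_const
    · simp_rw [md_apply _ _ n hn]
      refine Finset.measurable_prod _ fun p _ => ?_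
      unfold loc
      split_ifs
      · exact measurable_const
      · exact measurable_const
      · simp_rw [cjA_apply]
        exact (rmd_cj _).comp (hF.meas _ _)
  ind := by
    classical
    let φ : ∀ p : Nat.Primes, (ι × ℕ → ℂ) → ((ι × ℕ × Bool) × ℕ → ℂ) := fun p y x =>
      if x.2 = 0 then 1 else if x.2 < x.1.2.1.factorization p then 0 else
        cj x.1.2.2 (y (x.1.1, x.2 - x.1.2.1.factorization p))
    have hφ : ∀ p, Measurable (φ p) := by
      intro p
      refine measurable_pi_lambda _ fun x => ?_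
      simp only [φ]
      split_ifs
      · exact measurable_const
      · exact measurable_const
      · exact (rmd_cj _).comp (measurable_pi_apply _)
    have h := hF.ind.comp φ hφ
    have h2 : (fun (p : Nat.Primes) (ω : Ω) (x : (ι × ℕ × Bool) × ℕ) =>
        famM F x.1 ω ((p : ℕ) ^ x.2)) = fun p => φ p ∘ fun (ω : Ω) (x : ι × ℕ) =>
          F x.1 ω ((p : ℕ) ^ x.2) := by
      funext p ω x
      simp only [Function.comp_apply, φ]
      unfold famM
      rcases eq_or_ne x.2 0 with h0 | h0
      · rw [if_pos h0, h0, pow_zero]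
        exact (md_mult _ _).map_one
      · rw [if_neg h0, rmd_pow _ _ _ _ p.2 h0]
        split_ifs
        · rfl
        · rw [cjA_apply]
    rw [h2]
    exact h

theorem thickM (P : ι → Set ℕ) (hP : ∀ i, Pool.H2.Sp.Thick (P i)) (x : ι × ℕ × Bool) :
    Pool.H2.Sp.Thick (PM P x) := by
  classical
  refine Filter.Tendsto.congr' ?_ (hP x.1)
  have h1 : ∀ᶠ N : ℕ in atTop, (x.2.1 : ℝ) ≤ Real.log N :=
    (Real.tendsto_log_atTop.comp tendsto_natCast_atTop_atTop).eventually_ge_atTop _
  filter_upwards [h1] with N hN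
  refine sum_congr (Finset.filter_congr fun p _ => ?_) fun _ _ => rfl
  constructor
  · rintro ⟨hp, hpP, hlt⟩
    refine ⟨hp, ⟨hpP, ?_⟩, hlt⟩
    by_contra hne
    have hc0 : x.2.1 ≠ 0 := by
      intro h0
      rw [h0, Nat.factorization_zero] at hne
      exact hne rfl
    have hd : p ∣ x.2.1 := Nat.dvd_of_factorization_pos hne
    have hle : p ≤ x.2.1 := Nat.le_of_dvd (Nat.pos_of_ne_zero hc0) hd
    have : (p : ℝ) ≤ x.2.1 := by exact_mod_cast hle
    linarith
  · rintro ⟨hp, hpP, hlt⟩
    exact ⟨hp, hpP.1, hlt⟩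

theorem meanM {F : ι → Ω → ArithmeticFunction ℂ} (P : ι → Set ℕ)
    (hmean : ∀ i, ∀ p ∈ P i, p.Prime → ∫ ω, F i ω p ∂μ = 0) (x : ι × ℕ × Bool) (p : ℕ)
    (hp : p ∈ PM P x) (hpp : p.Prime) : ∫ ω, famM F x ω p ∂μ = 0 := by
  unfold famM
  have h1 : ∀ ω, md x.2.1 (cjA x.2.2 (F x.1 ω)) p = cj x.2.2 (F x.1 ω p) := fun ω => by
    rw [md_prime _ _ p hpp hp.2, cjA_apply]
  simp_rw [h1]
  have h2 := hmean x.1 p hp.1 hpp
  rcases Bool.eq_false_or_eq_true x.2.2 with hb | hb
  · rw [hb]
    simpa [cj] using h2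
  · rw [hb]
    have h3 : ∀ ω, cj false (F x.1 ω p) = (starRingEnd ℂ) (F x.1 ω p) := fun ω => by simp [cj]
    simp_rw [h3]
    rw [integral_conj, h2, map_zero]

end Pool.H2.EL
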