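import Mathlib
import Pool.Agent.H2.TA.Fin
import Pool.Agent.H2.EL.Rmd
import Pool.Agent.H2.EL.Lin
import Pool.Agent.H2.EL.Shf

/-!
Module UB1: one configuration of affine forms, random function, fixed weight.

`A = ∏ l, α l`, `j = 1`, `h l = A / α l * (β l + h0)` (pairwise different). Apply `Pool.H2.TA.mainT` to the family `famM F` (index type
`ι × ℕ × Bool`), the sets `PM Pr` (`rmd`, `thickM`, `meanM`) and `D = fun _ => DD w A 1 le_rfl` (`DD_norm`), with `k = r + 2`,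
`G = Fin.cons ζ (Fin.cons (DD w A 1 _) (fun l => famM F (i, A / α l, c l) ω))`, `a = b = 0`, the shifts
`Fin.cons j' (Fin.cons 1 (fun l => (h l : ℤ)))` where `j' = 1 + ∑ h l + 1` and, in place of `1` for the weight, any natural number
`j ≥ 1`, `j` different from all `h l`: take `j = 1 + ∑ h l` (so use `DD w A j`), `j' = j`. The distinguished place is the one of `l = 0`
(`r ≥ 1`). `g = g' = ζ` (`(ArithmeticFunction.zeta : ArithmeticFunction ℂ)`, value `1` at `n ≥ 1`; multiplicative): the factor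
`ζ (n + j') = 1`. So for every `ε` there is `N₁` such that for `X ≥ N₁`:
`‖∑_{n ∈ Icc 1 X} DD w A j (n+j) ∏ l md (A/α l) (cjA (c l) (F i ω)) (n + h l)‖ ≤ ε X`, with `icc_range`, `X = A x` and `linD`:
`‖∑_{t<x} ...‖ ≤ ε A x + 2`. Given `δ`: `ε = δ/(2A)`, `N₀ ≥ N₁/δ, 4/δ, N₁`: for `x < N₁`: `≤ x ≤ δ N`; for `x ≥ N₁` (`A x ≥ N₁`):
`≤ (δ/2) x + 2 ≤ δ N`.
-/

set_option autoImplicit false

open Finset MeasureTheory ProbabilityTheory Filter Topology

namespace Pool.H2.EL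

open Pool.H2.Rand

variable {Ω : Type} [mΩ : MeasurableSpace Ω] {μ : Measure Ω} {ι : Type}

private lemma ub1_inj {r : ℕ} (a b : Fin r → ℕ)
    (hne : ∀ i j, i ≠ j → a i * b j ≠ a j * b i) (A : ℕ) (hA : 1 ≤ A) (hd : ∀ i, a i ∣ A)
    (i l : Fin r) (h : A / a i * b i = A / a l * b l) : i = l := by
  by_contra hil
  apply hne i l hil
  have h1 := Nat.div_mul_cancel (hd i)
  have h2 := Nat.div_mul_cancel (hd l)
  have h3 : A * (a i * b l) = A * (a l * b i) := by
    calc A * (a i * b l) = (A / a l * a l) * (a i * b l) := by rw [h2]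
      _ = (A / a l * b l) * (a l * a i) := by ring
      _ = (A / a i * b i) * (a l * a i) := by rw [h]
      _ = (A / a i * a i) * (a l * b i) := by ring
      _ = A * (a l * b i) := by rw [h1]
  exact Nat.eq_of_mul_eq_mul_left hA h3

private lemma ub1_zeta_norm (n : ℕ) :
    ‖((ArithmeticFunction.zeta : ArithmeticFunction ℕ) : ArithmeticFunction ℂ) n‖ ≤ 1 := by
  rw [ArithmeticFunction.natCoe_apply, ArithmeticFunction.zeta_apply]
  split_ifs <;> simp

private lemma ub1_zeta_one (n : ℕ) (hn : n ≠ 0) :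
    ((ArithmeticFunction.zeta : ArithmeticFunction ℕ) : ArithmeticFunction ℂ) n = 1 := by
  rw [ArithmeticFunction.natCoe_apply, ArithmeticFunction.zeta_apply, if_neg hn, Nat.cast_one]

theorem ub1 [IsProbabilityMeasure μ] [Countable ι] {F : ι → Ω → ArithmeticFunction ℂ}
    (hF : RandMult μ F) (Pr : ι → Set ℕ) (hPr : ∀ i, Pool.H2.Sp.Thick (Pr i))
    (hmean : ∀ i, ∀ p ∈ Pr i, p.Prime → ∫ ω, F i ω p ∂μ = 0) (i : ι)
    {r : ℕ} (hr : 1 ≤ r) (α β : Fin r → ℕ) (c : Fin r → Bool) (h0 : ℕ)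
    (hα : ∀ l, 1 ≤ α l) (hne : ∀ l l', l ≠ l' → α l * (β l' + h0) ≠ α l' * (β l + h0))
    (w : ℕ → ℂ) (hw : ∀ n, ‖w n‖ ≤ 1) :
    ∀ᵐ ω ∂μ, ∀ δ : ℝ, 0 < δ → ∃ N₀ : ℕ, ∀ N : ℕ, N₀ ≤ N → ∀ x : ℕ, x ≤ N →
      ‖∑ t ∈ range x, w t * ∏ l, cj (c l) (F i ω (α l * t + β l + h0))‖ ≤ δ * N := by
  obtain ⟨A, hAdef⟩ : ∃ A : ℕ, A = ∏ l, α l := ⟨_, rfl⟩
  have hA : 1 ≤ A := by
    rw [hAdef]
    exact Nat.succ_le_of_lt (Finset.prod_pos fun l _ => Nat.lt_of_succ_le (hα l))
  have hd : ∀ l, α l ∣ A := fun l => by rw [hAdef]; exact Finset.dvd_prod_of_mem α (mem_univ l)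
  obtain ⟨j, hjdef⟩ : ∃ j : ℕ, j = 1 + ∑ l, A / α l * (β l + h0) := ⟨_, rfl⟩
  have hj : 1 ≤ j := by rw [hjdef]; exact Nat.le_add_right _ _
  have hjh : ∀ l, A / α l * (β l + h0) < j := by
    intro l
    have h1 : A / α l * (β l + h0) ≤ ∑ l, A / α l * (β l + h0) :=
      Finset.single_le_sum (f := fun l => A / α l * (β l + h0)) (fun _ _ => Nat.zero_le _)
        (mem_univ l)
    omega
  have key := Pool.H2.TA.mainT (rmd hF) (PM Pr) (thickM Pr hPr)
    (fun x p hp hpp => meanM Pr hmean x p hp hpp) (fun _ => DD w A j hj)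
    (fun _ n => DD_norm w hw A j hj n)
  filter_upwards [key] with ω hω δ hδ
  have hFm : (F i ω).IsMultiplicative := hF.mul i ω
  have hFb : ∀ n, ‖F i ω n‖ ≤ 1 := fun n => hF.bd i ω n
  obtain ⟨z, hz⟩ : ∃ z : ArithmeticFunction ℂ, z =
    ((ArithmeticFunction.zeta : ArithmeticFunction ℕ) : ArithmeticFunction ℂ) := ⟨_, rfl⟩
  have hzm : z.IsMultiplicative := by
    rw [hz]; exact ArithmeticFunction.isMultiplicative_zeta.natCast
  have hzb : ∀ n, ‖z n‖ ≤ 1 := by rw [hz]; exact ub1_zeta_norm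
  have hz1 : ∀ n, n ≠ 0 → z n = 1 := by rw [hz]; exact ub1_zeta_one
  have hx₀ : (Fin.succ (Fin.succ (⟨0, hr⟩ : Fin r)) : Fin (r + 2)) ≠ 0 := Fin.succ_ne_zero _
  have h1 := hω (r + 2)
    (Fin.cons z (Fin.cons (DD w A j hj) (fun l => famM F (i, A / α l, c l) ω)))
    0 0 (Fin.cons (j : ℤ) (Fin.cons (j : ℤ) (fun l => ((A / α l * (β l + h0) : ℕ) : ℤ))))
    (by
      intro x
      refine Fin.cases ?_ (fun y => ?_) x
      · intro h2
        exact absurd rfl h2
      · intro _ _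
        rw [Fin.cons_succ]
        refine Fin.cases ?_ (fun l => ?_) y
        · right
          exact ⟨0, rfl⟩
        · left
          exact ⟨(i, A / α l, c l), rfl⟩)
    ⟨Fin.succ (Fin.succ ⟨0, hr⟩), hx₀, hx₀, ⟨(i, A / α ⟨0, hr⟩, c ⟨0, hr⟩), rfl⟩, by
      intro x
      have hne0 : ((j : ℕ) : ℤ) ≠ ((A / α ⟨0, hr⟩ * (β ⟨0, hr⟩ + h0) : ℕ) : ℤ) := by
        have h3 := hjh ⟨0, hr⟩
        intro h4
        have h5 : j = A / α ⟨0, hr⟩ * (β ⟨0, hr⟩ + h0) := by exact_mod_cast h4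
        omega
      refine Fin.cases ?_ (fun y => ?_) x
      · intro _
        exact hne0
      · refine Fin.cases ?_ (fun l => ?_) y
        · intro _
          exact hne0
        · intro hl
          simp only [Fin.cons_succ]
          intro h4
          apply hl
          congr 2
          exact ub1_inj α (fun l => β l + h0) hne A hA hd _ _ (by exact_mod_cast h4)⟩
    (δ / (2 * A)) (by have : (0:ℝ) < A := by exact_mod_cast hA
                      positivity)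
  obtain ⟨N₁, hN₁⟩ := h1
  -- the sums over `Icc 1 X`
  have h2 : ∀ X : ℕ, N₁ ≤ X → ‖∑ n ∈ Icc 1 X, DD w A j hj (n + j) *
      ∏ l, md (A / α l) (cjA (c l) (F i ω)) (n + A / α l * (β l + h0))‖ ≤
      δ / (2 * A) * X := by
    intro X hX
    have h3 := hN₁ X hX z z hzm hzb hzm hzb
    have h4 : ∀ n ∈ Icc 1 X, ∏ x, (Function.update (Function.update
        (Fin.cons z (Fin.cons (DD w A j hj) (fun l => famM F (i, A / α l, c l) ω)) :
          Fin (r + 2) → ArithmeticFunction ℂ) 0 z) 0 z) x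
        ((n : ℤ) + (Fin.cons (j : ℤ) (Fin.cons (j : ℤ)
          (fun l => ((A / α l * (β l + h0) : ℕ) : ℤ))) : Fin (r + 2) → ℤ) x).toNat =
        DD w A j hj (n + j) *
      ∏ l, md (A / α l) (cjA (c l) (F i ω)) (n + A / α l * (β l + h0)) := by
      intro n _
      rw [Fin.prod_univ_succ, Fin.prod_univ_succ]
      rw [Function.update_self, Fin.cons_zero, hz1 _ (by omega), one_mul,
        Function.update_of_ne (Fin.succ_ne_zero _), Function.update_of_ne (Fin.succ_ne_zero _),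
        Fin.cons_succ, Fin.cons_succ, Fin.cons_zero, Fin.cons_zero]
      congr 1
    rw [sum_congr rfl h4] at h3
    rcases Nat.eq_zero_or_pos X with h0X | hX0
    · rw [h0X]
      simp
    · have hXr : (0 : ℝ) < X := by exact_mod_cast hX0
      rw [norm_mul, norm_div, norm_one, Complex.norm_natCast, one_div, inv_mul_le_iff₀ hXr] at h3
      rw [mul_comm (δ / (2 * A)) (X : ℝ)]
      exact h3
  have hAr : (0 : ℝ) < A := by exact_mod_cast hA
  have hterm : ∀ n, ‖DD w A j hj (n + j) *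
      ∏ l, md (A / α l) (cjA (c l) (F i ω)) (n + A / α l * (β l + h0))‖ ≤ 1 := by
    intro n
    rw [norm_mul, norm_prod]
    exact mul_le_one₀ (DD_norm w hw A j hj _) (prod_nonneg fun _ _ => norm_nonneg _)
      (prod_le_one (fun _ _ => norm_nonneg _) fun l _ => md_norm _ _ (cjA_norm _ _ hFb) _)
  have hbig : ∀ x : ℕ, N₁ ≤ A * x →
      ‖∑ t ∈ range x, w t * ∏ l, cj (c l) (F i ω (α l * t + β l + h0))‖ ≤ δ / 2 * x + 2 := by
    intro x hx
    have h5 := linD A j hA hj α (fun l => β l + h0) hα hd c (F i ω) hFm w x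
    have h6 : ∑ t ∈ range x, w t * ∏ l, cj (c l) (F i ω (α l * t + β l + h0)) =
        ∑ t ∈ range x, w t * ∏ l, cj (c l) (F i ω (α l * t + (β l + h0))) := by
      simp only [add_assoc]
    rw [h6, h5]
    have h7 := icc_range _ hterm (A * x)
    have h8 := h2 (A * x) hx
    have h9 := norm_sub_norm_le (∑ n ∈ range (A * x), DD w A j hj (n + j) *
      ∏ l, md (A / α l) (cjA (c l) (F i ω)) (n + A / α l * (β l + h0)))
      (∑ n ∈ Icc 1 (A * x), DD w A j hj (n + j) *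
      ∏ l, md (A / α l) (cjA (c l) (F i ω)) (n + A / α l * (β l + h0)))
    rw [norm_sub_rev] at h7
    have h10 : δ / (2 * A) * ((A * x : ℕ) : ℝ) = δ / 2 * x := by
      push_cast
      field_simp
    rw [h10] at h8
    linarith
  have hsmall : ∀ x : ℕ,
      ‖∑ t ∈ range x, w t * ∏ l, cj (c l) (F i ω (α l * t + β l + h0))‖ ≤ x := by
    intro x
    refine (norm_sum_le _ _).trans ?_
    calc ∑ t ∈ range x, ‖w t * ∏ l, cj (c l) (F i ω (α l * t + β l + h0))‖
        ≤ ∑ _t ∈ range x, (1 : ℝ) := by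
          refine sum_le_sum fun t _ => ?_
          rw [norm_mul, norm_prod]
          exact mul_le_one₀ (hw t) (prod_nonneg fun _ _ => norm_nonneg _)
            (prod_le_one (fun _ _ => norm_nonneg _) fun l _ => by rw [cj_norm]; exact hFb _)
      _ = x := by rw [sum_const, card_range, nsmul_eq_mul, mul_one]
  refine ⟨⌈(N₁ : ℝ) / δ⌉₊ + ⌈4 / δ⌉₊, fun N hN x hx => ?_⟩
  have hNr : (⌈(N₁ : ℝ) / δ⌉₊ : ℝ) + (⌈4 / δ⌉₊ : ℝ) ≤ N := by exact_mod_cast hN
  have hxr : (x : ℝ) ≤ N := by exact_mod_cast hx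
  have e1 : (N₁ : ℝ) / δ ≤ ⌈(N₁ : ℝ) / δ⌉₊ := Nat.le_ceil _
  have e2 : 4 / δ ≤ ⌈4 / δ⌉₊ := Nat.le_ceil _
  have e3 : (N₁ : ℝ) ≤ δ * N := by
    have : (N₁ : ℝ) / δ ≤ N := by
      have : (0 : ℝ) ≤ ⌈4 / δ⌉₊ := Nat.cast_nonneg _
      linarith
    rw [div_le_iff₀ hδ] at this
    linarith
  have e4 : 4 ≤ δ * N := by
    have : 4 / δ ≤ (N : ℝ) := by
      have : (0 : ℝ) ≤ ⌈(N₁ : ℝ) / δ⌉₊ := Nat.cast_nonneg _
      linarith
    rw [div_le_iff₀ hδ] at this
    linarith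
  rcases le_or_gt N₁ (A * x) with hc | hc
  · have h11 := hbig x hc
    have h12 : δ / 2 * x ≤ δ / 2 * N := mul_le_mul_of_nonneg_left hxr (by positivity)
    linarith
  · have h11 := hsmall x
    have h12 : x ≤ A * x := Nat.le_mul_of_pos_left x hA
    have h13 : (x : ℝ) ≤ N₁ := by exact_mod_cast (h12.trans hc.le)
    linarith

end Pool.H2.EL
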