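import Mathlib
import Pool.Agent.H2.EL.Ub1

/-!
Module UB2 (short): all configurations.

For every `r`, `α β : Fin r → ℕ`, `c` (countably many) apply `ub1` with the weight
`w' t = ∏ l, cj (c l) (w (α l * t + β l))` (`cj_norm`, norm `≤ 1`) (a configuration that is not valid: nothing to prove);
`ae_all_iff`. Given `H`, `δ`: the set of configurations with `r ≤ H`, `α l, β l ≤ H` is finite (index type as in UA2:
`Σ r : Fin (H + 1), (Fin r → Fin (H + 1)) × (Fin r → Fin (H + 1)) × (Fin r → Bool)`), `N₀` = sum of the `N₀` of the configurations.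
`cj b (z * z') = cj b z * cj b z'`, `Finset.prod_mul_distrib`.
-/

set_option autoImplicit false

open Finset MeasureTheory ProbabilityTheory Filter Topology

namespace Pool.H2.EL

open Pool.H2.Rand

variable {Ω : Type} [mΩ : MeasurableSpace Ω] {μ : Measure Ω} {ι : Type}

theorem ub2 [IsProbabilityMeasure μ] [Countable ι] {F : ι → Ω → ArithmeticFunction ℂ}
    (hF : RandMult μ F) (Pr : ι → Set ℕ) (hPr : ∀ i, Pool.H2.Sp.Thick (Pr i))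
    (hmean : ∀ i, ∀ p ∈ Pr i, p.Prime → ∫ ω, F i ω p ∂μ = 0) (i : ι) (h0 : ℕ)
    (w : ℕ → ℂ) (hw : ∀ n, ‖w n‖ ≤ 1) :
    ∀ᵐ ω ∂μ, ∀ (H : ℕ) (δ : ℝ), 0 < δ → ∃ N₀ : ℕ, ∀ N : ℕ, N₀ ≤ N →
      Unc (fun n => w n * F i ω (n + h0)) h0 H N δ := by
  classical
  have h1 : ∀ᵐ ω ∂μ, ∀ z : (Σ r : ℕ, (Fin r → ℕ) × (Fin r → ℕ) × (Fin r → Bool)),
      (1 ≤ z.1 ∧ (∀ l, 1 ≤ z.2.1 l) ∧
      (∀ l l', l ≠ l' → z.2.1 l * (z.2.2.1 l' + h0) ≠ z.2.1 l' * (z.2.2.1 l + h0))) →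
      ∀ δ : ℝ, 0 < δ → ∃ N₀ : ℕ, ∀ N : ℕ, N₀ ≤ N → ∀ x : ℕ, x ≤ N →
      ‖∑ t ∈ range x, (∏ l, cj (z.2.2.2 l) (w (z.2.1 l * t + z.2.2.1 l))) *
        ∏ l, cj (z.2.2.2 l) (F i ω (z.2.1 l * t + z.2.2.1 l + h0))‖ ≤ δ * N := by
    rw [ae_all_iff]
    rintro ⟨r, α, β, c⟩
    by_cases hv : 1 ≤ r ∧ (∀ l, 1 ≤ α l) ∧
      (∀ l l', l ≠ l' → α l * (β l' + h0) ≠ α l' * (β l + h0))
    · have h2 := ub1 hF Pr hPr hmean i hv.1 α β c h0 hv.2.1 hv.2.2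
        (fun t => ∏ l, cj (c l) (w (α l * t + β l))) (fun t => by
          rw [norm_prod]
          refine prod_le_one (fun _ _ => norm_nonneg _) fun l _ => ?_
          rw [cj_norm]
          exact hw _)
      filter_upwards [h2] with ω hω _
      exact hω
    · exact Eventually.of_forall fun ω h => absurd h hv
  filter_upwards [h1] with ω hω H δ hδ
  have h2 : ∀ z : (Σ r : Fin (H + 1), (Fin r → Fin (H + 1)) × (Fin r → Fin (H + 1)) × (Fin r → Bool)),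
      ∃ N₀ : ℕ, (1 ≤ (z.1 : ℕ) ∧ (∀ l, 1 ≤ (z.2.1 l : ℕ)) ∧
      (∀ l l', l ≠ l' → (z.2.1 l : ℕ) * ((z.2.2.1 l' : ℕ) + h0) ≠
        (z.2.1 l' : ℕ) * ((z.2.2.1 l : ℕ) + h0))) →
      ∀ N : ℕ, N₀ ≤ N → ∀ x : ℕ, x ≤ N →
      ‖∑ t ∈ range x, (∏ l, cj (z.2.2.2 l) (w ((z.2.1 l : ℕ) * t + (z.2.2.1 l : ℕ)))) *
        ∏ l, cj (z.2.2.2 l) (F i ω ((z.2.1 l : ℕ) * t + (z.2.2.1 l : ℕ) + h0))‖ ≤ δ * N := by
    rintro ⟨r, α, β, c⟩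
    by_cases hv : 1 ≤ (r : ℕ) ∧ (∀ l, 1 ≤ (α l : ℕ)) ∧
      (∀ l l', l ≠ l' → (α l : ℕ) * ((β l' : ℕ) + h0) ≠ (α l' : ℕ) * ((β l : ℕ) + h0))
    · obtain ⟨N₀, hN₀⟩ := hω ⟨(r : ℕ), fun l => (α l : ℕ), fun l => (β l : ℕ), c⟩ hv δ hδ
      exact ⟨N₀, fun _ => hN₀⟩
    · exact ⟨0, fun h => absurd h hv⟩
  choose N₀ hN₀ using h2
  refine ⟨∑ z, N₀ z, fun N hN r hr hrH α β c hα hβ hne x hx => ?_⟩
  obtain ⟨z, hz⟩ : ∃ z : (Σ r : Fin (H + 1), (Fin r → Fin (H + 1)) × (Fin r → Fin (H + 1)) ×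
      (Fin r → Bool)), z = ⟨⟨r, by omega⟩, fun l => ⟨α l, by have := (hα l).2; omega⟩,
      fun l => ⟨β l, by have := hβ l; omega⟩, c⟩ := ⟨_, rfl⟩
  have h3 : N₀ z ≤ N :=
    (single_le_sum (f := N₀) (fun _ _ => Nat.zero_le _) (mem_univ z)).trans hN
  subst hz
  have h4 := hN₀ _ ⟨hr, fun l => (hα l).1, hne⟩ N h3 x hx
  refine le_trans (le_of_eq ?_) h4
  congr 1
  refine sum_congr rfl fun t _ => ?_
  rw [← prod_mul_distrib]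
  refine prod_congr rfl fun l _ => ?_
  unfold cj
  split_ifs
  · rfl
  · rw [map_mul]

end Pool.H2.EL
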