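import Mathlib
import Pool.Agent.H2.EL.Ub2
import Pool.Agent.H2.EL.FinC

/-!
Module RESB: result B (assembly).

Countably many data `(m, h : Fin (m+1) → ℤ, j, i, τ : Fin (m+1) → Option ℕ, s : ℕ)`: for each apply `ub2` with `h0 = (h j + s).toNat` and
`w n = ∏ x ∈ univ.filter (fun x => x ≠ j ∧ (τ x).isSome), D ((τ x).getD 0) (n + (h x + s).toNat)` (norm `≤ 1`); `ae_all_iff`.
Given `k` (`k = m + 1` as `j : Fin k`), `j, i, h, τ`, `ε`: `fin_core` gives `H, δ, N0, s`; `ub2` (for this `s`) gives `N₀'`. For a tuple `G`: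
`A = univ.filter (fun x => x ≠ j ∧ τ x = none)`, `j ∉ A`; `univ \ A = {j} ∪ filter (x ≠ j ∧ isSome)`, so
`∏ x ∈ univ \ A, G x (n + (h x + s).toNat) = w n * F i ω (n + h0)`.
-/

set_option autoImplicit false

open Finset MeasureTheory ProbabilityTheory Filter Topology

namespace Pool.H2.EL

open Pool.H2.Rand

variable {Ω : Type} [mΩ : MeasurableSpace Ω] {μ : Measure Ω} {ι : Type}

theorem resB [IsProbabilityMeasure μ] [Countable ι] {F : ι → Ω → ArithmeticFunction ℂ}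
    (hF : RandMult μ F) (Pr : ι → Set ℕ) (hPr : ∀ i, Pool.H2.Sp.Thick (Pr i))
    (hmean : ∀ i, ∀ p ∈ Pr i, p.Prime → ∫ ω, F i ω p ∂μ = 0)
    (D : ℕ → ArithmeticFunction ℂ) (hD : ∀ l n, ‖D l n‖ ≤ 1) :
    ∀ᵐ ω ∂μ, ∀ (k : ℕ) (j : Fin k) (i : ι) (h : Fin k → ℤ) (τ : Fin k → Option ℕ),
      (∀ x, x ≠ j → h x ≠ h j) → ∀ ε : ℝ, 0 < ε → ∃ N₀ : ℕ, ∀ N : ℕ, N₀ ≤ N →
      ∀ G : Fin k → ArithmeticFunction ℂ, G j = F i ω →
      (∀ x, x ≠ j → (∃ l, τ x = some l ∧ G x = D l) ∨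
        (τ x = none ∧ (G x).IsMultiplicative ∧ ∀ n, ‖G x n‖ ≤ 1)) →
      ‖(1 / (N : ℂ)) * ∑ n ∈ Icc 1 N, ∏ x, G x ((n : ℤ) + h x).toNat‖ ≤ ε := by
  classical
  have h1 : ∀ᵐ ω ∂μ, ∀ z : (Σ m : ℕ, (Fin (m + 1) → ℤ) × Fin (m + 1) × ι ×
      (Fin (m + 1) → Option ℕ) × ℕ), ∀ (H : ℕ) (δ : ℝ), 0 < δ → ∃ N₀ : ℕ, ∀ N : ℕ, N₀ ≤ N →
      Unc (fun n => (∏ x ∈ univ.filter (fun x => x ≠ z.2.2.1 ∧ (z.2.2.2.2.1 x).isSome),
        D ((z.2.2.2.2.1 x).getD 0) (n + (z.2.1 x + z.2.2.2.2.2).toNat)) *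
        F z.2.2.2.1 ω (n + (z.2.1 z.2.2.1 + z.2.2.2.2.2).toNat))
        (z.2.1 z.2.2.1 + z.2.2.2.2.2).toNat H N δ := by
    rw [ae_all_iff]
    rintro ⟨m, h, j, i, τ, s⟩
    refine ub2 hF Pr hPr hmean i _ (fun n => ∏ x ∈ univ.filter (fun x => x ≠ j ∧ (τ x).isSome),
        D ((τ x).getD 0) (n + (h x + s).toNat)) (fun n => ?_)
    rw [norm_prod]
    exact prod_le_one (fun _ _ => norm_nonneg _) fun _ _ => hD _ _
  filter_upwards [h1] with ω hω k j i h τ hne ε hε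
  rcases k with _ | m
  · exact j.elim0
  obtain ⟨H, δ, N0, s, hδ, hs, hfin⟩ := fin_core m h j hne ε hε
  obtain ⟨N₀', hN₀'⟩ := hω ⟨m, h, j, i, τ, s⟩ H δ hδ
  refine ⟨max N0 N₀', fun N hN G hGj hG => ?_⟩
  have hb : ∀ x n, ‖G x n‖ ≤ 1 := by
    intro x n
    by_cases hx : x = j
    · rw [hx, hGj]; exact hF.bd i ω n
    · rcases hG x hx with ⟨l, _, hl⟩ | ⟨_, _, hb⟩
      · rw [hl]; exact hD l n
      · exact hb n
  refine hfin N ((le_max_left _ _).trans hN) G (univ.filter (fun x => x ≠ j ∧ τ x = none))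
    (by simp) hb ?_ ?_
  · intro x hx
    rw [mem_filter] at hx
    rcases hG x hx.2.1 with ⟨l, hl, _⟩ | ⟨_, hm, _⟩
    · rw [hx.2.2] at hl
      exact absurd hl (by simp)
    · exact hm
  · have h2 := hN₀' N ((le_max_right _ _).trans hN)
    have h3 : (fun n => ∏ x ∈ univ \ univ.filter (fun x => x ≠ j ∧ τ x = none),
        G x (n + (h x + s).toNat)) =
        fun n => (∏ x ∈ univ.filter (fun x => x ≠ j ∧ (τ x).isSome),
          D ((τ x).getD 0) (n + (h x + s).toNat)) * F i ω (n + (h j + s).toNat) := by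
      funext n
      have h4 : univ \ univ.filter (fun x => x ≠ j ∧ τ x = none) =
          insert j (univ.filter (fun x => x ≠ j ∧ (τ x).isSome)) := by
        ext x
        simp only [mem_sdiff, mem_univ, true_and, mem_filter, mem_insert, not_and]
        rcases eq_or_ne x j with hx | hx
        · simp [hx]
        · rcases hτ : τ x with _ | l <;> simp [hx, hτ]
      rw [h4, prod_insert (by simp), hGj, mul_comm]
      congr 1
      refine prod_congr rfl fun x hx => ?_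
      rw [mem_filter] at hx
      rcases hG x hx.2.1 with ⟨l, hl, hGl⟩ | ⟨hn, _, _⟩
      · rw [hGl, hl]
        rfl
      · rw [hn] at hx
        exact absurd hx.2.2 (by simp)
    rw [h3]
    exact h2

end Pool.H2.EL
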