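import Mathlib
import Pool.Agent.H4.El.Fin
import Pool.Agent.H2.EL.ResA
import Pool.Agent.H2.EL.ResB

/-!
MP_050d88_nt: functions on the positive integers with natural shifts.
-/

set_option autoImplicit false

open Finset Filter Topology MeasureTheory ProbabilityTheory

namespace Pool.H2.EL

open Pool.Agent.H4.El

/-- the conclusion of Q1 along all scales, uniformly -/
def AllSc (f₁ : ℕ → ℂ) : Prop :=
  ∀ (k : ℕ) (h : Fin (k + 1) → ℕ), (∀ i, i ≠ 0 → h i ≠ h 0) → ∀ ε : ℝ, 0 < ε →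
    ∃ x₀ : ℕ, ∀ x : ℕ, x₀ ≤ x → ∀ F : Fin (k + 1) → ℕ → ℂ, F 0 = f₁ → (∀ i, IsMult (F i)) →
      ‖avg F h x‖ ≤ ε

lemma allSc_of (f₁ : ℕ → ℂ)
    (hA : ∀ (k : ℕ) (h : Fin (k + 1) → ℤ), (∀ i, i ≠ 0 → h i ≠ h 0) → ∀ ε : ℝ, 0 < ε →
      ∃ N₀ : ℕ, ∀ N : ℕ, N₀ ≤ N → ∀ g : Fin (k + 1) → ArithmeticFunction ℂ, g 0 = toA f₁ →
        (∀ i, (g i).IsMultiplicative) → (∀ i n, ‖g i n‖ ≤ 1) →
        ‖(1 / (N : ℂ)) * ∑ n ∈ Icc 1 N, ∏ i, g i ((n : ℤ) + h i).toNat‖ ≤ ε) : AllSc f₁ := by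
  intro k h hne ε hε
  obtain ⟨N₀, hN₀⟩ := hA k (fun i => (h i : ℤ))
    (fun i hi h' => hne i hi (by exact_mod_cast h')) ε hε
  refine ⟨N₀, fun x hx F hF0 hF => ?_⟩
  have h1 := hN₀ x hx (fun i => toA (F i)) (by simp only [hF0]) (fun i => toA_mult (hF i))
    (fun i => toA_bdd (hF i))
  have h2 : avg F h x = (1 / (x : ℂ)) * ∑ n ∈ Icc 1 x, ∏ i, toA (F i) ((n : ℤ) + (h i : ℤ)).toNat := by
    unfold avg
    congr 1
    refine sum_congr rfl fun n hn => prod_congr rfl fun i _ => ?_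
    rw [mem_Icc] at hn
    have h3 : ((n : ℤ) + (h i : ℤ)).toNat = n + h i := by omega
    rw [h3, toA_pos _ (by omega)]
  rw [h2]
  exact h1

/-- slowly pretentious functions -/
theorem slow050 (f₁ : ℕ → ℂ) (hf : IsMult f₁) (q : ℕ) (χ : DirichletCharacter ℂ q) (t : ℝ)
    (hq : 0 < q)
    (hs : Tendsto (fun x : ℕ => Pool.Agent.H1.LP.distSq f₁ χ t x ((x : ℝ) ^ 2)) atTop (𝓝 0))
    (hn : Tendsto (fun x : ℕ => Pool.Agent.H1.LP.distSq f₁ χ t 0 x) atTop atTop) : AllSc f₁ := by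
  have hd : ∀ (y : ℝ) (x : ℝ), Pool.Agent.H1.LP.distSq (fun n => toA f₁ n) χ t y x =
      Pool.Agent.H1.LP.distSq f₁ χ t y x := by
    intro y x
    unfold Pool.Agent.H1.LP.distSq
    refine sum_congr rfl fun p hp => ?_
    rw [mem_filter] at hp
    simp only [toA_pos f₁ hp.2.pos]
  refine allSc_of f₁ ?_
  intro k h hne ε hε
  obtain ⟨δ, hδ, hA⟩ := resA' (k + 1) h hε
  have h1 := hA 0 hne (toA f₁) (toA_mult hf) (toA_bdd hf) q χ t hq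
    (by
      simp only [hd]
      exact hs.eventually (ge_mem_nhds hδ))
    (by simpa only [hd] using hn)
  rw [eventually_atTop] at h1
  obtain ⟨N₀, hN₀⟩ := h1
  exact ⟨N₀, fun N hN g hg hm hb => hN₀ N hN g hg hm hb⟩

/-- random functions -/
theorem rand050 {Ω : Type} [mΩ : MeasurableSpace Ω] (μ : Measure Ω) [IsProbabilityMeasure μ]
    (f : Ω → ArithmeticFunction ℂ)
    (hmul : ∀ ω, (f ω).IsMultiplicative) (hbd : ∀ ω n, ‖f ω n‖ ≤ 1)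
    (hmeas : ∀ n, Measurable (fun ω => f ω n))
    (hind : iIndepFun (fun (p : Nat.Primes) (ω : Ω) (m : ℕ) => f ω ((p : ℕ) ^ m)) μ)
    (P : Set ℕ) (hP : Pool.H2.Sp.Thick P) (hmean : ∀ p ∈ P, p.Prime → ∫ ω, f ω p ∂μ = 0) :
    ∀ᵐ ω ∂μ, AllSc (fun n => f ω n) := by
  have hF : Pool.H2.Rand.RandMult μ (fun (_ : Unit) => f) := by
    refine ⟨fun _ => hmul, fun _ => hbd, fun _ => hmeas, ?_⟩
    refine hind.comp (fun _ (y : ℕ → ℂ) (x : Unit × ℕ) => y x.2) (fun _ => ?_)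
    exact measurable_pi_lambda _ fun x => measurable_pi_apply _
  have h1 := resB hF (fun _ => P) (fun _ => hP) (fun _ => hmean) (fun _ => 0)
    (fun _ n => by simp)
  filter_upwards [h1] with ω hω
  refine allSc_of _ ?_
  intro k h hne ε hε
  obtain ⟨N₀, hN₀⟩ := hω (k + 1) 0 () h (fun _ => none) hne ε hε
  refine ⟨N₀, fun N hN g hg hm hb => hN₀ N hN g ?_ (fun x _ => Or.inr ⟨rfl, hm x, hb x⟩)⟩
  rw [hg, toA_coe]

end Pool.H2.EL
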