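import Mathlib
import Pool.Agent.H4.El.Fin
import Pool.Agent.H2.EL.E050
import Pool.Agent.H2.EL.Dsq

/-!
MP_050d88_nt: functions which are pretentious on long windows of primes.
-/

set_option autoImplicit false

open Finset Filter Topology

namespace Pool.H2.EL

open Pool.Agent.H4.El

/-- squared distance up to `x` -/
noncomputable def dS (g : ℕ → ℂ) {q : ℕ} (χ : DirichletCharacter ℂ q) (t : ℝ) (x : ℕ) : ℝ :=
  ∑ p ∈ Finset.filter Nat.Prime (Finset.Iic x),
    (1 - (g p * starRingEnd ℂ (χ (p : ZMod q) * (p : ℂ) ^ (Complex.I * (t : ℂ)))).re) / (p : ℝ)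

/-- pretentious on arbitrarily long windows, while the distance up to the beginning is large -/
def WinP (f : ℕ → ℂ) : Prop :=
  ∃ Q : ℕ, ∀ (K x₀ : ℕ) (M η : ℝ), 0 < η → ∃ x : ℕ, x₀ ≤ x ∧
    ∃ (q : ℕ) (χ : DirichletCharacter ℂ q) (t : ℝ), 0 < q ∧ q ≤ Q ∧ |t| ≤ x ∧
      dS f χ t (x ^ K) - dS f χ t x ≤ η ∧ M ≤ dS f χ t x

/-- upper logarithmic density -/
noncomputable def uld (X : Set ℕ) : ℝ :=
  Filter.limsup (fun x : ℕ => (∑ n ∈ Finset.Icc 1 x, X.indicator (fun n => 1 / (n : ℝ)) n)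
    / Real.log x) atTop

/-- Q1 along `X`, uniformly -/
def AllOn (X : Set ℕ) (f₁ : ℕ → ℂ) : Prop :=
  ∀ (k : ℕ) (h : Fin (k + 1) → ℕ), (∀ i, i ≠ 0 → h i ≠ h 0) → ∀ ε : ℝ, 0 < ε →
    ∃ x₀ : ℕ, ∀ x ∈ X, x₀ ≤ x → ∀ F : Fin (k + 1) → ℕ → ℂ, F 0 = f₁ → (∀ i, IsMult (F i)) →
      ‖avg F h x‖ ≤ ε

lemma harm_up (b : ℕ) : ∑ n ∈ Icc 1 b, 1 / (n : ℝ) ≤ 1 + Real.log b := by
  have h1 := harmonic_le_one_add_log b
  rw [harmonic_eq_sum_Icc] at h1
  push_cast at h1
  simpa only [one_div] using h1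

lemma harm_low1 (b : ℕ) : Real.log (b + 1 : ℕ) ≤ ∑ n ∈ Icc 1 b, 1 / (n : ℝ) := by
  have h1 := log_add_one_le_harmonic b
  rw [harmonic_eq_sum_Icc] at h1
  push_cast at h1 ⊢
  simpa only [one_div] using h1

/-- the harmonic sum over an interval -/
lemma harm_low (a b : ℕ) (ha : 1 ≤ a) (hab : a ≤ b) :
    Real.log b - Real.log a - 1 ≤ ∑ n ∈ Icc a b, 1 / (n : ℝ) := by
  have h1 := harm_low1 b
  have h2 := harm_up (a - 1)
  have h3 : ∑ n ∈ Icc 1 b, 1 / (n : ℝ) = ∑ n ∈ Icc 1 (a - 1), 1 / (n : ℝ) + ∑ n ∈ Icc a b, 1 / (n : ℝ) := by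
    rw [← sum_union]
    · congr 1
      ext n
      simp only [mem_union, mem_Icc]
      omega
    · rw [Finset.disjoint_left]
      intro n hn hn'
      simp only [mem_Icc] at hn hn'
      omega
  have h4 : Real.log b ≤ Real.log (b + 1 : ℕ) := by
    rcases Nat.eq_zero_or_pos b with h0 | h0
    · subst h0; simp
    · apply Real.log_le_log (by exact_mod_cast h0)
      exact_mod_cast Nat.le_succ b
  have h5 : Real.log (a - 1 : ℕ) ≤ Real.log a := by
    rcases Nat.eq_zero_or_pos (a - 1) with h0 | h0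
    · rw [h0]
      simp only [Nat.cast_zero, Real.log_zero]
      exact Real.log_nonneg (by exact_mod_cast ha)
    · apply Real.log_le_log (by exact_mod_cast h0)
      exact_mod_cast Nat.sub_le a 1
  linarith

/-- upper logarithmic density one from long windows -/
lemma uld_one (x K L : ℕ → ℕ) (hx : ∀ j, 2 ≤ x j) (hLK : ∀ j, L j ≤ K j)
    (hlim : Tendsto (fun j => (L j : ℝ) / K j) atTop (𝓝 0)) (hK : Tendsto K atTop atTop) :
    uld {n | ∃ j, x j ^ L j ≤ n ∧ n ≤ x j ^ K j} = 1 := by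
  classical
  set X : Set ℕ := {n | ∃ j, x j ^ L j ≤ n ∧ n ≤ x j ^ K j} with hX
  set u : ℕ → ℝ := fun y => (∑ n ∈ Finset.Icc 1 y, X.indicator (fun n => 1 / (n : ℝ)) n)
    / Real.log y with hu
  have hnn : ∀ n : ℕ, 0 ≤ X.indicator (fun n => 1 / (n : ℝ)) n := fun n =>
    Set.indicator_nonneg (fun n _ => by positivity) n
  have hu0 : ∀ y, 0 ≤ u y := fun y =>
    div_nonneg (sum_nonneg fun n _ => hnn n) (Real.log_natCast_nonneg y)
  have hup : ∀ y, u y ≤ (1 + Real.log y) / Real.log y := fun y => by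
    refine div_le_div_of_nonneg_right ?_ (Real.log_natCast_nonneg y)
    refine le_trans (sum_le_sum fun n _ => ?_) (harm_up y)
    exact Set.indicator_le_self' (fun _ _ => by positivity) n
  have hlog : Tendsto (fun y : ℕ => Real.log y) atTop atTop :=
    Real.tendsto_log_atTop.comp tendsto_natCast_atTop_atTop
  have hv : Tendsto (fun y : ℕ => (1 + Real.log y) / Real.log y) atTop (𝓝 1) := by
    have h1 : Tendsto (fun y : ℕ => (Real.log y)⁻¹ + 1) atTop (𝓝 (0 + 1)) :=
      (tendsto_inv_atTop_zero.comp hlog).add_const 1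
    rw [zero_add] at h1
    refine h1.congr' ?_
    filter_upwards [eventually_ge_atTop 2] with y hy
    have : 0 < Real.log y := Real.log_pos (by exact_mod_cast hy)
    field_simp
  have hb : IsBoundedUnder (· ≤ ·) atTop u :=
    hv.isBoundedUnder_le.mono_le (Eventually.of_forall hup)
  have hc : IsCoboundedUnder (· ≤ ·) atTop u :=
    IsBoundedUnder.isCoboundedUnder_le (isBoundedUnder_of ⟨0, hu0⟩)
  refine le_antisymm ?_ ?_
  · calc uld X = limsup u atTop := rfl
      _ ≤ limsup (fun y : ℕ => (1 + Real.log y) / Real.log y) atTop :=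
        limsup_le_limsup (Eventually.of_forall hup) hc hv.isBoundedUnder_le
      _ = 1 := hv.limsup_eq
  · refine le_of_forall_pos_le_add fun ε hε => ?_
    have hfr : ∃ᶠ y in atTop, 1 - ε ≤ u y := by
      rw [frequently_atTop]
      intro a
      have e1 : ∀ᶠ j in atTop, (L j : ℝ) / K j ≤ ε / 2 :=
        hlim.eventually (ge_mem_nhds (half_pos hε))
      have e2 : ∀ᶠ j in atTop, a ≤ K j := hK.eventually_ge_atTop a
      obtain ⟨b, hb2⟩ := exists_nat_ge (2 / (ε * Real.log 2))
      have e3 : ∀ᶠ j in atTop, b + 1 ≤ K j := hK.eventually_ge_atTop (b + 1)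
      obtain ⟨j, h1, h2, h3⟩ := (e1.and (e2.and e3)).exists
      refine ⟨x j ^ K j, h2.trans (Nat.lt_pow_self (by have := hx j; omega)).le, ?_⟩
      have hxr : (2 : ℝ) ≤ x j := by exact_mod_cast hx j
      have hl2 : 0 < Real.log 2 := Real.log_pos one_lt_two
      have hlx : Real.log 2 ≤ Real.log (x j) := Real.log_le_log two_pos hxr
      have hlx0 : 0 < Real.log (x j) := hl2.trans_le hlx
      have hKr : (0 : ℝ) < K j := by
        exact_mod_cast (show 0 < K j by omega)
      have hlogK : Real.log ((x j ^ K j : ℕ) : ℝ) = K j * Real.log (x j) := by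
        push_cast; rw [Real.log_pow]
      have hlogL : Real.log ((x j ^ L j : ℕ) : ℝ) = L j * Real.log (x j) := by
        push_cast; rw [Real.log_pow]
      have h4 : K j * Real.log (x j) - L j * Real.log (x j) - 1 ≤
          ∑ n ∈ Finset.Icc 1 (x j ^ K j), X.indicator (fun n => 1 / (n : ℝ)) n := by
        rw [← hlogK, ← hlogL]
        have hle : x j ^ L j ≤ x j ^ K j := Nat.pow_le_pow_right (by have := hx j; omega) (hLK j)
        have hpos : 1 ≤ x j ^ L j := Nat.one_le_pow _ _ (by have := hx j; omega)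
        refine (harm_low _ _ hpos hle).trans ?_
        calc ∑ n ∈ Icc (x j ^ L j) (x j ^ K j), 1 / (n : ℝ)
            = ∑ n ∈ Icc (x j ^ L j) (x j ^ K j), X.indicator (fun n => 1 / (n : ℝ)) n := by
              refine sum_congr rfl fun n hn => ?_
              rw [mem_Icc] at hn
              rw [Set.indicator_of_mem]
              exact ⟨j, hn.1, hn.2⟩
          _ ≤ _ := by
              refine sum_le_sum_of_subset_of_nonneg (Icc_subset_Icc_left hpos) fun n _ _ => hnn n
      have h5 : u (x j ^ K j) = (∑ n ∈ Finset.Icc 1 (x j ^ K j),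
          X.indicator (fun n => 1 / (n : ℝ)) n) / (K j * Real.log (x j)) := by
        rw [hu]
        simp only
        rw [hlogK]
      rw [h5, le_div_iff₀ (by positivity)]
      refine le_trans ?_ h4
      have h6 : (L j : ℝ) ≤ ε / 2 * K j := by
        rwa [div_le_iff₀ hKr] at h1
      have h7 : (1 : ℝ) ≤ ε / 2 * (K j * Real.log (x j)) := by
        have h8 : (b : ℝ) ≤ K j := by exact_mod_cast (show b ≤ K j by omega)
        have h9 : 2 / (ε * Real.log 2) ≤ K j := hb2.trans h8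
        rw [div_le_iff₀ (by positivity)] at h9
        have h10 : (K j : ℝ) * (ε * Real.log 2) ≤ K j * (ε * Real.log (x j)) := by
          gcongr
        nlinarith
      nlinarith
    have h1 : 1 - ε ≤ limsup u atTop := le_limsup_of_frequently_le hfr hb
    calc (1 : ℝ) = 1 - ε + ε := by ring
      _ ≤ limsup u atTop + ε := by gcongr
      _ = uld X + ε := rfl

/-- one term of the distance -/
noncomputable def trm (g : ℕ → ℂ) {q : ℕ} (χ : DirichletCharacter ℂ q) (t : ℝ) (p : ℕ) : ℝ :=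
  (1 - (g p * starRingEnd ℂ (χ (p : ZMod q) * (p : ℂ) ^ (Complex.I * (t : ℂ)))).re) / (p : ℝ)

lemma dS_sub (g : ℕ → ℂ) {q : ℕ} (χ : DirichletCharacter ℂ q) (t : ℝ) (x y : ℕ) (hxy : x ≤ y) :
    dS g χ t y - dS g χ t x = ∑ p ∈ (Ioc x y).filter Nat.Prime, trm g χ t p := by
  have hd : ∀ z, dS g χ t z = ∑ p ∈ (Iic z).filter Nat.Prime, trm g χ t p := fun _ => rfl
  rw [sub_eq_iff_eq_add, hd, hd, add_comm, ← sum_union]
  · refine sum_congr ?_ fun _ _ => rfl
    ext p
    simp only [mem_union, mem_filter, mem_Ioc, mem_Iic]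
    constructor
    · rintro ⟨h, hp⟩
      rcases le_or_gt p x with h' | h'
      · exact Or.inl ⟨h', hp⟩
      · exact Or.inr ⟨⟨h', h⟩, hp⟩
    · rintro (⟨h, hp⟩ | ⟨⟨_, h⟩, hp⟩)
      · exact ⟨h.trans hxy, hp⟩
      · exact ⟨h, hp⟩
  · rw [Finset.disjoint_left]
    intro p hp hp'
    simp only [mem_filter, mem_Ioc, mem_Iic] at hp hp'
    omega

theorem winP_all (f₁ : ℕ → ℂ) (hf : IsMult f₁) (hw : WinP f₁) :
    ∃ X : Set ℕ, uld X = 1 ∧ AllOn X f₁ := by
  classical
  obtain ⟨Q, hQ⟩ := hw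
  have hQ' := fun j : ℕ => hQ ((j + 1) ^ 2) (j + 2) (j + 1 : ℝ) (1 / (j + 1 : ℝ)) (by positivity)
  choose x hx q χ t hq hqQ ht hsm hbig using hQ'
  have hx2 : ∀ j, 2 ≤ x j := fun j => by have := hx j; omega
  have hfb : ∀ n, ‖toA f₁ n‖ ≤ 1 := toA_bdd hf
  -- terms for the extension by zero
  have htrm : ∀ (q : ℕ) (χ : DirichletCharacter ℂ q) (t : ℝ) (p : ℕ), p.Prime →
      trm f₁ χ t p = trm (fun n => toA f₁ n) χ t p := by
    intro q χ t p hp
    unfold trm
    simp only [toA_pos f₁ hp.pos]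
  have hnn : ∀ (q : ℕ) (χ : DirichletCharacter ℂ q) (t : ℝ) (p : ℕ), p.Prime →
      0 ≤ trm f₁ χ t p := by
    intro q χ t p hp
    rw [htrm q χ t p hp]
    exact (term_bd (fun n => toA f₁ n) hfb χ t p hp).1
  refine ⟨{n | ∃ j, x j ^ (j + 1) ≤ n ∧ n ≤ x j ^ (j + 1) ^ 2}, ?_, ?_⟩
  · refine uld_one x (fun j => (j + 1) ^ 2) (fun j => j + 1) hx2 (fun j => ?_) ?_ ?_
    · nlinarith
    · have h1 : Tendsto (fun j : ℕ => 1 / ((j : ℝ) + 1)) atTop (𝓝 0) :=
        tendsto_one_div_add_atTop_nhds_zero_nat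
      refine h1.congr fun j => ?_
      push_cast
      have : ((j : ℝ) + 1) ≠ 0 := by positivity
      field_simp
    · refine tendsto_atTop_mono (fun j => ?_) tendsto_id
      simp only [id]
      nlinarith
  · intro k h hne ε hε
    obtain ⟨α, hα, hA⟩ := resA (k + 1) (fun i => (h i : ℤ)) hε
    obtain ⟨D, X₀, hX⟩ := hA Q
    obtain ⟨J, hJ⟩ := exists_nat_ge (max (1 / α) D)
    refine ⟨max X₀ (1 + ∑ j ∈ range J, x j ^ (j + 1) ^ 2), ?_⟩
    rintro N ⟨j, hj1, hj2⟩ hN F hF0 hF
    have hJj : J ≤ j := by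
      by_contra hc
      push Not at hc
      have h1 : x j ^ (j + 1) ^ 2 ≤ ∑ j ∈ range J, x j ^ (j + 1) ^ 2 :=
        single_le_sum (f := fun j => x j ^ (j + 1) ^ 2) (fun _ _ => Nat.zero_le _)
          (mem_range.2 hc)
      have h2 := (le_max_right _ _).trans hN
      omega
    have hJr : max (1 / α) D ≤ (j : ℝ) + 1 := by
      have : (J : ℝ) ≤ j := by exact_mod_cast hJj
      linarith
    have hj1α : 1 / α ≤ (j : ℝ) + 1 := (le_max_left _ _).trans hJr
    have hjD : D ≤ (j : ℝ) + 1 := (le_max_right _ _).trans hJr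
    have hjα : 1 ≤ α * ((j : ℝ) + 1) := by
      rw [div_le_iff₀ hα] at hj1α
      linarith
    have hηα : 1 / ((j : ℝ) + 1) ≤ α := by
      rw [div_le_iff₀ (by positivity)]
      exact hjα
    have hxN : x j ≤ N := (Nat.le_self_pow (by omega) _).trans hj1
    have hxr : (1 : ℝ) ≤ x j := by exact_mod_cast (show 1 ≤ x j by have := hx2 j; omega)
    -- `x j ≤ N ^ α`
    have hxα : (x j : ℝ) ≤ (N : ℝ) ^ α := by
      have h1 : ((x j ^ (j + 1) : ℕ) : ℝ) ≤ N := by exact_mod_cast hj1
      calc (x j : ℝ) = (x j : ℝ) ^ (1 : ℝ) := (Real.rpow_one _).symm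
        _ ≤ (x j : ℝ) ^ (((j + 1 : ℕ) : ℝ) * α) := by
          apply Real.rpow_le_rpow_of_exponent_le hxr
          push_cast
          linarith
        _ = ((x j ^ (j + 1) : ℕ) : ℝ) ^ α := by
          rw [Real.rpow_mul (by positivity), Real.rpow_natCast]
          push_cast
          rfl
        _ ≤ (N : ℝ) ^ α := Real.rpow_le_rpow (by positivity) h1 hα.le
    have h1 := hX N ((le_max_left _ _).trans hN) (fun i => toA (F i)) (fun i => toA_mult (hF i))
      (fun i => toA_bdd (hF i)) 0 (fun i hi h' => hne i hi (by exact_mod_cast h')) (q j) (χ j) (t j)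
      (hq j) (hqQ j) ((ht j).trans (by exact_mod_cast hxN))
      (by
        simp only [hF0]
        refine le_trans ?_ ((hsm j).trans hηα)
        rw [dS_sub f₁ (χ j) (t j) _ _ (Nat.le_self_pow (by positivity) _)]
        unfold Pool.Agent.H1.LP.distSq
        rw [Nat.floor_natCast]
        calc ∑ p ∈ (Ioc ⌊(N : ℝ) ^ α⌋₊ N).filter Nat.Prime,
              (1 - (toA f₁ p * starRingEnd ℂ (χ j (p : ZMod (q j)) *
                (p : ℂ) ^ (Complex.I * (t j : ℂ)))).re) / (p : ℝ)
            = ∑ p ∈ (Ioc ⌊(N : ℝ) ^ α⌋₊ N).filter Nat.Prime, trm f₁ (χ j) (t j) p := by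
              refine sum_congr rfl fun p hp => ?_
              rw [mem_filter] at hp
              rw [htrm _ _ _ p hp.2]
              rfl
          _ ≤ _ := by
              refine sum_le_sum_of_subset_of_nonneg ?_ fun p hp _ => ?_
              · apply filter_subset_filter
                apply Ioc_subset_Ioc _ hj2
                exact Nat.le_floor hxα
              · rw [mem_filter] at hp
                exact hnn _ _ _ p hp.2)
      (by
        simp only [hF0]
        refine hjD.trans ((hbig j).trans ?_)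
        unfold Pool.Agent.H1.LP.distSq dS
        rw [Nat.floor_zero, Nat.floor_natCast]
        calc ∑ p ∈ (Iic (x j)).filter Nat.Prime,
              (1 - (f₁ p * starRingEnd ℂ (χ j (p : ZMod (q j)) *
                (p : ℂ) ^ (Complex.I * (t j : ℂ)))).re) / (p : ℝ)
            ≤ ∑ p ∈ (Ioc 0 N).filter Nat.Prime, trm f₁ (χ j) (t j) p := by
              refine sum_le_sum_of_subset_of_nonneg ?_ fun p hp _ => ?_
              · intro p hp
                rw [mem_filter, mem_Iic] at hp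
                rw [mem_filter, mem_Ioc]
                exact ⟨⟨hp.2.pos, hp.1.trans hxN⟩, hp.2⟩
              · rw [mem_filter] at hp
                exact hnn _ _ _ p hp.2
          _ = _ := by
              refine sum_congr rfl fun p hp => ?_
              rw [mem_filter] at hp
              rw [htrm _ _ _ p hp.2]
              rfl)
    have h2 : avg F h N = (1 / (N : ℂ)) * ∑ n ∈ Icc 1 N,
        ∏ i, toA (F i) ((n : ℤ) + (h i : ℤ)).toNat := by
      unfold avg
      congr 1
      refine sum_congr rfl fun n hn => prod_congr rfl fun i _ => ?_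
      rw [mem_Icc] at hn
      have h3 : ((n : ℤ) + (h i : ℤ)).toNat = n + h i := by omega
      rw [h3, toA_pos _ (by omega)]
    rw [h2]
    exact h1

end Pool.H2.EL
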