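import Mathlib
import Pool.Agent.H2.EL.CDef
import Pool.Agent.H2.EL.Def

/-!
Module UC: vanishing self-correlations give the hypothesis of the core theorem, with a congruence condition.

`FF A a b f m = f (a * (m / A) + b)` if `A ∣ m`, else `0`; `h0 = A / a * b` (`a ∣ A`, `a, A ≥ 1`).
Fix `H, δ`. A configuration: `1 ≤ r ≤ H`, `α l, β l ≤ H`, `1 ≤ α l`, `α l * (β l' + h0) ≠ α l' * (β l + h0)` for `l ≠ l'`, signs `c`, and a
residue `ρ < A`; there are finitely many. If `A ∣ α l * ρ + β l` for all `l`, put `β' l = (α l * ρ + β l) / A`; for `t = A s + ρ`: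
`α l * t + β l = A * (α l * s + β' l)`, so `FF (α l t + β l) = f (a * α l * s + (a * β' l + b))`, and the forms
`(a * α l, a * β' l + b)` are pairwise non-proportional: multiply by `A / a`: `A / a * (a * β' l + b) = A β' l + h0 = α l ρ + β l + h0`,
and `α l (α l' ρ + β l' + h0) = α l' (α l ρ + β l + h0)` iff `α l (β l' + h0) = α l' (β l + h0)`. So by `SelfCorr f` the
sum over `s ∈ Icc 1 S` is at most `(δ/2A) S` for `S ≥ S₀` (all the configurations at once; `cj b z = if b then z else conj z`), and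
at most `S₀` for `S < S₀`. If `A ∤ α l * ρ + β l` for some `l`, the product vanishes for all `t ≡ ρ` (`r ≥ 1` not needed).
The `t < x`, `t ≡ ρ (mod A)`, are `t = A s + ρ` with `s < S`, `S ≤ x` (`S = (x - ρ + A - 1) / A` for `ρ < x`), the term `s = 0` costs `1`.
Total over the `A` residues: `≤ A * (1 + S₀ + (δ/2A) x) ≤ A (1 + S₀) + (δ/2) x ≤ δ N` for `N ≥ N₀`.
-/

set_option autoImplicit false

open Finset

namespace Pool.H2.EL

/-- the function `m ↦ f (a * (m / A) + b)` on the multiples of `A` -/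
noncomputable def FF (A a b : ℕ) (f : ArithmeticFunction ℂ) (m : ℕ) : ℂ :=
  if A ∣ m then f (a * (m / A) + b) else 0

lemma FF_norm (A a b : ℕ) (f : ArithmeticFunction ℂ) (hb : ∀ n, ‖f n‖ ≤ 1) (m : ℕ) :
    ‖FF A a b f m‖ ≤ 1 := by
  unfold FF
  split_ifs
  · exact hb _
  · simp

private lemma uc_blocks (A : ℕ) (G : ℕ → ℂ) (T : ℕ) :
    ∑ t ∈ range (A * T), G t = ∑ ρ ∈ range A, ∑ s ∈ range T, G (A * s + ρ) := by
  induction T with
  | zero => simp
  | succ T ih =>
    rw [Nat.mul_succ, Finset.sum_range_add, ih, ← Finset.sum_add_distrib]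
    apply Finset.sum_congr rfl
    intro ρ _
    rw [Finset.sum_range_succ]

/-- the sum over one residue class `t ≡ ρ (mod A)` -/
lemma uc_step (A : ℕ) (hA : 1 ≤ A) (G : ℕ → ℂ) (hG : ∀ t, ‖G t‖ ≤ 1) (η : ℝ) (hη : 0 ≤ η) (S₀ : ℕ)
    (hS : ∀ ρ < A, ∀ S, S₀ ≤ S → ‖∑ s ∈ Icc 1 S, G (A * s + ρ)‖ ≤ η * S) (x : ℕ) :
    ‖∑ t ∈ range x, G t‖ ≤ A * (S₀ + 2 + η * x) := by
  obtain ⟨T, R, hT, hR⟩ : ∃ T R : ℕ, x = A * T + R ∧ R < A :=
    ⟨x / A, x % A, (Nat.div_add_mod x A).symm, Nat.mod_lt _ hA⟩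
  have hTx : T ≤ x := by
    rw [hT]; nlinarith
  have hTxR : (T : ℝ) ≤ x := by exact_mod_cast hTx
  rw [hT, Finset.sum_range_add, uc_blocks]
  have h1 : ∀ ρ ∈ range A, ‖∑ s ∈ range T, G (A * s + ρ)‖ ≤ S₀ + 1 + η * x := by
    intro ρ hρ
    rw [mem_range] at hρ
    rcases T with _ | T
    · simp only [Finset.range_zero, Finset.sum_empty, norm_zero]
      positivity
    · have h2 : ∑ s ∈ range (T + 1), G (A * s + ρ) = G ρ + ∑ s ∈ Icc 1 T, G (A * s + ρ) := by
        rw [Finset.sum_range_succ', add_comm]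
        congr 1
        · simp
        · rw [← Finset.Ico_succ_right_eq_Icc, Finset.sum_Ico_eq_sum_range]
          simp [add_comm]
      rw [h2]
      have h3 : ‖∑ s ∈ Icc 1 T, G (A * s + ρ)‖ ≤ S₀ + η * x := by
        by_cases hT0 : S₀ ≤ T
        · have h4 := hS ρ hρ T hT0
          have h5 : η * (T : ℝ) ≤ η * x := by
            apply mul_le_mul_of_nonneg_left _ hη
            push_cast at hTxR
            linarith
          have : (0:ℝ) ≤ S₀ := Nat.cast_nonneg _
          linarith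
        · have h4 : ‖∑ s ∈ Icc 1 T, G (A * s + ρ)‖ ≤ ∑ s ∈ Icc 1 T, (1:ℝ) :=
            norm_sum_le_of_le _ (fun s _ => hG _)
          rw [Finset.sum_const, Nat.card_Icc, Nat.add_sub_cancel, nsmul_eq_mul, mul_one] at h4
          have h5 : (T:ℝ) ≤ S₀ := by
            have : T ≤ S₀ := by omega
            exact_mod_cast this
          have h6 : 0 ≤ η * (x:ℝ) := by positivity
          linarith
      calc ‖G ρ + ∑ s ∈ Icc 1 T, G (A * s + ρ)‖ ≤ ‖G ρ‖ + ‖∑ s ∈ Icc 1 T, G (A * s + ρ)‖ :=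
            norm_add_le _ _
        _ ≤ 1 + (S₀ + η * x) := add_le_add (hG ρ) h3
        _ = S₀ + 1 + η * x := by ring
  have h7 : ‖∑ ρ ∈ range A, ∑ s ∈ range T, G (A * s + ρ)‖ ≤ A * (S₀ + 1 + η * x) := by
    have := norm_sum_le_of_le _ h1
    rwa [Finset.sum_const, card_range, nsmul_eq_mul] at this
  have h8 : ‖∑ t ∈ range R, G (A * T + t)‖ ≤ A := by
    have h9 : ‖∑ t ∈ range R, G (A * T + t)‖ ≤ ∑ t ∈ range R, (1:ℝ) :=
      norm_sum_le_of_le _ (fun s _ => hG _)
    rw [Finset.sum_const, card_range, nsmul_eq_mul, mul_one] at h9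
    have : (R:ℝ) ≤ A := by exact_mod_cast hR.le
    linarith
  rw [← hT]
  calc _ ≤ ‖∑ ρ ∈ range A, ∑ s ∈ range T, G (A * s + ρ)‖ + ‖∑ t ∈ range R, G (A * T + t)‖ :=
        norm_add_le _ _
    _ ≤ A * (S₀ + 1 + η * x) + A := add_le_add h7 h8
    _ = A * (S₀ + 2 + η * x) := by ring

private lemma uc_one (f : ArithmeticFunction ℂ) (hf : SelfCorr f) (A a b : ℕ)
    (hA : 1 ≤ A) (ha : 1 ≤ a) (hd : a ∣ A) (η : ℝ) (hη : 0 < η) (r : ℕ) (hr : 1 ≤ r)
    (α β : Fin r → ℕ) (c : Fin r → Bool) (hα : ∀ l, 1 ≤ α l)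
    (hne : ∀ l l', l ≠ l' → α l * (β l' + A / a * b) ≠ α l' * (β l + A / a * b)) (ρ : ℕ) :
    ∀ᶠ S : ℕ in Filter.atTop, ‖∑ s ∈ Icc 1 S, ∏ l, cj (c l) (FF A a b f (α l * (A * s + ρ) + β l))‖ ≤
      η * S := by
  by_cases hall : ∀ l, A ∣ α l * ρ + β l
  · choose β' hβ' using hall
    have hterm : ∀ l s, FF A a b f (α l * (A * s + ρ) + β l) =
        f ((a * α l) * s + (a * β' l + b)) := by
      intro l s
      have h1 : α l * (A * s + ρ) + β l = A * (α l * s + β' l) := by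
        calc α l * (A * s + ρ) + β l = A * (α l * s) + (α l * ρ + β l) := by ring
          _ = A * (α l * s) + A * β' l := by rw [hβ']
          _ = A * (α l * s + β' l) := by ring
      unfold FF
      rw [h1, if_pos (dvd_mul_right _ _), Nat.mul_div_cancel_left _ hA]
      congr 1
      ring
    have hS := hf r (fun l => a * α l) (fun l => a * β' l + b) c hr
      (fun i => Nat.mul_pos ha (hα i)) (by
        intro i j hij heq
        apply hne i j hij
        obtain ⟨e, rfl⟩ := hd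
        have he : a * e / a = e := Nat.mul_div_cancel_left _ ha
        rw [he]
        have h2 : α i * (a * β' j + b) = α j * (a * β' i + b) := by
          apply Nat.eq_of_mul_eq_mul_left (Nat.lt_of_lt_of_le Nat.zero_lt_one ha)
          calc a * (α i * (a * β' j + b)) = a * α i * (a * β' j + b) := by ring
            _ = a * α j * (a * β' i + b) := heq
            _ = _ := by ring
        have h3 : α i * (a * e * β' j + e * b) = α j * (a * e * β' i + e * b) := by
          calc α i * (a * e * β' j + e * b) = e * (α i * (a * β' j + b)) := by ring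
            _ = e * (α j * (a * β' i + b)) := by rw [h2]
            _ = _ := by ring
        rw [← hβ', ← hβ'] at h3
        have h4 : α i * α j * ρ + α i * (β j + e * b) = α i * α j * ρ + α j * (β i + e * b) := by
          calc α i * α j * ρ + α i * (β j + e * b) = α i * (α j * ρ + β j + e * b) := by ring
            _ = α j * (α i * ρ + β i + e * b) := h3
            _ = _ := by ring
        exact Nat.add_left_cancel h4)
    have hev := (tendsto_zero_iff_norm_tendsto_zero.1 hS).eventually (gt_mem_nhds hη)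
    filter_upwards [hev, Filter.eventually_ge_atTop 1] with S hS1 hS2
    have hS0 : (0:ℝ) < S := by exact_mod_cast hS2
    have heq : ∑ s ∈ Icc 1 S, ∏ l, cj (c l) (FF A a b f (α l * (A * s + ρ) + β l)) =
        ∑ n ∈ Icc 1 S, ∏ i, (if c i then f ((a * α i) * n + (a * β' i + b)) else
          (starRingEnd ℂ) (f ((a * α i) * n + (a * β' i + b)))) := by
      apply Finset.sum_congr rfl
      intro s _
      apply Finset.prod_congr rfl
      intro l _
      rw [hterm]
      rfl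
    rw [heq]
    rw [norm_mul] at hS1
    have h1S : ‖(1 / (S:ℂ))‖ = 1 / S := by
      rw [norm_div, norm_one, Complex.norm_natCast]
    rw [h1S, one_div, inv_mul_lt_iff₀ hS0] at hS1
    linarith [mul_comm η (S:ℝ)]
  · push Not at hall
    obtain ⟨l, hl⟩ := hall
    apply Filter.Eventually.of_forall
    intro S
    have h0 : ∑ s ∈ Icc 1 S, ∏ l, cj (c l) (FF A a b f (α l * (A * s + ρ) + β l)) = 0 := by
      apply Finset.sum_eq_zero
      intro s _
      apply Finset.prod_eq_zero (mem_univ l)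
      have h1 : ¬ A ∣ α l * (A * s + ρ) + β l := by
        intro h
        apply hl
        have h2 : α l * (A * s + ρ) + β l = A * (α l * s) + (α l * ρ + β l) := by ring
        rw [h2] at h
        exact (Nat.dvd_add_right (dvd_mul_right _ _)).1 h
      unfold FF cj
      rw [if_neg h1]
      simp
    rw [h0, norm_zero]
    positivity

theorem uc (f : ArithmeticFunction ℂ) (hb : ∀ n, ‖f n‖ ≤ 1) (hf : SelfCorr f) (A a b : ℕ)
    (hA : 1 ≤ A) (ha : 1 ≤ a) (hd : a ∣ A) (H : ℕ) (δ : ℝ) (hδ : 0 < δ) :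
    ∃ N₀ : ℕ, ∀ N : ℕ, N₀ ≤ N → Unc (FF A a b f) (A / a * b) H N δ := by
  have hA0 : (0:ℝ) < A := by exact_mod_cast hA
  obtain ⟨η, hη⟩ : ∃ η : ℝ, η = δ / (2 * A) := ⟨_, rfl⟩
  have hη0 : 0 < η := by rw [hη]; positivity
  have hev : ∀ᶠ S : ℕ in Filter.atTop, ∀ (r : Fin (H + 1)) (α β : Fin r → Fin (H + 1))
      (c : Fin r → Bool) (ρ : Fin A), 1 ≤ (r : ℕ) → (∀ l, 1 ≤ (α l : ℕ)) →
      (∀ l l', l ≠ l' → (α l : ℕ) * ((β l' : ℕ) + A / a * b) ≠
        (α l' : ℕ) * ((β l : ℕ) + A / a * b)) →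
      ‖∑ s ∈ Icc 1 S, ∏ l, cj (c l) (FF A a b f ((α l : ℕ) * (A * s + (ρ : ℕ)) + (β l : ℕ)))‖ ≤
        η * S := by
    refine Filter.eventually_all.2 fun r => Filter.eventually_all.2 fun α =>
      Filter.eventually_all.2 fun β => Filter.eventually_all.2 fun c =>
      Filter.eventually_all.2 fun ρ => ?_
    by_cases hc : 1 ≤ (r : ℕ) ∧ (∀ l, 1 ≤ (α l : ℕ)) ∧
      (∀ l l', l ≠ l' → (α l : ℕ) * ((β l' : ℕ) + A / a * b) ≠
        (α l' : ℕ) * ((β l : ℕ) + A / a * b))
    · filter_upwards [uc_one f hf A a b hA ha hd η hη0 r hc.1 (fun l => (α l : ℕ))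
        (fun l => (β l : ℕ)) c hc.2.1 hc.2.2 ρ] with S hS h1 h2 h3
      exact hS
    · apply Filter.Eventually.of_forall
      intro S h1 h2 h3
      exact absurd ⟨h1, h2, h3⟩ hc
  obtain ⟨S₀, hS₀⟩ := Filter.eventually_atTop.1 hev
  obtain ⟨N₀, hN₀⟩ := exists_nat_ge (2 * A * (S₀ + 2) / δ)
  refine ⟨N₀, fun N hN => ?_⟩
  intro r hr1 hrH α β c hα hβ hne x hx
  have hstep := uc_step A hA (fun t => ∏ l, cj (c l) (FF A a b f (α l * t + β l)))
    (fun t => by
      rw [norm_prod]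
      apply Finset.prod_le_one
      · intro l _
        exact norm_nonneg _
      · intro l _
        rw [cj_norm]
        exact FF_norm A a b f hb _) η hη0.le S₀ (fun ρ hρ S hS =>
      hS₀ S hS ⟨r, by omega⟩ (fun l => ⟨α l, by have := (hα l).2; omega⟩)
        (fun l => ⟨β l, by have := hβ l; omega⟩) c ⟨ρ, hρ⟩ hr1 (fun l => (hα l).1) hne) x
  refine hstep.trans ?_
  have hxN : (x:ℝ) ≤ N := by exact_mod_cast hx
  have hNN : (N₀:ℝ) ≤ N := by exact_mod_cast hN
  have h1 : 2 * A * (S₀ + 2) ≤ δ * N := by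
    have h2 : 2 * A * (S₀ + 2) / δ ≤ N := hN₀.trans hNN
    rw [div_le_iff₀ hδ] at h2
    linarith
  have h3 : (A:ℝ) * (η * x) = δ / 2 * x := by
    rw [hη]; field_simp
  have h4 : δ / 2 * (x:ℝ) ≤ δ / 2 * N := mul_le_mul_of_nonneg_left hxN (by positivity)
  calc (A:ℝ) * (S₀ + 2 + η * x) = A * (S₀ + 2) + A * (η * x) := by ring
    _ ≤ δ * N := by rw [h3]; linarith

end Pool.H2.EL
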