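import Mathlib
import Pool.Agent.H2.EL.Uc
import Pool.Agent.H2.EL.Lin
import Pool.Agent.H2.EL.Shf
import Pool.Agent.H2.EL.Main

/-!
Module AFF: the exact criterion.

`aff1`: `A = ∏ i, a i`, `h0 = A / a 0 * b 0`, `h i = A / a i.succ * b i.succ` (`≠ h0`: multiply `a i b 0 ≠ a 0 b i` by `A/(a i)*(A/a 0)`). `core` (with
`ε' = ε/(2A)`) gives `H, δ, N0`; `uc` gives `N₀'`. For `N` large apply `core` at `A * N` with `F = FF A (a 0) (b 0) f` and
`g' i = md (A / a i.succ) (g i)` (`md_mult`, `md_norm`): the terms `m < A N` with `A ∣ m`, `m = A n`, give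
`f (a 0 * n + b 0) * ∏ g i (a i.succ * n + b i.succ)` (`md_mul`: `A n + A / a i * b i = A / a i * (a i * n + b i)`), the other terms are `0`. So the
sum over `n < N` is at most `ε' A N = (ε/2) N`; `icc_range`: error `2 ≤ (ε/2) N`.
`aff2`: given `r, a, b, u` with `r = k + 1`: take `g i = cjA (u i.succ) f` if `u 0 = true`, and if `u 0 = false` the conjugate of the product is
of this form with `g i = cjA (!(u i.succ)) f` (`cjA_mult`, `cjA_norm`).
-/

set_option autoImplicit false

open Finset Filter Topology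

namespace Pool.H2.EL

theorem aff1 (f : ArithmeticFunction ℂ) (hb : ∀ n, ‖f n‖ ≤ 1) (hf : SelfCorr f) : AllCof f := by
  intro k a b ha hne ε hε
  obtain ⟨A, hAd⟩ : ∃ A : ℕ, A = ∏ i, a i := ⟨_, rfl⟩
  have hA : 1 ≤ A := by
    rw [hAd]
    exact Nat.one_le_iff_ne_zero.2 (Finset.prod_ne_zero_iff.2 fun i _ => (ha i).ne')
  have hdvd : ∀ i, a i ∣ A := fun i => by
    rw [hAd]
    exact dvd_prod_of_mem a (mem_univ i)
  have hdiv : ∀ i, a i * (A / a i) = A := fun i => Nat.mul_div_cancel' (hdvd i)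
  have hne' : ∀ i : Fin k, A / a i.succ * b i.succ ≠ A / a 0 * b 0 := by
    intro i h
    apply hne i.succ (Fin.succ_ne_zero i)
    have h1 : A * (a 0 * b i.succ) = A * (a i.succ * b 0) := by
      calc A * (a 0 * b i.succ) = a i.succ * a 0 * (A / a i.succ * b i.succ) := by
            conv_lhs => rw [← hdiv i.succ]
            ring
        _ = a i.succ * a 0 * (A / a 0 * b 0) := by rw [h]
        _ = a 0 * (A / a 0) * (a i.succ * b 0) := by ring
        _ = A * (a i.succ * b 0) := by rw [hdiv]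
    exact (Nat.eq_of_mul_eq_mul_left (by omega) h1).symm
  have hA0 : (0 : ℝ) < A := by exact_mod_cast hA
  obtain ⟨H, δ, N0, hδ, hcore⟩ := core k (A / a 0 * b 0) (fun i => A / a i.succ * b i.succ) hne'
    (ε / (2 * A)) (by positivity)
  obtain ⟨N0', huc⟩ := uc f hb hf A (a 0) (b 0) hA (ha 0) (hdvd 0) H δ hδ
  refine ⟨max N0 N0' + ⌈4 / ε⌉₊ + 1, fun N hN g hg hgb => ?_⟩
  have hN1 : 1 ≤ N := by omega
  have hNR : (0 : ℝ) < N := by exact_mod_cast hN1
  have hAN : N ≤ A * N := Nat.le_mul_of_pos_left N hA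
  obtain ⟨P, hP⟩ : ∃ P : ℕ → ℂ, P = fun t => f (a 0 * t + b 0) *
      ∏ i : Fin k, g i (a i.succ * t + b i.succ) := ⟨_, rfl⟩
  have hP1 : ∀ t, ‖P t‖ ≤ 1 := by
    intro t
    rw [hP]
    simp only
    rw [norm_mul, norm_prod]
    exact mul_le_one₀ (hb _) (prod_nonneg fun _ _ => norm_nonneg _)
      (prod_le_one (fun _ _ => norm_nonneg _) fun i _ => hgb i _)
  have hN01 : N0 ≤ N := by
    have := le_max_left N0 N0'
    omega
  have hN02 : N0' ≤ N := by
    have := le_max_right N0 N0'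
    omega
  have h1 := hcore (A * N) (hN01.trans hAN)
    (FF A (a 0) (b 0) f) (FF_norm A (a 0) (b 0) f hb)
    (huc (A * N) (hN02.trans hAN))
    (fun i => md (A / a i.succ) (g i)) (fun i => md_mult _ _) (fun i n => md_norm _ _ (hgb i) n)
  have h2 : ∑ n ∈ range (A * N), FF A (a 0) (b 0) f n *
      ∏ i : Fin k, md (A / a i.succ) (g i) (n + A / a i.succ * b i.succ) =
      ∑ t ∈ range N, P t := by
    have e1 : ∀ n ∈ range (A * N), FF A (a 0) (b 0) f n *
        ∏ i : Fin k, md (A / a i.succ) (g i) (n + A / a i.succ * b i.succ) =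
        if A ∣ n then f (a 0 * (n / A) + b 0) *
          ∏ i : Fin k, md (A / a i.succ) (g i) (n + A / a i.succ * b i.succ) else 0 := by
      intro n _
      unfold FF
      split_ifs
      · rfl
      · rw [zero_mul]
    rw [sum_congr rfl e1, sum_mult A hA N (fun n => f (a 0 * (n / A) + b 0) *
      ∏ i : Fin k, md (A / a i.succ) (g i) (n + A / a i.succ * b i.succ))]
    refine sum_congr rfl fun t _ => ?_
    rw [Nat.mul_div_cancel_left t hA, hP]
    simp only
    congr 1
    refine prod_congr rfl fun i _ => ?_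
    have e2 : A * t + A / a i.succ * b i.succ = A / a i.succ * (a i.succ * t + b i.succ) := by
      conv_lhs => rw [← hdiv i.succ]
      rw [Nat.mul_div_cancel_left _ (ha i.succ)]
      ring
    have hc : 1 ≤ A / a i.succ := by
      rcases Nat.eq_zero_or_pos (A / a i.succ) with h | h
      · have := hdiv i.succ
        rw [h, mul_zero] at this
        omega
      · exact h
    rw [e2, md_mul _ hc _ (hg i)]
  rw [h2] at h1
  have h3 := icc_range P hP1 N
  have h4 : ‖∑ n ∈ Icc 1 N, P n‖ ≤ ε * N / 2 + 2 := by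
    have e3 : ∑ n ∈ Icc 1 N, P n = (∑ n ∈ Icc 1 N, P n - ∑ n ∈ range N, P n) +
        ∑ n ∈ range N, P n := by ring
    rw [e3]
    refine (norm_add_le _ _).trans ?_
    have e4 : ε / (2 * A) * ((A * N : ℕ) : ℝ) = ε * N / 2 := by
      push_cast
      field_simp
    rw [e4] at h1
    linarith
  have h5 : (4 : ℝ) / ε ≤ N := by
    refine (Nat.le_ceil _).trans ?_
    exact_mod_cast (by omega : ⌈4 / ε⌉₊ ≤ N)
  rw [div_le_iff₀ hε] at h5
  have h6 : ‖(1 / (N : ℂ)) * ∑ n ∈ Icc 1 N, P n‖ ≤ ε := by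
    rw [norm_mul, norm_div, norm_one, Complex.norm_natCast, one_div, inv_mul_le_iff₀ hNR]
    linarith
  rw [hP] at h6
  exact h6

theorem aff2 (f : ArithmeticFunction ℂ) (hm : f.IsMultiplicative) (hb : ∀ n, ‖f n‖ ≤ 1)
    (hf : AllCof f) : SelfCorr f := by
  intro r a b u hr ha hne
  obtain ⟨k, rfl⟩ : ∃ k, r = k + 1 := ⟨r - 1, by omega⟩
  rw [Metric.tendsto_atTop]
  intro ε hε
  obtain ⟨N0, hN0⟩ := hf k a b ha (fun i hi => hne i 0 hi) (ε / 2) (half_pos hε)
  refine ⟨N0, fun N hN => ?_⟩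
  rw [dist_zero_right]
  refine lt_of_le_of_lt ?_ (half_lt_self hε)
  rcases Bool.eq_false_or_eq_true (u 0) with hu | hu
  · have h1 := hN0 N hN (fun i => cjA (u i.succ) f) (fun i => cjA_mult _ _ hm)
      (fun i n => cjA_norm _ _ hb n)
    have h2 : ∀ n : ℕ, (∏ i, (if u i then f (a i * n + b i) else
        (starRingEnd ℂ) (f (a i * n + b i)))) = f (a 0 * n + b 0) *
        ∏ i : Fin k, cjA (u i.succ) f (a i.succ * n + b i.succ) := by
      intro n
      rw [Fin.prod_univ_succ, hu, if_pos rfl]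
      rfl
    simp_rw [h2]
    exact h1
  · have h1 := hN0 N hN (fun i => cjA (!(u i.succ)) f) (fun i => cjA_mult _ _ hm)
      (fun i n => cjA_norm _ _ hb n)
    have h2 : ∀ n : ℕ, (∏ i, (if u i then f (a i * n + b i) else
        (starRingEnd ℂ) (f (a i * n + b i)))) = (starRingEnd ℂ) (f (a 0 * n + b 0) *
        ∏ i : Fin k, cjA (!(u i.succ)) f (a i.succ * n + b i.succ)) := by
      intro n
      rw [Fin.prod_univ_succ, hu, map_mul, map_prod]
      congr 1
      refine prod_congr rfl fun i _ => ?_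
      rw [cjA_apply]
      unfold cj
      cases u i.succ <;> simp
    simp_rw [h2]
    have h3 : (1 / (N : ℂ)) * ∑ n ∈ Icc 1 N, (starRingEnd ℂ) (f (a 0 * n + b 0) *
        ∏ i : Fin k, cjA (!(u i.succ)) f (a i.succ * n + b i.succ)) =
        (starRingEnd ℂ) ((1 / (N : ℂ)) * ∑ n ∈ Icc 1 N, f (a 0 * n + b 0) *
        ∏ i : Fin k, cjA (!(u i.succ)) f (a i.succ * n + b i.succ)) := by
      rw [map_mul, map_sum, map_div₀, map_one, map_natCast]
    rw [h3, RCLike.norm_conj]
    exact h1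

end Pool.H2.EL
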