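import Mathlib
import Pool.Agent.H2.EL.CDef
import Pool.Agent.H2.EL.Dsq

/-!
Module NMD (short): condition (N) is invariant under modifications and conjugation.

Given `q, χ, M`: use `CondN f` for the character `chb b χ` (`chb b (chb b χ) = χ`, `tb b (tb b t) = t`) and `M + 2 c`; with
`N = ⌊X⌋₊`: `distSq (fun n => f n) (chb b χ) (tb b t) 0 N ≤ distSq (fun n => md c (cjA b f) n) χ t 0 N + 2 c` (`dsq_lower` with
`X = X' = N` applied to `chb b χ`, `tb b t`); `distSq _ _ _ 0 N` is the sum over the primes in `Ioc 0 N`, which are those of `Iic ⌊X⌋₊`.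
-/

set_option autoImplicit false

open Finset

namespace Pool.H2.EL

theorem nmd (f : ArithmeticFunction ℂ) (hb : ∀ n, ‖f n‖ ≤ 1) (hf : CondN f) (c : ℕ) (hc : 1 ≤ c)
    (b : Bool) : CondN (md c (cjA b f)) := by
  intro q χ hq M
  obtain ⟨X₀, hX₀⟩ := hf q (chb b χ) hq (M + 2 * c)
  refine ⟨X₀, fun X hX t ht => ?_⟩
  have h1 := hX₀ X hX (tb b t) (by rwa [tb_abs])
  have h2 := dsq_lower f hb c hc b hq (chb b χ) (tb b t) ⌊X⌋₊ ⌊X⌋₊ le_rfl
  have h3 : chb b (chb b χ) = χ := by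
    unfold chb
    cases b <;> simp
  have h4 : tb b (tb b t) = t := by
    unfold tb
    cases b <;> simp
  rw [h3, h4] at h2
  unfold Pool.Agent.H1.LP.distSq at h2
  rw [Nat.floor_natCast, Nat.floor_zero] at h2
  have h5 : filter Nat.Prime (Ioc 0 ⌊X⌋₊) = filter Nat.Prime (Iic ⌊X⌋₊) := by
    ext p
    rw [mem_filter, mem_filter, mem_Ioc, mem_Iic]
    constructor
    · rintro ⟨⟨_, a2⟩, a3⟩
      exact ⟨a2, a3⟩
    · rintro ⟨a2, a3⟩
      exact ⟨⟨a3.pos, a2⟩, a3⟩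
  rw [h5] at h2
  linarith

end Pool.H2.EL
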