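import Mathlib
import Pool.Agent.H2.EL.CDef
import Pool.Agent.H2.EL.Nmd
import Pool.Agent.H2.EL.Lin
import Pool.Agent.H2.EL.Shf

/-!
Module QC: Elliott's conjecture implies vanishing self-correlations under condition (N).

Given `r ≥ 1`, `a, b, u`: `A = ∏ a i`, `h i = A / a i * b i` (pairwise different), `j = 1 + A * (1 + ∑ h i)` (`≡ 1 mod A`, `> h i`). For each
`χ` mod `A` apply `Elliott` to the tuple `Fin.cons (chA χ) (fun i => md (A / a i) (cjA (u i) f))` with the shifts
`Fin.cons j h` (injective): the entry `1` satisfies (N) by `nmd` (`chA_mult`, `chA_norm`, `md_mult`, `md_norm`, `cjA_norm`). So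
`(1/X) ∑_{n ∈ Icc 1 X} chA χ (n + j) ∏ ... → 0`; along `X = A x` with `icc_range`: `(1/x) ∑_{n ∈ range (A x)} → 0` for each of the finitely many `χ`;
`lin` gives `(1/x) ∑_{t ∈ range x} → 0`, and `icc_range` again.
-/

set_option autoImplicit false

open Finset Filter Topology

namespace Pool.H2.EL

private lemma qc_inj {r : ℕ} (a b : Fin r → ℕ)
    (hne : ∀ i j, i ≠ j → a i * b j ≠ a j * b i) (A : ℕ) (hA : 1 ≤ A) (hd : ∀ i, a i ∣ A)
    (i l : Fin r) (h : A / a i * b i = A / a l * b l) : i = l := by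
  by_contra hil
  apply hne i l hil
  have h1 := Nat.div_mul_cancel (hd i)
  have h2 := Nat.div_mul_cancel (hd l)
  have h3 : A * (a i * b l) = A * (a l * b i) := by
    calc A * (a i * b l) = (A / a l * a l) * (a i * b l) := by rw [h2]
      _ = (A / a l * b l) * (a l * a i) := by ring
      _ = (A / a i * b i) * (a l * a i) := by rw [h]
      _ = (A / a i * a i) * (a l * b i) := by ring
      _ = A * (a l * b i) := by rw [h1]
  exact Nat.eq_of_mul_eq_mul_left hA h3

theorem qc (hE : Elliott) (f : ArithmeticFunction ℂ) (hm : f.IsMultiplicative)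
    (hb : ∀ n, ‖f n‖ ≤ 1) (hf : CondN f) : SelfCorr f := by
  intro r a b u hr ha hne
  obtain ⟨A, hAdef⟩ : ∃ A : ℕ, A = ∏ i, a i := ⟨_, rfl⟩
  have hA : 1 ≤ A := by rw [hAdef]; exact Finset.prod_pos fun i _ => ha i
  haveI : NeZero A := ⟨by omega⟩
  have hd : ∀ i, a i ∣ A := fun i => by rw [hAdef]; exact Finset.dvd_prod_of_mem a (mem_univ i)
  obtain ⟨j, hjdef⟩ : ∃ j : ℕ, j = 1 + A * (1 + ∑ i, A / a i * b i) := ⟨_, rfl⟩
  have hj : 1 ≤ j := by rw [hjdef]; exact Nat.le_add_right _ _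
  have hjA : j ≡ 1 [MOD A] := by
    rw [hjdef]
    unfold Nat.ModEq
    rw [Nat.add_mul_mod_self_left]
  have hjh : ∀ i, A / a i * b i < j := by
    intro i
    have h1 : A / a i * b i ≤ ∑ i, A / a i * b i :=
      Finset.single_le_sum (f := fun i => A / a i * b i) (fun _ _ => Nat.zero_le _) (mem_univ i)
    have h2 : 1 * (1 + ∑ i, A / a i * b i) ≤ A * (1 + ∑ i, A / a i * b i) :=
      Nat.mul_le_mul_right _ hA
    omega
  -- the sums with a character
  obtain ⟨P, hP⟩ : ∃ P : DirichletCharacter ℂ A → ℕ → ℂ, P = fun χ n =>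
    chA χ (n + j) * ∏ l, md (A / a l) (cjA (u l) f) (n + A / a l * b l) := ⟨_, rfl⟩
  have hPn : ∀ χ n, ‖P χ n‖ ≤ 1 := by
    intro χ n
    rw [hP]
    simp only
    rw [norm_mul, norm_prod]
    exact mul_le_one₀ (chA_norm χ _) (prod_nonneg fun _ _ => norm_nonneg _)
      (prod_le_one (fun _ _ => norm_nonneg _) fun l _ => md_norm _ _ (cjA_norm _ _ hb) _)
  have hlim : ∀ χ : DirichletCharacter ℂ A,
      Tendsto (fun X : ℕ => (1 / (X : ℂ)) * ∑ n ∈ Icc 1 X, P χ n) atTop (𝓝 0) := by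
    intro χ
    have h1 := hE (r + 1) (Fin.cons (chA χ) (fun i => md (A / a i) (cjA (u i) f)))
      (fun i => by
        refine Fin.cases ?_ (fun l => ?_) i
        · exact chA_mult χ
        · exact md_mult _ _)
      (fun i n => by
        refine Fin.cases ?_ (fun l => ?_) i
        · exact chA_norm χ n
        · exact md_norm _ _ (cjA_norm _ _ hb) n)
      ⟨(⟨0, hr⟩ : Fin r).succ, by
        rw [Fin.cons_succ]
        exact nmd f hb hf _ (Nat.div_pos (Nat.le_of_dvd hA (hd _)) (ha _)) _⟩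
      (Fin.cons (j : ℤ) (fun i => ((A / a i * b i : ℕ) : ℤ)))
      (by
        rw [Fin.cons_injective_iff]
        refine ⟨?_, ?_⟩
        · rintro ⟨i, hi⟩
          have h2 := hjh i
          have h3 : ((A / a i * b i : ℕ) : ℤ) = (j : ℤ) := hi
          have h4 : A / a i * b i = j := by exact_mod_cast h3
          omega
        · intro i l hil
          have h3 : ((A / a i * b i : ℕ) : ℤ) = ((A / a l * b l : ℕ) : ℤ) := hil
          exact qc_inj a b hne A hA hd i l (by exact_mod_cast h3))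
    refine h1.congr fun X => ?_
    congr 1
    refine sum_congr rfl fun n _ => ?_
    rw [Fin.prod_univ_succ, hP]
    simp only [Fin.cons_zero, Fin.cons_succ]
    congr 1
  have hT : ∀ x : ℕ, (A.totient : ℂ) * ∑ t ∈ range x, ∏ l, cj (u l) (f (a l * t + b l)) =
      ∑ χ : DirichletCharacter ℂ A, ∑ n ∈ range (A * x), P χ n := by
    intro x
    rw [lin A j hA hj hjA a b ha hd u f hm x, hP]
  have hφ : (1 : ℝ) ≤ A.totient := by exact_mod_cast Nat.totient_pos.2 hA
  have hfn : ∀ t, ‖∏ l, cj (u l) (f (a l * t + b l))‖ ≤ 1 := by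
    intro t
    rw [norm_prod]
    exact prod_le_one (fun _ _ => norm_nonneg _) fun l _ => by rw [cj_norm]; exact hb _
  have hS : ∀ x : ℕ, ‖∑ t ∈ Icc 1 x, ∏ l, cj (u l) (f (a l * t + b l))‖ ≤
      2 + ∑ χ : DirichletCharacter ℂ A, (‖∑ n ∈ Icc 1 (A * x), P χ n‖ + 2) := by
    intro x
    have h1 := icc_range (fun t => ∏ l, cj (u l) (f (a l * t + b l))) hfn x
    have h2 : ‖∑ t ∈ range x, ∏ l, cj (u l) (f (a l * t + b l))‖ ≤
        ∑ χ : DirichletCharacter ℂ A, (‖∑ n ∈ Icc 1 (A * x), P χ n‖ + 2) := by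
      calc ‖∑ t ∈ range x, ∏ l, cj (u l) (f (a l * t + b l))‖
          ≤ A.totient * ‖∑ t ∈ range x, ∏ l, cj (u l) (f (a l * t + b l))‖ :=
            le_mul_of_one_le_left (norm_nonneg _) hφ
        _ = ‖(A.totient : ℂ) * ∑ t ∈ range x, ∏ l, cj (u l) (f (a l * t + b l))‖ := by
            rw [norm_mul, Complex.norm_natCast]
        _ = ‖∑ χ : DirichletCharacter ℂ A, ∑ n ∈ range (A * x), P χ n‖ := by rw [hT]
        _ ≤ ∑ χ : DirichletCharacter ℂ A, ‖∑ n ∈ range (A * x), P χ n‖ := norm_sum_le _ _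
        _ ≤ ∑ χ : DirichletCharacter ℂ A, (‖∑ n ∈ Icc 1 (A * x), P χ n‖ + 2) := by
            refine sum_le_sum fun χ _ => ?_
            have h3 := icc_range (P χ) (hPn χ) (A * x)
            have h4 := norm_sub_norm_le (∑ n ∈ range (A * x), P χ n) (∑ n ∈ Icc 1 (A * x), P χ n)
            rw [norm_sub_rev] at h3
            linarith
    have h5 := norm_sub_norm_le (∑ t ∈ Icc 1 x, ∏ l, cj (u l) (f (a l * t + b l)))
      (∑ t ∈ range x, ∏ l, cj (u l) (f (a l * t + b l)))
    linarith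
  have hgoal : Tendsto (fun N : ℕ => (1 / (N : ℂ)) * ∑ n ∈ Icc 1 N,
      ∏ l, cj (u l) (f (a l * n + b l))) atTop (𝓝 0) := by
    have hAx : Tendsto (fun x : ℕ => A * x) atTop atTop :=
      tendsto_id.const_mul_atTop' hA
    have h0 : Tendsto (fun x : ℕ => (2 : ℝ) / x) atTop (𝓝 0) :=
      tendsto_const_div_atTop_nhds_zero_nat 2
    have hbd : Tendsto (fun x : ℕ => (2 : ℝ) / x + ∑ χ : DirichletCharacter ℂ A,
        ((A : ℝ) * ‖(1 / ((A * x : ℕ) : ℂ)) * ∑ n ∈ Icc 1 (A * x), P χ n‖ + 2 / x))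
        atTop (𝓝 0) := by
      have h1 : Tendsto (fun x : ℕ => ∑ χ : DirichletCharacter ℂ A,
          ((A : ℝ) * ‖(1 / ((A * x : ℕ) : ℂ)) * ∑ n ∈ Icc 1 (A * x), P χ n‖ + 2 / x))
          atTop (𝓝 (∑ _χ : DirichletCharacter ℂ A, (0 : ℝ))) := by
        refine tendsto_finset_sum _ fun χ _ => ?_
        have h2 := (((hlim χ).comp hAx).norm.const_mul (A : ℝ)).add h0
        simpa using h2
      simpa using h0.add h1
    rw [tendsto_zero_iff_norm_tendsto_zero]
    refine squeeze_zero' (Eventually.of_forall fun _ => norm_nonneg _) ?_ hbd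
    filter_upwards [eventually_ge_atTop 1] with x hx
    have hx0 : (0 : ℝ) < x := by exact_mod_cast hx
    have hA0 : (0 : ℝ) < A := by exact_mod_cast hA
    have h1 : ‖(1 / (x : ℂ)) * ∑ n ∈ Icc 1 x, ∏ l, cj (u l) (f (a l * n + b l))‖ ≤
        (1 / x) * (2 + ∑ χ : DirichletCharacter ℂ A, (‖∑ n ∈ Icc 1 (A * x), P χ n‖ + 2)) := by
      rw [norm_mul, norm_div, norm_one, Complex.norm_natCast]
      exact mul_le_mul_of_nonneg_left (hS x) (by positivity)
    refine h1.trans (le_of_eq ?_)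
    rw [mul_add, mul_sum]
    congr 1
    · ring
    · refine sum_congr rfl fun χ _ => ?_
      rw [norm_mul, norm_div, norm_one, Complex.norm_natCast]
      push_cast
      field_simp
  refine hgoal.congr fun N => ?_
  rfl

end Pool.H2.EL
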