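import Mathlib
import Pool.Agent.H2.EL.Aff
import Pool.Agent.H2.EL.Qc

/-!
Module RESC (short): assembly of result C.

`cof_int`: from `AllCof f` (natural forms `n + (h i + s).toNat`, `s = ∑ |h i|`, the place `j` first: `Fin.prod_univ_succAbove`) to
integer shifts with the lemma `shift` (error `2 s + 2 ≤ (ε/2) N`).
`resC1`: `Elliott → SelfCorr` (`qc`) `→ AllCof` (`aff1`) `→ ElliottUniform` (`cof_int`) `→ Elliott` (`Metric.tendsto_nhds`, `ε/2`; `h` injective).
-/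

set_option autoImplicit false

open Finset Filter Topology

namespace Pool.H2.EL

theorem cof_int (f : ArithmeticFunction ℂ) (hb : ∀ n, ‖f n‖ ≤ 1) (hf : AllCof f) (k : ℕ) (j : Fin k)
    (h : Fin k → ℤ) (hne : ∀ i, i ≠ j → h i ≠ h j) (ε : ℝ) (hε : 0 < ε) :
    ∃ N₀ : ℕ, ∀ N : ℕ, N₀ ≤ N → ∀ g : Fin k → ArithmeticFunction ℂ, g j = f →
      (∀ i, i ≠ j → (g i).IsMultiplicative) → (∀ i n, ‖g i n‖ ≤ 1) →
      ‖(1 / (N : ℂ)) * ∑ n ∈ Finset.Icc 1 N, ∏ i, g i ((n : ℤ) + h i).toNat‖ ≤ ε := by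
  rcases k with _ | m
  · exact j.elim0
  obtain ⟨s, hsd⟩ : ∃ s : ℕ, s = ∑ i, (h i).natAbs := ⟨_, rfl⟩
  have hs0 : ∀ i, 0 ≤ h i + s := by
    intro i
    have h1 : (h i).natAbs ≤ ∑ i, (h i).natAbs :=
      single_le_sum (f := fun i => (h i).natAbs) (fun _ _ => Nat.zero_le _) (mem_univ i)
    omega
  obtain ⟨N₀, hN₀⟩ := hf m (fun _ => 1) (Fin.cons (h j + s).toNat
    (fun x => (h (j.succAbove x) + s).toNat)) (fun _ => one_pos) (by
      intro i
      refine Fin.cases ?_ (fun x => ?_) i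
      · intro h0
        exact absurd rfl h0
      · intro _
        rw [Fin.cons_zero, Fin.cons_succ]
        have h1 := hne (j.succAbove x) (Fin.succAbove_ne j x)
        have h2 := hs0 (j.succAbove x)
        have h3 := hs0 j
        omega) (ε / 2) (half_pos hε)
  refine ⟨max N₀ (max 1 (Nat.ceil ((4 * s + 8) / ε))), ?_⟩
  intro N hN g hgj hmul hgb
  have hN0 : N₀ ≤ N := (le_max_left _ _).trans hN
  have hN1 : 1 ≤ N := (le_max_left _ _).trans ((le_max_right _ _).trans hN)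
  have hN2 : (4 * s + 8) / ε ≤ N :=
    (Nat.le_ceil _).trans (by
      exact_mod_cast (le_max_right _ _).trans ((le_max_right _ _).trans hN))
  have hNp : (0 : ℝ) < N := by exact_mod_cast hN1
  have h1 := hN₀ N hN0 (fun x => g (j.succAbove x)) (fun x => hmul _ (Fin.succAbove_ne j x))
    (fun x n => hgb _ n)
  have h2 : ∀ n ∈ Icc 1 N, f (1 * n + (Fin.cons (h j + s).toNat
      (fun x => (h (j.succAbove x) + s).toNat) : Fin (m + 1) → ℕ) 0) *
      ∏ x : Fin m, g (j.succAbove x) (1 * n + (Fin.cons (h j + s).toNat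
      (fun x => (h (j.succAbove x) + s).toNat) : Fin (m + 1) → ℕ) x.succ) =
      ∏ i, g i (n + (h i + s).toNat) := by
    intro n _
    rw [Fin.prod_univ_succAbove _ j, hgj, Fin.cons_zero, one_mul]
    congr 1
  rw [sum_congr rfl h2, norm_mul, norm_div, norm_one, Complex.norm_natCast, one_div,
    inv_mul_le_iff₀ hNp] at h1
  have h3 := shift g hgb h s hs0 N
  have h4 := icc_range (fun n => ∏ i, g i (n + (h i + s).toNat)) (fun n => by
    rw [norm_prod]
    exact prod_le_one (fun _ _ => norm_nonneg _) fun i _ => hgb i _) N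
  have h5 : ‖∑ n ∈ Icc 1 N, ∏ i, g i ((n : ℤ) + h i).toNat‖ ≤ N * (ε / 2) + (2 * s + 4) := by
    have e1 : ∑ n ∈ Icc 1 N, ∏ i, g i ((n : ℤ) + h i).toNat =
        (∑ n ∈ Icc 1 N, ∏ i, g i ((n : ℤ) + h i).toNat -
          ∑ n ∈ range N, ∏ i, g i (n + (h i + s).toNat)) -
        (∑ n ∈ Icc 1 N, ∏ i, g i (n + (h i + s).toNat) -
          ∑ n ∈ range N, ∏ i, g i (n + (h i + s).toNat)) +
        ∑ n ∈ Icc 1 N, ∏ i, g i (n + (h i + s).toNat) := by ring
    rw [e1]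
    refine (norm_add_le _ _).trans ?_
    have e2 := norm_sub_le (∑ n ∈ Icc 1 N, ∏ i, g i ((n : ℤ) + h i).toNat -
          ∑ n ∈ range N, ∏ i, g i (n + (h i + s).toNat))
        (∑ n ∈ Icc 1 N, ∏ i, g i (n + (h i + s).toNat) -
          ∑ n ∈ range N, ∏ i, g i (n + (h i + s).toNat))
    linarith
  rw [norm_mul, norm_div, norm_one, Complex.norm_natCast, one_div, inv_mul_le_iff₀ hNp]
  rw [div_le_iff₀ hε] at hN2
  nlinarith

theorem resC1 : (Elliott ↔ ∀ f : ArithmeticFunction ℂ, f.IsMultiplicative → (∀ n, ‖f n‖ ≤ 1) →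
    CondN f → SelfCorr f) := by
  constructor
  · intro hE f hm hb hf
    exact qc hE f hm hb hf
  · intro hS k g hm hb ⟨j, hj⟩ h hinj
    rw [Metric.tendsto_atTop]
    intro ε hε
    obtain ⟨N₀, hN₀⟩ := cof_int (g j) (hb j) (aff1 (g j) (hb j) (hS (g j) (hm j) (hb j) hj)) k j h
      (fun i hi h0 => hi (hinj h0)) (ε / 2) (half_pos hε)
    refine ⟨N₀, fun N hN => ?_⟩
    rw [dist_zero_right]
    exact lt_of_le_of_lt (hN₀ N hN g rfl (fun i _ => hm i) hb) (half_lt_self hε)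

theorem resC2 : (Elliott ↔ ElliottUniform) := by
  constructor
  · intro hE k j h f hm hb hf hne ε hε
    obtain ⟨N₀, hN₀⟩ := cof_int f hb (aff1 f hb (qc hE f hm hb hf)) k j h hne ε hε
    exact ⟨N₀, fun N hN g hgj hgm hgb => hN₀ N hN g hgj (fun i _ => hgm i) hgb⟩
  · intro hU k g hm hb ⟨j, hj⟩ h hinj
    rw [Metric.tendsto_atTop]
    intro ε hε
    obtain ⟨N₀, hN₀⟩ := hU k j h (g j) (hm j) (hb j) hj (fun i hi h0 => hi (hinj h0)) (ε / 2)
      (half_pos hε)
    refine ⟨N₀, fun N hN => ?_⟩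
    rw [dist_zero_right]
    exact lt_of_le_of_lt (hN₀ N hN g rfl hm hb) (half_lt_self hε)

end Pool.H2.EL
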